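import Mathlib

/-!
Finitely generated subfields of a Galois extension.
-/

namespace Pool.Agent.Lib.MP_17a322_nt.AP

open Polynomial in
private theorem D1_lift {B R : Type} [Field B] [Field R] [Algebra ℚ B] [Algebra ℚ R] [Algebra R B]
    [IsScalarTower ℚ R B] [IsGalois R B] (T : Finset B) (M : Finset R) :
    ∃ (K : IntermediateField ℚ R) (P : K[X]), K.FG ∧ (∀ f ∈ M, f ∈ K) ∧ P ≠ 0 ∧
      (P.map (algebraMap K B)).Splits ∧ (∀ t ∈ T, aeval t P = 0) := by
  classical
  let Q : R[X] := ∏ t ∈ T, minpoly R t
  let K : IntermediateField ℚ R := IntermediateField.adjoin ℚ ((M ∪ Q.coeffs : Finset R) : Set R)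
  have hK : ∀ f ∈ M ∪ Q.coeffs, f ∈ K := fun f hf => IntermediateField.subset_adjoin ℚ _ hf
  have hl : Q ∈ lifts (algebraMap K R) := by
    rw [lifts_iff_coeff_lifts]
    intro n
    by_cases hn : Q.coeff n = 0
    · exact ⟨0, by rw [hn, map_zero]⟩
    · exact ⟨⟨Q.coeff n, hK _ (Finset.mem_union_right _ (coeff_mem_coeffs hn))⟩, rfl⟩
  obtain ⟨P, hP⟩ := (mem_lifts _).1 hl
  have hQ0 : Q ≠ 0 := Finset.prod_ne_zero_iff.2 fun t _ =>
    minpoly.ne_zero (Algebra.IsIntegral.isIntegral t)
  have hmap : P.map (algebraMap K B) = Q.map (algebraMap R B) := by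
    rw [← hP, Polynomial.map_map]
    rfl
  refine ⟨K, P, IntermediateField.fg_adjoin_finset _, fun f hf => hK f (Finset.mem_union_left _ hf),
    ?_, ?_, ?_⟩
  · intro h
    rw [h, Polynomial.map_zero] at hP
    exact hQ0 hP.symm
  · rw [hmap, Polynomial.map_prod]
    exact Splits.prod fun t _ => Normal.splits inferInstance t
  · intro t ht
    have h1 : aeval t P = eval t (P.map (algebraMap K B)) := by
      rw [aeval_def, eval_map]
    rw [h1, hmap, eval_map, ← aeval_def]
    have h2 : aeval t Q = ∏ t' ∈ T, aeval t (minpoly R t') := map_prod _ _ _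
    rw [h2]
    exact Finset.prod_eq_zero ht (minpoly.aeval R t)

/-- `B` is Galois over `R`, `F₁` is a finitely generated subfield of `B`, `Λ` is a finite set of elements of `R`.
There are finitely generated subfields `E < F < G` of `B`: `E < R` contains `Λ`, `F = E F₁`, `G / E` is finite and
Galois, and `E` is the intersection of `G` and `R`. -/
theorem exists_EFG {B R : Type} [Field B] [Field R] [Algebra ℚ B] [Algebra ℚ R] [Algebra R B]
    [IsScalarTower ℚ R B] [IsGalois R B] (F₁ : Type) [Field F₁] [Algebra ℚ F₁] [Algebra F₁ B]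
    [IsScalarTower ℚ F₁ B] (hF : (⊤ : IntermediateField ℚ F₁).FG) (Λ : Finset R)
    (hΛ : ∀ f ∈ Λ, ∃ f₁ : F₁, algebraMap F₁ B f₁ = algebraMap R B f) :
    ∃ (E F G : Type) (_ : Field E) (_ : Field F) (_ : Field G) (_ : Algebra ℚ E) (_ : Algebra ℚ F) (_ : Algebra ℚ G)
      (_ : Algebra E R) (_ : Algebra E F) (_ : Algebra E G) (_ : Algebra F G) (_ : Algebra E B) (_ : Algebra F B)
      (_ : Algebra G B) (_ : Algebra F₁ F) (_ : IsScalarTower ℚ E R) (_ : IsScalarTower E R B)
      (_ : IsScalarTower E F G) (_ : IsScalarTower E F B) (_ : IsScalarTower E G B) (_ : IsScalarTower F G B)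
      (_ : IsScalarTower F₁ F B) (_ : IsScalarTower ℚ F B) (_ : IsScalarTower ℚ G B) (_ : FiniteDimensional E G)
      (_ : IsGalois E G),
      (⊤ : IntermediateField ℚ E).FG ∧ (⊤ : IntermediateField ℚ F).FG ∧
      (∀ f ∈ Λ, ∃ e : E, algebraMap E R e = f) ∧
      (∀ y : G, (∃ x : R, algebraMap R B x = algebraMap G B y) → ∃ e : E, algebraMap E G e = y) ∧
      (algebraMap F B).fieldRange ≤ (algebraMap F₁ B).fieldRange ⊔ (algebraMap R B).fieldRange := by
  classical
  obtain ⟨S, hS⟩ := hF
  let T : Finset B := S.image (algebraMap F₁ B)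
  obtain ⟨K, P, hKF, hKM, hP0, hPs, hPT⟩ := D1_lift (R := R) T Λ
  let RB : IntermediateField K B := (IsScalarTower.toAlgHom K R B).fieldRange
  let G0 : IntermediateField K B := IntermediateField.adjoin K (P.rootSet B)
  have hG0s : P.IsSplittingField K G0 := IntermediateField.adjoin_rootSet_isSplittingField hPs
  have hG0f : FiniteDimensional K G0 := Polynomial.IsSplittingField.finiteDimensional G0 P
  let E : IntermediateField K B := G0 ⊓ RB
  have hE0 : E ≤ G0 := inf_le_left
  have hER : E ≤ RB := inf_le_right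
  have hEf : FiniteDimensional K E :=
    FiniteDimensional.of_injective (IntermediateField.inclusion hE0).toLinearMap
      (IntermediateField.inclusion_injective hE0)
  let P1 : Polynomial E := P.map (algebraMap K E)
  have hP1m : P1.map (algebraMap E B) = P.map (algebraMap K B) := by
    rw [Polynomial.map_map]
    rfl
  have hP1s : (P1.map (algebraMap E B)).Splits := by
    rw [hP1m]
    exact hPs
  let G : IntermediateField E B := IntermediateField.adjoin E (P1.rootSet B)
  have hGs : P1.IsSplittingField E G := IntermediateField.adjoin_rootSet_isSplittingField hP1s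
  have hGf : FiniteDimensional E G := Polynomial.IsSplittingField.finiteDimensional G P1
  have hGn : Normal E G := Normal.of_isSplittingField P1
  have hGg : IsGalois E G := { }
  let F : IntermediateField E B := IntermediateField.adjoin E (T : Set B)
  have hTG : (T : Set B) ⊆ (G : Set B) := by
    intro t ht
    apply IntermediateField.subset_adjoin E
    rw [Polynomial.mem_rootSet]
    refine ⟨(Polynomial.map_ne_zero_iff (algebraMap K E).injective).2 hP0, ?_⟩
    have h1 := hPT t ht
    rw [Polynomial.aeval_def, Polynomial.eval₂_eq_eval_map, hP1m, ← Polynomial.eval₂_eq_eval_map,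
      ← Polynomial.aeval_def, h1]
  have hFG : F ≤ G := IntermediateField.adjoin_le_iff.2 hTG
  let eR : R ≃ₐ[K] RB := AlgEquiv.ofInjectiveField (IsScalarTower.toAlgHom K R B)
  have heR : ∀ x : R, (eR x : B) = algebraMap R B x := fun x => rfl
  let φ : E →ₐ[K] R := (eR.symm : RB →ₐ[K] R).comp (IntermediateField.inclusion hER)
  have hφ : ∀ e : E, algebraMap R B (φ e) = e := by
    intro e
    rw [← heR]
    change ((eR (eR.symm (IntermediateField.inclusion hER e)) : RB) : B) = e
    rw [AlgEquiv.apply_symm_apply]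
    rfl
  let ψ : F →ₐ[E] G := IntermediateField.inclusion hFG
  have hF1 : ∀ x : F₁, algebraMap F₁ B x ∈ F := by
    intro x
    have hx : x ∈ IntermediateField.adjoin ℚ (S : Set F₁) := by
      rw [hS]
      exact IntermediateField.mem_top
    induction hx using IntermediateField.adjoin_induction with
    | mem x hx =>
      exact IntermediateField.subset_adjoin E _ (Finset.mem_coe.2 (Finset.mem_image_of_mem _ hx))
    | algebraMap q =>
      rw [eq_ratCast, map_ratCast]
      exact SubfieldClass.ratCast_mem F q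
    | add x y _ _ h1 h2 =>
      rw [map_add]
      exact add_mem h1 h2
    | inv x _ h1 =>
      rw [map_inv₀]
      exact inv_mem h1
    | mul x y _ _ h1 h2 =>
      rw [map_mul]
      exact mul_mem h1 h2
  let χ : F₁ →+* F := (algebraMap F₁ B).codRestrict F hF1
  have hEfg : (⊤ : IntermediateField ℚ E).FG := by
    rw [IntermediateField.fg_top_iff]
    have h0 : @Algebra.EssFiniteType ℚ K _ _ K.algebra' := IntermediateField.essFiniteType_iff.2 hKF
    have h1 : Algebra.EssFiniteType ℚ K := by
      rw [Subsingleton.elim (K.algebra' : Algebra ℚ K) DivisionRing.toRatAlgebra] at h0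
      exact h0
    exact Algebra.EssFiniteType.comp ℚ K E
  have hFfg : (⊤ : IntermediateField ℚ F).FG := by
    rw [IntermediateField.fg_top_iff] at hEfg ⊢
    have h1 : Algebra.EssFiniteType E F :=
      IntermediateField.essFiniteType_iff.2 (IntermediateField.fg_adjoin_finset T)
    exact Algebra.EssFiniteType.comp ℚ E F
  let iER : Algebra E R := φ.toRingHom.toAlgebra
  let iFG : Algebra F G := ψ.toRingHom.toAlgebra
  let iF1 : Algebra F₁ F := χ.toAlgebra
  refine ⟨E, F, G, inferInstance, inferInstance, inferInstance, inferInstance, inferInstance,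
    inferInstance, iER, inferInstance, inferInstance, iFG,
    inferInstance, inferInstance, inferInstance, iF1,
    IsScalarTower.of_algebraMap_eq' (Subsingleton.elim _ _),
    IsScalarTower.of_algebraMap_eq fun e => (hφ e).symm,
    IsScalarTower.of_algebraMap_eq fun e => rfl, inferInstance, inferInstance,
    IsScalarTower.of_algebraMap_eq fun e => rfl, IsScalarTower.of_algebraMap_eq fun e => rfl,
    inferInstance, inferInstance, hGf, hGg, hEfg, hFfg, ?_, ?_, ?_⟩
  · intro f hf
    refine ⟨algebraMap K E ⟨f, hKM f hf⟩, ?_⟩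
    exact φ.commutes ⟨f, hKM f hf⟩
  · rintro y ⟨x, hx⟩
    have h1 : (y : B) ∈ G0 := by
      have h2 : G ≤ IntermediateField.extendScalars hE0 := by
        refine IntermediateField.adjoin_le_iff.2 fun z hz => ?_
        refine IntermediateField.subset_adjoin K _ ?_
        rw [Polynomial.mem_rootSet] at hz ⊢
        refine ⟨hP0, ?_⟩
        have h3 := hz.2
        rw [Polynomial.aeval_def, Polynomial.eval₂_eq_eval_map, hP1m,
          ← Polynomial.eval₂_eq_eval_map, ← Polynomial.aeval_def] at h3
        exact h3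
      exact h2 y.2
    have h4 : (y : B) ∈ RB := ⟨x, hx⟩
    exact ⟨⟨y, h1, h4⟩, rfl⟩
  · rintro _ ⟨⟨y, hy⟩, rfl⟩
    change y ∈ _
    induction hy using IntermediateField.adjoin_induction with
    | mem x hx =>
      obtain ⟨s, _, rfl⟩ := Finset.mem_image.1 (Finset.mem_coe.1 hx)
      exact (le_sup_left : (algebraMap F₁ B).fieldRange ≤ _) ⟨s, rfl⟩
    | algebraMap e =>
      exact (le_sup_right : (algebraMap R B).fieldRange ≤ _) ⟨φ e, hφ e⟩
    | add x y _ _ h1 h2 => exact add_mem h1 h2
    | inv x _ h1 => exact inv_mem h1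
    | mul x y _ _ h1 h2 => exact mul_mem h1 h2

end Pool.Agent.Lib.MP_17a322_nt.AP
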