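import Pool.Agent.Lib.MP_17a322_nt.FQ.X8
import Pool.Agent.Lib.MP_17a322_nt.FQ.V2
import Pool.Agent.Lib.MP_17a322_nt.JAC.S1a

/-!
The descent of the degrees in ramified extensions.
-/

namespace Pool.Agent.Lib.MP_17a322_nt.AP

open Pool.Agent.Lib.MP_17a322_nt.FQ

section

variable {E F : Type} [Field E] [Field F] [Algebra ℚ E] [Algebra ℚ F] [Algebra E F]

private theorem D2_sum {z : ℕ} (r : Fin z → F) (D : Fin z → Derivation ℚ F F) (y : F) :
    (∑ j, r j • D j) y = ∑ j, r j * D j y := by
  classical
  have h1 : ∀ q : Finset (Fin z), (∑ j ∈ q, r j • D j) y = ∑ j ∈ q, r j * D j y := by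
    intro q
    induction q using Finset.induction_on with
    | empty => rw [Finset.sum_empty, Finset.sum_empty, Derivation.coe_zero, Pi.zero_apply]
    | insert a q ha ih =>
      rw [Finset.sum_insert ha, Finset.sum_insert ha, Derivation.add_apply, ih,
        Derivation.smul_apply, smul_eq_mul]
  exact h1 _

/-- Derivations extend to finite extensions. -/
theorem D2_ext [FiniteDimensional E F] (D : Derivation ℚ E E) :
    ∃ D' : Derivation ℚ F F, ∀ y, D' (algebraMap E F y) = algebraMap E F (D y) := by
  have hE : CharZero E := algebraRat.charZero E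
  have hsep : Algebra.FormallyEtale E F := Algebra.FormallyEtale.of_isSeparable E F
  obtain ⟨D', hD'⟩ := JAC.dext (S := F) ((Algebra.linearMap E F).compDer D)
  exact ⟨D', fun f => hD' f⟩

/-- Two derivations which agree on `E` are equal. -/
theorem D2_unique [FiniteDimensional E F] (D D' : Derivation ℚ F F)
    (h : ∀ y : E, D (algebraMap E F y) = D' (algebraMap E F y)) : D = D' := by
  have hE : CharZero E := algebraRat.charZero E
  let δ : Derivation E F F := Derivation.mk'
    { toFun := fun x => D x - D' x
      map_add' := fun a b => by rw [map_add, map_add]; ring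
      map_smul' := fun c z => by
        rw [Algebra.smul_def c z, Derivation.leibniz, Derivation.leibniz, h, RingHom.id_apply,
          Algebra.smul_def c (D z - D' z)]
        simp only [smul_eq_mul]
        ring }
    (fun a b => by
      show D (a * b) - D' (a * b) = a • (D b - D' b) + b • (D a - D' a)
      rw [Derivation.leibniz, Derivation.leibniz]
      simp only [smul_eq_mul]
      ring)
  have hδ : ∀ x, δ x = D x - D' x := fun _ => rfl
  ext x
  have h1 := δ.map_aeval (minpoly E x) x
  rw [minpoly.aeval, map_zero] at h1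
  have h2 : Polynomial.aeval x (Polynomial.derivative (minpoly E x)) ≠ 0 :=
    (Algebra.IsSeparable.isSeparable E x).aeval_derivative_ne_zero (minpoly.aeval E x)
  have h3 : δ x = 0 := by
    rcases mul_eq_zero.1 h1.symm with h4 | h4
    · exact absurd h4 h2
    · exact h4
  rw [hδ] at h3
  exact sub_eq_zero.1 h3

/-- Every derivation is a combination of the extensions of a generating system. -/
theorem D2_span [FiniteDimensional E F] {z : ℕ} (D₀ : Fin z → Derivation ℚ E E)
    (hD₀ : ⊤ ≤ Submodule.span E (Set.range D₀)) (D' : Fin z → Derivation ℚ F F)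
    (hD' : ∀ j y, D' j (algebraMap E F y) = algebraMap E F (D₀ j y)) (D'' : Derivation ℚ F F) :
    ∃ c : Fin z → F, D'' = ∑ j, c j • D' j := by
  let b := Module.finBasis E F
  have hDi : ∀ i, ∃ G : Derivation ℚ E E, ∀ y, G y = b.repr (D'' (algebraMap E F y)) i := by
    intro i
    let G₀ : E →+ E :=
      { toFun := fun y => b.repr (D'' (algebraMap E F y)) i
        map_zero' := by simp
        map_add' := fun x y => by simp }
    refine ⟨Derivation.mk' G₀.toRatLinearMap fun x y => ?_, fun y => rfl⟩
    show b.repr (D'' (algebraMap E F (x * y))) i =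
      x • b.repr (D'' (algebraMap E F y)) i + y • b.repr (D'' (algebraMap E F x)) i
    have h1 : D'' (algebraMap E F (x * y)) =
        x • D'' (algebraMap E F y) + y • D'' (algebraMap E F x) := by
      rw [map_mul, Derivation.leibniz, smul_eq_mul, smul_eq_mul, Algebra.smul_def, Algebra.smul_def]
    rw [h1, map_add, map_smul, map_smul]
    rfl
  choose G hG using hDi
  have hspan : ∀ i, ∃ a : Fin z → E, ∑ j, a j • D₀ j = G i := by
    intro i
    exact (Submodule.mem_span_range_iff_exists_fun E).1 (hD₀ (Submodule.mem_top (x := G i)))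
  choose a ha using hspan
  refine ⟨fun j => ∑ i, algebraMap E F (a i j) * b i, ?_⟩
  refine D2_unique (E := E) _ _ fun y => ?_
  have h1 : D'' (algebraMap E F y) = ∑ i, algebraMap E F (G i y) * b i := by
    conv_lhs => rw [← b.sum_repr (D'' (algebraMap E F y))]
    refine Finset.sum_congr rfl fun i _ => ?_
    rw [Algebra.smul_def, hG]
  have h2 : ∀ i, G i y = ∑ j, a i j * D₀ j y := by
    intro i
    rw [← ha i, D2_sum]
  have h3 : (∑ j, (∑ i, algebraMap E F (a i j) * b i) • D' j) (algebraMap E F y) =
      ∑ j, (∑ i, algebraMap E F (a i j) * b i) * algebraMap E F (D₀ j y) := by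
    rw [D2_sum]
    refine Finset.sum_congr rfl fun j _ => ?_
    rw [hD']
  rw [h3, h1]
  simp only [h2, map_sum, map_mul, Finset.sum_mul]
  rw [Finset.sum_comm]
  refine Finset.sum_congr rfl fun j _ => Finset.sum_congr rfl fun i _ => ?_
  ring

omit [Algebra ℚ F] [Algebra E F] [Field F] in
/-- The vectors of the values of the functionals of a model are linearly independent. -/
theorem D2_li {κ : Type} (m : κ → E) (hm : IsMd ℚ m) {z : ℕ} (D : Fin z → Derivation ℚ E E)
    (hD : LinearIndependent E D) : LinearIndependent E fun j (p : κ × κ) => ps m p (D j) := by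
  have h1 : LinearMap.ker (LinearMap.pi fun p : κ × κ => ps (k := ℚ) m p) = ⊥ := by
    rw [LinearMap.ker_eq_bot']
    intro v hv
    refine hm.2 v fun p => ?_
    exact congrFun hv p
  exact hD.map' _ h1

theorem D2_ps {κ : Type} [Fintype κ] (m : κ → E) {z : ℕ} (D : Fin z → Derivation ℚ E E)
    (D' : Fin z → Derivation ℚ F F) (hD' : ∀ j y, D' j (algebraMap E F y) = algebraMap E F (D j y)) :
    (fun j (p : κ × κ) => algebraMap E F (ps m p (D j))) =
      fun j (p : κ × κ) => ps (fun a => algebraMap E F (m a)) p (D' j) := by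
  funext j p
  exact (ps_ext m (D j) (D' j) (hD' j) p).symm

/-- The extensions of linearly independent derivations are linearly independent. -/
theorem D2_li' {κ : Type} [Fintype κ] (m : κ → E) (hm : IsMd ℚ m) {z : ℕ} (D : Fin z → Derivation ℚ E E)
    (hD : LinearIndependent E D) (D' : Fin z → Derivation ℚ F F)
    (hD' : ∀ j y, D' j (algebraMap E F y) = algebraMap E F (D j y)) : LinearIndependent F D' := by
  have h1 := li_algebraMap (F := F) (D2_li m hm D hD)
  rw [D2_ps m D D' hD'] at h1
  have h2 : LinearIndependent F ((LinearMap.pi fun p : κ × κ => ps (k := ℚ) (fun a => algebraMap E F (m a)) p) ∘ D') := h1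
  exact h2.of_comp _

theorem D2_md [FiniteDimensional E F] {κ : Type} [Fintype κ] (m : κ → E) (hm : IsMd ℚ m) {z : ℕ}
    (D : Fin z → Derivation ℚ E E) (hD : LinearIndependent E D)
    (hDs : ⊤ ≤ Submodule.span E (Set.range D)) (D' : Fin z → Derivation ℚ F F)
    (hD' : ∀ j y, D' j (algebraMap E F y) = algebraMap E F (D j y)) :
    IsMd ℚ fun a => algebraMap E F (m a) := by
  have h1 := li_algebraMap (F := F) (D2_li m hm _ hD)
  rw [D2_ps m _ D' hD'] at h1
  refine ⟨fun h0 => hm.1 ?_, fun v hv => ?_⟩
  · funext a
    exact (map_eq_zero (algebraMap E F)).1 (congrFun h0 a)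
  · obtain ⟨c, rfl⟩ := D2_span _ hDs D' hD' v
    have h2 : c = 0 := by
      funext j
      refine Fintype.linearIndependent_iff.1 h1 c ?_ j
      funext p
      have h3 := hv p
      rw [map_sum] at h3
      rw [Finset.sum_apply]
      refine Eq.trans (Finset.sum_congr rfl fun i _ => ?_) h3
      rw [map_smul, Pi.smul_apply]
    rw [h2]
    refine Finset.sum_eq_zero fun j _ => ?_
    rw [Pi.zero_apply, zero_smul]

/-- Models of `E` are models of the finite extension `F`. -/
theorem md_ext [FiniteDimensional E F] {κ : Type} [Fintype κ] (m : κ → E) (hm : IsMd ℚ m)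
    (hE : (⊤ : IntermediateField ℚ E).FG) : IsMd ℚ fun a => algebraMap E F (m a) := by
  obtain ⟨n, g, -, hg⟩ := exists_gen hE
  have hfd : FiniteDimensional E (Derivation ℚ E E) := gen_findim g hg
  have hDl := (Module.finBasis E (Derivation ℚ E E)).linearIndependent
  have hDs : ⊤ ≤ Submodule.span E (Set.range (Module.finBasis E (Derivation ℚ E E))) :=
    (Module.finBasis E (Derivation ℚ E E)).span_eq.ge
  choose D' hD' using fun j => D2_ext (F := F) (Module.finBasis E (Derivation ℚ E E) j)
  exact D2_md m hm _ hDl hDs D' hD'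

/-- A finer model remains finer. -/
theorem fi_ext' [FiniteDimensional E F] {κ κ' : Type} [Fintype κ] [Fintype κ'] (m : κ → E) (m' : κ' → E)
    (hm : IsMd ℚ m) (hm' : IsMd ℚ m') (h : Fi ℚ m m') (hE : (⊤ : IntermediateField ℚ E).FG) :
    Fi ℚ (fun a => algebraMap E F (m a)) (fun a => algebraMap E F (m' a)) := by
  obtain ⟨n, g, -, hg⟩ := exists_gen hE
  have hfd : FiniteDimensional E (Derivation ℚ E E) := gen_findim g hg
  have hDl := (Module.finBasis E (Derivation ℚ E E)).linearIndependent
  have hDs : ⊤ ≤ Submodule.span E (Set.range (Module.finBasis E (Derivation ℚ E E))) :=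
    (Module.finBasis E (Derivation ℚ E E)).span_eq.ge
  choose D' hD' using fun j => D2_ext (F := F) (Module.finBasis E (Derivation ℚ E E) j)
  intro A v
  obtain ⟨c, rfl⟩ := D2_span _ hDs D' hD' v
  exact fi_ext _ hDl D' hD' m m' hm hm' h A c

end

section

variable {E F G : Type} [Field E] [Field F] [Field G] [Algebra ℚ E] [Algebra ℚ F] [Algebra ℚ G]
  [Algebra E F] [Algebra E G] [Algebra F G] [IsScalarTower E F G] [FiniteDimensional E G] [IsGalois E G]

/-- The descent of the bound for the degrees. -/
theorem dg_descent [FiniteDimensional E (Derivation ℚ E E)] [FiniteDimensional F (Derivation ℚ F F)]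
    (H : Ht ℚ E) (HF : Ht ℚ F) (HG : Ht ℚ G)
    (h1 : ∀ {κ : Type} [Fintype κ] (S : κ → E), S ≠ 0 → HF.lam (fun a => algebraMap E F (S a)) = H.lam S)
    (h2 : ∀ {κ : Type} [Fintype κ] (S : κ → F), S ≠ 0 → HG.lam (fun a => algebraMap F G (S a)) = HF.lam S)
    (hs : ∀ {κ : Type} [Fintype κ] (σ : G ≃ₐ[E] G) (S : κ → G), S ≠ 0 → HG.lam (fun a => σ (S a)) = HG.lam S)
    {κ : Type} [Fintype κ] (m : κ → E) (hm : IsMd ℚ m) (η : ℝ) (hL : ∀ L, dg H m L ≤ dg H m ⊤ + η)
    (L : Submodule F (Derivation ℚ F F)) :
    dg HF (fun a => algebraMap E F (m a)) L ≤ dg HF (fun a => algebraMap E F (m a)) ⊤ + η := by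
  classical
  have hEF : FiniteDimensional E F := FiniteDimensional.left E F G
  have hGc : CharZero G := algebraRat.charZero G
  -- derivations
  have hDl := (Module.finBasis E (Derivation ℚ E E)).linearIndependent
  have hDs : ⊤ ≤ Submodule.span E (Set.range (Module.finBasis E (Derivation ℚ E E))) :=
    (Module.finBasis E (Derivation ℚ E E)).span_eq.ge
  set z := Module.finrank E (Derivation ℚ E E) with hz
  set D : Fin z → Derivation ℚ E E := fun j => Module.finBasis E (Derivation ℚ E E) j with hD
  choose D' hD' using fun j => D2_ext (F := F) (D j)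
  have hD'l : LinearIndependent F D' := D2_li' m hm D hDl D' hD'
  have hmF := D2_md m hm D hDl hDs D' hD'
  have hD's : ∀ v : Derivation ℚ F F, ∃ c : Fin z → F, v = ∑ j, c j • D' j := D2_span D hDs D' hD'
  -- the vectors
  set P : Fin z → κ × κ → E := fun j p => ps m p (D j) with hP0
  have hP : LinearIndependent E P := D2_li m hm D hDl
  have hPF : LinearIndependent F fun j p => algebraMap E F (P j p) := li_algebraMap hP
  have hPF' := D2_ps m D D' hD'
  -- the bound over `E`
  have hQ : ∀ L : Submodule E (Fin z → E),
      Module.finrank E L * (2 * H.lam m) - pH H P L ≤ z * (2 * H.lam m) - H.lam (plk P) + η := by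
    intro L
    have h3 := dg_pH H m hm D hDl L
    have h4 := dg_pH H m hm D hDl ⊤
    have h5 : (⊤ : Submodule E (Fin z → E)).map (Fintype.linearCombination E D) = ⊤ := by
      rw [Submodule.map_top, Fintype.range_linearCombination]
      exact eq_top_iff.2 hDs
    rw [h5, pH_top H hP, finrank_top, Module.finrank_fin_fun] at h4
    have h6 := hL (L.map (Fintype.linearCombination E D))
    rw [h3, h4] at h6
    exact h6
  -- the bound over `G`
  have halg : ∀ x : E, algebraMap F G (algebraMap E F x) = algebraMap E G x := fun x =>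
    (IsScalarTower.algebraMap_apply E F G x).symm
  have hmEG : ∀ {κ' : Type} [Fintype κ'] (S : κ' → E), S ≠ 0 →
      HG.lam (fun a => algebraMap E G (S a)) = 1 * H.lam S := by
    intro κ' _ S hS
    have h3 : (fun a => algebraMap E F (S a)) ≠ 0 := by
      intro h0
      refine hS ?_
      funext a
      exact (map_eq_zero (algebraMap E F)).1 (congrFun h0 a)
    have h4 := h2 _ h3
    rw [h1 S hS] at h4
    rw [one_mul, ← h4]
    simp only [halg]
  have hGb := fun N : Submodule G (Fin z → G) => descent (MonoidHom.id (G ≃ₐ[E] G))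
    (fun x hx => (IsGalois.mem_bot_iff_fixed x).2 hx) H HG 1 one_pos hmEG (fun σ S hS => hs σ S hS) hP
    (2 * H.lam m) η hQ N
  -- the bound over `F`
  have hFb : ∀ N : Submodule F (Fin z → F), Module.finrank F N * (2 * H.lam m) -
      pH HF (fun j p => algebraMap E F (P j p)) N ≤
        z * (2 * H.lam m) - HF.lam (plk fun j p => algebraMap E F (P j p)) + η := by
    intro N
    have hb : LinearIndependent F (fun i : Fin (Module.finrank F N) => ((Module.finBasis F N i : N) : Fin z → F)) :=
      (Module.finBasis F N).linearIndependent.map' N.subtype N.ker_subtype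
    have hN : Submodule.span F (Set.range fun i : Fin (Module.finrank F N) =>
        ((Module.finBasis F N i : N) : Fin z → F)) = N := X1_bv_span N
    have h3 := pH_map HF HG 1 (fun S hS => by rw [one_mul]; exact h2 S hS) hPF hb
    rw [hN, one_mul] at h3
    have h4 := hGb (Submodule.span G (Set.range fun i j => algebraMap F G (((Module.finBasis F N i : N) : Fin z → F) j)))
    have h5 : LinearIndependent G fun (i : Fin (Module.finrank F N)) j =>
        algebraMap F G (((Module.finBasis F N i : N) : Fin z → F) j) := li_algebraMap hb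
    have h6 : Module.finrank G (Submodule.span G (Set.range fun (i : Fin (Module.finrank F N)) j =>
        algebraMap F G (((Module.finBasis F N i : N) : Fin z → F) j))) = Module.finrank F N := by
      rw [finrank_span_eq_card h5, Fintype.card_fin]
    have h7 : (fun j p => algebraMap E G (P j p)) = fun j p => algebraMap F G (algebraMap E F (P j p)) := by
      funext j p
      exact (halg _).symm
    rw [h6, h7, h3, X3_plk_map (algebraMap F G), h2 _ (plk_ne_zero _ hPF)] at h4
    linarith
  -- conclusion
  have hlam : HF.lam (fun a => algebraMap E F (m a)) = H.lam m := h1 m hm.1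
  set N : Submodule F (Fin z → F) := L.comap (Fintype.linearCombination F D') with hN
  have hsurj : Function.Surjective (Fintype.linearCombination F D') := by
    intro v
    obtain ⟨c, hc⟩ := hD's v
    exact ⟨c, hc.symm⟩
  have hNL : N.map (Fintype.linearCombination F D') = L := Submodule.map_comap_eq_of_surjective hsurj L
  have htop : (⊤ : Submodule F (Fin z → F)).map (Fintype.linearCombination F D') = ⊤ := by
    rw [Submodule.map_top]
    exact LinearMap.range_eq_top.2 hsurj
  have h3 := dg_pH HF _ hmF D' hD'l N
  have h4 := dg_pH HF _ hmF D' hD'l ⊤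
  rw [htop, ← hPF', pH_top HF hPF, finrank_top, Module.finrank_fin_fun, hlam] at h4
  rw [hNL, ← hPF', hlam] at h3
  rw [h3, h4]
  exact hFb N

end

end Pool.Agent.Lib.MP_17a322_nt.AP
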