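import Pool.Agent.Lib.MP_17a322_nt.AP.D2
import Pool.Agent.Lib.MP_17a322_nt.FL.O2
import Pool.Agent.Lib.MP_17a322_nt.FL.O3

/-!
Finer models over extensions, adapted bases.
-/

namespace Pool.Agent.Lib.MP_17a322_nt.AP

open Pool.Agent.Lib.MP_17a322_nt.FQ
open Pool.Agent.Lib.MP_17a322_nt.FL (psi NT DT)

section

variable {E F : Type} [Field E] [Field F] [Algebra ℚ E] [Algebra ℚ F] [Algebra E F]

/-- Finitely many elements of `E` can be added to a model of `E`, also over the extension `F`. -/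
theorem D3_add {κ : Type} [Fintype κ] (m : κ → E) (hm : IsMd ℚ m) (G : Finset E) :
    ∃ (κ' : Type) (_ : Fintype κ') (m' : κ' → E), IsMd ℚ m' ∧
      ∀ g ∈ G, Fi ℚ (on (algebraMap E F g)) (fun a => algebraMap E F (m' a)) := by
  classical
  induction G using Finset.induction_on with
  | empty => exact ⟨κ, inferInstance, m, hm, fun g hg => absurd hg (Finset.notMem_empty g)⟩
  | insert g G hg ih =>
    obtain ⟨κ₁, i₁, m₁, h1, h2⟩ := ih
    have h4 : on g ≠ 0 := Function.ne_iff.2 ⟨false, one_ne_zero⟩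
    have h5 : on (algebraMap E F g) ≠ 0 := Function.ne_iff.2 ⟨false, one_ne_zero⟩
    have h6 : (fun a => algebraMap E F (m₁ a)) ≠ 0 := by
      obtain ⟨a, ha⟩ := Function.ne_iff.1 h1.1
      exact Function.ne_iff.2 ⟨a, (map_ne_zero (algebraMap E F)).2 ha⟩
    have h7 : (fun a => algebraMap E F (tn m₁ (on g) a)) =
        tn (fun a => algebraMap E F (m₁ a)) (on (algebraMap E F g)) := by
      funext a
      obtain ⟨a, b⟩ := a
      cases b with
      | false =>
        change algebraMap E F (m₁ a * 1) = algebraMap E F (m₁ a) * 1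
        rw [mul_one, mul_one]
      | true =>
        change algebraMap E F (m₁ a * g) = algebraMap E F (m₁ a) * algebraMap E F g
        rw [map_mul]
    refine ⟨κ₁ × Bool, inferInstance, tn m₁ (on g), IsMd_tn m₁ (on g) h1 h4, fun g' hg' => ?_⟩
    rw [h7]
    rcases Finset.mem_insert.1 hg' with h | h
    · subst h
      exact Fi_tn_right _ _ h6 h5
    · exact fun A v => (h2 g' h A v).trans (Fi_tn_left _ _ h6 h5 A v)

/-- The condition on the valuation rings. -/
theorem D3_fnr {κ : Type} [Fintype κ] (m : κ → F) (hm : m ≠ 0) (f : F) (h : Fi ℚ (on f) m)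
    (A : ValuationSubring F) (hA : ∀ c : ℚ, algebraMap ℚ F c ∈ A) (D : Derivation ℚ F F) (a : κ) :
    ∃ (g : F) (p : κ × κ), (g = 1 ∨ g = f) ∧ A.valuation (D f * m a ^ 2) ≤ A.valuation (g ^ 2 * psi m D p) := by
  have h0 : on f ≠ 0 := Function.ne_iff.2 ⟨false, one_ne_zero⟩
  obtain ⟨b, hb0, hb⟩ := nm_attain (k := ℚ) (on f) h0 ⟨A, hA⟩
  have h1 := h ⟨A, hA⟩ D
  unfold mn at h1
  have hpos : (0 : A.ValueGroup) < nm ℚ (on f) ⟨A, hA⟩ ^ 2 :=
    zero_lt_iff.2 (pow_ne_zero _ (nm_ne (k := ℚ) (on f) h0 ⟨A, hA⟩))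
  have hpos' : (0 : A.ValueGroup) < nm ℚ m ⟨A, hA⟩ ^ 2 :=
    zero_lt_iff.2 (pow_ne_zero _ (nm_ne (k := ℚ) m hm ⟨A, hA⟩))
  rw [div_le_div_iff₀ hpos hpos'] at h1
  have h2 : A.valuation (D f) ≤ nm ℚ (fun p => ps (on f) p D) ⟨A, hA⟩ := by
    have h3 := le_nm (k := ℚ) (fun p => ps (on f) p D) ⟨A, hA⟩ (false, true)
    have h4 : ps (on f) (false, true) D = D f := by
      change (1 : F) * D f - f * D 1 = D f
      rw [Derivation.map_one_eq_zero, mul_zero, sub_zero, one_mul]
    rwa [h4] at h3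
  have h3 : A.valuation (D f * m a ^ 2) ≤ nm ℚ (fun p => ps m p D) ⟨A, hA⟩ * nm ℚ (on f) ⟨A, hA⟩ ^ 2 := by
    rw [map_mul, map_pow]
    refine le_trans ?_ h1
    exact mul_le_mul' h2 (pow_le_pow_left' (le_nm (k := ℚ) m ⟨A, hA⟩ a) 2)
  by_cases hz : (fun p => ps m p D) = 0
  · refine ⟨1, (a, a), Or.inl rfl, ?_⟩
    have h4 : nm ℚ (fun p => ps m p D) ⟨A, hA⟩ = 0 := by
      rw [hz]
      refine le_antisymm (nm_le _ _ _ fun b => ?_) zero_le
      rw [Pi.zero_apply, map_zero]
    rw [h4, zero_mul] at h3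
    exact h3.trans zero_le
  · obtain ⟨p, -, hp⟩ := nm_attain (k := ℚ) _ hz ⟨A, hA⟩
    refine ⟨on f b, p, ?_, ?_⟩
    · cases b with
      | false => exact Or.inl rfl
      | true => exact Or.inr rfl
    · rw [hp, hb] at h3
      rw [map_mul A.valuation (on f b ^ 2) (psi m D p), map_pow A.valuation (on f b) 2,
        mul_comm (A.valuation (on f b) ^ 2)]
      exact h3

/-- The heights of the families of minors and the degrees. -/
theorem D3_NT [FiniteDimensional F (Derivation ℚ F F)] {κ ρ α : Type} [Fintype κ] [Fintype ρ] [DecidableEq ρ]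
    [Fintype α] [DecidableEq α] (H : Ht ℚ F) (m : κ → F) (hm : IsMd ℚ m) (v : ρ ⊕ α → Derivation ℚ F F)
    (hv : LinearIndependent F v) :
    H.lam (NT m v) - H.lam (DT m v) = dg H m (Submodule.span F (Set.range fun i => v (Sum.inl i))) -
      dg H m (Submodule.span F (Set.range v)) := by
  obtain ⟨⟨s, hs⟩, p, hp⟩ := FL.NT_ne m hm v hv
  have hN : NT m v ≠ 0 := fun h0 => hs (congrFun h0 s)
  have hD : DT m v ≠ 0 := fun h0 => hp (congrFun h0 p)
  have L1 := dv_dg H m hm v hv
  have L2 := dv_dg H m hm (fun j => v (Sum.inl j)) (hv.comp _ Sum.inl_injective)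
  have L3 := Lm_div L1 L2
  have L4 := Lm_div (Lm_fam (H := H) (NT m v) hN) (Lm_fam (H := H) (DT m v) hD)
  have hfun : (fun A => dv m v A / dv m (fun j => v (Sum.inl j)) A) =
      fun A => nm ℚ (NT m v) A / nm ℚ (DT m v) A := by
    funext A
    have hm0 := nm_ne (k := ℚ) m hm.1 A
    rw [FL.O3_nm_DT m hm.1 v A]
    have e1 : dv m v A = nm ℚ (NT m v) A / nm ℚ m A ^ (2 * Fintype.card (ρ ⊕ α)) := rfl
    have e2 : dv m (fun j => v (Sum.inl j)) A =
        nm ℚ (fun s : ρ → κ × κ => (Matrix.of fun i j => ps m (s i) (v (Sum.inl j))).det) A /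
          nm ℚ m A ^ (2 * Fintype.card ρ) := rfl
    rw [e1, e2, Fintype.card_sum, mul_add, pow_add]
    have h1 : nm ℚ m A ^ (2 * Fintype.card ρ) ≠ 0 := pow_ne_zero _ hm0
    have h2 : nm ℚ m A ^ (2 * Fintype.card α) ≠ 0 := pow_ne_zero _ hm0
    rw [div_div_div_eq, mul_comm (nm ℚ m A ^ (2 * Fintype.card ρ)) (nm ℚ m A ^ (2 * Fintype.card α)),
      mul_right_comm, mul_div_mul_right _ _ h1]
  rw [hfun] at L3
  have hu := Lm_uniq L3 L4
  linarith

/-- A basis of the derivations adapted to algebraically independent elements. -/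
theorem D3_adapted [FiniteDimensional F (Derivation ℚ F F)] {α : Type} [Fintype α] [DecidableEq α]
    (x : α → F) (hx : AlgebraicIndependent ℚ x) :
    ∃ (r : ℕ) (v : Fin r ⊕ α → Derivation ℚ F F), (∀ i l, v (Sum.inl i) (x l) = 0) ∧
      (∀ l l', v (Sum.inr l) (x l') = if l = l' then 1 else 0) ∧ LinearIndependent F v ∧
      Submodule.span F (Set.range v) = ⊤ := by
  obtain ⟨e, -⟩ : ∃ e : α ≃ Fin (Fintype.card α), e = Fintype.equivFin α := ⟨_, rfl⟩
  let w : Fin (Fintype.card α) → F := fun i => x (e.symm i)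
  have hw : AlgebraicIndependent ℚ w := hx.comp _ e.symm.injective
  let K : Submodule F (Derivation ℚ F F) :=
    { carrier := {v | ∀ i, v (w i) = 0}
      add_mem' := fun {a b} ha hb i => by rw [Derivation.add_apply, ha i, hb i, add_zero]
      zero_mem' := fun i => rfl
      smul_mem' := fun c a ha i => by rw [Derivation.smul_apply, ha i, smul_zero] }
  obtain ⟨r, v, h1, -, h3, h4, h5, -⟩ := FL.exists_adapted w hw K fun v => Iff.rfl
  refine ⟨r, fun b => v (Sum.map id e b), ?_, ?_, ?_, ?_⟩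
  · intro i l
    have h6 := h4 i (e l)
    change v (Sum.inl i) (x (e.symm (e l))) = 0 at h6
    rw [e.symm_apply_apply] at h6
    exact h6
  · intro l l'
    have h6 := h5 (e l) (e l')
    change v (Sum.inr (e l)) (x (e.symm (e l'))) = _ at h6
    rw [e.symm_apply_apply] at h6
    change v (Sum.inr (e l)) (x l') = _
    rw [h6]
    by_cases hl : l = l'
    · rw [if_pos hl, if_pos (congrArg e hl)]
    · rw [if_neg hl, if_neg fun h => hl (e.injective h)]
  · exact h1.comp _ (Sum.map_injective.2 ⟨Function.injective_id, e.injective⟩)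
  · rw [← h3]
    congr 1
    ext d
    constructor
    · rintro ⟨b, rfl⟩
      exact ⟨_, rfl⟩
    · rintro ⟨b, rfl⟩
      refine ⟨Sum.map id e.symm b, ?_⟩
      cases b with
      | inl i => rfl
      | inr l =>
        change v (Sum.inr (e (e.symm l))) = _
        rw [e.apply_symm_apply]

end

end Pool.Agent.Lib.MP_17a322_nt.AP
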