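import Pool.Agent.Lib.MP_17a322_nt.EQ.Defs

/-!
Vojta's conjecture for algebraic points of bounded degree: definition.

Points over a number field `L` which contains `K`; all heights and sums over places are the ones of the
field `L`, not divided by `[L : ℚ]`.
-/

namespace Pool.Agent.Lib.MP_17a322_nt.AP

open MvPolynomial Height NumberField
open Pool.Agent.Lib.MP_17a322_nt.EQ

section

variable {K L : Type} [Field K] [Field L] [Algebra K L] {ι κ β : Type} [Fintype ι]

/-- The local height at `v` of the point `p` over `L` with respect to the closed subscheme with the
equations `g j = 0` over `K`, which are forms of degree `e`. -/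
noncomputable def lamL (v : AbsoluteValue L ℝ) (e : ℕ) (g : κ → MvPolynomial ι K) (p : ι → L) : ℝ :=
  e * Real.log (⨆ i, v (p i)) - Real.log (⨆ j, v (aeval p (g j)))

variable [NumberField L]

/-- The height over `L` with respect to the canonical class of the point `p` over `L` of the smooth
projective variety over `K` with the ideal `J`. -/
noncomputable def hCanL (J : Ideal (MvPolynomial ι K)) (p : ι → L) : ℝ :=
  hPl (Tan J p) - Module.finrank L (Tan J p) * logHeight p

/-- The truncated counting function of the point `p` over `L` with respect to the union of the closed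
subschemes with the equations `f b j = 0` over `K` (forms of degree `e`): the sum of `log q_v` over the
finite places `v` of `L` which do not divide `m` and at which `p` meets one of the subschemes, every
place once. -/
noncomputable def truncL (m e : ℕ) (f : β → κ → MvPolynomial ι K) (p : ι → L) : ℝ :=
  ∑ᶠ v ∈ {v : FinitePlace L | v (m : L) = 1 ∧ ∃ b, 0 < lamL v.val e (f b) p},
    Real.log (Ideal.absNorm v.maximalIdeal.asIdeal)

end

/-- Vojta's conjecture for algebraic points of degree at most `r` with the discriminant term and with
truncated counting functions, for smooth projective varieties `X` of dimension `n` over `K` and normal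
crossing divisors `D = ∑ D_b`: for every `m ≠ 0` and `ε > 0` there are a proper closed subset `G = 0` of
`X` and a constant `C` such that for all number fields `L` which contain `K`, `[L : K] ≤ r`, and all
points `p` of `X` over `L` outside `G = 0` with `L = K(p)`:
`h_D + h_{K_X} ≤ N^(1)(D) + log |disc L| + ε h + C`, where the truncated counting function leaves out the
places which divide `m`. -/
def VojtaAlg (K : Type) [Field K] [NumberField K] (n r : ℕ) : Prop :=
  ∀ (ι β κ : Type) [Fintype ι] [Fintype β] [Fintype κ] (J : Ideal (MvPolynomial ι K)) (e : ℕ)
    (f : β → κ → MvPolynomial ι K), Smooth J n → Snc J e f → ∀ (m : ℕ), m ≠ 0 → ∀ ε : ℝ, 0 < ε →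
    ∃ (G : MvPolynomial ι K) (C : ℝ), G ∉ J ∧ (∃ d, G.IsHomogeneous d) ∧
      ∀ (L : Type) [Field L] [NumberField L] [Algebra K L], Module.finrank K L ≤ r → ∀ p : ι → L,
        IsPt J p → aeval p G ≠ 0 →
        IntermediateField.adjoin K (Set.range fun q : ι × ι => p q.1 / p q.2) = ⊤ →
        (∀ b, ∃ j, aeval p (f b j) ≠ 0) ∧
        ∑ b, (e * logHeight p - logHeight fun j => aeval p (f b j)) + hCanL J p ≤
          truncL m e f p + Real.log |(discr L : ℝ)| + ε * logHeight p + C

end Pool.Agent.Lib.MP_17a322_nt.AP
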