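import Pool.Agent.Lib.MP_17a322_nt.AP.Z7
import Pool.Agent.Lib.MP_17a322_nt.FL.Fin

/-!
Vojta's conjecture for algebraic points of bounded degree from its case `D = 0` for rational points of
rational varieties.
-/

universe u

namespace Pool.Agent.Lib.MP_17a322_nt.AP

open Pool.Agent.Lib.MP_17a322_nt.EQ
open Pool.Agent.Lib.MP_17a322_nt.FL (gauss_any semi_of_gauss)
open Pool.Agent.Lib.MP_17a322_nt.RAT (VojtaGaussRat)
open Pool.Agent.Lib.MP_17a322_nt.JAC (rat_iff_gauss)

/-- The case `D = 0` for the points of rational varieties over one number field implies Vojta's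
conjecture with truncated counting functions for algebraic points of bounded degree over all number
fields. -/
theorem alg_of_rat {L : Type u} [Field L] [NumberField L] (h : VojtaGaussRat L) (k : Type) [Field k]
    [NumberField k] (n r : ℕ) : VojtaAlg k n r :=
  alg_of_semi (semi_of_gauss (gauss_any L ℚ ((rat_iff_gauss L).1 h))) k n r

end Pool.Agent.Lib.MP_17a322_nt.AP
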