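import Pool.Agent.Lib.MP_17a322_nt.AP.Defs
import Pool.Agent.Lib.MP_17a322_nt.JAC.B5c

/-!
The canonical height at the points over extension fields outside a hypersurface.
-/

namespace Pool.Agent.Lib.MP_17a322_nt.AP

open MvPolynomial hiding psum
open Height NumberField
open Pool.Agent.Lib.MP_17a322_nt.EQ
open Pool.Agent.Lib.MP_17a322_nt.JAC

/-- Outside a hypersurface the dimension of the tangent space is at most the generic one. `ζ` is a zero of `I` with
values in a field `L`. -/
theorem tan_upperL {K : Type} [Field K] {ι : Type} [Fintype ι] (J I : Ideal (MvPolynomial ι K)) {L : Type} [Field L] [Algebra K L]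
    (ζ : ι → L) (hζ : ∀ F : MvPolynomial ι K, F ∈ I → aeval ζ F = 0) :
    ∃ M : MvPolynomial ι K, M ∉ I ∧ ∀ (L' : Type) [Field L'] [Algebra K L'] (z : ι → L'), aeval z M ≠ 0 →
      Module.finrank L' (Tan J z) ≤ Module.finrank L (Tan J ζ) := by
  have e1 := G1_finrank J ζ
  obtain ⟨f, hf1, _, hf3⟩ := Submodule.exists_fun_fin_finrank_span_eq L
    ((fun F => dif ζ F) '' (J : Set (MvPolynomial ι K)))
  choose F hFJ hF using hf1
  have hi : LinearIndependent L fun a => fun i => aeval ζ (pderiv i (F a)) := by
    apply LinearIndependent.of_comp (G1_form L ι)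
    have h1 : (G1_form L ι ∘ fun a => fun i => aeval ζ (pderiv i (F a))) = f := by
      funext a
      rw [Function.comp_apply, ← G1_dif, ← hF a]
    rw [h1]
    exact hf3
  obtain ⟨s, hs⟩ := G1_minor hi
  set M : MvPolynomial ι K := (Matrix.of fun a b => pderiv (s b) (F a)).det with hM
  have hdet : ∀ (L' : Type) [Field L'] [Algebra K L'] (q : ι → L'),
      aeval q M = (Matrix.of fun a b => aeval q (pderiv (s b) (F a))).det := by
    intro L' _ _ q
    rw [hM, AlgHom.map_det]
    rfl
  refine ⟨M, ?_, ?_⟩
  · intro hMI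
    apply hs
    have h2 := hζ M hMI
    rw [hdet L ζ] at h2
    exact h2
  · intro L' _ _ z hz
    have e0 := G1_finrank J z
    have hM0 : (Matrix.of fun a b => aeval z (pderiv (s b) (F a))).det ≠ 0 := by
      intro h2
      apply hz
      have h3 := hdet L' z
      rw [h2] at h3
      exact h3
    have hi0 : LinearIndependent L' fun a => fun i => aeval z (pderiv i (F a)) := G1_indep hM0
    have hi1 : LinearIndependent L' fun a => dif z (F a) := by
      have h3 := hi0.map' (G1_form L' ι) (LinearMap.ker_eq_bot.2 G1_form_inj)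
      have h4 : (G1_form L' ι ∘ fun a => fun i => aeval z (pderiv i (F a))) = fun a => dif z (F a) := by
        funext a
        rw [Function.comp_apply, ← G1_dif]
      rwa [h4] at h3
    have hle : Module.finrank L (Submodule.span L ((fun F => dif ζ F) '' (J : Set (MvPolynomial ι K)))) ≤
        Module.finrank L' (Submodule.span L' ((fun F => dif z F) '' (J : Set (MvPolynomial ι K)))) := by
      have h5 := finrank_span_eq_card hi1
      rw [Fintype.card_fin] at h5
      rw [← h5]
      apply Submodule.finrank_mono
      apply Submodule.span_mono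
      rintro _ ⟨a, rfl⟩
      exact ⟨F a, hFJ a, rfl⟩
    omega


variable {K : Type} [Field K] [NumberField K] {ι : Type} [Fintype ι]

omit [NumberField K] in
/-- The chain rule for derivations. -/
private theorem H1_chain {L : Type} [Field L] [Algebra K L] (d : Derivation K L L) (ζ : ι → L)
    (F : MvPolynomial ι K) : d (aeval ζ F) = ∑ i, aeval ζ (pderiv i F) * d (ζ i) := by
  have h : d (aeval ζ F) = dif ζ F fun i => d (ζ i) := by
    induction F using MvPolynomial.induction_on with
    | C a => rw [dif_C, aeval_C, Derivation.map_algebraMap]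
    | add F G hF hG => rw [map_add, map_add, dif_add, hF, hG]
    | mul_X F i hF =>
      rw [map_mul, dif_mul, aeval_X, Derivation.leibniz, hF, dif_X, smul_eq_mul, smul_eq_mul]
  rw [h, dif_apply]

/-- The canonical height at the points outside a hypersurface: the height of the vector of the minors of the matrix
with the rows `z` and `N l (z)`, minus `(dimension + 1)` times the height of `z`. -/
theorem hCanL_eq (J : Ideal (MvPolynomial ι K)) [J.IsPrime] (hJ : ∀ F ∈ J, ∀ i, homogeneousComponent i F ∈ J) (i₀ : ι)
    (hi : X i₀ ∉ J) {α : Type} [Fintype α] [DecidableEq α] (x : α → ι)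
    (δ : α → Derivation K (FF (dh J i₀)) (FF (dh J i₀)))
    (hx : ∀ l l', δ l (gn (dh J i₀) (x l')) = if l = l' then 1 else 0)
    (hu : ∀ (d : Derivation K (FF (dh J i₀)) (FF (dh J i₀))) (f : FF (dh J i₀)),
      d f = ∑ l, d (gn (dh J i₀) (x l)) * δ l f) :
    ∃ (B : MvPolynomial ι K) (N : α → ι → MvPolynomial ι K), B ∉ dh J i₀ ∧
      (∀ l i, δ l (gn (dh J i₀) i) * aeval (gn (dh J i₀)) B = aeval (gn (dh J i₀)) (N l i)) ∧
      ∀ (L : Type) [Field L] [NumberField L] [Algebra K L] (z : ι → L),
        (∀ H ∈ dh J i₀, aeval z H = 0) → aeval z B ≠ 0 →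
        (fun s : Option α → ι => (Matrix.of fun a b : Option α =>
          a.elim (z (s b)) fun l => aeval z (N l (s b))).det) ≠ 0 ∧
        hCanL J z = logHeight (fun s : Option α → ι => (Matrix.of fun a b : Option α =>
          a.elim (z (s b)) fun l => aeval z (N l (s b))).det) - (Fintype.card α + 1) * logHeight z := by
  set ζ := gn (dh J i₀) with hζ
  have hζ0 : ζ i₀ = 1 := by
    have h1 := (aeval_gn_eq_zero (dh J i₀) (X i₀ - 1)).2 (dh_sub_one J i₀ hi)
    rw [map_sub, aeval_X, map_one, sub_eq_zero] at h1
    exact h1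
  obtain ⟨B₁, N₁, hB₁, hN₁⟩ := common_den (dh J i₀) (fun s : α × ι => δ s.1 (ζ s.2))
  obtain ⟨M, hM, hMz⟩ := tan_upperL J (dh J i₀) ζ (fun F hF => (aeval_gn_eq_zero (dh J i₀) F).2 hF)
  rw [Tan_gn J hJ i₀ hi x δ hx hu] at hMz
  set B := B₁ * M with hBdef
  set N : α → ι → MvPolynomial ι K := fun l i => N₁ (l, i) * M with hNdef
  have hBd : B ∉ dh J i₀ := fun h => ((dh_prime J i₀).mem_or_mem h).elim hB₁ hM
  have hN : ∀ l i, δ l (ζ i) * aeval ζ B = aeval ζ (N l i) := by
    intro l i
    rw [hBdef, hNdef, map_mul, map_mul, ← hN₁ (l, i), mul_assoc]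
  refine ⟨B, N, hBd, hN, ?_⟩
  intro L _ _ _ z hz hBz
  have hz0 : z i₀ = 1 := by
    have h1 := hz _ (dh_sub_one J i₀ hi)
    rw [map_sub, aeval_X, map_one, sub_eq_zero] at h1
    exact h1
  have hMz' : aeval z M ≠ 0 := by
    intro h
    apply hBz
    rw [hBdef, map_mul, h, mul_zero]
  have hpt : IsPt J z := by
    refine ⟨fun h => ?_, fun F hF => ?_⟩
    · rw [h] at hz0
      exact zero_ne_one hz0
    · exact hz F ((le_dh J hJ i₀ hi).1 hF)
  set v : Option α → ι → L := fun a => a.elim z fun l i => aeval z (N l i) with hv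
  have hmem : ∀ a, v a ∈ Tan J z := by
    rintro (_ | l)
    · exact self_mem_Tan hJ hpt
    · rw [mem_Tan]
      intro F hF
      rw [dif_apply]
      have h1 : ∑ i, pderiv i F * N l i ∈ dh J i₀ := by
        rw [← aeval_gn_eq_zero, map_sum]
        have h2 : ∀ i, aeval (gn (dh J i₀)) (pderiv i F * N l i) =
            aeval ζ (pderiv i F) * δ l (ζ i) * aeval ζ B := by
          intro i
          rw [map_mul, ← hζ, ← hN, mul_assoc]
        rw [Finset.sum_congr rfl fun i _ => h2 i, ← Finset.sum_mul, ← H1_chain,
          (aeval_gn_eq_zero (dh J i₀) F).2 ((le_dh J hJ i₀ hi).1 hF), map_zero, zero_mul]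
      have h3 := hz _ h1
      rw [map_sum] at h3
      rw [← h3]
      refine Finset.sum_congr rfl fun i _ => ?_
      rw [map_mul]
      rfl
  have hvi : ∀ l, v (some l) i₀ = 0 := by
    intro l
    have h1 : N l i₀ ∈ dh J i₀ := by
      rw [← aeval_gn_eq_zero, ← hζ, ← hN, hζ0, Derivation.map_one_eq_zero, zero_mul]
    exact hz _ h1
  have hvx : ∀ l l', v (some l) (x l') = if l = l' then aeval z B else 0 := by
    intro l l'
    have h1 : N l (x l') - B * (if l = l' then 1 else 0) ∈ dh J i₀ := by
      rw [← aeval_gn_eq_zero, ← hζ, map_sub, ← hN, hζ, hx l l']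
      by_cases hl : l = l'
      · rw [if_pos hl, if_pos hl, one_mul, mul_one, sub_self]
      · rw [if_neg hl, if_neg hl, zero_mul, mul_zero, map_zero, sub_zero]
    have h2 := hz _ h1
    rw [map_sub, sub_eq_zero] at h2
    change aeval z (N l (x l')) = _
    rw [h2, map_mul]
    by_cases hl : l = l'
    · rw [if_pos hl, if_pos hl, map_one, mul_one]
    · rw [if_neg hl, if_neg hl, map_zero, mul_zero]
  have hind : LinearIndependent L v := by
    rw [Fintype.linearIndependent_iff]
    intro g hg
    have h0 : g none = 0 := by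
      have h1 := congrFun hg i₀
      rw [Finset.sum_apply, Fintype.sum_option] at h1
      simp only [Pi.smul_apply, smul_eq_mul, hvi, mul_zero, Finset.sum_const_zero, add_zero,
        Pi.zero_apply] at h1
      rw [hv] at h1
      simp only [Option.elim, hz0, mul_one] at h1
      exact h1
    rintro (_ | l)
    · exact h0
    · have h1 := congrFun hg (x l)
      rw [Finset.sum_apply, Fintype.sum_option] at h1
      simp only [Pi.smul_apply, smul_eq_mul, h0, zero_mul, zero_add, hvx, mul_ite, mul_zero,
        Finset.sum_ite_eq', Finset.mem_univ, if_true, Pi.zero_apply] at h1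
      exact (mul_eq_zero.1 h1).resolve_right hBz
  have hfr : Module.finrank L (Tan J z) = Fintype.card α + 1 := by
    apply le_antisymm (hMz L z hMz')
    have h1 : LinearIndependent L fun a => (⟨v a, hmem a⟩ : Tan J z) :=
      LinearIndependent.of_comp (Tan J z).subtype hind
    have h2 := h1.fintype_card_le_finrank
    rwa [Fintype.card_option] at h2
  let e : Fin (Fintype.card α + 1) ≃ Option α :=
    (finCongr (Fintype.card_option).symm).trans (Fintype.equivFin (Option α)).symm
  set G : (Option α → ι) → L := fun s => (Matrix.of fun a b : Option α => v a (s b)).det with hG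
  set G' : (Fin (Fintype.card α + 1) → ι) → L :=
    fun s => (Matrix.of fun a b => v (e a) (s b)).det with hG'
  have hGG : G ∘ (Equiv.arrowCongr e (Equiv.refl ι)) = G' := by
    funext s
    change (Matrix.of fun a b : Option α => v a (s (e.symm b))).det = _
    rw [← Matrix.det_submatrix_equiv_self e]
    change (Matrix.of fun a b => v (e a) (s (e.symm (e b)))).det = _
    simp only [Equiv.symm_apply_apply]
    rfl
  have hGform : (fun s : Option α → ι => (Matrix.of fun a b : Option α =>
      a.elim (z (s b)) fun l => aeval z (N l (s b))).det) = G := by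
    funext s
    rw [hG]
    congr 1
    ext a b
    cases a <;> rfl
  rw [hGform]
  have hinde : LinearIndependent L fun k => v (e k) := hind.comp _ e.injective
  constructor
  · intro h
    apply minors_ne hinde
    change G' = 0
    rw [← hGG, h]
    rfl
  · unfold hCanL
    rw [hfr, hPl_eq (Tan J z) hfr (fun k => v (e k)) (fun k => hmem _) hinde]
    change logHeight G' - _ = _
    rw [← hGG, logHeight_comp_equiv]
    push_cast
    rfl


end Pool.Agent.Lib.MP_17a322_nt.AP
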