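import Pool.Agent.Lib.MP_17a322_nt.AP.Defs
import Pool.Agent.Lib.MP_17a322_nt.JAC.B3
import Pool.Agent.Lib.MP_17a322_nt.EQ.Q3
import Pool.Agent.Lib.MP_17a322_nt.EQ.G0

/-!
A sequence of points which violates the conjecture.
-/

namespace Pool.Agent.Lib.MP_17a322_nt.AP

open MvPolynomial hiding psum
open Height NumberField
open Pool.Agent.Lib.MP_17a322_nt.EQ
open Pool.Agent.Lib.MP_17a322_nt.JAC

/-- The local heights do not change if the point is multiplied by a number. -/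
theorem lamL_smul {K L : Type} [Field K] [Field L] [Algebra K L] {ι κ : Type} [Fintype ι] [Finite κ]
    (v : AbsoluteValue L ℝ) (e : ℕ) (g : κ → MvPolynomial ι K) (hg : ∀ j, (g j).IsHomogeneous e) {c : L}
    (hc : c ≠ 0) (z : ι → L) (hz : z ≠ 0) (hgz : (fun j => aeval z (g j)) ≠ 0) :
    lamL v e g (c • z) = lamL v e g z := by
  have hev : ∀ j, aeval (c • z) (g j) = c ^ e * aeval z (g j) := fun j => B3_aeval_mul (hg j) c z
  have hvc : 0 < v c := v.pos hc
  have h1 : (⨆ i, v ((c • z) i)) = v c * ⨆ i, v (z i) := by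
    rw [Real.mul_iSup_of_nonneg hvc.le]
    refine iSup_congr fun i => ?_
    rw [Pi.smul_apply, smul_eq_mul, map_mul]
  have h2 : (⨆ j, v (aeval (c • z) (g j))) = v c ^ e * ⨆ j, v (aeval z (g j)) := by
    rw [Real.mul_iSup_of_nonneg (pow_nonneg hvc.le e)]
    refine iSup_congr fun j => ?_
    rw [hev, map_mul, map_pow]
  have h3 := hl_pos v hz
  have h4 := hl_pos v hgz
  rw [lamL, lamL, h1, h2, Real.log_mul hvc.ne' h3.ne', Real.log_mul (pow_ne_zero _ hvc.ne') h4.ne', Real.log_pow]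
  ring

/-- The polynomial ring over a number field is countable. -/
theorem countable_mvPolynomial (K : Type) [Field K] [NumberField K] (ι : Type) [Finite ι] :
    Countable (MvPolynomial ι K) := by
  have hK : Countable K := (Module.finBasis ℚ K).equivFun.toEquiv.countable_iff.2 inferInstance
  rw [← Cardinal.mk_le_aleph0_iff]
  refine (MvPolynomial.cardinalMk_le_max (σ := ι) (R := K)).trans ?_
  simp

/-- One member of the sequence. -/
theorem exists_member {K : Type} [Field K] {ι β κ : Type} [Fintype ι] [Fintype β] [Fintype κ]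
    (J : Ideal (MvPolynomial ι K)) [J.IsPrime] (hJ : ∀ F ∈ J, ∀ i, homogeneousComponent i F ∈ J) (i₀ : ι)
    (hi : X i₀ ∉ J) (e m : ℕ) (f : β → κ → MvPolynomial ι K) (hf : ∀ b j, (f b j).IsHomogeneous e)
    (jb : β → κ) (G' : MvPolynomial ι K) (hG' : ∀ b, f b (jb b) ∣ G') (ε C : ℝ)
    {L : Type} [Field L] [NumberField L] [Algebra K L] (p : ι → L) (hp : IsPt J p)
    (hpG : aeval p (X i₀ * B3_h i₀ G') ≠ 0)
    (hv : ¬ ((∀ b, ∃ j, aeval p (f b j) ≠ 0) ∧
        ∑ b, (e * logHeight p - logHeight fun j => aeval p (f b j)) + hCanL J p ≤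
          truncL m e f p + Real.log |(discr L : ℝ)| + ε * logHeight p + C)) :
    ∃ z : ι → L, z i₀ = 1 ∧ (∀ H ∈ dh J i₀, aeval z H = 0) ∧ aeval z G' ≠ 0 ∧
      truncL m e f z + Real.log |(discr L : ℝ)| + ε * logHeight z + C <
        ∑ b, (e * logHeight z - logHeight fun j => aeval z (f b j)) + hCanL J z := by
  rw [map_mul, aeval_X, mul_ne_zero_iff] at hpG
  obtain ⟨hpi, hpG⟩ := hpG
  rw [B3_h_aeval i₀ G' p hpi, mul_ne_zero_iff] at hpG
  obtain ⟨z, hz⟩ : ∃ z : ι → L, z = fun i => p i / p i₀ := ⟨_, rfl⟩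
  have hzG : aeval z G' ≠ 0 := by
    rw [hz]
    exact hpG.2
  have hz1 : z i₀ = 1 := by
    rw [hz]
    exact div_self hpi
  have hz0 : z ≠ 0 := by
    intro h
    rw [h] at hz1
    exact zero_ne_one hz1
  have hpz : p = p i₀ • z := by
    funext i
    rw [hz, Pi.smul_apply, smul_eq_mul, mul_div_cancel₀ _ hpi]
  have hzI : ∀ H ∈ dh J i₀, aeval z H = 0 := by
    intro H hH
    have h1 := hp.2 _ ((B3_h_mem J i₀ hi H).2 hH)
    rw [B3_h_aeval i₀ H p hpi, mul_eq_zero, ← hz] at h1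
    exact h1.resolve_left (pow_ne_zero _ hpi)
  have hfz : ∀ b, aeval z (f b (jb b)) ≠ 0 := by
    intro b h
    obtain ⟨Q, hQ⟩ := hG' b
    apply hzG
    rw [hQ, map_mul, h, zero_mul]
  have hfz' : ∀ b, (fun j => aeval z (f b j)) ≠ 0 := fun b h => hfz b (congrFun h (jb b))
  have hev : ∀ b j, aeval p (f b j) = p i₀ ^ e * aeval z (f b j) := fun b j => by
    conv_lhs => rw [hpz]
    exact B3_aeval_mul (hf b j) (p i₀) z
  have hTan : Tan J p = Tan J z := by
    conv_lhs => rw [hpz]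
    exact Tan_mul hJ hpi z
  have hlog : logHeight p = logHeight z := by
    conv_lhs => rw [hpz]
    exact logHeight_smul_eq_logHeight _ hpi
  have hcanz : hCanL J p = hCanL J z := by
    rw [hCanL, hCanL, hTan, hlog]
  have hfb : ∀ b, logHeight (fun j => aeval p (f b j)) = logHeight (fun j => aeval z (f b j)) := by
    intro b
    have h2 : (fun j => aeval p (f b j)) = p i₀ ^ e • fun j => aeval z (f b j) := by
      funext j
      rw [hev]
      rfl
    rw [h2, logHeight_smul_eq_logHeight _ (pow_ne_zero _ hpi)]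
  have htr : truncL m e f p = truncL m e f z := by
    have h2 : ∀ (v : FinitePlace L) (b : β), lamL v.val e (f b) p = lamL v.val e (f b) z := by
      intro v b
      conv_lhs => rw [hpz]
      exact lamL_smul v.val e (f b) (hf b) hpi z hz0 (hfz' b)
    rw [truncL, truncL]
    have h3 : {v : FinitePlace L | v (m : L) = 1 ∧ ∃ b, 0 < lamL v.val e (f b) p} =
        {v : FinitePlace L | v (m : L) = 1 ∧ ∃ b, 0 < lamL v.val e (f b) z} := by
      simp only [h2]
    rw [h3]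
  refine ⟨z, hz1, hzI, hzG, ?_⟩
  have h5 : ∀ b, ∃ j, aeval p (f b j) ≠ 0 := fun b => ⟨jb b, by
    rw [hev]
    exact mul_ne_zero (pow_ne_zero _ hpi) (hfz b)⟩
  have h6 := not_le.1 fun h => hv ⟨h5, h⟩
  rw [hcanz, htr, hlog, Finset.sum_congr rfl fun b _ => by rw [hfb b]] at h6
  exact h6

/-- A sequence of points which violates the conjecture. -/
theorem exists_seq {K : Type} [Field K] [NumberField K] {n r : ℕ} (h : ¬ VojtaAlg K n r) :
    ∃ (ι β κ : Type) (_ : Fintype ι) (_ : Fintype β) (_ : Fintype κ) (J : Ideal (MvPolynomial ι K)) (_ : J.IsPrime)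
      (e : ℕ) (f : β → κ → MvPolynomial ι K) (m : ℕ) (ε : ℝ) (i₀ : ι) (L : ℕ → Type) (_ : ∀ i, Field (L i))
      (_ : ∀ i, NumberField (L i)) (_ : ∀ i, Algebra K (L i)) (z : ∀ i, ι → L i),
      Smooth J n ∧ Snc J e f ∧ m ≠ 0 ∧ 0 < ε ∧ X i₀ ∉ J ∧ (∀ i, Module.finrank K (L i) ≤ r) ∧
      (∀ i, z i i₀ = 1) ∧ (∀ i, ∀ H ∈ dh J i₀, aeval (z i) H = 0) ∧
      (∀ H ∉ dh J i₀, ∀ᶠ i in Filter.atTop, aeval (z i) H ≠ 0) ∧
      ∀ i : ℕ, truncL m e f (z i) + Real.log |(discr (L i) : ℝ)| + ε * logHeight (z i) + i <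
        ∑ b, (e * logHeight (z i) - logHeight fun j => aeval (z i) (f b j)) + hCanL J (z i) := by
  classical
  unfold VojtaAlg at h
  push Not at h
  obtain ⟨ι, β, κ, hι, hβ, hκ, J, e, f, hJ, hf, m, hm, ε, hε, hneg⟩ := h
  have hpr : J.IsPrime := hJ.prime
  -- a coordinate which does not vanish
  have hX : ∃ i₀ : ι, (X i₀ : MvPolynomial ι K) ∉ J := by
    by_contra hcon
    push Not at hcon
    obtain ⟨L, i1, i2, i3, h1, p, hp, -⟩ := hneg 1 0
      (fun h1 => hJ.prime.ne_top ((Ideal.eq_top_iff_one _).2 h1)) ⟨0, isHomogeneous_one _ _⟩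
    apply hp.1
    funext i
    have h2 := hp.2 (X i) (hcon i)
    rwa [aeval_X] at h2
  obtain ⟨i₀, hi⟩ := hX
  have hIp : (dh J i₀).IsPrime := dh_prime J i₀
  have hle := le_dh J hJ.homog i₀ hi
  have hf0 : ∀ b, ∃ j, f b j ∉ J := fun b => hz_exists_notMem hJ.prime hf i₀ hi b
  choose jb hjb using hf0
  -- the enumeration of the polynomials which do not vanish identically
  have hc : Countable (MvPolynomial ι K) := countable_mvPolynomial K ι
  have hne : Nonempty {H : MvPolynomial ι K // H ∉ dh J i₀} :=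
    ⟨⟨1, fun h1 => hIp.ne_top ((Ideal.eq_top_iff_one _).2 h1)⟩⟩
  obtain ⟨Hs, hHs⟩ := exists_surjective_nat {H : MvPolynomial ι K // H ∉ dh J i₀}
  have hmem : ∀ i : ℕ, ∃ (L : Type) (_ : Field L) (_ : NumberField L) (_ : Algebra K L) (z : ι → L),
      Module.finrank K L ≤ r ∧ z i₀ = 1 ∧ (∀ H ∈ dh J i₀, aeval z H = 0) ∧
      (∀ k ≤ i, aeval z (Hs k : MvPolynomial ι K) ≠ 0) ∧
      truncL m e f z + Real.log |(discr L : ℝ)| + ε * logHeight z + i <
        ∑ b, (e * logHeight z - logHeight fun j => aeval z (f b j)) + hCanL J z := by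
    intro i
    set G' : MvPolynomial ι K := (∏ k ∈ Finset.range (i + 1), (Hs k : MvPolynomial ι K)) * ∏ b, f b (jb b)
      with hG'
    have hG'I : G' ∉ dh J i₀ := by
      intro h1
      rcases hIp.mem_or_mem h1 with h2 | h2
      · obtain ⟨k, -, hk⟩ := (hIp.prod_mem_iff).1 h2
        exact (Hs k).2 hk
      · obtain ⟨b, -, hb⟩ := (hIp.prod_mem_iff).1 h2
        exact hjb b (hle.2 _ hb e (hf.homog b (jb b)))
    have hGJ : X i₀ * B3_h i₀ G' ∉ J := by
      intro h1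
      rcases hJ.prime.mem_or_mem h1 with h2 | h2
      · exact hi h2
      · exact hG'I ((B3_h_mem J i₀ hi G').1 h2)
    obtain ⟨L, i1, i2, i3, h1, p, hp, hpG, -, hv⟩ := hneg (X i₀ * B3_h i₀ G') i hGJ
      ⟨1 + G'.totalDegree, (isHomogeneous_X K i₀).mul (B3_h_hom i₀ G')⟩
    obtain ⟨z, hz1, hz2, hz3, hz4⟩ := exists_member J hJ.homog i₀ hi e m f hf.homog jb G'
      (fun b => (Finset.dvd_prod_of_mem (fun b => f b (jb b)) (Finset.mem_univ b)).mul_left _) ε i p hp hpG
      (fun h2 => absurd h2.2 (not_le.2 (hv h2.1)))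
    refine ⟨L, i1, i2, i3, z, h1, hz1, hz2, ?_, hz4⟩
    intro k hk h2
    apply hz3
    rw [hG', map_mul, map_prod, Finset.prod_eq_zero (Finset.mem_range.2 (Nat.lt_succ_of_le hk)) h2, zero_mul]
  choose L i1 i2 i3 z h1 h2 h3 h4 h5 using hmem
  refine ⟨ι, β, κ, hι, hβ, hκ, J, hpr, e, f, m, ε, i₀, L, i1, i2, i3, z, hJ, hf, hm, hε, hi, h1, h2, h3, ?_, h5⟩
  intro H hH
  obtain ⟨k, hk⟩ := hHs ⟨H, hH⟩
  filter_upwards [Filter.eventually_ge_atTop k] with i hik
  have h6 := h4 i k hik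
  rw [hk] at h6
  exact h6

end Pool.Agent.Lib.MP_17a322_nt.AP
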