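import Pool.Agent.Lib.MP_17a322_nt.RV.U1

/-!
Upper bound for the heights of the values of polynomials, uniform in the field.
-/

namespace Pool.Agent.Lib.MP_17a322_nt.AP

open MvPolynomial Height NumberField

/-- A fixed linear map with coefficients in `K`, evaluated over extensions. -/
theorem linear_unif {K : Type} [Field K] [NumberField K] {ι κ : Type} [Fintype ι] [Finite κ] (A : κ × ι → K) :
    ∃ C : ℝ, 0 ≤ C ∧ ∀ (L : Type) [Field L] [NumberField L] [Algebra K L] (x : ι → L),
      logHeight (fun k => ∑ i, algebraMap K L (A (k, i)) * x i) ≤ logHeight x + C * Module.finrank ℚ L := by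
  refine ⟨Real.log (Nat.card ι) + logHeight A,
    add_nonneg (Real.log_natCast_nonneg _) (logHeight_nonneg _), ?_⟩
  intro L _ _ _ x
  have h1 := logHeight_linearMap_apply_le (fun p : κ × ι => algebraMap K L (A p)) x
  have h2 : logHeight (fun p : κ × ι => algebraMap K L (A p)) = Module.finrank K L * logHeight A :=
    RV.logHeight_algebraMap A
  have h3 : ((totalWeight L : ℕ) : ℝ) = Module.finrank ℚ L := by
    rw [NumberField.totalWeight_eq_finrank]
  rw [h2, h3] at h1
  have h0 : (Module.finrank K L : ℝ) ≤ Module.finrank ℚ L := by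
    have h1 : Module.finrank ℚ K * Module.finrank K L = Module.finrank ℚ L := Module.finrank_mul_finrank ℚ K L
    have h2 : 0 < Module.finrank ℚ K := Module.finrank_pos
    have h3 : Module.finrank K L ≤ Module.finrank ℚ L := by
      rw [← h1]
      exact Nat.le_mul_of_pos_left _ h2
    exact_mod_cast h3
  have h4 : (Module.finrank K L : ℝ) * logHeight A ≤ Module.finrank ℚ L * logHeight A :=
    mul_le_mul_of_nonneg_right h0 (logHeight_nonneg _)
  have h5 : (Real.log (Nat.card ι) + logHeight A) * (Module.finrank ℚ L : ℝ) =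
      (Module.finrank ℚ L : ℝ) * Real.log (Nat.card ι) + Module.finrank ℚ L * logHeight A := by
    ring
  rw [h5]
  linarith

/-- A monomial of degree at most `d` is a product of `d` coordinates, if one of the coordinates is `1`. -/
theorem exists_index {ι : Type} [Fintype ι] (i₀ : ι) (d : ℕ) (m : ι →₀ ℕ) (hm : m.degree ≤ d) :
    ∃ J : Fin d → ι, ∀ (L : Type) [CommMonoid L] (z : ι → L), z i₀ = 1 → ∏ a, z (J a) = ∏ i, z i ^ m i := by
  classical
  set m' : ι →₀ ℕ := m + Finsupp.single i₀ (d - m.degree) with hm'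
  have hcard : (Finsupp.toMultiset m').toList.length = d := by
    rw [Multiset.length_toList, Finsupp.card_toMultiset, hm']
    have h1 : (m + Finsupp.single i₀ (d - m.degree)).sum (fun _ => id) = (m + Finsupp.single i₀ (d - m.degree)).degree := rfl
    rw [h1, map_add, Finsupp.degree_single]
    omega
  refine ⟨fun a => (Finsupp.toMultiset m').toList.get (a.cast hcard.symm), ?_⟩
  intro L _ z hz
  have h1 : ∏ a : Fin d, z ((Finsupp.toMultiset m').toList.get (a.cast hcard.symm)) =
      ((Finsupp.toMultiset m').map z).prod := by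
    have h2 : ∏ a : Fin d, z ((Finsupp.toMultiset m').toList.get (a.cast hcard.symm)) =
        ∏ a : Fin (Finsupp.toMultiset m').toList.length, z ((Finsupp.toMultiset m').toList.get a) :=
      Fintype.prod_equiv (finCongr hcard.symm) _ _ fun a => rfl
    rw [h2]
    conv_rhs => rw [← Multiset.coe_toList (Finsupp.toMultiset m')]
    rw [Multiset.map_coe, Multiset.prod_coe]
    have h3 := List.prod_ofFn (f := fun a : Fin (Finsupp.toMultiset m').toList.length =>
      z ((Finsupp.toMultiset m').toList.get a))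
    rw [← h3]
    congr 1
    apply List.ext_get
    · simp
    · intro n h1 h2
      simp
  have h4 : (Finsupp.single i₀ (d - m.degree)).prod (fun x n => z x ^ n) = 1 := by
    rw [Finsupp.prod_single_index (h := fun x n => z x ^ n) (pow_zero (z i₀)), hz, one_pow]
  have h5 : m.prod (fun x n => z x ^ n) = ∏ i, z i ^ m i := Finsupp.prod_fintype _ _ fun _ => pow_zero _
  rw [h1, Finsupp.toMultiset_map, Finsupp.prod_toMultiset, Finsupp.prod_mapDomain_index (fun _ => pow_zero _)
    (fun _ _ _ => pow_add _ _ _), hm', Finsupp.prod_add_index' (fun _ => pow_zero _)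
    (fun _ _ _ => pow_add _ _ _)]
  exact (congrArg₂ (· * ·) h5 h4).trans (mul_one _)

/-- Polynomials over `K`, evaluated over extensions at points with a coordinate `1`. -/
theorem poly_unif {K : Type} [Field K] [NumberField K] {ι κ : Type} [Fintype ι] [Finite κ] (i₀ : ι)
    (Q : κ → MvPolynomial ι K) :
    ∃ (d : ℕ) (C : ℝ), 0 ≤ C ∧ ∀ (L : Type) [Field L] [NumberField L] [Algebra K L] (z : ι → L), z i₀ = 1 →
      logHeight (fun k => aeval z (Q k)) ≤ d * logHeight z + C * Module.finrank ℚ L := by
  classical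
  have : Fintype κ := Fintype.ofFinite κ
  obtain ⟨d, hd⟩ : ∃ d : ℕ, ∀ k, ∀ m ∈ (Q k).support, m.degree ≤ d := by
    refine ⟨∑ k, (Q k).totalDegree, fun k m hm => ?_⟩
    refine (le_totalDegree hm).trans ?_
    exact Finset.single_le_sum (f := fun k => (Q k).totalDegree) (fun _ _ => Nat.zero_le _) (Finset.mem_univ k)
  have hJ : ∀ m : ι →₀ ℕ, ∃ J : Fin d → ι, m.degree ≤ d → ∀ (L : Type) [CommMonoid L] (z : ι → L), z i₀ = 1 →
      ∏ a, z (J a) = ∏ i, z i ^ m i := by
    intro m
    by_cases hm : m.degree ≤ d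
    · obtain ⟨J, hJ⟩ := exists_index i₀ d m hm
      exact ⟨J, fun _ => hJ⟩
    · exact ⟨fun _ => i₀, fun h => absurd h hm⟩
  choose I hI using hJ
  set A : κ × (Fin d → ι) → K := fun p => ∑ m ∈ (Q p.1).support, if I m = p.2 then coeff m (Q p.1) else 0
    with hA
  obtain ⟨C, hC0, hC⟩ := linear_unif A
  refine ⟨d, C, hC0, ?_⟩
  intro L _ _ _ z hz
  have h1 : (fun k => aeval z (Q k)) = fun k => ∑ J : Fin d → ι, algebraMap K L (A (k, J)) * ∏ a, z (J a) := by
    funext k
    have hA' : ∀ J : Fin d → ι, algebraMap K L (A (k, J)) * ∏ a, z (J a) =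
        ∑ m ∈ (Q k).support, if I m = J then algebraMap K L (coeff m (Q k)) * ∏ i, z i ^ m i else 0 := by
      intro J
      rw [hA, map_sum, Finset.sum_mul]
      refine Finset.sum_congr rfl fun m hm => ?_
      split_ifs with hJ
      · have hJ' : I m = J := hJ
        subst hJ'
        rw [hI m (hd k m hm) L z hz]
      · rw [map_zero, zero_mul]
    rw [Finset.sum_congr rfl fun J _ => hA' J, Finset.sum_comm, aeval_def, eval₂_eq']
    refine Finset.sum_congr rfl fun m _ => ?_
    rw [Finset.sum_ite_eq, if_pos (Finset.mem_univ _)]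
  have hz0 : z ≠ 0 := by
    intro h
    rw [h] at hz
    exact zero_ne_one hz
  have h2 : logHeight (fun J : Fin d → ι => ∏ a, z (J a)) = d * logHeight z := by
    rw [logHeight_fun_prod_eq (x := fun _ : Fin d => z) (fun _ => hz0), Finset.sum_const, Finset.card_univ,
      Fintype.card_fin, nsmul_eq_mul]
  have h3 := hC L (fun J : Fin d → ι => ∏ a, z (J a))
  rw [h2] at h3
  rw [h1]
  exact h3

end Pool.Agent.Lib.MP_17a322_nt.AP
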