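import Pool.Agent.Lib.MP_17a322_nt.AP.H1
import Pool.Agent.Lib.MP_17a322_nt.AP.H3a
import Pool.Agent.Lib.MP_17a322_nt.ABN.A6a

/-!
The absolute heights of the points of the sequence tend to infinity.
-/

namespace Pool.Agent.Lib.MP_17a322_nt.AP

open MvPolynomial hiding psum
open Height NumberField
open Pool.Agent.Lib.MP_17a322_nt.EQ
open Pool.Agent.Lib.MP_17a322_nt.JAC

/-- The truncated counting function is nonnegative. -/
theorem truncL_nonneg {K L : Type} [Field K] [Field L] [Algebra K L] {ι κ β : Type} [Fintype ι]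
    [NumberField L] (m e : ℕ) (f : β → κ → MvPolynomial ι K) (p : ι → L) : 0 ≤ truncL m e f p := by
  unfold truncL
  refine finsum_nonneg fun v => finsum_nonneg fun _ => ?_
  exact Real.log_natCast_nonneg _

/-- The logarithm of the discriminant is nonnegative. -/
theorem log_discr_nonneg (L : Type) [Field L] [NumberField L] : 0 ≤ Real.log |(discr L : ℝ)| := by
  apply Real.log_nonneg
  have h1 : discr L ≠ 0 := discr_ne_zero L
  have h2 : 1 ≤ |discr L| := Int.one_le_abs h1
  exact_mod_cast h2

/-- The absolute heights of the points of the sequence tend to infinity. -/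
theorem seq_top {K : Type} [Field K] [NumberField K] {n r : ℕ} {ι β κ : Type} [Fintype ι] [Fintype β]
    [Fintype κ] (J : Ideal (MvPolynomial ι K)) [J.IsPrime] (e : ℕ) (f : β → κ → MvPolynomial ι K) (m : ℕ)
    (ε : ℝ) (i₀ : ι) (L : ℕ → Type) [∀ i, Field (L i)] [∀ i, NumberField (L i)] [∀ i, Algebra K (L i)]
    (z : ∀ i, ι → L i) (hJ : Smooth J n) (hf : Snc J e f) (hε : 0 < ε) (hi : X i₀ ∉ J)
    (hr : ∀ i, Module.finrank K (L i) ≤ r) (hz1 : ∀ i, z i i₀ = 1)
    (hz2 : ∀ i, ∀ H ∈ dh J i₀, aeval (z i) H = 0)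
    (hz3 : ∀ H ∉ dh J i₀, ∀ᶠ i in Filter.atTop, aeval (z i) H ≠ 0)
    (hv : ∀ i : ℕ, truncL m e f (z i) + Real.log |(discr (L i) : ℝ)| + ε * logHeight (z i) + i <
        ∑ b, (e * logHeight (z i) - logHeight fun j => aeval (z i) (f b j)) + hCanL J (z i)) :
    Filter.Tendsto (fun i => logHeight (z i) / Module.finrank ℚ (L i)) Filter.atTop Filter.atTop := by
  classical
  obtain ⟨α, hα, hα', x, δ, hx, hfin, hδ, hu⟩ := exists_frame (dh J i₀)
  obtain ⟨B, N, hB, hN, hcan⟩ := hCanL_eq J hJ.homog i₀ hi x δ hδ hu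
  -- the minors are polynomials
  obtain ⟨d, C, hC0, hC⟩ := poly_unif i₀ (fun s : Option α → ι => (Matrix.of fun a b : Option α =>
    a.elim (X (s b) : MvPolynomial ι K) fun l => N l (s b)).det)
  have hdet : ∀ (M : Type) [Field M] [Algebra K M] (z : ι → M) (s : Option α → ι),
      aeval z (Matrix.of fun a b : Option α => a.elim (X (s b) : MvPolynomial ι K) fun l => N l (s b)).det =
        (Matrix.of fun a b : Option α => a.elim (z (s b)) fun l => aeval z (N l (s b))).det := by
    intro M _ _ z s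
    rw [AlgHom.map_det]
    congr 1
    ext a b
    rcases a with _ | l
    · exact aeval_X z (s b)
    · rfl
  set D : ℝ := ((Module.finrank ℚ K * r : ℕ) : ℝ) with hD
  have hr0 : 0 < r := by
    have h1 : FiniteDimensional K (L 0) := Module.Finite.of_restrictScalars_finite ℚ K (L 0)
    have h2 : 0 < Module.finrank K (L 0) := Module.finrank_pos
    exact lt_of_lt_of_le h2 (hr 0)
  have hD0 : 0 < D := by
    rw [hD]
    exact_mod_cast Nat.mul_pos (Module.finrank_pos (R := ℚ) (M := K)) hr0
  have hfr : ∀ i, (Module.finrank ℚ (L i) : ℝ) ≤ D := by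
    intro i
    rw [← Module.finrank_mul_finrank ℚ K (L i), hD]
    exact_mod_cast Nat.mul_le_mul_left _ (hr i)
  have hfr0 : ∀ i, (0 : ℝ) < Module.finrank ℚ (L i) := by
    intro i
    exact_mod_cast (Module.finrank_pos (R := ℚ) (M := L i))
  set c : ℝ := Fintype.card β * e + d + 1 with hc
  have hc0 : 0 < c := by positivity
  have key : ∀ᶠ i : ℕ in Filter.atTop, ((i : ℝ) - C * D) / (c * D) ≤ logHeight (z i) / Module.finrank ℚ (L i) := by
    filter_upwards [hz3 B hB] with i hBi
    obtain ⟨-, h1⟩ := hcan (L i) (z i) (hz2 i) hBi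
    have h2 := hC (L i) (z i) (hz1 i)
    have h3 : (fun s : Option α → ι => aeval (z i) (Matrix.of fun a b : Option α =>
        a.elim (X (s b) : MvPolynomial ι K) fun l => N l (s b)).det) =
        fun s : Option α → ι => (Matrix.of fun a b : Option α =>
          a.elim (z i (s b)) fun l => aeval (z i) (N l (s b))).det := funext fun s => hdet (L i) (z i) s
    rw [h3] at h2
    have h4 : 0 ≤ logHeight (z i) := logHeight_nonneg _
    have h5 : ∑ b, (e * logHeight (z i) - logHeight fun j => aeval (z i) (f b j)) ≤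
        Fintype.card β * e * logHeight (z i) := by
      have h6 : ∀ b ∈ Finset.univ, (e * logHeight (z i) - logHeight fun j => aeval (z i) (f b j)) ≤
          e * logHeight (z i) := fun b _ => sub_le_self _ (logHeight_nonneg _)
      refine (Finset.sum_le_sum h6).trans (le_of_eq ?_)
      rw [Finset.sum_const, Finset.card_univ, nsmul_eq_mul, mul_assoc]
    have h7 := hv i
    have h8 := truncL_nonneg m e f (z i)
    have h9 := log_discr_nonneg (L i)
    have h10 : 0 ≤ ε * logHeight (z i) := mul_nonneg hε.le h4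
    have h11 : C * Module.finrank ℚ (L i) ≤ C * D := mul_le_mul_of_nonneg_left (hfr i) hC0
    have h12 : 0 ≤ ((Fintype.card α : ℝ) + 1) * logHeight (z i) := by positivity
    have h13 : (i : ℝ) - C * D ≤ c * logHeight (z i) := by
      rw [hc]
      rw [h1] at h7
      nlinarith [h2, h5, h7, h8, h9, h10, h11, h12, h4]
    rw [div_le_div_iff₀ (mul_pos hc0 hD0) (hfr0 i)]
    rcases le_or_gt 0 ((i : ℝ) - C * D) with h14 | h14
    · calc ((i : ℝ) - C * D) * Module.finrank ℚ (L i) ≤ ((i : ℝ) - C * D) * D :=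
            mul_le_mul_of_nonneg_left (hfr i) h14
        _ ≤ (c * logHeight (z i)) * D := mul_le_mul_of_nonneg_right h13 hD0.le
        _ = logHeight (z i) * (c * D) := by ring
    · have h15 : ((i : ℝ) - C * D) * Module.finrank ℚ (L i) ≤ 0 :=
        mul_nonpos_of_nonpos_of_nonneg h14.le (hfr0 i).le
      have h16 : 0 ≤ logHeight (z i) * (c * D) := by positivity
      linarith
  refine Filter.tendsto_atTop_mono' _ key ?_
  apply Filter.Tendsto.atTop_div_const (mul_pos hc0 hD0)
  exact Filter.tendsto_atTop_add_const_right _ _ tendsto_natCast_atTop_atTop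

end Pool.Agent.Lib.MP_17a322_nt.AP
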