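import Pool.Agent.Lib.MP_17a322_nt.AP.O4

/-!
The field of the classes of the sequences of algebraic numbers.
-/

namespace Pool.Agent.Lib.MP_17a322_nt.AP

open Height NumberField

namespace EvO

variable {B : Type} [Field B] (X : EvO B ℕ)

theorem eq_zero_of_ev {x : B} (h : ∀ᶠ i in (X.U : Filter ℕ), X.ev x i = 0) : x = 0 := by
  by_contra hx
  obtain ⟨i, h1, h2⟩ := (h.and (X.ev_ne hx)).exists
  exact h2 h1

theorem ev_inj {x y : B} (h : ∀ᶠ i in (X.U : Filter ℕ), X.ev x i = X.ev y i) : x = y := by
  have h1 : x - y = 0 := by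
    apply X.eq_zero_of_ev
    filter_upwards [h, X.add x (-y), X.ev_neg y] with i h1 h2 h3
    rw [sub_eq_add_neg, h2, h3, h1, add_neg_cancel]
  exact sub_eq_zero.1 h1

/-- The elements whose values lie in the subfields `S i`. -/
def sub (S : ℕ → Subfield Om) : Subfield B where
  carrier := {x | ∀ᶠ i in (X.U : Filter ℕ), X.ev x i ∈ S i}
  mul_mem' := by
    intro x y hx hy
    filter_upwards [hx, hy, X.mul x y] with i h1 h2 h3
    rw [h3]
    exact mul_mem h1 h2
  one_mem' := by
    filter_upwards [X.one] with i h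
    rw [h]
    exact one_mem _
  add_mem' := by
    intro x y hx hy
    filter_upwards [hx, hy, X.add x y] with i h1 h2 h3
    rw [h3]
    exact add_mem h1 h2
  zero_mem' := by
    filter_upwards [X.ev_zero] with i h
    rw [h]
    exact zero_mem _
  neg_mem' := by
    intro x hx
    filter_upwards [hx, X.ev_neg x] with i h1 h3
    rw [h3]
    exact neg_mem h1
  inv_mem' := by
    intro x hx
    filter_upwards [hx, X.ev_inv x] with i h1 h3
    rw [h3]
    exact inv_mem h1

theorem mem_sub {S : ℕ → Subfield Om} {x : B} : x ∈ X.sub S ↔ ∀ᶠ i in (X.U : Filter ℕ), X.ev x i ∈ S i := Iff.rfl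

end EvO

/-- A field homomorphism into the field of the classes of the sequences from homomorphisms into the field
of the algebraic numbers. -/
theorem exists_hom {B : Type} [Field B] (X : EvO B ℕ) {A : Type} [CommRing A] (φ : ∀ i : ℕ, A →+* Om)
    (s : A → B) (hs : ∀ a, ∀ᶠ i in (X.U : Filter ℕ), X.ev (s a) i = φ i a) :
    ∃ f : A →+* B, ∀ a, f a = s a := by
  have hf1 : s 1 = 1 := by
    apply X.ev_inj
    filter_upwards [hs 1, X.one] with i h1 h2
    rw [h1, h2, map_one]
  have hf2 : ∀ a b, s (a * b) = s a * s b := by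
    intro a b
    apply X.ev_inj
    filter_upwards [hs (a * b), hs a, hs b, X.mul (s a) (s b)] with i h1 h2 h3 h4
    rw [h1, h4, h2, h3, map_mul]
  have hf3 : s 0 = 0 := by
    apply X.ev_inj
    filter_upwards [hs 0, X.ev_zero] with i h1 h2
    rw [h1, h2, map_zero]
  have hf4 : ∀ a b, s (a + b) = s a + s b := by
    intro a b
    apply X.ev_inj
    filter_upwards [hs (a + b), hs a, hs b, X.add (s a) (s b)] with i h1 h2 h3 h4
    rw [h1, h4, h2, h3, map_add]
  exact ⟨{ toFun := s, map_one' := hf1, map_mul' := hf2, map_zero' := hf3, map_add' := hf4 }, fun _ => rfl⟩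

end Pool.Agent.Lib.MP_17a322_nt.AP
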