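import Mathlib

/-!
A finitely generated field which contains given algebraic elements and is finite over
its intersection with the base field.
-/

namespace Pool.Agent.Lib.MP_17a322_nt.AP

open Polynomial

/-- Finitely many elements `g k` of `B` which are algebraic over `R` lie in a finitely generated field `F`
which is finite over `F ∩ R` and is generated by the `g k` and elements of `R`. -/
theorem exists_fg {R B : Type} [Field R] [Field B] [Algebra R B] [Algebra ℚ B] (hB : Algebra.IsAlgebraic R B)
    {σ : Type} [Finite σ] (g : σ → B) :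
    ∃ F : IntermediateField ℚ B, F.FG ∧ (∀ k, g k ∈ F) ∧
      (∀ T : Subfield B, (∀ k, g k ∈ T) → (∀ c : R, algebraMap R B c ∈ T) → ∀ y ∈ F, y ∈ T) ∧
      FiniteDimensional ((algebraMap R B).fieldRange.comap (algebraMap F B) : Subfield F) F := by
  classical
  set S : Set B := Set.range g ∪ ⋃ k, (fun n : ℕ => algebraMap R B ((minpoly R (g k)).coeff n)) ''
    (Set.Iic (minpoly R (g k)).natDegree) with hS
  have hSf : S.Finite := by
    refine (Set.finite_range g).union (Set.finite_iUnion fun k => ?_)
    exact (Set.finite_Iic _).image _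
  set F := IntermediateField.adjoin ℚ S with hF
  have hgS : ∀ k, g k ∈ S := fun k => Or.inl ⟨k, rfl⟩
  have hcS : ∀ k n, algebraMap R B ((minpoly R (g k)).coeff n) ∈ F := by
    intro k n
    by_cases hn : n ≤ (minpoly R (g k)).natDegree
    · exact IntermediateField.subset_adjoin ℚ S (Or.inr (Set.mem_iUnion.2 ⟨k, n, hn, rfl⟩))
    · rw [coeff_eq_zero_of_natDegree_lt (not_le.1 hn), map_zero]
      exact zero_mem _
  have hgF : ∀ k, g k ∈ F := fun k => IntermediateField.subset_adjoin ℚ S (hgS k)
  have hcl : ∀ T : Subfield B, S ⊆ T → ∀ y ∈ F, y ∈ T := by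
    intro T hT y hy
    have h1 : y ∈ F.toSubfield := hy
    rw [hF] at h1
    have h2 : (IntermediateField.adjoin ℚ S).toSubfield ≤ T := by
      refine Subfield.closure_le.2 ?_
      rintro _ (⟨q, rfl⟩ | h3)
      · rw [eq_ratCast]
        exact SubfieldClass.ratCast_mem T q
      · exact hT h3
    exact h2 h1
  refine ⟨F, IntermediateField.fg_adjoin_of_finite hSf, hgF, ?_, ?_⟩
  · intro T h1 h2 y hy
    refine hcl T ?_ y hy
    rintro _ (⟨k, rfl⟩ | h3)
    · exact h1 k
    · obtain ⟨k, n, -, rfl⟩ := Set.mem_iUnion.1 h3
      exact h2 _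
  · set E : Subfield F := (algebraMap R B).fieldRange.comap (algebraMap F B) with hE
    set e : E →+* B := (algebraMap F B).comp (algebraMap E F) with he
    set G : Set F := Set.range fun k => (⟨g k, hgF k⟩ : F) with hG
    have hint : ∀ x ∈ G, IsIntegral E x := by
      rintro _ ⟨k, rfl⟩
      have hal : IsIntegral R (g k) := (hB.isAlgebraic (g k)).isIntegral
      have hlift : (minpoly R (g k)).map (algebraMap R B) ∈ Polynomial.lifts e := by
        rw [Polynomial.lifts_iff_coeff_lifts]
        intro n
        rw [coeff_map]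
        refine ⟨⟨⟨_, hcS k n⟩, ?_⟩, rfl⟩
        rw [hE, Subfield.mem_comap]
        exact ⟨_, rfl⟩
      obtain ⟨q, hq1, -, hq2⟩ := Polynomial.lifts_and_natDegree_eq_and_monic hlift
        ((minpoly.monic hal).map _)
      refine ⟨q, hq2, ?_⟩
      apply (algebraMap F B).injective
      rw [hom_eval₂, map_zero]
      change eval₂ e (g k) q = 0
      rw [← eval_map, hq1, eval_map]
      exact minpoly.aeval R (g k)
    have hGf : Finite G := Set.finite_range _
    have hfd : FiniteDimensional E (IntermediateField.adjoin E G) := IntermediateField.finiteDimensional_adjoin hint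
    have htop : IntermediateField.adjoin E G = ⊤ := by
      rw [eq_top_iff]
      intro y _
      have h1 : (y : B) ∈ (IntermediateField.adjoin E G).toSubfield.map (algebraMap F B) := by
        refine hcl _ ?_ _ y.2
        rintro _ (⟨k, rfl⟩ | h3)
        · exact ⟨⟨g k, hgF k⟩, IntermediateField.subset_adjoin E G ⟨k, rfl⟩, rfl⟩
        · obtain ⟨k, n, -, rfl⟩ := Set.mem_iUnion.1 h3
          have h4 : (⟨algebraMap R B ((minpoly R (g k)).coeff n), hcS k n⟩ : F) ∈ E := by
            rw [hE, Subfield.mem_comap]
            exact ⟨_, rfl⟩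
          refine ⟨⟨_, hcS k n⟩, ?_, rfl⟩
          exact (IntermediateField.adjoin E G).algebraMap_mem (⟨_, h4⟩ : E)
      obtain ⟨t, ht, hty⟩ := h1
      have h2 : t = y := (algebraMap F B).injective hty
      rw [← h2]
      exact ht
    rw [htop] at hfd
    exact Module.Finite.equiv (IntermediateField.topEquiv (F := E) (E := F)).toLinearEquiv

end Pool.Agent.Lib.MP_17a322_nt.AP
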