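import Pool.Agent.Lib.MP_17a322_nt.AP.IO
import Pool.Agent.Lib.MP_17a322_nt.AP.H4a
import Pool.Agent.Lib.MP_17a322_nt.AP.H4b
import Pool.Agent.Lib.MP_17a322_nt.JAC.B0

/-!
The function field of the variety in the field of the classes of the sequences.
-/

namespace Pool.Agent.Lib.MP_17a322_nt.AP

open MvPolynomial hiding psum
open Height NumberField
open Pool.Agent.Lib.MP_17a322_nt.EQ
open Pool.Agent.Lib.MP_17a322_nt.JAC
open Pool.Agent.Lib.MP_17a322_nt.FQ (Evl)

/-- The classes of the coordinates of the points. -/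
theorem exists_coord {K : Type} [Field K] [NumberField K] {r : ℕ} {ι : Type} [Fintype ι]
    (L : ℕ → Type) [∀ i, Field (L i)] [∀ i, NumberField (L i)] [∀ i, Algebra K (L i)]
    (hr : ∀ i, Module.finrank K (L i) ≤ r) (z : ∀ i, ι → L i) {B : Type} [Field B]
    (X : EvO B ℕ) (hh : ∀ i, logHeight (z i) / Module.finrank ℚ (L i) ≤ X.h i)
    (hz1 : ∀ i, ∃ i₀, z i i₀ = 1) (j : ∀ i, L i →+* Om) (a : ι) :
    ∃ x : B, ∀ᶠ i in (X.U : Filter ℕ), X.ev x i = j i (z i a) := by
  apply X.surj
  · refine ⟨Module.finrank ℚ K * r, Filter.Eventually.of_forall fun i => ?_⟩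
    have h1 : minpoly ℚ (j i (z i a)) = minpoly ℚ (z i a) :=
      minpoly.algHom_eq (j i).toRatAlgHom (j i).injective (z i a)
    rw [h1]
    refine (minpoly.natDegree_le (z i a)).trans ?_
    rw [← Module.finrank_mul_finrank ℚ K (L i)]
    exact Nat.mul_le_mul_left _ (hr i)
  · refine ⟨1, Filter.Eventually.of_forall fun i => ?_⟩
    rw [one_mul]
    refine le_trans ?_ (hh i)
    obtain ⟨i₀, hi₀⟩ := hz1 i
    have hpos : (0 : ℝ) < Module.finrank ℚ (L i) := by
      exact_mod_cast (Module.finrank_pos (R := ℚ) (M := L i))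
    have h1 := hO_eq (j i) (![1, z i a] : Fin 2 → L i)
    have h2 : (fun b => j i ((![1, z i a] : Fin 2 → L i) b)) = ![1, j i (z i a)] := by
      funext b
      fin_cases b
      · exact map_one _
      · rfl
    rw [h2] at h1
    have h3 : (![1, z i a] : Fin 2 → L i) = z i ∘ ![i₀, a] := by
      funext b
      fin_cases b
      · exact hi₀.symm
      · rfl
    rw [le_div_iff₀ hpos, mul_comm, ← h1, h3]
    exact logHeight_comp_le _ _

/-- The classes of the constant sequences. -/
theorem exists_const {B : Type} [Field B] (X : EvO B ℕ) (c : Om) :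
    ∃ x : B, ∀ᶠ i in (X.U : Filter ℕ), X.ev x i = c := by
  apply X.surj
  · exact ⟨(minpoly ℚ c).natDegree, Filter.Eventually.of_forall fun i => le_rfl⟩
  · refine ⟨|hO ![1, c]|, ?_⟩
    filter_upwards [X.top.eventually_ge_atTop 1] with i hi
    exact (le_abs_self _).trans (le_mul_of_one_le_right (abs_nonneg _) hi)

/-- The fields: the function field `FX` of the variety in the field `B` of the classes of the
sequences of algebraic numbers, and a field `F` which is finite over a subfield `E` of classes of rational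
sequences. -/
theorem exists_fields {K : Type} [Field K] [NumberField K] {r : ℕ} {ι : Type} [Fintype ι]
    (L : ℕ → Type) [∀ i, Field (L i)] [∀ i, NumberField (L i)] [∀ i, Algebra K (L i)]
    (hr : ∀ i, Module.finrank K (L i) ≤ r) (z : ∀ i, ι → L i) {B : Type} [Field B] [Algebra ℚ B]
    (X : EvO B ℕ) {R : Type} [Field R] [Algebra ℚ R] [Algebra R B] [IsScalarTower ℚ R B] (Y : Evl ℚ R ℕ)
    (hc : Cmp X Y) (hh : ∀ i, logHeight (z i) / Module.finrank ℚ (L i) ≤ X.h i)
    (hz1 : ∀ i, ∃ i₀, z i i₀ = 1) (I : Ideal (MvPolynomial ι K)) [I.IsPrime]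
    (hz2 : ∀ i, ∀ H ∈ I, aeval (z i) H = 0)
    (hz3 : ∀ H ∉ I, ∀ᶠ i in (X.U : Filter ℕ), aeval (z i) H ≠ 0) :
    ∃ (j : ∀ i, L i →+* Om) (F : Type) (_ : Field F) (_ : Algebra ℚ F) (_ : Algebra (FF I) F)
      (_ : Algebra F B) (_ : IsScalarTower ℚ F B) (E : Subfield F), (⊤ : IntermediateField ℚ F).FG ∧
      FiniteDimensional E F ∧ (∀ y ∈ E, ∃ y' : R, algebraMap R B y' = algebraMap F B y) ∧
      (∀ a : ι, ∀ᶠ i in (X.U : Filter ℕ), X.ev (algebraMap F B (algebraMap (FF I) F (gn I a))) i = j i (z i a)) ∧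
      (∀ c : K, ∀ᶠ i in (X.U : Filter ℕ), X.ev (algebraMap F B (algebraMap (FF I) F (algebraMap K (FF I) c))) i =
        j i (algebraMap K (L i) c)) ∧
      ∀ y : F, ∀ᶠ i in (X.U : Filter ℕ), X.ev (algebraMap F B y) i ∈ (j i).range := by
  classical
  -- the embeddings
  obtain ⟨τ⟩ : Nonempty (K →+* Om) := ⟨(IsAlgClosed.lift : K →ₐ[ℚ] Om).toRingHom⟩
  have hj : ∀ i, ∃ φ : L i →+* Om, ∀ c, φ (algebraMap K (L i) c) = τ c := by
    intro i
    let _ : Algebra K Om := τ.toAlgebra
    have : FiniteDimensional K (L i) := Module.Finite.of_restrictScalars_finite ℚ K (L i)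
    have : Algebra.IsAlgebraic K (L i) := inferInstance
    let φ : L i →ₐ[K] Om := IsAlgClosed.lift
    exact ⟨φ.toRingHom, fun c => φ.commutes c⟩
  choose j hjK using hj
  -- the classes
  choose xs hxs using exists_coord L hr z X hh hz1 j
  choose κs hκs using fun c : K => exists_const X (τ c)
  obtain ⟨κ₀, hκ₀⟩ := exists_hom X (fun _ => τ) κs hκs
  have hκ : ∀ c, ∀ᶠ i in (X.U : Filter ℕ), X.ev (κ₀ c) i = j i (algebraMap K (L i) c) := by
    intro c
    filter_upwards [hκs c] with i hi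
    rw [hκ₀, hi, hjK]
  set Φ : MvPolynomial ι K →+* B := eval₂Hom κ₀ xs with hΦdef
  have hΦ : ∀ H, ∀ᶠ i in (X.U : Filter ℕ), X.ev (Φ H) i = j i (aeval (z i) H) := by
    intro H
    induction H using MvPolynomial.induction_on with
    | C a =>
      filter_upwards [hκ a] with i hi
      rw [hΦdef, eval₂Hom_C, hi, aeval_C]
    | add p q hp hq =>
      filter_upwards [hp, hq, X.add (Φ p) (Φ q)] with i h1 h2 h3
      rw [map_add, h3, h1, h2, map_add, map_add]
    | mul_X p a hp =>
      filter_upwards [hp, hxs a, X.mul (Φ p) (xs a)] with i h1 h2 h3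
      rw [map_mul, hΦdef, eval₂Hom_X', ← hΦdef, h3, h1, h2, map_mul, map_mul, aeval_X]
  have hker : ∀ H ∈ I, Φ H = 0 := by
    intro H hH
    apply X.eq_zero_of_ev
    filter_upwards [hΦ H] with i hi
    rw [hi, hz2 i H hH, map_zero]
  have hker' : ∀ H, Φ H = 0 → H ∈ I := by
    intro H h0
    by_contra hH
    obtain ⟨i, h1, h2, h3⟩ := ((hΦ H).and ((hz3 H hH).and X.ev_zero)).exists
    rw [h0, h3] at h1
    apply h2
    apply (j i).injective
    rw [← h1, map_zero]
  set ψ₀ : MvPolynomial ι K ⧸ I →+* B := Ideal.Quotient.lift I Φ hker with hψ₀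
  have hψ₀i : Function.Injective ψ₀ := by
    rw [injective_iff_map_eq_zero]
    intro q hq
    obtain ⟨H, rfl⟩ := Ideal.Quotient.mk_surjective q
    rw [hψ₀, Ideal.Quotient.lift_mk] at hq
    exact Ideal.Quotient.eq_zero_iff_mem.2 (hker' H hq)
  set ψ : FF I →+* B := IsFractionRing.lift hψ₀i with hψdef
  have hψ : ∀ q, ψ (algebraMap (MvPolynomial ι K ⧸ I) (FF I) q) = ψ₀ q :=
    fun q => IsFractionRing.lift_algebraMap hψ₀i q
  have hψg : ∀ a, ψ (gn I a) = xs a := by
    intro a
    rw [gn, hψ, hψ₀, Ideal.Quotient.lift_mk, hΦdef, eval₂Hom_X']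
  have hψK : ∀ c, ψ (algebraMap K (FF I) c) = κ₀ c := by
    intro c
    have h1 : algebraMap K (FF I) c = algebraMap (MvPolynomial ι K ⧸ I) (FF I) (Ideal.Quotient.mk I (C c)) := by
      rw [IsScalarTower.algebraMap_apply K (MvPolynomial ι K ⧸ I) (FF I)]
      rfl
    rw [h1, hψ, hψ₀, Ideal.Quotient.lift_mk, hΦdef, eval₂Hom_C]
  -- the field
  set bK := Module.finBasis ℚ K with hbK
  obtain ⟨F, hF1, hF2, hF3, hF4⟩ := exists_fg hc.alg
    (Sum.elim (fun k => κ₀ (bK k)) xs : Fin (Module.finrank ℚ K) ⊕ ι → B)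
  have hκF : ∀ c, κ₀ c ∈ F := by
    intro c
    rw [← bK.sum_repr c, map_sum]
    refine sum_mem fun k _ => ?_
    rw [Algebra.smul_def, map_mul]
    refine mul_mem ?_ (hF2 (Sum.inl k))
    rw [eq_ratCast, map_ratCast]
    exact SubfieldClass.ratCast_mem F _
  have hΦF : ∀ H, Φ H ∈ F := by
    intro H
    induction H using MvPolynomial.induction_on with
    | C a =>
      rw [hΦdef, eval₂Hom_C]
      exact hκF a
    | add p q hp hq =>
      rw [map_add]
      exact add_mem hp hq
    | mul_X p a hp =>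
      rw [map_mul]
      refine mul_mem hp ?_
      rw [hΦdef, eval₂Hom_X']
      exact hF2 (Sum.inr a)
  have hψF : ∀ y, ψ y ∈ F := by
    intro y
    obtain ⟨p, q, -, rfl⟩ := IsFractionRing.div_surjective (A := MvPolynomial ι K ⧸ I) y
    obtain ⟨P, rfl⟩ := Ideal.Quotient.mk_surjective p
    obtain ⟨Q, rfl⟩ := Ideal.Quotient.mk_surjective q
    rw [map_div₀, hψ, hψ, hψ₀, Ideal.Quotient.lift_mk, Ideal.Quotient.lift_mk]
    exact div_mem (hΦF P) (hΦF Q)
  have hFess : @Algebra.EssFiniteType ℚ F _ _ (IntermediateField.algebra' F) :=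
    IntermediateField.essFiniteType_iff.2 hF1
  have hFtop : @IntermediateField.FG ℚ _ F _ (IntermediateField.algebra' F) ⊤ :=
    (@IntermediateField.fg_top_iff ℚ _ F _ (IntermediateField.algebra' F)).2 hFess
  refine ⟨j, F, inferInstance, IntermediateField.algebra' F, (ψ.codRestrict F hψF).toAlgebra, inferInstance, inferInstance,
    (algebraMap R B).fieldRange.comap (algebraMap F B), ?_, hF4, ?_, ?_, ?_, ?_⟩
  · exact hFtop
  · intro y hy
    rw [Subfield.mem_comap] at hy
    exact hy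
  · intro a
    change ∀ᶠ i in (X.U : Filter ℕ), X.ev (ψ (gn I a)) i = j i (z i a)
    rw [hψg]
    exact hxs a
  · intro c
    change ∀ᶠ i in (X.U : Filter ℕ), X.ev (ψ (algebraMap K (FF I) c)) i = j i (algebraMap K (L i) c)
    rw [hψK]
    exact hκ c
  · intro y
    have h1 := hF3 (X.sub fun i => (j i).fieldRange) ?_ ?_ y y.2
    · filter_upwards [X.mem_sub.1 h1] with i hi
      exact hi
    · rintro (k | a)
      · filter_upwards [hκ (bK k)] with i hi
        exact ⟨_, hi.symm⟩
      · filter_upwards [hxs a] with i hi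
        exact ⟨_, hi.symm⟩
    · intro c
      filter_upwards [hc.ev c] with i hi
      rw [hi, eq_ratCast]
      exact SubfieldClass.ratCast_mem _ _

end Pool.Agent.Lib.MP_17a322_nt.AP
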