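import Pool.Agent.Lib.MP_17a322_nt.AP.ODefs

/-!
Evaluation in the fields `L i`.
-/

namespace Pool.Agent.Lib.MP_17a322_nt.AP

open Height NumberField

/-- Evaluation in the fields `L i`. -/
theorem exists_evv {B : Type} [Field B] (X : EvO B ℕ) {F : Type} [Field F] [Algebra F B] (L : ℕ → Type)
    [∀ i, Field (L i)] (j : ∀ i, L i →+* Om)
    (hF : ∀ y : F, ∀ᶠ i in (X.U : Filter ℕ), X.ev (algebraMap F B y) i ∈ (j i).range) :
    ∃ V : EvV F X.U L, ∀ y, ∀ᶠ i in (X.U : Filter ℕ), j i (V.ev y i) = X.ev (algebraMap F B y) i := by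
  classical
  set ev : F → ∀ i, L i := fun y i =>
    if h : X.ev (algebraMap F B y) i ∈ (j i).range then h.choose else 0 with hev
  have key : ∀ y, ∀ᶠ i in (X.U : Filter ℕ), j i (ev y i) = X.ev (algebraMap F B y) i := by
    intro y
    filter_upwards [hF y] with i hi
    have h1 : ev y i = hi.choose := by
      rw [hev]
      exact dif_pos hi
    rw [h1]
    exact hi.choose_spec
  refine ⟨⟨ev, ?_, ?_, ?_⟩, key⟩
  · intro x y
    filter_upwards [key (x + y), key x, key y, X.add (algebraMap F B x) (algebraMap F B y)] with i h1 h2 h3 h4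
    apply (j i).injective
    rw [h1, map_add, map_add, h2, h3, h4]
  · intro x y
    filter_upwards [key (x * y), key x, key y, X.mul (algebraMap F B x) (algebraMap F B y)] with i h1 h2 h3 h4
    apply (j i).injective
    rw [h1, map_mul, map_mul, h2, h3, h4]
  · filter_upwards [key 1, X.one] with i h1 h4
    apply (j i).injective
    rw [h1, map_one, map_one, h4]

end Pool.Agent.Lib.MP_17a322_nt.AP
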