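import Pool.Agent.Lib.MP_17a322_nt.AP.H1
import Pool.Agent.Lib.MP_17a322_nt.AP.H2
import Pool.Agent.Lib.MP_17a322_nt.AP.H3
import Pool.Agent.Lib.MP_17a322_nt.AP.H4
import Pool.Agent.Lib.MP_17a322_nt.AP.H5

/-!
The results about the points: `hCanL_eq` (H1), `exists_seq` (H2), `seq_top` (H3), `exists_fields` (H4), `exists_evv` (H5).
-/
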