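import Pool.Agent.Lib.MP_17a322_nt.AP.LL

/-!
The local inequality.
-/

namespace Pool.Agent.Lib.MP_17a322_nt.AP

open Pool.Agent.Lib.MP_17a322_nt.ABN (Un)
open Pool.Agent.Lib.MP_17a322_nt.FL (psi NT DT)

section

variable {F : Type} [Field F] [Algebra ℚ F] {ρ α κ σ I : Type} [Fintype ρ] [DecidableEq ρ] [Fintype α]
  [DecidableEq α] [Fintype κ] [Fintype σ] [Fintype I]

/-- The logarithmic derivative of a product. -/
private theorem IL_mul (D : Derivation ℚ F F) {x y : F} (hx : x ≠ 0) (hy : y ≠ 0) :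
    D (x * y) / (x * y) = D x / x + D y / y := by
  rw [Derivation.leibniz, smul_eq_mul, smul_eq_mul]
  field_simp
  ring

private theorem IL_pow (D : Derivation ℚ F F) {x : F} (hx : x ≠ 0) (n : ℕ) :
    D (x ^ n) / x ^ n = n * (D x / x) := by
  induction n with
  | zero => simp
  | succ n ih =>
    rw [pow_succ, IL_mul D (pow_ne_zero n hx) hx, ih]
    push_cast
    ring

private theorem IL_inv (D : Derivation ℚ F F) {x : F} (hx : x ≠ 0) : D x⁻¹ / x⁻¹ = -(D x / x) := by
  rw [Derivation.leibniz_inv, smul_eq_mul]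
  field_simp

private theorem IL_zpow (D : Derivation ℚ F F) {x : F} (hx : x ≠ 0) (n : ℤ) :
    D (x ^ n) / x ^ n = n * (D x / x) := by
  cases n with
  | ofNat n =>
    rw [Int.ofNat_eq_natCast, zpow_natCast, IL_pow D hx]
    push_cast
    rfl
  | negSucc n =>
    rw [zpow_negSucc, IL_inv D (pow_ne_zero _ hx), IL_pow D hx, Int.cast_negSucc]
    ring

private theorem IL_prod (D : Derivation ℚ F F) (f : I → F) (hf : ∀ i, f i ≠ 0) (n : I → ℤ) (s : Finset I) :
    D (∏ i ∈ s, f i ^ n i) / ∏ i ∈ s, f i ^ n i = ∑ i ∈ s, n i * (D (f i) / f i) := by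
  classical
  induction s using Finset.induction_on with
  | empty => simp
  | insert i s hi ih =>
    rw [Finset.prod_insert hi, Finset.sum_insert hi,
      IL_mul D (zpow_ne_zero _ (hf i)) (Finset.prod_ne_zero_iff.2 fun j _ => zpow_ne_zero _ (hf j)), ih,
      IL_zpow D (hf i)]

/-- The logarithmic derivative of a monomial. -/
private theorem IL_dlog (D : Derivation ℚ F F) (f : I → F) (hf : ∀ i, f i ≠ 0) (n : I → ℤ) {ε : ℚ} (hε : ε ≠ 0) :
    D (algebraMap ℚ F ε * ∏ i, f i ^ n i) / (algebraMap ℚ F ε * ∏ i, f i ^ n i) =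
      ∑ i, n i * (D (f i) / f i) := by
  rw [IL_mul D ((map_ne_zero _).2 hε) (Finset.prod_ne_zero_iff.2 fun j _ => zpow_ne_zero _ (hf j)),
    Derivation.map_algebraMap, zero_div, zero_add, IL_prod D f hf]

/-- The expansion of the determinant in the rows with the indices in `α`. -/
private theorem IL_expand (P : ρ → ρ ⊕ α → F) (c : α → I → F) (y : I → ρ ⊕ α → F) :
    (Matrix.of (Sum.elim P fun k t => ∑ i, c k i * y i t)).det =
      ∑ j : α → I, (∏ k, c k (j k)) * (Matrix.of (Sum.elim P fun k => y (j k))).det := by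
  obtain ⟨g, hg⟩ : ∃ g : MultilinearMap F (fun _ : α => ρ ⊕ α → F) F, ∀ x, g x = (Matrix.of (Sum.elim P x)).det :=
    ⟨(Matrix.detRowAlternating (R := F) (n := ρ ⊕ α)).toMultilinearMap.currySum P, fun x => rfl⟩
  have h1 : (fun k t => ∑ i, c k i * y i t) = fun k : α => ∑ i, c k i • y i := by
    funext k t
    rw [Finset.sum_apply]
    exact Finset.sum_congr rfl fun i _ => rfl
  rw [← hg, h1, g.map_sum]
  refine Finset.sum_congr rfl fun j _ => ?_
  rw [g.map_smul_univ (fun k => c k (j k)) fun k => y (j k), smul_eq_mul, hg]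

/-- The bound for one term. -/
private theorem IL_bound (v : ρ ⊕ α → Derivation ℚ F F)
    (hvs : ∀ D : Derivation ℚ F F, ∃ c : ρ ⊕ α → F, D = ∑ b, c b • v b) (m : κ → F) (A : ValuationSubring F)
    (s₀ : ρ ⊕ α → κ × κ) (h0 : NT m v s₀ ≠ 0) (hmax : ∀ s, A.valuation (NT m v s) ≤ A.valuation (NT m v s₀))
    (p : κ × (ρ → κ × κ)) (f : α → F) (hf : ∀ k, f k ≠ 0) (hfin : ∀ k, Fnr A m (f k)) (g : α → F)
    (hg1 : ∀ k, A.valuation (f k) ≤ A.valuation (g k)) (hg2 : ∀ k, A.valuation (f k)⁻¹ ≤ A.valuation (g k)) :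
    A.valuation (m p.1 ^ (2 * Fintype.card α) *
      (Matrix.of (Sum.elim (fun a t => psi m (v t) (p.2 a)) fun k t => v t (f k) / f k)).det) ≤
      A.valuation (NT m v s₀ * ∏ k, g k) := by
  have hgn : ∀ k, g k ≠ 0 := by
    intro k h
    have h1 : A.valuation (f k) ≠ 0 := (map_ne_zero _).2 (hf k)
    exact h1 (le_zero_iff.1 ((hg1 k).trans (by rw [h, map_zero])))
  obtain ⟨u, hu⟩ : ∃ u : ρ ⊕ α → F, u = Sum.elim (fun _ => 1) fun k => m p.1 ^ 2 / g k := ⟨_, rfl⟩
  obtain ⟨y, hy⟩ : ∃ y : ρ ⊕ α → ρ ⊕ α → F,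
      y = Sum.elim (fun a t => psi m (v t) (p.2 a)) fun k t => v t (f k) / f k := ⟨_, rfl⟩
  have h1 : (Matrix.of fun a t => u a * y a t).det = (∏ a, u a) * (Matrix.of y).det :=
    Matrix.det_mul_column u (Matrix.of y)
  have h2 : ∏ a, u a = m p.1 ^ (2 * Fintype.card α) / ∏ k, g k := by
    rw [hu, Fintype.prod_sum_type]
    simp only [Sum.elim_inl, Sum.elim_inr, Finset.prod_const_one, one_mul]
    rw [Finset.prod_div_distrib, Finset.prod_const, Finset.card_univ, pow_mul]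
  have hG : ∏ k, g k ≠ 0 := Finset.prod_ne_zero_iff.2 fun k _ => hgn k
  have h3 : A.valuation (Matrix.of fun a t => u a * y a t).det ≤
      A.valuation (Matrix.of fun a b => psi m (v b) (s₀ a)).det := by
    refine det_int m v A s₀ _ fun a => ?_
    rcases a with a | k
    · obtain ⟨c, hc, hc'⟩ := int_psi m v hvs A s₀ h0 hmax (p.2 a)
      refine ⟨c, hc, fun t => ?_⟩
      rw [hu, hy]
      simp only [Sum.elim_inl, one_mul]
      exact hc' _
    · obtain ⟨c, hc, hc'⟩ := int_dlog m v hvs A s₀ h0 hmax (hf k) (hfin k) p.1 (hg1 k) (hg2 k)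
      refine ⟨c, hc, fun t => ?_⟩
      rw [hu, hy]
      simp only [Sum.elim_inr]
      have h4 := hc' (v t)
      have h5 : m p.1 ^ 2 / g k * (v t (f k) / f k) = (m p.1 ^ 2 * (v t (f k) / f k)) / g k := by ring
      rw [h5, h4, mul_div_cancel_left₀ _ (hgn k)]
  rw [h1, h2] at h3
  rw [← hy]
  have h4 : m p.1 ^ (2 * Fintype.card α) * (Matrix.of y).det =
      ((m p.1 ^ (2 * Fintype.card α) / ∏ k, g k) * (Matrix.of y).det) * ∏ k, g k := by
    field_simp
  rw [h4, map_mul, map_mul]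
  exact mul_le_mul_left h3 _

/-- The product of the two determinants. -/
private theorem IL_block (v : ρ ⊕ α → Derivation ℚ F F) (m : κ → F) (p : κ × (ρ → κ × κ)) (r : α → ρ ⊕ α → F)
    (hr0 : ∀ k i, r k (Sum.inl i) = 0) :
    DT m v p * (Matrix.of fun k l => r k (Sum.inr l)).det =
      m p.1 ^ (2 * Fintype.card α) * (Matrix.of (Sum.elim (fun a t => psi m (v t) (p.2 a)) r)).det := by
  have h1 : Matrix.of (Sum.elim (fun a t => psi m (v t) (p.2 a)) r) = Matrix.fromBlocks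
      (Matrix.of fun a b => psi m (v (Sum.inl b)) (p.2 a)) (Matrix.of fun a b => psi m (v (Sum.inr b)) (p.2 a)) 0
      (Matrix.of fun k l => r k (Sum.inr l)) := by
    ext a t
    rcases a with a | a <;> rcases t with t | t
    · rfl
    · rfl
    · rw [Matrix.fromBlocks_apply₂₁]
      exact hr0 a t
    · rfl
  rw [h1, Matrix.det_fromBlocks_zero₂₁, DT]
  ring

/-- The maximal minor. -/
private theorem IL_max (v : ρ ⊕ α → Derivation ℚ F F) (m : κ → F) (hNT : ∃ s, NT m v s ≠ 0) (A : ValuationSubring F) :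
    ∃ s₀, NT m v s₀ ≠ 0 ∧ ∀ s, A.valuation (NT m v s) ≤ A.valuation (NT m v s₀) := by
  obtain ⟨s₁, hs₁⟩ := hNT
  have : Nonempty (ρ ⊕ α → κ × κ) := ⟨s₁⟩
  obtain ⟨s₀, hs₀⟩ := Finite.exists_max fun s => A.valuation (NT m v s)
  refine ⟨s₀, fun h => ?_, hs₀⟩
  have h1 := hs₀ s₁
  rw [h, map_zero] at h1
  exact (map_ne_zero A.valuation).2 hs₁ (le_zero_iff.1 h1)

/-- The larger one of the elements `f` and `f⁻¹`. -/
private theorem IL_sgn (A : ValuationSubring F) {f : F} (hf : f ≠ 0) :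
    ∃ s : Bool, A.valuation f ≤ A.valuation (sgn s f) ∧ A.valuation f⁻¹ ≤ A.valuation (sgn s f) ∧
      1 ≤ A.valuation (sgn s f) := by
  have h0 : A.valuation f ≠ 0 := (map_ne_zero _).2 hf
  rcases le_total (A.valuation f⁻¹) (A.valuation f) with h | h
  · refine ⟨true, le_rfl, h, ?_⟩
    change 1 ≤ A.valuation f
    by_contra h1
    rw [not_le] at h1
    have h2 : 1 < A.valuation f⁻¹ := by
      rw [map_inv₀]
      exact (one_lt_inv₀ (zero_lt_iff.2 h0)).2 h1
    exact absurd (h2.trans_le h) (not_lt.2 h1.le)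
  · refine ⟨false, h, le_rfl, ?_⟩
    change 1 ≤ A.valuation f⁻¹
    by_contra h1
    rw [not_le] at h1
    have h2 : 1 < A.valuation f := by
      rw [map_inv₀] at h1
      exact (inv_lt_one₀ (zero_lt_iff.2 h0)).1 h1
    exact absurd (h2.trans_le h) (not_lt.2 h1.le)

/-- Determinants of forms which are integral combinations of the logarithmic differentials of the `f i`. -/
private theorem IL_comb (v : ρ ⊕ α → Derivation ℚ F F)
    (hvs : ∀ D : Derivation ℚ F F, ∃ c : ρ ⊕ α → F, D = ∑ b, c b • v b) (m : κ → F) (A : ValuationSubring F)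
    (s₀ : ρ ⊕ α → κ × κ) (h0 : NT m v s₀ ≠ 0) (hmax : ∀ s, A.valuation (NT m v s) ≤ A.valuation (NT m v s₀))
    (p : κ × (ρ → κ × κ)) (f : I → F) (hf : ∀ i, f i ≠ 0) (hfin : ∀ i, Fnr A m (f i)) (g : I → F)
    (hg1 : ∀ i, A.valuation (f i) ≤ A.valuation (g i)) (hg2 : ∀ i, A.valuation (f i)⁻¹ ≤ A.valuation (g i))
    (hg3 : ∀ i, 1 ≤ A.valuation (g i)) (c : α → I → F) (hc : ∀ k i, c k i ∈ A) (r : α → ρ ⊕ α → F)
    (hr : ∀ k t, r k t = ∑ i, c k i * (v t (f i) / f i)) :
    A.valuation (m p.1 ^ (2 * Fintype.card α) *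
      (Matrix.of (Sum.elim (fun a t => psi m (v t) (p.2 a)) r)).det) ≤ A.valuation (NT m v s₀ * ∏ i, g i) := by
  classical
  have h1 : r = fun k t => ∑ i, c k i * (fun (i : I) (t : ρ ⊕ α) => v t (f i) / f i) i t := by
    funext k t
    exact hr k t
  rw [h1, IL_expand, Finset.mul_sum]
  refine Valuation.map_sum_le _ fun j _ => ?_
  by_cases hj : Function.Injective j
  · have h2 := IL_bound v hvs m A s₀ h0 hmax p (fun k => f (j k)) (fun k => hf _) (fun k => hfin _) (fun k => g (j k))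
      (fun k => hg1 _) fun k => hg2 _
    have h3 : A.valuation (∏ k, c k (j k)) ≤ 1 :=
      (A.valuation_le_one_iff _).2 (prod_mem fun k _ => hc k (j k))
    have h4 : A.valuation (∏ k, g (j k)) ≤ A.valuation (∏ i, g i) := by
      rw [map_prod, map_prod]
      have h5 : ∏ k, A.valuation (g (j k)) = ∏ i ∈ Finset.univ.image j, A.valuation (g i) := by
        rw [Finset.prod_image fun a _ b _ hab => hj hab]
      rw [h5]
      exact Finset.prod_le_prod_of_subset_of_one_le' (Finset.subset_univ _) fun i _ _ => hg3 i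
    calc A.valuation (m p.1 ^ (2 * Fintype.card α) * ((∏ k, c k (j k)) *
          (Matrix.of (Sum.elim (fun a t => psi m (v t) (p.2 a)) fun k => (fun (i : I) (t : ρ ⊕ α) =>
            v t (f i) / f i) (j k))).det))
        = A.valuation (∏ k, c k (j k)) * A.valuation (m p.1 ^ (2 * Fintype.card α) *
          (Matrix.of (Sum.elim (fun a t => psi m (v t) (p.2 a)) fun k t => v t (f (j k)) / f (j k))).det) := by
            rw [← map_mul]
            congr 1
            ring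
      _ ≤ 1 * A.valuation (NT m v s₀ * ∏ k, g (j k)) := mul_le_mul' h3 h2
      _ = A.valuation (NT m v s₀) * A.valuation (∏ k, g (j k)) := by rw [one_mul, map_mul]
      _ ≤ A.valuation (NT m v s₀) * A.valuation (∏ i, g i) := mul_le_mul_right h4 _
      _ = _ := (map_mul _ _ _).symm
  · have h2 : (Matrix.of (Sum.elim (fun a t => psi m (v t) (p.2 a)) fun k => (fun (i : I) (t : ρ ⊕ α) =>
        v t (f i) / f i) (j k))).det = 0 := by
      rw [Function.Injective] at hj
      push Not at hj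
      obtain ⟨k, k', hk, hkk⟩ := hj
      refine Matrix.det_zero_of_row_eq (i := Sum.inr k) (j := Sum.inr k') (fun h => hkk (Sum.inr_injective h)) ?_
      funext t
      rw [Matrix.of_apply, Matrix.of_apply, Sum.elim_inr, Sum.elim_inr, hk]
    rw [h2, mul_zero, mul_zero, map_zero]
    exact zero_le

/-- The local inequality. -/
theorem local_le (v : ρ ⊕ α → Derivation ℚ F F) (hv : LinearIndependent F v)
    (hvs : ∀ D : Derivation ℚ F F, ∃ c : ρ ⊕ α → F, D = ∑ b, c b • v b) (m : κ → F) (hm : ∃ a, m a ≠ 0)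
    (hNT : ∃ s, NT m v s ≠ 0) (A : ValuationSubring F) (hA : ∀ c : ℚ, algebraMap ℚ F c ∈ A)
    (b : σ → F) (hb : ∀ g, b g ≠ 0) (f : I → F) (hf : ∀ i, f i ≠ 0) (nn : σ → I → ℤ) (ε : σ → ℚ)
    (hε : ∀ g, ε g ≠ 0) (hbf : ∀ g, b g = algebraMap ℚ F (ε g) * ∏ i, f i ^ nn g i)
    (hfin : ∀ i, Fnr A m (f i)) (r : α → ρ ⊕ α → F) (a : α → σ → F) (ha : ∀ k g, a k g ∈ A)
    (hr : ∀ k t, r k t = ∑ g, a k g * (v t (b g) / b g)) (hr0 : ∀ k i, r k (Sum.inl i) = 0)
    (p : κ × (ρ → κ × κ)) :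
    ∃ (s : ρ ⊕ α → κ × κ) (sg : I → Bool),
      A.valuation (DT m v p * (Matrix.of fun k l => r k (Sum.inr l)).det) ≤
        A.valuation (NT m v s * ∏ i, sgn (sg i) (f i)) := by
  obtain ⟨s₀, h0, hmax⟩ := IL_max v m hNT A
  choose sg hg1 hg2 hg3 using fun i => IL_sgn A (hf i)
  refine ⟨s₀, sg, ?_⟩
  rw [IL_block v m p r hr0]
  refine IL_comb v hvs m A s₀ h0 hmax p f hf hfin (fun i => sgn (sg i) (f i)) hg1 hg2 hg3
    (fun k i => ∑ g, a k g * nn g i) (fun k i => sum_mem fun g _ => A.mul_mem _ _ (ha k g) (intCast_mem A _)) r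
    fun k t => ?_
  rw [hr]
  have h1 : ∀ g, a k g * (v t (b g) / b g) = ∑ i, a k g * nn g i * (v t (f i) / f i) := by
    intro g
    rw [hbf g, IL_dlog (v t) f hf (nn g) (hε g), Finset.mul_sum]
    exact Finset.sum_congr rfl fun i _ => by ring
  rw [Finset.sum_congr rfl fun g _ => h1 g, Finset.sum_comm]
  exact Finset.sum_congr rfl fun i _ => by rw [Finset.sum_mul]

/-- The strict local inequality. -/
theorem local_lt (v : ρ ⊕ α → Derivation ℚ F F) (hv : LinearIndependent F v)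
    (hvs : ∀ D : Derivation ℚ F F, ∃ c : ρ ⊕ α → F, D = ∑ b, c b • v b) (m : κ → F) (hm : ∃ a, m a ≠ 0)
    (hNT : ∃ s, NT m v s ≠ 0) (A : ValuationSubring F) (hA : ∀ c : ℚ, algebraMap ℚ F c ∈ A)
    (b : σ → F) (hb : ∀ g, b g ≠ 0) (f : I → F) (hf : ∀ i, f i ≠ 0) (nn : σ → I → ℤ) (ε : σ → ℚ)
    (hε : ∀ g, ε g ≠ 0) (hbf : ∀ g, b g = algebraMap ℚ F (ε g) * ∏ i, f i ^ nn g i)
    (hfin : ∀ i, Fnr A m (f i)) (hfinb : ∀ g, Fnr A m (b g)) (r : α → ρ ⊕ α → F) (a : α → σ → F)
    (ha : ∀ k g, a k g ∈ A ∧ (A.valuation (a k g) < 1 ∨ Un A (b g)))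
    (hr : ∀ k t, r k t = ∑ g, a k g * (v t (b g) / b g)) (hr0 : ∀ k i, r k (Sum.inl i) = 0)
    (hbd : ∃ i, ¬ Un A (f i)) (p : κ × (ρ → κ × κ)) :
    ∃ (s : ρ ⊕ α → κ × κ) (sg : I → Bool),
      A.valuation (DT m v p * (Matrix.of fun k l => r k (Sum.inr l)).det) <
        A.valuation (NT m v s * ∏ i, sgn (sg i) (f i)) := by
  classical
  obtain ⟨s₀, h0, hmax⟩ := IL_max v m hNT A
  choose sg hg1 hg2 hg3 using fun i => IL_sgn A (hf i)
  refine ⟨s₀, sg, ?_⟩
  have hN0 : A.valuation (NT m v s₀) ≠ 0 := (map_ne_zero _).2 h0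
  have hG1 : 1 < A.valuation (∏ i, sgn (sg i) (f i)) := by
    obtain ⟨i, hi⟩ := hbd
    have h1 : 1 < A.valuation (sgn (sg i) (f i)) := by
      refine lt_of_le_of_ne (hg3 i) fun h => hi ⟨?_, ?_⟩
      · rw [← A.valuation_le_one_iff]
        exact (hg1 i).trans h.symm.le
      · rw [← A.valuation_le_one_iff]
        exact (hg2 i).trans h.symm.le
    rw [map_prod]
    refine h1.trans_le ?_
    have h2 := Finset.prod_le_prod_of_subset_of_one_le' (f := fun i => A.valuation (sgn (sg i) (f i)))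
      (Finset.subset_univ {i}) fun i _ _ => hg3 i
    rwa [Finset.prod_singleton] at h2
  have hG0 : A.valuation (∏ i, sgn (sg i) (f i)) ≠ 0 := (zero_lt_one.trans hG1).ne'
  rw [IL_block v m p r hr0]
  have h1 : r = fun k t => ∑ g, a k g * (fun (g : σ) (t : ρ ⊕ α) => v t (b g) / b g) g t := by
    funext k t
    exact hr k t
  rw [h1, IL_expand, Finset.mul_sum]
  refine Valuation.map_sum_lt _ ?_ fun j _ => ?_
  · rw [map_mul]
    exact mul_ne_zero hN0 hG0
  have h2 : A.valuation (m p.1 ^ (2 * Fintype.card α) * ((∏ k, a k (j k)) *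
      (Matrix.of (Sum.elim (fun a t => psi m (v t) (p.2 a)) fun k => (fun (g : σ) (t : ρ ⊕ α) =>
        v t (b g) / b g) (j k))).det)) = A.valuation (∏ k, a k (j k)) * A.valuation (m p.1 ^ (2 * Fintype.card α) *
      (Matrix.of (Sum.elim (fun a t => psi m (v t) (p.2 a)) fun k t => v t (b (j k)) / b (j k))).det) := by
    rw [← map_mul]
    congr 1
    ring
  rw [h2, map_mul A.valuation (NT m v s₀)]
  have h3 : A.valuation (∏ k, a k (j k)) ≤ 1 := (A.valuation_le_one_iff _).2 (prod_mem fun k _ => (ha k (j k)).1)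
  by_cases hU : ∀ k, Un A (b (j k))
  · have h4 := IL_bound v hvs m A s₀ h0 hmax p (fun k => b (j k)) (fun k => hb _) (fun k => hfinb _) (fun _ => 1)
      (fun k => by rw [map_one]; exact (A.valuation_le_one_iff _).2 (hU k).1)
      fun k => by rw [map_one]; exact (A.valuation_le_one_iff _).2 (hU k).2
    rw [Finset.prod_const_one, mul_one] at h4
    calc _ ≤ 1 * A.valuation (NT m v s₀) := mul_le_mul' h3 h4
      _ < A.valuation (NT m v s₀) * A.valuation (∏ i, sgn (sg i) (f i)) := by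
        rw [one_mul]
        exact lt_mul_of_one_lt_right (zero_lt_iff.2 hN0) hG1
  · push Not at hU
    obtain ⟨k₀, hk₀⟩ := hU
    have h4 : A.valuation (∏ k, a k (j k)) < 1 := by
      rw [map_prod, ← Finset.mul_prod_erase Finset.univ _ (Finset.mem_univ k₀)]
      have h5 : A.valuation (a k₀ (j k₀)) < 1 := (ha k₀ (j k₀)).2.resolve_right hk₀
      have h6 : ∏ k ∈ Finset.univ.erase k₀, A.valuation (a k (j k)) ≤ 1 :=
        Finset.prod_le_one' fun k _ => (A.valuation_le_one_iff _).2 (ha k (j k)).1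
      calc _ ≤ A.valuation (a k₀ (j k₀)) * 1 := mul_le_mul_right h6 _
        _ = A.valuation (a k₀ (j k₀)) := mul_one _
        _ < 1 := h5
    have h5 := IL_comb v hvs m A s₀ h0 hmax p f hf hfin (fun i => sgn (sg i) (f i)) hg1 hg2 hg3
      (fun k i => (nn (j k) i : F)) (fun k i => intCast_mem A _) (fun k t => v t (b (j k)) / b (j k)) fun k t => by
        rw [hbf (j k), IL_dlog (v t) f hf (nn (j k)) (hε (j k))]
    have h6 : 0 < A.valuation (NT m v s₀) * A.valuation (∏ i, sgn (sg i) (f i)) :=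
      zero_lt_iff.2 (mul_ne_zero hN0 hG0)
    rw [map_mul A.valuation (NT m v s₀)] at h5
    calc _ ≤ A.valuation (∏ k, a k (j k)) * (A.valuation (NT m v s₀) * A.valuation (∏ i, sgn (sg i) (f i))) :=
          mul_le_mul_right h5 _
      _ < A.valuation (NT m v s₀) * A.valuation (∏ i, sgn (sg i) (f i)) := mul_lt_of_lt_one_left h6 h4

end

end Pool.Agent.Lib.MP_17a322_nt.AP
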