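import Pool.Agent.Lib.MP_17a322_nt.AP.O7
import Pool.Agent.Lib.MP_17a322_nt.AP.D1
import Pool.Agent.Lib.MP_17a322_nt.AP.D3
import Pool.Agent.Lib.MP_17a322_nt.FQ.X14
import Pool.Agent.Lib.MP_17a322_nt.FL.LM

/-!
Interface of the blocks O and D.
-/

namespace Pool.Agent.Lib.MP_17a322_nt.AP

open Height NumberField
open Pool.Agent.Lib.MP_17a322_nt.FQ (Evl SemiQ)
open Pool.Agent.Lib.MP_17a322_nt.FL (psi NT DT)

/-- The heights over number fields in terms of the absolute heights. -/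
theorem hO_eq {N : Type} [Field N] [NumberField N] (j : N →+* Om) {κ : Type*} [Finite κ] (S : κ → N) :
    logHeight S = Module.finrank ℚ N * hO fun a => j (S a) := hO_eq' j S

/-- The limit of the heights. -/
theorem lm_tendsto {B : Type} [Field B] [Algebra ℚ B] (X : EvO B ℕ) {κ : Type} [Finite κ] (S : κ → B) :
    Filter.Tendsto (fun i => hO (fun a => X.ev (S a) i) / X.h i) (X.U : Filter ℕ) (nhds (X.lm S)) :=
  X.tendsto S

/-- The descent: models over a ramified extension. -/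
theorem desc (hQ : SemiQ) {B : Type} [Field B] [Algebra ℚ B] (X : EvO B ℕ) {R : Type} [Field R]
    [Algebra ℚ R] [Algebra R B] [IsScalarTower ℚ R B] (Y : Evl ℚ R ℕ) (hc : Cmp X Y)
    (F₁ : Type) [Field F₁] [Algebra ℚ F₁] [Algebra F₁ B] [IsScalarTower ℚ F₁ B]
    (hF : (⊤ : IntermediateField ℚ F₁).FG) {α : Type} [Fintype α] [DecidableEq α] (x : α → F₁)
    (hx : AlgebraicIndependent ℚ x) (Λ : Finset R) (hΛ : ∀ f ∈ Λ, ∃ f₁ : F₁, algebraMap F₁ B f₁ = algebraMap R B f)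
    (η : ℝ) (hη : 0 < η) :
    ∃ (F₂ : Type) (_ : Field F₂) (_ : Algebra ℚ F₂) (_ : Algebra F₂ B) (_ : IsScalarTower ℚ F₂ B)
      (_ : Algebra F₁ F₂) (_ : IsScalarTower ℚ F₁ F₂) (_ : IsScalarTower F₁ F₂ B)
      (ρ κ : Type) (_ : Fintype ρ) (_ : DecidableEq ρ) (_ : Fintype κ)
      (v : ρ ⊕ α → Derivation ℚ F₂ F₂) (m : κ → F₂),
      (algebraMap F₂ B).fieldRange ≤ (algebraMap F₁ B).fieldRange ⊔ (algebraMap R B).fieldRange ∧
      (∀ i l, v (Sum.inl i) (algebraMap F₁ F₂ (x l)) = 0) ∧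
      (∀ l l', v (Sum.inr l) (algebraMap F₁ F₂ (x l')) = if l = l' then 1 else 0) ∧
      LinearIndependent F₂ v ∧ (∀ D : Derivation ℚ F₂ F₂, ∃ c : ρ ⊕ α → F₂, D = ∑ b, c b • v b) ∧
      (∃ a, m a ≠ 0) ∧ (∃ s, NT m v s ≠ 0) ∧ (∃ p, DT m v p ≠ 0) ∧
      X.lm (fun s => algebraMap F₂ B (NT m v s)) ≤ X.lm (fun p => algebraMap F₂ B (DT m v p)) + η ∧
      ∀ A : ValuationSubring F₂, (∀ c : ℚ, algebraMap ℚ F₂ c ∈ A) →
        ∀ f : F₂, (∃ f' ∈ Λ, algebraMap R B f' = algebraMap F₂ B f) →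
          ∀ (D : Derivation ℚ F₂ F₂) (a : κ),
            ∃ (g : F₂) (p : κ × κ), (g = 1 ∨ g = f) ∧
              A.valuation (D f * m a ^ 2) ≤ A.valuation (g ^ 2 * psi m D p) := by
  classical
  have hGal : IsGalois R B := isGalois_cmp X Y hc
  obtain ⟨E, F, G, iE, iF, iG, iQE, iQF, iQG, iER, iEF, iEG, iFG, iEB, iFB, iGB, iF1F, t1, t2, t3, t4, t5, t6, t7,
    t8, t9, fd, gal, hEfg, hFfg, hΛE, hER, hrange⟩ := exists_EFG F₁ hF Λ hΛ
  have fdEF : FiniteDimensional E F := FiniteDimensional.left E F G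
  obtain ⟨n, g, hg1, hg⟩ := FQ.exists_gen hEfg
  have fdE : FiniteDimensional E (Derivation ℚ E E) := FQ.gen_findim g hg
  obtain ⟨n', g', -, hg'⟩ := FQ.exists_gen hFfg
  have fdF : FiniteDimensional F (Derivation ℚ F F) := FQ.gen_findim g' hg'
  have hmd : FQ.IsMd ℚ g := FQ.gen_IsMd g hg1 hg
  choose! eΛ heΛ using hΛE
  obtain ⟨κ₁, _, m₁, hm₁, hfi₁⟩ := D3_add (F := F) g hmd (Λ.image eΛ)
  obtain ⟨κ, iκ, m', hm', hfi, hL⟩ := hQ R Y E hEfg m₁ hm₁ η hη
  have hmF := md_ext (F := F) m' hm' hEfg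
  have hfiF := fi_ext' (F := F) m₁ m' hm₁ hm' hfi hEfg
  have hdg := dg_descent (E := E) (F := F) (G := G) (Y.ht E) (X.ht F) (X.ht G)
    (fun {κ} _ S _ => by
      change X.lm (fun a => algebraMap F B (algebraMap E F (S a))) = Y.lm fun a => algebraMap E R (S a)
      rw [← lm_cmp X Y hc]
      congr 1
      funext a
      rw [← IsScalarTower.algebraMap_apply E F B, ← IsScalarTower.algebraMap_apply E R B])
    (fun {κ} _ S _ => by
      change X.lm (fun a => algebraMap G B (algebraMap F G (S a))) = X.lm fun a => algebraMap F B (S a)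
      congr 1
      funext a
      rw [← IsScalarTower.algebraMap_apply F G B])
    (fun {κ} _ σ S _ => lm_aut X Y hc hER σ S) m' hm' η hL
  have hxF : AlgebraicIndependent ℚ fun l => algebraMap F₁ F (x l) := by
    have t10 : IsScalarTower ℚ F₁ F := IsScalarTower.of_algebraMap_eq fun q => by
      rw [eq_ratCast, eq_ratCast, map_ratCast]
    exact hx.map' (f := IsScalarTower.toAlgHom ℚ F₁ F) (algebraMap F₁ F).injective
  obtain ⟨r, v, hv0, hv1, hv, hvs⟩ := D3_adapted _ hxF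
  have hNT := FL.NT_ne (fun a => algebraMap E F (m' a)) hmF v hv
  have hdeg := D3_NT (X.ht F) (fun a => algebraMap E F (m' a)) hmF v hv
  have hd1 := hdg (Submodule.span F (Set.range fun i => v (Sum.inl i)))
  rw [hvs] at hdeg
  refine ⟨F, iF, iQF, iFB, t8, iF1F, IsScalarTower.of_algebraMap_eq fun q => by
      rw [eq_ratCast, eq_ratCast, map_ratCast], t7, Fin r, κ, inferInstance, inferInstance, iκ, v,
    fun a => algebraMap E F (m' a), hrange, hv0, hv1, hv, fun D => ?_, Function.ne_iff.1 hmF.1, hNT.1, hNT.2, ?_, ?_⟩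
  · have h1 : D ∈ Submodule.span F (Set.range v) := by
      rw [hvs]
      exact Submodule.mem_top
    obtain ⟨c, hc⟩ := (Submodule.mem_span_range_iff_exists_fun F).1 h1
    exact ⟨c, hc.symm⟩
  · have h1 : (X.ht F).lam (NT (fun a => algebraMap E F (m' a)) v) ≤
        (X.ht F).lam (DT (fun a => algebraMap E F (m' a)) v) + η := by linarith
    exact h1
  · rintro A hA f ⟨f', hf', hff⟩ D a
    have h1 : algebraMap E F (eΛ f') = f := by
      apply (algebraMap F B).injective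
      rw [← IsScalarTower.algebraMap_apply E F B, ← hff, IsScalarTower.algebraMap_apply E R B, heΛ f' hf']
    have h2 := hfi₁ (eΛ f') (Finset.mem_image_of_mem eΛ hf')
    rw [h1] at h2
    exact D3_fnr _ hmF.1 f (fun A v => (h2 A v).trans (hfiF A v)) A hA D a

end Pool.Agent.Lib.MP_17a322_nt.AP
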