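import Pool.Agent.Lib.MP_17a322_nt.AP.P9
import Pool.Agent.Lib.MP_17a322_nt.AP.IL

/-!
The sum over all places of the fields `L i`.
-/

namespace Pool.Agent.Lib.MP_17a322_nt.AP

open Height NumberField
open Pool.Agent.Lib.MP_17a322_nt.ABN (Un)

/-- From the inequalities at all valuation rings of `F` to the sum over all places of `L i`. -/
theorem sum_alg {F : Type} [Field F] [Algebra ℚ F] {U : Ultrafilter ℕ} {L : ℕ → Type}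
    [∀ i, Field (L i)] [∀ i, NumberField (L i)] (V : EvV F U L) (r : ℕ)
    (hr : ∀ i, Module.finrank ℚ (L i) ≤ r) {ι Λ β κ ν ν' N σ : Type} [Fintype ι] [Fintype Λ] [Fintype β]
    [Fintype κ] [Fintype ν] [Fintype ν'] [Fintype N] [DecidableEq N] [Fintype σ] [DecidableEq σ]
    (n e m : ℕ) (hm : m ≠ 0)
    (Nz : Λ → F) (hNz : ∃ s, Nz s ≠ 0) (z : ι → F) (hz : ∃ i, z i ≠ 0) (fb : β → κ → F)
    (hfb : ∀ b, ∃ j, fb b j ≠ 0) (NTf : ν → F) (hNT : ∃ s, NTf s ≠ 0) (DTf : ν' → F)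
    (hDT : ∃ s, DTf s ≠ 0) (γ : N → F) (hγ : ∀ a, γ a ≠ 0) (x q u : σ → F) (hx : ∀ k, x k ≠ 0)
    (hq : ∀ k, q k ≠ 0) (hu : ∀ k, u k ≠ 0) (c : ℕ → N → ℕ)
    (hc : ∀ᶠ i in (U : Filter ℕ), (∀ a, V.ev (γ a) i = (c i a : L i)) ∧ Squarefree (∏ a, c i a))
    (xq qq uq : ℕ → σ → ℚ) (C₀ : ℝ)
    (hxq : ∀ᶠ i in (U : Filter ℕ), ∀ k, V.ev (x k) i = algebraMap ℚ (L i) (xq i k) ∧ xq i k ≠ 0)
    (hqq : ∀ᶠ i in (U : Filter ℕ), ∀ k, V.ev (q k) i = algebraMap ℚ (L i) (qq i k) ∧ qq i k ≠ 0)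
    (huq : ∀ᶠ i in (U : Filter ℕ), ∀ k, V.ev (u k) i = algebraMap ℚ (L i) (uq i k) ∧ uq i k ≠ 0 ∧
      |(uq i k : ℝ)| ≤ C₀ ∧ |(uq i k : ℝ)|⁻¹ ≤ C₀)
    (h1 : ∀ A : ValuationSubring F, (∀ c : ℚ, algebraMap ℚ F c ∈ A) → ∀ (s : Λ) (s' : β → ι) (p : ν'),
      ∃ (i₁ : ι) (j : β → κ) (t : ν) (sg : N ⊕ σ → Bool), A.valuation (Nz s * (∏ b, z (s' b) ^ e) * DTf p) ≤
        A.valuation (z i₁ ^ (n + 1) * (∏ b, fb b (j b)) * NTf t * ∏ a, sgn (sg a) (Sum.elim γ x a)))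
    (h2 : ∀ A : ValuationSubring F, (∀ c : ℚ, algebraMap ℚ F c ∈ A) → ∀ (s : Λ) (s' : β → ι) (p : ν'),
      ∃ (i₁ : ι) (j : β → κ) (t : ν) (sg : σ ⊕ σ → Bool), A.valuation (Nz s * (∏ b, z (s' b) ^ e) * DTf p) ≤
        A.valuation (z i₁ ^ (n + 1) * (∏ b, fb b (j b)) * NTf t * ∏ a, sgn (sg a) (Sum.elim u q a)))
    (h3 : ∀ A : ValuationSubring F, (∀ c : ℚ, algebraMap ℚ F c ∈ A) → ∀ (s : Λ) (p : ν'),
      ∃ (i₁ : ι) (t : ν) (sg : N ⊕ σ → Bool), A.valuation (Nz s * DTf p) ≤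
        A.valuation (z i₁ ^ (n + 1) * NTf t * ∏ a, sgn (sg a) (Sum.elim γ x a)))
    (h4 : ∀ A : ValuationSubring F, (∀ c : ℚ, algebraMap ℚ F c ∈ A) → (∃ a, ¬ Un A (Sum.elim γ x a)) →
      ∀ (s : Λ) (p : ν'), ∃ (i₁ : ι) (t : ν) (sg : N ⊕ σ → Bool), A.valuation (Nz s * DTf p) <
        A.valuation (z i₁ ^ (n + 1) * NTf t * ∏ a, sgn (sg a) (Sum.elim γ x a))) :
    ∃ C : ℝ, ∀ᶠ i in (U : Filter ℕ),
      logHeight (fun s => V.ev (Nz s) i) - (n + 1) * logHeight (fun j => V.ev (z j) i) +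
          ∑ b, (e * logHeight (fun j => V.ev (z j) i) - logHeight fun j => V.ev (fb b j) i) +
          (logHeight (fun p => V.ev (DTf p) i) - logHeight fun t => V.ev (NTf t) i) ≤
        (∑ᶠ v ∈ {v : FinitePlace (L i) | v (m : L i) = 1 ∧ ∃ b, 0 < e * Real.log (⨆ j, v (V.ev (z j) i)) -
            Real.log (⨆ j, v (V.ev (fb b j) i))}, Real.log (Ideal.absNorm v.maximalIdeal.asIdeal)) +
          Real.log |(discr (L i) : ℝ)| +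
          Module.finrank ℚ (L i) * ∑ k, (4 * logHeight₁ (xq i k) + logHeight₁ (qq i k)) + C := by
  have hy : ∀ a, Sum.elim γ x a ≠ 0 := by
    rintro (a | a)
    · exact hγ a
    · exact hx a
  refine sum_alg_aux V r hr n e m hm Nz hNz z hz fb hfb NTf hNT DTf hDT γ hγ x q u hx hq hu c hc xq qq uq
    C₀ hxq hqq huq h1 h2 h3 fun A hA h => h4 A hA ?_
  obtain ⟨a, ha⟩ := h
  refine ⟨a, fun hU => ha ?_⟩
  have e1 := (A.valuation_le_one_iff _).2 hU.1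
  have e2 := (A.valuation_le_one_iff _).2 hU.2
  have hp : 0 < A.valuation (Sum.elim γ x a) := by
    rw [Valuation.pos_iff]
    exact hy a
  rw [map_inv₀, inv_le_one₀ hp] at e2
  exact le_antisymm e1 e2

end Pool.Agent.Lib.MP_17a322_nt.AP
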