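import Pool.Agent.Lib.MP_17a322_nt.FQ.A1

/-!
Approximate roots of rational numbers at the infinite place, and their values in an ultrapower.
-/

namespace Pool.Agent.Lib.MP_17a322_nt.AP

open Height NumberField
open Pool.Agent.Lib.MP_17a322_nt.FQ (Evl)

/-- The absolute value of a rational number is bounded by its height. -/
theorem log_abs_le (q : ℚ) (hq : q ≠ 0) : Real.log |(q : ℝ)| ≤ logHeight₁ q := by
  rw [Rat.logHeight₁_eq_log_max]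
  refine Real.log_le_log (abs_pos.2 (by exact_mod_cast hq)) ?_
  have h1 : |(q : ℝ)| = (q.num.natAbs : ℝ) / (q.den : ℝ) := by
    have h2 : (q : ℝ) = (q.num : ℝ) / (q.den : ℝ) := by exact_mod_cast (Rat.num_div_den q).symm
    rw [h2, abs_div, Nat.abs_cast, Nat.cast_natAbs, Int.cast_abs]
  rw [h1]
  have h3 : (1 : ℝ) ≤ (q.den : ℝ) := by exact_mod_cast q.pos
  calc (q.num.natAbs : ℝ) / (q.den : ℝ) ≤ (q.num.natAbs : ℝ) := div_le_self (Nat.cast_nonneg _) h3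
    _ ≤ ((max q.num.natAbs q.den : ℕ) : ℝ) := by exact_mod_cast le_max_left _ _

/-- Approximate `m`-th roots of the rational numbers of absolute value at least `1`. -/
theorem exists_root_one (m : ℕ) (hm : 0 < m) (β : ℚ) (hβ : 1 ≤ |(β : ℝ)|) :
    ∃ Q : ℕ, 0 < Q ∧ (Q : ℝ) ^ m ≤ |(β : ℝ)| ∧ |(β : ℝ)| ≤ 2 ^ m * (Q : ℝ) ^ m ∧
      Real.log Q ≤ logHeight₁ β / m := by
  have hm0 : (m : ℝ) ≠ 0 := by exact_mod_cast hm.ne'
  have hmp : (0 : ℝ) < m := by exact_mod_cast hm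
  obtain ⟨t, ht⟩ : ∃ t : ℝ, t = |(β : ℝ)| ^ ((m : ℝ)⁻¹) := ⟨_, rfl⟩
  have hβ0 : (0 : ℝ) < |(β : ℝ)| := lt_of_lt_of_le one_pos hβ
  have ht1 : 1 ≤ t := by
    rw [ht]
    exact Real.one_le_rpow hβ (inv_nonneg.2 hmp.le)
  have htm : t ^ m = |(β : ℝ)| := by
    rw [ht, Real.rpow_inv_natCast_pow hβ0.le hm.ne']
  have hQ1 : 1 ≤ ⌊t⌋₊ := Nat.le_floor (by exact_mod_cast ht1)
  have hQt : (⌊t⌋₊ : ℝ) ≤ t := Nat.floor_le (by linarith)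
  have htQ : t ≤ 2 * (⌊t⌋₊ : ℝ) := by
    have h1 := Nat.lt_floor_add_one t
    have h2 : (1 : ℝ) ≤ (⌊t⌋₊ : ℝ) := by exact_mod_cast hQ1
    linarith
  refine ⟨⌊t⌋₊, hQ1, ?_, ?_, ?_⟩
  · rw [← htm]
    exact pow_le_pow_left₀ (Nat.cast_nonneg _) hQt m
  · rw [← htm, ← mul_pow]
    exact pow_le_pow_left₀ (by linarith) htQ m
  · have h1 : Real.log (⌊t⌋₊ : ℝ) ≤ Real.log t :=
      Real.log_le_log (by exact_mod_cast hQ1) hQt
    have h2 : (m : ℝ) * Real.log t ≤ logHeight₁ β := by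
      rw [← Real.log_pow, htm]
      exact log_abs_le β fun h0 => by
        rw [h0] at hβ0
        simp at hβ0
    rw [le_div_iff₀ hmp]
    nlinarith

/-- Approximate `m`-th roots of rational numbers. -/
theorem exists_root (m : ℕ) (hm : 0 < m) (β : ℚ) (hβ : β ≠ 0) :
    ∃ q : ℚ, q ≠ 0 ∧ |(β : ℝ)| ≤ 2 ^ m * |(q : ℝ)| ^ m ∧ |(q : ℝ)| ^ m ≤ 2 ^ m * |(β : ℝ)| ∧
      logHeight₁ q ≤ logHeight₁ β / m := by
  have h2m : (1 : ℝ) ≤ 2 ^ m := one_le_pow₀ (by norm_num)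
  have hβr : (β : ℝ) ≠ 0 := by exact_mod_cast hβ
  have hβ0 : 0 < |(β : ℝ)| := abs_pos.2 hβr
  rcases le_total 1 |(β : ℝ)| with h1 | h1
  · obtain ⟨Q, hQ0, hQ1, hQ2, hQ3⟩ := exists_root_one m hm β h1
    have hQr : (0 : ℝ) < (Q : ℝ) := by exact_mod_cast hQ0
    have hc : ((Q : ℚ) : ℝ) = (Q : ℝ) := by norm_cast
    refine ⟨(Q : ℚ), by exact_mod_cast hQ0.ne', ?_, ?_, ?_⟩
    · rw [hc, abs_of_pos hQr]
      exact hQ2
    · rw [hc, abs_of_pos hQr]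
      nlinarith
    · have : NeZero Q := ⟨hQ0.ne'⟩
      rw [Rat.logHeight₁_natCast Q]
      exact hQ3
  · have hinv : 1 ≤ |((β⁻¹ : ℚ) : ℝ)| := by
      rw [Rat.cast_inv, abs_inv]
      exact (one_le_inv₀ hβ0).2 h1
    obtain ⟨Q, hQ0, hQ1, hQ2, hQ3⟩ := exists_root_one m hm β⁻¹ hinv
    have hQr : (0 : ℝ) < (Q : ℝ) := by exact_mod_cast hQ0
    rw [Rat.cast_inv, abs_inv] at hQ1 hQ2
    have hc : |(((Q : ℚ)⁻¹ : ℚ) : ℝ)| = (Q : ℝ)⁻¹ := by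
      rw [Rat.cast_inv, abs_inv, Rat.cast_natCast, abs_of_pos hQr]
    refine ⟨((Q : ℚ))⁻¹, inv_ne_zero (by exact_mod_cast hQ0.ne'), ?_, ?_, ?_⟩
    · rw [hc, inv_pow]
      have h3 : |(β : ℝ)| ≤ ((Q : ℝ) ^ m)⁻¹ := by
        rw [le_inv_comm₀ hβ0 (by positivity)]
        exact hQ1
      have h4 : (0 : ℝ) < ((Q : ℝ) ^ m)⁻¹ := by positivity
      nlinarith
    · rw [hc, inv_pow, inv_le_comm₀ (by positivity) (by positivity), mul_inv]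
      have h5 : (0 : ℝ) < 2 ^ m := by positivity
      calc ((2 : ℝ) ^ m)⁻¹ * |(β : ℝ)|⁻¹ ≤ ((2 : ℝ) ^ m)⁻¹ * (2 ^ m * (Q : ℝ) ^ m) := by gcongr
        _ = (Q : ℝ) ^ m := by rw [← mul_assoc, inv_mul_cancel₀ h5.ne', one_mul]
    · have : NeZero Q := ⟨hQ0.ne'⟩
      rw [logHeight₁_inv, Rat.logHeight₁_natCast Q, ← logHeight₁_inv β]
      exact hQ3

/-- Approximate roots at the infinite place: `b k = u k * q k ^ m`, `u k` is bounded from above and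
from below, the heights of the `q k` are small. -/
theorem root {R : Type} [Field R] [Algebra ℚ R] (Y : Evl ℚ R ℕ) {σ : Type} [Fintype σ] (b : σ → R)
    (hb : ∀ k, b k ≠ 0) (m : ℕ) (hm : 0 < m) :
    ∃ (q u : σ → R) (C : ℝ), (∀ k, q k ≠ 0 ∧ u k ≠ 0 ∧ b k = u k * q k ^ m) ∧
      ∀ᶠ i in (Y.U : Filter ℕ), ∀ k, Y.ev (u k) i ≠ 0 ∧ Y.ev (q k) i ≠ 0 ∧
        |(Y.ev (u k) i : ℝ)| ≤ C ∧ |(Y.ev (u k) i : ℝ)|⁻¹ ≤ C ∧
        logHeight₁ (Y.ev (q k) i) ≤ logHeight₁ (Y.ev (b k) i) / m + C := by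
  have hmp : (0 : ℝ) < m := by exact_mod_cast hm
  have h1 : ∀ β : ℚ, ∃ q : ℚ, β ≠ 0 → (q ≠ 0 ∧ |(β : ℝ)| ≤ 2 ^ m * |(q : ℝ)| ^ m ∧
      |(q : ℝ)| ^ m ≤ 2 ^ m * |(β : ℝ)| ∧ logHeight₁ q ≤ logHeight₁ β / m) := by
    intro β
    by_cases hβ : β = 0
    · exact ⟨0, fun h => absurd hβ h⟩
    · obtain ⟨q, hq⟩ := exists_root m hm β hβ
      exact ⟨q, fun _ => hq⟩
  choose s hs using h1
  have h2 : ∀ k, ∃ q : R, ∀ᶠ i in (Y.U : Filter ℕ), Y.ev q i = s (Y.ev (b k) i) := by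
    intro k
    obtain ⟨C, hC⟩ := Y.bdd (b k)
    refine Y.surj (fun i => s (Y.ev (b k) i)) ⟨C / m, ?_⟩
    filter_upwards [hC, FQ.ev_ne Y (hb k)] with i h3 h4
    refine (hs _ h4).2.2.2.trans ?_
    rw [div_mul_eq_mul_div]
    exact div_le_div_of_nonneg_right h3 hmp.le
  choose q hq using h2
  have hq0 : ∀ k, q k ≠ 0 := by
    intro k h0
    have h3 : ∀ᶠ i in (Y.U : Filter ℕ), False := by
      filter_upwards [hq k, FQ.ev_ne Y (hb k), FQ.ev_zero Y] with i h4 h5 h6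
      rw [h0, h6] at h4
      exact (hs _ h5).1 h4.symm
    rw [Filter.eventually_const] at h3
    exact h3
  refine ⟨q, fun k => b k / q k ^ m, 2 ^ m, fun k => ⟨hq0 k, div_ne_zero (hb k) (pow_ne_zero m (hq0 k)),
    (div_mul_cancel₀ _ (pow_ne_zero m (hq0 k))).symm⟩, ?_⟩
  refine Filter.eventually_all.2 fun k => ?_
  have h3 : ∀ᶠ i in (Y.U : Filter ℕ), Y.ev (b k / q k ^ m) i = Y.ev (b k) i / Y.ev (q k) i ^ m := by
    filter_upwards [Y.mul (b k) (q k ^ m)⁻¹, FQ.ev_inv Y (q k ^ m), FQ.ev_pow Y (q k) m] with i h4 h5 h6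
    rw [div_eq_mul_inv, h4, h5, h6, div_eq_mul_inv]
  filter_upwards [h3, hq k, FQ.ev_ne Y (hb k)] with i h4 h5 h6
  obtain ⟨h7, h8, h9, h10⟩ := hs _ h6
  rw [← h5] at h7 h8 h9 h10
  have h7r : (0 : ℝ) < |((Y.ev (q k) i : ℚ) : ℝ)| := abs_pos.2 (by exact_mod_cast h7)
  have h6r : (0 : ℝ) < |((Y.ev (b k) i : ℚ) : ℝ)| := abs_pos.2 (by exact_mod_cast h6)
  have h11 : |((Y.ev (b k / q k ^ m) i : ℚ) : ℝ)| =
      |((Y.ev (b k) i : ℚ) : ℝ)| / |((Y.ev (q k) i : ℚ) : ℝ)| ^ m := by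
    rw [h4, Rat.cast_div, Rat.cast_pow, abs_div, abs_pow]
  refine ⟨?_, h7, ?_, ?_, ?_⟩
  · rw [h4]
    exact div_ne_zero h6 (pow_ne_zero m h7)
  · rw [h11, div_le_iff₀ (by positivity)]
    exact h8
  · rw [h11, inv_div, div_le_iff₀ h6r]
    exact h9
  · have h12 : (0 : ℝ) ≤ 2 ^ m := by positivity
    linarith

end Pool.Agent.Lib.MP_17a322_nt.AP
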