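import Pool.Agent.Lib.MP_17a322_nt.AP.R2
import Pool.Agent.Lib.MP_17a322_nt.AP.R3

/-!
Simultaneous factorisation; approximate roots are in the file `R3`.
-/

namespace Pool.Agent.Lib.MP_17a322_nt.AP

open Height NumberField
open Pool.Agent.Lib.MP_17a322_nt.FQ (Evl)

/-- Simultaneous factorisation: `b k = ± ∏ e, γ e ^ nn k e * x k ^ m`; the values of the `γ e`
are squarefree and pairwise coprime positive integers, the heights of the `x k` are small. -/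
theorem factor {R : Type} [Field R] [Algebra ℚ R] (Y : Evl ℚ R ℕ) {σ : Type} [Fintype σ] (b : σ → R)
    (hb : ∀ k, b k ≠ 0) (m : ℕ) (hm : 0 < m) :
    ∃ (N : Type) (_ : Fintype N) (_ : DecidableEq N) (γ : N → R) (x : σ → R) (nn : σ → N → ℤ) (ε : σ → ℚ)
      (c : ℕ → N → ℕ), (∀ k, ε k ≠ 0) ∧
      (∀ k, b k = algebraMap ℚ R (ε k) * (∏ e, γ e ^ nn k e) * x k ^ m) ∧ (∀ e, γ e ≠ 0) ∧ (∀ k, x k ≠ 0) ∧
      (∀ᶠ i in (Y.U : Filter ℕ), (∀ e, Y.ev (γ e) i = (c i e : ℚ)) ∧ Squarefree (∏ e, c i e)) ∧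
      ∀ᶠ i in (Y.U : Filter ℕ), ∀ k, Y.ev (x k) i ≠ 0 ∧
        logHeight₁ (Y.ev (x k) i) ≤ logHeight₁ (Y.ev (b k) i) / m :=
  factor_main Y b hb m hm

end Pool.Agent.Lib.MP_17a322_nt.AP
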