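import Pool.Agent.Lib.MP_17a322_nt.FL.LM

/-!
Definitions for the local inequality.
-/

namespace Pool.Agent.Lib.MP_17a322_nt.AP

open Pool.Agent.Lib.MP_17a322_nt.FL (psi)

/-- The model `m` is finer at `A` than the family `1, f`. -/
def Fnr {F κ : Type} [Field F] [Algebra ℚ F] (A : ValuationSubring F) (m : κ → F) (f : F) : Prop :=
  ∀ (D : Derivation ℚ F F) (a : κ), ∃ (g : F) (p : κ × κ), (g = 1 ∨ g = f) ∧
    A.valuation (D f * m a ^ 2) ≤ A.valuation (g ^ 2 * psi m D p)

/-- The element `f` or its inverse. -/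
def sgn {F : Type} [Field F] (s : Bool) (f : F) : F := if s then f else f⁻¹

end Pool.Agent.Lib.MP_17a322_nt.AP
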