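import Pool.Agent.Lib.MP_17a322_nt.AP.LD

/-!
Linear forms on the derivations which are integral with respect to a model.
-/

namespace Pool.Agent.Lib.MP_17a322_nt.AP

open Pool.Agent.Lib.MP_17a322_nt.ABN (Un)
open Pool.Agent.Lib.MP_17a322_nt.FL (psi NT DT)

section

variable {F : Type} [Field F] [Algebra ℚ F] {κ T : Type} [Fintype T] [DecidableEq T]

theorem psi_sum (m : κ → F) (v : T → Derivation ℚ F F) (c : T → F) (p : κ × κ) :
    psi m (∑ b, c b • v b) p = ∑ b, c b * psi m (v b) p := by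
  have h : ∀ (x : F) (s : Finset T), (∑ b ∈ s, c b • v b) x = ∑ b ∈ s, c b * v b x := by
    intro x s
    induction s using Finset.induction_on with
    | empty => simp
    | insert b s hb ih =>
      rw [Finset.sum_insert hb, Finset.sum_insert hb, Derivation.add_apply, ih, Derivation.smul_apply, smul_eq_mul]
  unfold psi
  rw [h, h, Finset.mul_sum, Finset.mul_sum, ← Finset.sum_sub_distrib]
  exact Finset.sum_congr rfl fun b _ => by ring

theorem psi_smul (m : κ → F) (c : F) (D : Derivation ℚ F F) (p : κ × κ) :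
    psi m (c • D) p = c * psi m D p := by
  unfold psi
  rw [Derivation.smul_apply, Derivation.smul_apply, smul_eq_mul, smul_eq_mul]
  ring

/-- Cramer's rule for the forms of the model. -/
theorem int_psi (m : κ → F) (v : T → Derivation ℚ F F)
    (hvs : ∀ D : Derivation ℚ F F, ∃ c : T → F, D = ∑ b, c b • v b) (A : ValuationSubring F) (s₀ : T → κ × κ)
    (h0 : (Matrix.of fun a b => psi m (v b) (s₀ a)).det ≠ 0)
    (hmax : ∀ s : T → κ × κ, A.valuation (Matrix.of fun a b => psi m (v b) (s a)).det ≤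
      A.valuation (Matrix.of fun a b => psi m (v b) (s₀ a)).det) (p : κ × κ) :
    ∃ c : T → F, (∀ a, c a ∈ A) ∧ ∀ D : Derivation ℚ F F, psi m D p = ∑ a, c a * psi m D (s₀ a) := by
  obtain ⟨P, hP⟩ : ∃ P : Matrix T T F, P = Matrix.of fun a b => psi m (v b) (s₀ a) := ⟨_, rfl⟩
  rw [← hP] at h0 hmax
  obtain ⟨x, hx⟩ : ∃ x : T → F, x = fun b => psi m (v b) p := ⟨_, rfl⟩
  have h1 : ∀ a, (P.updateRow a x).det = (Matrix.of fun a' b => psi m (v b) (Function.update s₀ a p a')).det := by
    intro a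
    congr 1
    ext a' b
    rw [Matrix.updateRow_apply, Matrix.of_apply, Function.update_apply]
    split_ifs with h
    · rw [hx]
    · rw [hP, Matrix.of_apply]
  have h2 : P.transpose.mulVec (P.transpose.cramer x) = P.det • x := by
    rw [Matrix.mulVec_cramer, Matrix.det_transpose]
  have h3 : ∀ b, psi m (v b) p = ∑ a, ((P.updateRow a x).det / P.det) * psi m (v b) (s₀ a) := by
    intro b
    have h4 := congrFun h2 b
    rw [Pi.smul_apply, smul_eq_mul, Matrix.mulVec, dotProduct] at h4
    have h5 : x b = psi m (v b) p := by rw [hx]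
    have h6 : ∑ a, ((P.updateRow a x).det / P.det) * psi m (v b) (s₀ a) = (∑ a, P.transpose b a * P.transpose.cramer x a) / P.det := by
      rw [Finset.sum_div]
      refine Finset.sum_congr rfl fun a _ => ?_
      rw [Matrix.cramer_transpose_apply, Matrix.transpose_apply, hP, Matrix.of_apply, ← hP]
      ring
    rw [h6, h4, h5]
    field_simp
  refine ⟨fun a => (P.updateRow a x).det / P.det, fun a => ?_, fun D => ?_⟩
  · rw [← A.valuation_le_one_iff, map_div₀]
    have h4 : A.valuation P.det ≠ 0 := (map_ne_zero _).2 h0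
    rw [div_le_one₀ (zero_lt_iff.2 h4), h1]
    exact hmax _
  · obtain ⟨c, rfl⟩ := hvs D
    have h4 : ∀ a, (P.updateRow a x).det / P.det * psi m (∑ b, c b • v b) (s₀ a) =
        ∑ b, c b * ((P.updateRow a x).det / P.det * psi m (v b) (s₀ a)) := by
      intro a
      rw [psi_sum, Finset.mul_sum]
      exact Finset.sum_congr rfl fun b _ => by ring
    change psi m (∑ b, c b • v b) p = ∑ a, (P.updateRow a x).det / P.det * psi m (∑ b, c b • v b) (s₀ a)
    rw [psi_sum, Finset.sum_congr rfl fun a _ => h4 a, Finset.sum_comm]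
    refine Finset.sum_congr rfl fun b _ => ?_
    rw [h3 b, Finset.mul_sum]

/-- A linear form on the derivations which is bounded by the forms of the model is an integral combination of them. -/
theorem int_form (m : κ → F) (v : T → Derivation ℚ F F)
    (hvs : ∀ D : Derivation ℚ F F, ∃ c : T → F, D = ∑ b, c b • v b) (A : ValuationSubring F) (s₀ : T → κ × κ)
    (h0 : (Matrix.of fun a b => psi m (v b) (s₀ a)).det ≠ 0)
    (hmax : ∀ s : T → κ × κ, A.valuation (Matrix.of fun a b => psi m (v b) (s a)).det ≤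
      A.valuation (Matrix.of fun a b => psi m (v b) (s₀ a)).det)
    (l : Derivation ℚ F F →ₗ[F] F) (hl : ∀ D, ∃ p, A.valuation (l D) ≤ A.valuation (psi m D p)) :
    ∃ c : T → F, (∀ a, c a ∈ A) ∧ ∀ D, l D = ∑ a, c a * psi m D (s₀ a) := by
  obtain ⟨P, hP⟩ : ∃ P : Matrix T T F, P = Matrix.of fun a b => psi m (v b) (s₀ a) := ⟨_, rfl⟩
  have hPe : ∀ a b, P a b = psi m (v b) (s₀ a) := by
    intro a b
    rw [hP, Matrix.of_apply]
  have h0' : IsUnit P.det := by
    rw [hP]
    exact h0.isUnit
  have hD : ∀ a a', psi m (∑ t, P⁻¹ t a • v t) (s₀ a') = if a' = a then 1 else 0 := by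
    intro a a'
    rw [psi_sum]
    have h1 := congrFun (congrFun (Matrix.mul_nonsing_inv P h0') a') a
    rw [Matrix.mul_apply, Matrix.one_apply] at h1
    rw [← h1]
    exact Finset.sum_congr rfl fun t _ => by rw [hPe, mul_comm]
  refine ⟨fun a => l (∑ t, P⁻¹ t a • v t), fun a => ?_, fun D => ?_⟩
  · obtain ⟨p, hp⟩ := hl (∑ t, P⁻¹ t a • v t)
    obtain ⟨c, hc, hc'⟩ := int_psi m v hvs A s₀ h0 hmax p
    have h1 : psi m (∑ t, P⁻¹ t a • v t) p = c a := by
      rw [hc']
      have h2 : ∀ a', c a' * psi m (∑ t, P⁻¹ t a • v t) (s₀ a') = if a' = a then c a' else 0 := by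
        intro a'
        rw [hD a a', mul_ite, mul_one, mul_zero]
      rw [Finset.sum_congr rfl fun a' _ => h2 a', Finset.sum_ite_eq' Finset.univ a, if_pos (Finset.mem_univ a)]
    rw [h1] at hp
    rw [← A.valuation_le_one_iff]
    exact hp.trans ((A.valuation_le_one_iff _).2 (hc a))
  · obtain ⟨e, rfl⟩ := hvs D
    have h1 : ∀ a, l (∑ t, P⁻¹ t a • v t) * psi m (∑ b, e b • v b) (s₀ a) =
        ∑ t, ∑ b, l (v t) * e b * (P⁻¹ t a * P a b) := by
      intro a
      rw [psi_sum, map_sum, Finset.sum_mul]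
      refine Finset.sum_congr rfl fun t _ => ?_
      rw [Finset.mul_sum]
      refine Finset.sum_congr rfl fun b _ => ?_
      rw [map_smul, smul_eq_mul, hPe]
      ring
    rw [Finset.sum_congr rfl fun a _ => h1 a, Finset.sum_comm, map_sum]
    refine Finset.sum_congr rfl fun t _ => ?_
    rw [Finset.sum_comm]
    have h2 : ∀ b, ∑ a, l (v t) * e b * (P⁻¹ t a * P a b) = l (v t) * e b * (if t = b then 1 else 0) := by
      intro b
      rw [← Finset.mul_sum]
      have h3 := congrFun (congrFun (Matrix.nonsing_inv_mul P h0') t) b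
      rw [Matrix.mul_apply, Matrix.one_apply] at h3
      rw [h3]
    rw [Finset.sum_congr rfl fun b _ => h2 b]
    simp only [mul_ite, mul_one, mul_zero]
    rw [Finset.sum_ite_eq Finset.univ t, if_pos (Finset.mem_univ t), map_smul, smul_eq_mul, mul_comm]

/-- The logarithmic differential of an element for which the model is fine enough. -/
theorem int_dlog (m : κ → F) (v : T → Derivation ℚ F F)
    (hvs : ∀ D : Derivation ℚ F F, ∃ c : T → F, D = ∑ b, c b • v b) (A : ValuationSubring F) (s₀ : T → κ × κ)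
    (h0 : (Matrix.of fun a b => psi m (v b) (s₀ a)).det ≠ 0)
    (hmax : ∀ s : T → κ × κ, A.valuation (Matrix.of fun a b => psi m (v b) (s a)).det ≤
      A.valuation (Matrix.of fun a b => psi m (v b) (s₀ a)).det) {f : F} (hf : f ≠ 0) (hfin : Fnr A m f) (a₀ : κ)
    {g : F} (hg1 : A.valuation f ≤ A.valuation g) (hg2 : A.valuation f⁻¹ ≤ A.valuation g) :
    ∃ c : T → F, (∀ a, c a ∈ A) ∧ ∀ D : Derivation ℚ F F,
      m a₀ ^ 2 * (D f / f) = g * ∑ a, c a * psi m D (s₀ a) := by
  have hf0 : A.valuation f ≠ 0 := (map_ne_zero _).2 hf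
  have hg0 : A.valuation g ≠ 0 := fun h => hf0 (le_zero_iff.1 (h ▸ hg1))
  have hgn : g ≠ 0 := fun h => hg0 (by rw [h, map_zero])
  obtain ⟨l, hl⟩ : ∃ l : Derivation ℚ F F →ₗ[F] F, ∀ D, l D = m a₀ ^ 2 / (f * g) * D f :=
    ⟨{ toFun := fun D => m a₀ ^ 2 / (f * g) * D f
       map_add' := fun D D' => by rw [Derivation.add_apply, mul_add]
       map_smul' := fun c D => by
        rw [Derivation.smul_apply, smul_eq_mul, smul_eq_mul, RingHom.id_apply]
        ring }, fun D => rfl⟩
  obtain ⟨c, hc, hc'⟩ := int_form m v hvs A s₀ h0 hmax l (fun D => by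
    obtain ⟨g', p, hg', h1⟩ := hfin D a₀
    refine ⟨p, ?_⟩
    rw [hl]
    have h2 : m a₀ ^ 2 / (f * g) * D f = (D f * m a₀ ^ 2) * (f * g)⁻¹ := by
      field_simp
    rw [h2, map_mul]
    have h3 : A.valuation (g' ^ 2 * (f * g)⁻¹) ≤ 1 := by
      rcases hg' with rfl | rfl
      · rw [one_pow, one_mul, mul_inv, map_mul, map_inv₀ _ g, ← div_eq_mul_inv, div_le_one₀ (zero_lt_iff.2 hg0)]
        exact hg2
      · have h4 : g' ^ 2 * (g' * g)⁻¹ = g' * g⁻¹ := by
          field_simp
        rw [h4, map_mul, map_inv₀, ← div_eq_mul_inv, div_le_one₀ (zero_lt_iff.2 hg0)]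
        exact hg1
    calc A.valuation (D f * m a₀ ^ 2) * A.valuation (f * g)⁻¹
        ≤ A.valuation (g' ^ 2 * psi m D p) * A.valuation (f * g)⁻¹ := mul_le_mul_left h1 _
      _ = A.valuation (g' ^ 2 * (f * g)⁻¹) * A.valuation (psi m D p) := by
        rw [← map_mul, ← map_mul]
        congr 1
        ring
      _ ≤ 1 * A.valuation (psi m D p) := mul_le_mul_left h3 _
      _ = A.valuation (psi m D p) := one_mul _)
  refine ⟨c, hc, fun D => ?_⟩
  rw [← hc' D, hl]
  field_simp

/-- The determinant of a matrix whose rows are integral combinations. -/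
theorem det_int (m : κ → F) (v : T → Derivation ℚ F F) (A : ValuationSubring F) (s₀ : T → κ × κ)
    (x : T → T → F) (hx : ∀ k, ∃ c : T → F, (∀ a, c a ∈ A) ∧ ∀ t, x k t = ∑ a, c a * psi m (v t) (s₀ a)) :
    A.valuation (Matrix.of x).det ≤ A.valuation (Matrix.of fun a b => psi m (v b) (s₀ a)).det := by
  choose c hc hc' using hx
  have h1 : Matrix.of x = Matrix.of c * Matrix.of fun a b => psi m (v b) (s₀ a) := by
    ext k t
    rw [Matrix.mul_apply, Matrix.of_apply, hc' k t]
    exact Finset.sum_congr rfl fun a _ => by rw [Matrix.of_apply, Matrix.of_apply]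
  have h2 : (Matrix.of c).det ∈ A := by
    rw [Matrix.det_apply]
    refine sum_mem fun s _ => ?_
    rw [Units.smul_def, zsmul_eq_mul]
    refine A.mul_mem _ _ (intCast_mem A _) (prod_mem fun i _ => ?_)
    rw [Matrix.of_apply]
    exact hc _ _
  rw [h1, Matrix.det_mul, map_mul]
  calc A.valuation (Matrix.of c).det * _ ≤ 1 * _ := mul_le_mul_left ((A.valuation_le_one_iff _).2 h2) _
    _ = _ := one_mul _

end

end Pool.Agent.Lib.MP_17a322_nt.AP
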