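import Pool.Agent.Lib.MP_17a322_nt.AP.ODefs

/-!
The absolute height of finite families of algebraic numbers.
-/

namespace Pool.Agent.Lib.MP_17a322_nt.AP

open Height NumberField
open Pool.Agent.Lib.MP_17a322_nt.FQ

/-- The heights over number fields in terms of the absolute heights. -/
theorem hO_eq' {N : Type*} [Field N] [NumberField N] (j : N →+* Om) {κ : Type*} [Finite κ] (x : κ → N) :
    logHeight x = Module.finrank ℚ N * hO fun a => j (x a) := by
  obtain ⟨S, hS⟩ : ∃ S : κ → Om, S = fun a => j (x a) := ⟨_, rfl⟩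
  rw [← hS]
  have h1 : IntermediateField.adjoin ℚ (Set.range S) ≤ (j.toRatAlgHom).fieldRange := by
    rw [IntermediateField.adjoin_le_iff, hS]
    rintro _ ⟨a, rfl⟩
    exact ⟨x a, rfl⟩
  let e : N ≃ₐ[ℚ] (j.toRatAlgHom).fieldRange := AlgEquiv.ofInjectiveField j.toRatAlgHom
  let ψ : IntermediateField.adjoin ℚ (Set.range S) →+* N :=
    (e.symm : (j.toRatAlgHom).fieldRange →+* N).comp
      (IntermediateField.inclusion h1 : IntermediateField.adjoin ℚ (Set.range S) →+* _)
  have hψ : ∀ y : IntermediateField.adjoin ℚ (Set.range S), j (ψ y) = y := by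
    intro y
    have h2 : (e (ψ y) : Om) = j (ψ y) := rfl
    rw [← h2]
    show ((e (e.symm (IntermediateField.inclusion h1 y)) : (j.toRatAlgHom).fieldRange) : Om) = y
    rw [AlgEquiv.apply_symm_apply]
    rfl
  let _ : Algebra (IntermediateField.adjoin ℚ (Set.range S)) N := ψ.toAlgebra
  have h3 : (fun a => algebraMap (IntermediateField.adjoin ℚ (Set.range S)) N
      ⟨S a, IntermediateField.subset_adjoin ℚ _ ⟨a, rfl⟩⟩) = x := by
    funext a
    apply j.injective
    show j (ψ _) = j (x a)
    rw [hψ]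
    show S a = j (x a)
    rw [hS]
  have h4 := logHeight_ext (K := IntermediateField.adjoin ℚ (Set.range S)) (L := N)
    (fun a => (⟨S a, IntermediateField.subset_adjoin ℚ _ ⟨a, rfl⟩⟩ :
      IntermediateField.adjoin ℚ (Set.range S)))
  rw [h3] at h4
  have h5 : Module.finrank ℚ (IntermediateField.adjoin ℚ (Set.range S)) *
      Module.finrank (IntermediateField.adjoin ℚ (Set.range S)) N = Module.finrank ℚ N := by
    have : IsScalarTower ℚ (IntermediateField.adjoin ℚ (Set.range S)) N :=
      IsScalarTower.of_algebraMap_eq fun q => by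
        rw [eq_ratCast, eq_ratCast, map_ratCast]
    exact Module.finrank_mul_finrank ℚ (IntermediateField.adjoin ℚ (Set.range S)) N
  have h6 : (Module.finrank ℚ (IntermediateField.adjoin ℚ (Set.range S)) : ℝ) ≠ 0 := by
    have := Module.finrank_pos (R := ℚ) (M := IntermediateField.adjoin ℚ (Set.range S))
    positivity
  rw [h4, ← h5]
  unfold hO
  push_cast
  field_simp

/-- Every finite family of algebraic numbers is in a number field. -/
theorem exists_model {κ : Type*} [Finite κ] (S : κ → Om) :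
    ∃ (N : Type) (_ : Field N) (_ : NumberField N) (j : N →+* Om) (x : κ → N), ∀ a, j (x a) = S a :=
  ⟨IntermediateField.adjoin ℚ (Set.range S), inferInstance, inferInstance,
    algebraMap (IntermediateField.adjoin ℚ (Set.range S)) Om,
    fun a => ⟨S a, IntermediateField.subset_adjoin ℚ _ ⟨a, rfl⟩⟩, fun _ => rfl⟩

/-- The absolute height of the values of an embedding. -/
theorem hO_of {N : Type*} [Field N] [NumberField N] (j : N →+* Om) {κ : Type*} [Finite κ] (x : κ → N) :
    hO (fun a => j (x a)) = logHeight x / Module.finrank ℚ N := by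
  have h := hO_eq' j x
  have h6 : (Module.finrank ℚ N : ℝ) ≠ 0 := by
    have := Module.finrank_pos (R := ℚ) (M := N)
    positivity
  rw [h]
  field_simp

theorem hO_nonneg {κ : Type*} [Finite κ] (S : κ → Om) : 0 ≤ hO S := by
  obtain ⟨N, _, _, j, x, hx⟩ := exists_model S
  rw [← funext hx, hO_of]
  exact div_nonneg (logHeight_nonneg _) (Nat.cast_nonneg _)

theorem hO_comp_le {ι κ : Type*} [Finite ι] [Finite κ] (f : ι → κ) (S : κ → Om) :
    hO (fun a => S (f a)) ≤ hO S := by
  obtain ⟨N, _, _, j, x, hx⟩ := exists_model S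
  have h1 : (fun a => S (f a)) = fun a => j ((x ∘ f) a) := funext fun a => (hx (f a)).symm
  rw [h1, ← funext hx, hO_of, hO_of]
  exact div_le_div_of_nonneg_right (logHeight_comp_le f x) (Nat.cast_nonneg _)

theorem hO_comp_surj {ι κ : Type*} [Finite ι] [Finite κ] (f : ι → κ) (hf : Function.Surjective f) (S : κ → Om) :
    hO (fun a => S (f a)) = hO S := by
  refine le_antisymm (hO_comp_le f S) ?_
  have h := hO_comp_le (Function.surjInv hf) (fun a => S (f a))
  simpa only [Function.surjInv_eq hf] using h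

theorem hO_smul {κ : Type*} [Finite κ] {c : Om} (hc : c ≠ 0) (S : κ → Om) : hO (fun a => c * S a) = hO S := by
  obtain ⟨N, _, _, j, x, hx⟩ := exists_model (fun o : Option κ => o.elim c S)
  have h1 : (fun a => c * S a) = fun a => j ((x none • fun a => x (some a)) a) := by
    funext a
    have h2 := hx none
    have h3 := hx (some a)
    simp only [Option.elim_none, Option.elim_some] at h2 h3
    rw [Pi.smul_apply, smul_eq_mul, map_mul, h2, h3]
  have h2 : S = fun a => j (x (some a)) := funext fun a => (hx (some a)).symm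
  have h3 : x none ≠ 0 := by
    intro h0
    have h2 := hx none
    rw [h0, map_zero] at h2
    exact hc h2.symm
  rw [h1, hO_of, logHeight_smul_eq_logHeight _ h3, h2, hO_of]

theorem hO_mul {ι κ : Type*} [Finite ι] [Finite κ] {S : ι → Om} {T : κ → Om} (hS : S ≠ 0) (hT : T ≠ 0) :
    hO (fun p : ι × κ => S p.1 * T p.2) = hO S + hO T := by
  obtain ⟨N, _, _, j, x, hx⟩ := exists_model (Sum.elim S T)
  have h1 : S = fun a => j (x (Sum.inl a)) := funext fun a => (hx (Sum.inl a)).symm
  have h2 : T = fun a => j (x (Sum.inr a)) := funext fun a => (hx (Sum.inr a)).symm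
  have h3 : (fun a => x (Sum.inl a)) ≠ 0 := fun h0 => hS (by
    rw [h1]
    funext a
    rw [show x (Sum.inl a) = 0 from congrFun h0 a, map_zero]
    rfl)
  have h4 : (fun a => x (Sum.inr a)) ≠ 0 := fun h0 => hT (by
    rw [h2]
    funext a
    rw [show x (Sum.inr a) = 0 from congrFun h0 a, map_zero]
    rfl)
  have h5 : (fun p : ι × κ => S p.1 * T p.2) = fun p : ι × κ => j (x (Sum.inl p.1) * x (Sum.inr p.2)) := by
    funext p
    rw [map_mul, h1, h2]
  rw [h5, hO_of, h1, h2, hO_of, hO_of, ← add_div]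
  congr 1
  exact logHeight_fun_mul_eq h3 h4

theorem hO_pi {α : Type*} [Fintype α] {ι : α → Type*} [∀ a, Finite (ι a)] {S : ∀ a, ι a → Om} (hS : ∀ a, S a ≠ 0) :
    hO (fun p : ∀ a, ι a => ∏ a, S a (p a)) = ∑ a, hO (S a) := by
  obtain ⟨N, _, _, j, x, hx⟩ := exists_model (fun q : Σ a, ι a => S q.1 q.2)
  have h1 : ∀ a, S a = fun b => j (x ⟨a, b⟩) := fun a => funext fun b => (hx ⟨a, b⟩).symm
  have h3 : ∀ a, (fun b => x ⟨a, b⟩) ≠ 0 := fun a h0 => hS a (by
    rw [h1]
    funext b
    rw [show x ⟨a, b⟩ = 0 from congrFun h0 b, map_zero]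
    rfl)
  have h5 : (fun p : ∀ a, ι a => ∏ a, S a (p a)) = fun p : ∀ a, ι a => j (∏ a, x ⟨a, p a⟩) := by
    funext p
    rw [map_prod]
    exact Finset.prod_congr rfl fun a _ => by rw [h1]
  have h6 : ∀ a, hO (S a) = logHeight (fun b => x ⟨a, b⟩) / Module.finrank ℚ N := fun a => by
    rw [h1, hO_of]
  rw [h5, hO_of, Finset.sum_congr rfl fun a _ => h6 a, ← Finset.sum_div]
  congr 1
  exact logHeight_fun_prod_eq (x := fun a b => x ⟨a, b⟩) h3

theorem hO_subsingleton {κ : Type*} [Finite κ] [Subsingleton κ] (S : κ → Om) : hO S = 0 := by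
  obtain ⟨N, _, _, j, x, hx⟩ := exists_model S
  rw [← funext hx, hO_of, logHeight_eq_zero_of_subsingleton, zero_div]

theorem hO_map (σ : Om →+* Om) {κ : Type*} [Finite κ] (S : κ → Om) : hO (fun a => σ (S a)) = hO S := by
  obtain ⟨N, _, _, j, x, hx⟩ := exists_model S
  have h1 : (fun a => σ (S a)) = fun a => (σ.comp j) (x a) := funext fun a => by
    rw [RingHom.comp_apply, hx]
  rw [h1, hO_of, ← funext hx, hO_of]

theorem hO_rat {κ : Type*} [Finite κ] (q : κ → ℚ) : hO (fun a => algebraMap ℚ Om (q a)) = logHeight q := by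
  rw [hO_of, Module.finrank_self, Nat.cast_one, div_one]

/-- The height of one element. -/
theorem h1_of {N : Type*} [Field N] [NumberField N] (j : N →+* Om) (x : N) :
    hO ![1, j x] = logHeight₁ x / Module.finrank ℚ N := by
  have h1 : (![1, j x] : Fin 2 → Om) = fun a => j ((![1, x] : Fin 2 → N) a) := by
    funext a
    fin_cases a
    · exact (map_one j).symm
    · rfl
  rw [h1, hO_of, logHeight_swap, logHeight₁_eq_logHeight]

theorem h1_rat (q : ℚ) : hO ![1, algebraMap ℚ Om q] = logHeight₁ q := by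
  rw [h1_of, Module.finrank_self, Nat.cast_one, div_one]

theorem h1_map (σ : Om →+* Om) (x : Om) : hO ![1, σ x] = hO ![1, x] := by
  rw [← hO_map σ ![1, x]]
  congr 1
  funext a
  fin_cases a
  · exact (map_one σ).symm
  · rfl

/-- The height of a family is at most the sum of the heights of the elements. -/
theorem hO_le_sum {κ : Type*} [Fintype κ] (S : κ → Om) : hO S ≤ ∑ a, hO ![1, S a] := by
  classical
  have hne : ∀ a, (![1, S a] : Fin 2 → Om) ≠ 0 := fun a h => by
    have := congrFun h 0
    simp at this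
  have h1 := hO_pi (S := fun a : κ => (![1, S a] : Fin 2 → Om)) hne
  have h2 : S = fun b => (fun J : κ → Fin 2 => ∏ a, (![1, S a] : Fin 2 → Om) (J a))
      ((fun b : κ => fun a : κ => if a = b then (1 : Fin 2) else 0) b) := by
    funext b
    simp only
    rw [Finset.prod_eq_single b]
    · simp
    · intro c _ hc
      simp [hc]
    · intro h
      exact absurd (Finset.mem_univ b) h
  have h3 := hO_comp_le (fun b : κ => fun a : κ => if a = b then (1 : Fin 2) else 0)
    (fun J : κ → Fin 2 => ∏ a, (![1, S a] : Fin 2 → Om) (J a))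
  rw [← h2, h1] at h3
  exact h3

private theorem exists_model2 (x y : Om) :
    ∃ (N : Type) (_ : Field N) (_ : NumberField N) (j : N →+* Om) (a b : N), j a = x ∧ j b = y := by
  obtain ⟨N, i1, i2, j, z, hz⟩ := exists_model ![x, y]
  exact ⟨N, i1, i2, j, z 0, z 1, hz 0, hz 1⟩

theorem h1_mul_le (x y : Om) : hO ![1, x * y] ≤ hO ![1, x] + hO ![1, y] := by
  obtain ⟨N, _, _, j, a, b, rfl, rfl⟩ := exists_model2 x y
  rw [← map_mul, h1_of, h1_of, h1_of, ← add_div]
  exact div_le_div_of_nonneg_right (logHeight₁_mul_le a b) (Nat.cast_nonneg _)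

theorem h1_add_le (x y : Om) : hO ![1, x + y] ≤ Real.log 2 + hO ![1, x] + hO ![1, y] := by
  obtain ⟨N, _, _, j, a, b, rfl, rfl⟩ := exists_model2 x y
  have h6 : (0 : ℝ) < Module.finrank ℚ N := by
    have := Module.finrank_pos (R := ℚ) (M := N)
    positivity
  rw [← map_add, h1_of, h1_of, h1_of, div_le_iff₀ h6]
  have h1 := logHeight₁_add_le a b
  rw [totalWeight_eq_finrank] at h1
  have h2 : (Real.log 2 + logHeight₁ a / Module.finrank ℚ N + logHeight₁ b / Module.finrank ℚ N) *
      Module.finrank ℚ N = Module.finrank ℚ N * Real.log 2 + logHeight₁ a + logHeight₁ b := by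
    field_simp
  rw [h2]
  exact h1

theorem h1_inv (x : Om) : hO ![1, x⁻¹] = hO ![1, x] := by
  obtain ⟨N, _, _, j, a, b, rfl, -⟩ := exists_model2 x x
  rw [← map_inv₀, h1_of, h1_of, logHeight₁_inv]

theorem h1_neg (x : Om) : hO ![1, -x] = hO ![1, x] := by
  obtain ⟨N, _, _, j, a, b, rfl, -⟩ := exists_model2 x x
  rw [← map_neg, h1_of, h1_of, logHeight₁_neg]

end Pool.Agent.Lib.MP_17a322_nt.AP
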