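import Pool.Agent.Lib.MP_17a322_nt.AP.O1

/-!
Degrees of algebraic numbers, heights of the coefficients of minimal polynomials.
-/

namespace Pool.Agent.Lib.MP_17a322_nt.AP

open Height NumberField Polynomial
open scoped IntermediateField

instance algOm : Algebra.IsAlgebraic ℚ Om := AlgebraicClosure.isAlgebraic ℚ

theorem isInt (x : Om) : IsIntegral ℚ x := (Algebra.IsAlgebraic.isAlgebraic x).isIntegral

instance normalOm : Normal ℚ Om := by
  have : IsAlgClosure ℚ Om := ⟨inferInstance, algOm⟩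
  exact IsAlgClosure.normal ℚ Om

theorem deg_le_of_mem {x y z : Om} (h : z ∈ ℚ⟮x⟯ ⊔ ℚ⟮y⟯) :
    (minpoly ℚ z).natDegree ≤ (minpoly ℚ x).natDegree * (minpoly ℚ y).natDegree := by
  have i1 : FiniteDimensional ℚ ℚ⟮x⟯ := IntermediateField.adjoin.finiteDimensional (isInt x)
  have i2 : FiniteDimensional ℚ ℚ⟮y⟯ := IntermediateField.adjoin.finiteDimensional (isInt y)
  have i3 : FiniteDimensional ℚ ↥(ℚ⟮x⟯ ⊔ ℚ⟮y⟯) := IntermediateField.finiteDimensional_sup _ _
  have h1 : minpoly ℚ z = minpoly ℚ (⟨z, h⟩ : ↥(ℚ⟮x⟯ ⊔ ℚ⟮y⟯)) :=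
    minpoly.algebraMap_eq (B' := Om) (algebraMap ↥(ℚ⟮x⟯ ⊔ ℚ⟮y⟯) Om).injective ⟨z, h⟩
  rw [h1]
  refine (minpoly.natDegree_le _).trans ((IntermediateField.finrank_sup_le _ _).trans ?_)
  rw [IntermediateField.adjoin.finrank (isInt x), IntermediateField.adjoin.finrank (isInt y)]

theorem mem_left (x y : Om) : x ∈ ℚ⟮x⟯ ⊔ ℚ⟮y⟯ :=
  (le_sup_left : ℚ⟮x⟯ ≤ ℚ⟮x⟯ ⊔ ℚ⟮y⟯) (IntermediateField.mem_adjoin_simple_self ℚ x)

theorem mem_right (x y : Om) : y ∈ ℚ⟮x⟯ ⊔ ℚ⟮y⟯ :=
  (le_sup_right : ℚ⟮y⟯ ≤ ℚ⟮x⟯ ⊔ ℚ⟮y⟯) (IntermediateField.mem_adjoin_simple_self ℚ y)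

theorem deg_add_le (x y : Om) :
    (minpoly ℚ (x + y)).natDegree ≤ (minpoly ℚ x).natDegree * (minpoly ℚ y).natDegree :=
  deg_le_of_mem (add_mem (mem_left x y) (mem_right x y))

theorem deg_mul_le (x y : Om) :
    (minpoly ℚ (x * y)).natDegree ≤ (minpoly ℚ x).natDegree * (minpoly ℚ y).natDegree :=
  deg_le_of_mem (mul_mem (mem_left x y) (mem_right x y))

theorem deg_neg_le (x : Om) : (minpoly ℚ (-x)).natDegree ≤ (minpoly ℚ x).natDegree * (minpoly ℚ x).natDegree :=
  deg_le_of_mem (neg_mem (mem_left x x))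

theorem deg_inv_le (x : Om) : (minpoly ℚ x⁻¹).natDegree ≤ (minpoly ℚ x).natDegree * (minpoly ℚ x).natDegree :=
  deg_le_of_mem (inv_mem (mem_left x x))

theorem deg_rat (q : ℚ) : (minpoly ℚ (algebraMap ℚ Om q)).natDegree = 1 := by
  rw [minpoly.eq_X_sub_C, natDegree_X_sub_C]

theorem deg_map (σ : Om →ₐ[ℚ] Om) (x : Om) : (minpoly ℚ (σ x)).natDegree = (minpoly ℚ x).natDegree := by
  rw [minpoly.algHom_eq σ σ.injective]

/-- The height of the coefficients of a product of linear factors. -/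
theorem coeff_prod_le (M : ℝ) (s : Multiset Om) (hs : ∀ a ∈ s, hO ![1, a] ≤ M) (k : ℕ) :
    hO ![1, ((s.map fun a => X - C a).prod).coeff k] ≤ (2 ^ Multiset.card s - 1) * (M + Real.log 2) := by
  induction s using Multiset.induction_on generalizing k with
  | empty =>
    rw [Multiset.map_zero, Multiset.prod_zero, Multiset.card_zero, pow_zero, sub_self, zero_mul, coeff_one]
    by_cases hk : k = 0
    · have h := h1_rat 1
      rw [map_one, logHeight₁_one] at h
      rw [if_pos hk, h]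
    · have h := h1_rat 0
      rw [map_zero, logHeight₁_zero] at h
      rw [if_neg hk, h]
  | cons a t ih =>
    have ih' := fun k => ih (fun b hb => hs b (Multiset.mem_cons_of_mem hb)) k
    have ha := hs a (Multiset.mem_cons_self a t)
    have hM : 0 ≤ M := (hO_nonneg _).trans ha
    have hl : 0 < Real.log 2 := Real.log_pos (by norm_num)
    rw [Multiset.map_cons, Multiset.prod_cons, Multiset.card_cons]
    set Q := (t.map fun a => X - C a).prod with hQ
    have hb : 0 ≤ ((2 : ℝ) ^ Multiset.card t - 1) * (M + Real.log 2) :=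
      mul_nonneg (sub_nonneg.2 (one_le_pow₀ (by norm_num))) (by linarith)
    have hpow : ((2 : ℝ) ^ (Multiset.card t + 1) - 1) * (M + Real.log 2) =
        (M + Real.log 2) + 2 * (((2 : ℝ) ^ Multiset.card t - 1) * (M + Real.log 2)) := by
      rw [pow_succ]
      ring
    rw [hpow]
    rcases k with _ | k
    · have h1 : ((X - C a) * Q).coeff 0 = -(a * Q.coeff 0) := by
        rw [mul_coeff_zero, coeff_sub, coeff_X_zero, coeff_C_zero, zero_sub, neg_mul]
      rw [h1, h1_neg]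
      have h2 := h1_mul_le a (Q.coeff 0)
      have h3 := ih' 0
      linarith
    · have h1 : ((X - C a) * Q).coeff (k + 1) = Q.coeff k + -(a * Q.coeff (k + 1)) := by
        rw [sub_mul, coeff_sub, coeff_X_mul, coeff_C_mul, sub_eq_add_neg]
      rw [h1]
      have h2 := h1_add_le (Q.coeff k) (-(a * Q.coeff (k + 1)))
      rw [h1_neg] at h2
      have h3 := h1_mul_le a (Q.coeff (k + 1))
      have h4 := ih' k
      have h5 := ih' (k + 1)
      linarith

/-- The height of the coefficients of the minimal polynomial. -/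
theorem coeff_minpoly_le (x : Om) (k : ℕ) :
    logHeight₁ ((minpoly ℚ x).coeff k) ≤ 2 ^ (minpoly ℚ x).natDegree * (hO ![1, x] + Real.log 2) := by
  have hm : ((minpoly ℚ x).map (algebraMap ℚ Om)).Monic := (minpoly.monic (isInt x)).map _
  have hsp : ((minpoly ℚ x).map (algebraMap ℚ Om)).Splits := IsAlgClosed.splits _
  have h1 := hsp.eq_prod_roots_of_monic hm
  have hcard : Multiset.card ((minpoly ℚ x).map (algebraMap ℚ Om)).roots = (minpoly ℚ x).natDegree := by
    rw [← hsp.natDegree_eq_card_roots, natDegree_map]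
  have h2 := coeff_prod_le (hO ![1, x]) ((minpoly ℚ x).map (algebraMap ℚ Om)).roots (fun a ha => by
    have h3 : Polynomial.aeval a (minpoly ℚ x) = 0 := by
      have h4 := isRoot_of_mem_roots ha
      rwa [IsRoot.def, eval_map_algebraMap] at h4
    obtain ⟨σ, rfl⟩ := minpoly.exists_algEquiv_of_root' (isInt x).isAlgebraic h3
    exact (h1_map (σ : Om →+* Om) x).le) k
  rw [← h1, coeff_map, h1_rat, hcard] at h2
  refine h2.trans (mul_le_mul_of_nonneg_right (by linarith) ?_)
  have hl : 0 < Real.log 2 := Real.log_pos (by norm_num)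
  have := hO_nonneg ![1, x]
  linarith

end Pool.Agent.Lib.MP_17a322_nt.AP
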