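import Pool.Agent.Lib.MP_17a322_nt.AP.O1
import Pool.Agent.Lib.MP_17a322_nt.EQ.TR
import Pool.Agent.Lib.MP_17a322_nt.EQ.Q1

/-!
Algebraic relations between families of algebraic numbers give inequalities of the absolute heights.
-/

namespace Pool.Agent.Lib.MP_17a322_nt.AP

open MvPolynomial hiding psum
open Height NumberField
open Pool.Agent.Lib.MP_17a322_nt.EQ

/-- The sharp non-archimedean bound. `M` is a bound for the absolute values of the coefficients. -/
theorem transfer_nonarch' {k : Type*} [Field k] {σ : Type*} [Fintype σ] [Nonempty σ]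
    (v : AbsoluteValue k ℝ) (hv : IsNonarchimedean v) {r : ℕ}
    (P : MvPolynomial σ k) (hP : ∀ a ∈ P.support, 1 ≤ a.degree ∧ a.degree ≤ r) (M : ℝ) (hM : 1 ≤ M)
    (hc : ∀ a ∈ P.support, v (P.coeff a) ≤ M)
    (f : k) (g : σ → k)
    (h : f ^ r = ∑ a ∈ P.support, P.coeff a * (∏ j, g j ^ a j) * f ^ (r - a.degree)) :
    v f ≤ M * ⨆ j, v (g j) := by
  set m : ℝ := ⨆ j, v (g j) with hm
  have hmj : ∀ j, v (g j) ≤ m := fun j =>
    le_ciSup (f := fun j => v (g j)) (Set.finite_range _).bddAbove j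
  have hm0 : 0 ≤ m := (v.nonneg _).trans (hmj (Classical.arbitrary σ))
  have hM0 : 0 < M := lt_of_lt_of_le one_pos hM
  by_contra hlt
  push Not at hlt
  have hf : 0 < v f := lt_of_le_of_lt (mul_nonneg hM0.le hm0) hlt
  have hmf : m ≤ v f := (le_mul_of_one_le_left hm0 hM).trans hlt.le
  have hlt' : ∀ a ∈ P.support, v (P.coeff a * (∏ j, g j ^ a j) * f ^ (r - a.degree)) < v f ^ r := by
    intro a ha
    obtain ⟨ha1, ha2⟩ := hP a ha
    rw [map_mul, map_mul, mul_assoc, map_pow, map_prod]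
    have h2 : ∏ j, v (g j ^ a j) ≤ m ^ a.degree := by
      simp only [map_pow]
      exact prod_pow_le_sup (fun j => v (g j)) (fun j => v.nonneg _) m hmj a
    have h3 : M * m ^ a.degree < v f ^ a.degree := by
      obtain ⟨d, hd⟩ : ∃ d, a.degree = d + 1 := ⟨a.degree - 1, by omega⟩
      rw [hd, pow_succ' m, pow_succ' (v f), ← mul_assoc]
      exact (mul_le_mul_of_nonneg_left (pow_le_pow_left₀ hm0 hmf d)
        (mul_nonneg hM0.le hm0)).trans_lt (mul_lt_mul_of_pos_right hlt (pow_pos hf d))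
    have h5 : M * ((∏ j, v (g j ^ a j)) * v f ^ (r - a.degree)) < v f ^ r := by
      calc M * ((∏ j, v (g j ^ a j)) * v f ^ (r - a.degree))
          = (M * ∏ j, v (g j ^ a j)) * v f ^ (r - a.degree) := by ring
        _ < v f ^ a.degree * v f ^ (r - a.degree) :=
            mul_lt_mul_of_pos_right ((mul_le_mul_of_nonneg_left h2 hM0.le).trans_lt h3) (pow_pos hf _)
        _ = v f ^ r := by rw [← pow_add]; congr 1; omega
    have h6 : 0 ≤ (∏ j, v (g j ^ a j)) * v f ^ (r - a.degree) :=
      mul_nonneg (Finset.prod_nonneg fun j _ => v.nonneg _) (pow_nonneg hf.le _)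
    exact (mul_le_mul_of_nonneg_right (hc a ha) h6).trans_lt h5
  have hlt2 : ∀ s : Finset (σ →₀ ℕ), (∀ a ∈ s, a ∈ P.support) →
      v (∑ a ∈ s, P.coeff a * (∏ j, g j ^ a j) * f ^ (r - a.degree)) < v f ^ r := by
    classical
    intro s
    induction s using Finset.induction_on with
    | empty =>
      intro _
      simpa using pow_pos hf r
    | insert a s ha ih =>
      intro hs
      rw [Finset.sum_insert ha]
      refine (hv _ _).trans_lt (max_lt ?_ ?_)
      · exact hlt' a (hs a (Finset.mem_insert_self a s))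
      · exact ih fun b hb => hs b (Finset.mem_insert_of_mem hb)
  have h7 := hlt2 P.support fun a ha => ha
  rw [← h, map_pow] at h7
  exact lt_irrefl _ h7

/-- The coefficients and one. -/
private noncomputable def O3_y {σ : Type*} (P : MvPolynomial σ ℚ) : Option P.support → ℚ
  | none => 1
  | some m => P.coeff m

private theorem O3_y_ne {σ : Type*} (P : MvPolynomial σ ℚ) : O3_y P ≠ 0 := fun h =>
  one_ne_zero (α := ℚ) (congrFun h none)

section

variable {N : Type*} [Field N] [NumberField N]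

/-- The constant at the infinite places. -/
private noncomputable def O3_a {σ : Type*} (P : MvPolynomial σ ℚ) : Pl N → ℝ
  | Sum.inl _ => 1 + P.support.card
  | Sum.inr _ => 1

private noncomputable def O3_s {σ : Type*} (P : MvPolynomial σ ℚ) (v : Pl N) : ℝ :=
  ⨆ i, av v (algebraMap ℚ N (O3_y P i))

private theorem O3_one_le_s {σ : Type*} (P : MvPolynomial σ ℚ) (v : Pl N) : 1 ≤ O3_s P v := by
  refine le_trans ?_ (le_ciSup (f := fun i => av v (algebraMap ℚ N (O3_y P i)))
    (Set.finite_range _).bddAbove none)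
  simp [O3_y]

private theorem O3_coeff_le {σ : Type*} (P : MvPolynomial σ ℚ) (v : Pl N) (m : σ →₀ ℕ)
    (hm : m ∈ P.support) : av v (algebraMap ℚ N (P.coeff m)) ≤ O3_s P v :=
  le_ciSup (f := fun i => av v (algebraMap ℚ N (O3_y P i)))
    (Set.finite_range _).bddAbove (some ⟨m, hm⟩)

private theorem O3_one_le_a {σ : Type*} (P : MvPolynomial σ ℚ) (v : Pl N) : 1 ≤ O3_a P v := by
  rcases v with w | w
  · simp [O3_a]
  · simp [O3_a]

private theorem O3_map {σ : Type*} (P : MvPolynomial σ ℚ) :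
    (P.map (algebraMap ℚ N)).support = P.support :=
  support_map_of_injective P (algebraMap ℚ N).injective

private theorem O3_bound {σ : Type*} [Fintype σ] [Nonempty σ] {r : ℕ} (P : MvPolynomial σ ℚ)
    (hP : ∀ a ∈ P.support, 1 ≤ a.degree ∧ a.degree ≤ r) (f : N) (g : σ → N)
    (h : f ^ r = ∑ a ∈ P.support, algebraMap ℚ N (P.coeff a) * (∏ j, g j ^ a j) *
      f ^ (r - a.degree)) (v : Pl N) :
    av v f ≤ O3_a P v * O3_s P v * ⨆ j, av v (g j) := by
  have hP' : ∀ a ∈ (P.map (algebraMap ℚ N)).support, 1 ≤ a.degree ∧ a.degree ≤ r := by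
    rw [O3_map]
    exact hP
  have h' : f ^ r = ∑ a ∈ (P.map (algebraMap ℚ N)).support, (P.map (algebraMap ℚ N)).coeff a *
      (∏ j, g j ^ a j) * f ^ (r - a.degree) := by
    rw [O3_map, h]
    refine Finset.sum_congr rfl fun a _ => ?_
    rw [coeff_map]
  have h0 : 0 ≤ ⨆ j, av v (g j) := Real.iSup_nonneg fun j => (av v).nonneg _
  rcases v with w | w
  · refine (transfer_arch w.val _ hP' f g h').trans (mul_le_mul_of_nonneg_right ?_ h0)
    rw [O3_map]
    have h1 : ∑ a ∈ P.support, w.val ((P.map (algebraMap ℚ N)).coeff a) ≤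
        P.support.card * O3_s P (Sum.inl w) := by
      rw [← nsmul_eq_mul]
      refine Finset.sum_le_card_nsmul _ _ _ fun a ha => ?_
      rw [coeff_map]
      exact O3_coeff_le P (Sum.inl w) a ha
    have h2 := O3_one_le_s P (Sum.inl w : Pl N)
    change _ ≤ (1 + (P.support.card : ℝ)) * _
    linarith
  · refine (transfer_nonarch' w.val (fun x y => w.add_le x y) _ hP' (O3_s P (Sum.inr w))
      (O3_one_le_s P _) (fun a ha => ?_) f g h').trans (mul_le_mul_of_nonneg_right ?_ h0)
    · rw [O3_map] at ha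
      rw [coeff_map]
      exact O3_coeff_le P (Sum.inr w) a ha
    · change _ ≤ 1 * _
      rw [one_mul]

private theorem O3_fs_a {σ : Type*} (P : MvPolynomial σ ℚ) :
    FS fun v : Pl N => Real.log (O3_a P v) := by
  have h : {w : FinitePlace N | Real.log (O3_a P (Sum.inr w)) ≠ 0} = ∅ := by
    ext w
    simp [O3_a]
  unfold FS
  rw [h]
  exact Set.finite_empty

private theorem O3_ps_a {σ : Type*} (P : MvPolynomial σ ℚ) :
    psum (fun v : Pl N => Real.log (O3_a P v)) =
      Module.finrank ℚ N * Real.log (1 + P.support.card) := by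
  unfold psum
  have h : (∑ᶠ w : FinitePlace N, Real.log (O3_a P (Sum.inr w))) = 0 := by
    simp [O3_a]
  rw [h, add_zero]
  simp only [O3_a]
  rw [← Finset.sum_mul, ← InfinitePlace.sum_mult_eq]
  push_cast
  rfl

private theorem O3_ne {σ : Type*} (P : MvPolynomial σ ℚ) :
    (fun i => algebraMap ℚ N (O3_y P i)) ≠ 0 := by
  intro h
  have := congrFun h none
  simp [O3_y] at this

private theorem O3_fs_s {σ : Type*} (P : MvPolynomial σ ℚ) :
    FS fun v : Pl N => Real.log (O3_s P v) :=
  hl_fs_sup (O3_ne P)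

private theorem O3_ps_s {σ : Type*} (P : MvPolynomial σ ℚ) :
    psum (fun v : Pl N => Real.log (O3_s P v)) = Module.finrank ℚ N * logHeight (O3_y P) := by
  rw [← FQ.logHeight_ext]
  exact hl_psum_sup (O3_ne P)

/-- The bound over a number field. -/
private theorem O3_nf {σ ι : Type*} [Fintype σ] [Fintype ι] (r : ι → ℕ) (P : ι → MvPolynomial σ ℚ)
    (hP : ∀ a, ∀ m ∈ (P a).support, 1 ≤ m.degree ∧ m.degree ≤ r a) (S : ι → N) (T : σ → N)
    (hS : S ≠ 0) (hT : T ≠ 0)
    (h : ∀ a, S a ^ r a = ∑ m ∈ (P a).support, algebraMap ℚ N ((P a).coeff m) * (∏ j, T j ^ m j) *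
        S a ^ (r a - m.degree)) :
    logHeight S ≤ logHeight T + Module.finrank ℚ N *
      ∑ a, (Real.log (1 + (P a).support.card) + logHeight (O3_y (P a))) := by
  classical
  obtain ⟨j₀, hj₀⟩ := Function.ne_iff.1 hT
  have : Nonempty σ := ⟨j₀⟩
  obtain ⟨a₀, ha₀⟩ := Function.ne_iff.1 hS
  have : Nonempty ι := ⟨a₀⟩
  have hfs : ∀ a, FS fun v : Pl N => Real.log (O3_s (P a) v) := fun a => O3_fs_s _
  have hfa : ∀ a, FS fun v : Pl N => Real.log (O3_a (P a) v) + Real.log (O3_s (P a) v) := fun a =>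
    hs_fs_add (O3_fs_a _) (hfs a)
  have h1 : Module.finrank ℚ N *
      ∑ a, (Real.log (1 + (P a).support.card) + logHeight (O3_y (P a))) =
      psum fun v : Pl N => ∑ a, (Real.log (O3_a (P a) v) + Real.log (O3_s (P a) v)) := by
    rw [hs_sum _ _ fun a _ => hfa a, Finset.mul_sum]
    refine Finset.sum_congr rfl fun a _ => ?_
    rw [hs_add (O3_fs_a _) (hfs a), O3_ps_a, O3_ps_s, mul_add]
  rw [h1, ← hl_psum_sup hS, ← hl_psum_sup hT, ← hs_add (hl_fs_sup hT)
    (hs_fs_sum _ _ fun a _ => hfa a)]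
  refine hs_mono (hl_fs_sup hS) (hs_fs_add (hl_fs_sup hT) (hs_fs_sum _ _ fun a _ => hfa a))
    fun v => ?_
  have hp : ∀ a, 1 ≤ O3_a (P a) v * O3_s (P a) v := fun a =>
    one_le_mul_of_one_le_of_one_le (O3_one_le_a _ _) (O3_one_le_s _ _)
  have h2 : ∑ a, (Real.log (O3_a (P a) v) + Real.log (O3_s (P a) v)) =
      Real.log (∏ a, (O3_a (P a) v * O3_s (P a) v)) := by
    rw [Real.log_prod]
    · refine Finset.sum_congr rfl fun a _ => ?_
      rw [Real.log_mul]
      · exact (zero_lt_one.trans_le (O3_one_le_a _ _)).ne'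
      · exact (zero_lt_one.trans_le (O3_one_le_s _ _)).ne'
    · exact fun a _ => (zero_lt_one.trans_le (hp a)).ne'
  have hTp := hl_pos (av v) hT
  have hpp : 0 < ∏ a, (O3_a (P a) v * O3_s (P a) v) :=
    Finset.prod_pos fun a _ => zero_lt_one.trans_le (hp a)
  rw [h2, ← Real.log_mul hTp.ne' hpp.ne']
  refine Real.log_le_log (hl_pos (av v) hS) (ciSup_le fun a => ?_)
  refine (O3_bound (P a) (hP a) _ _ (h a) v).trans ?_
  rw [mul_comm]
  refine mul_le_mul_of_nonneg_left ?_ hTp.le
  rw [← Finset.mul_prod_erase Finset.univ (fun b => O3_a (P b) v * O3_s (P b) v)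
    (Finset.mem_univ a)]
  refine le_mul_of_one_le_right (zero_le_one.trans (hp a)) ?_
  have := Finset.prod_le_prod (s := Finset.univ.erase a) (f := fun _ => (1 : ℝ))
    (g := fun b => O3_a (P b) v * O3_s (P b) v) (fun _ _ => zero_le_one) fun b _ => hp b
  rwa [Finset.prod_const_one] at this

end

/-- The transfer of relations with rational coefficients to the absolute heights; the constant depends
only on the relations. -/
theorem hO_le_of_rel {σ ι : Type*} [Fintype σ] [Fintype ι] (r : ι → ℕ) (P : ι → MvPolynomial σ ℚ)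
    (hP : ∀ a, ∀ m ∈ (P a).support, 1 ≤ m.degree ∧ m.degree ≤ r a) :
    ∃ C : ℝ, ∀ (S : ι → Om) (T : σ → Om), S ≠ 0 → T ≠ 0 →
      (∀ a, S a ^ r a = ∑ m ∈ (P a).support, algebraMap ℚ Om ((P a).coeff m) * (∏ j, T j ^ m j) *
        S a ^ (r a - m.degree)) → hO S ≤ hO T + C := by
  refine ⟨∑ a, (Real.log (1 + (P a).support.card) + logHeight (O3_y (P a))),
    fun S T hS hT h => ?_⟩
  obtain ⟨N, _, _, j, x, hx⟩ := exists_model (Sum.elim S T)
  have hxS : ∀ a, j (x (Sum.inl a)) = S a := fun a => hx (Sum.inl a)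
  have hxT : ∀ a, j (x (Sum.inr a)) = T a := fun a => hx (Sum.inr a)
  have h1 := O3_nf r P hP (fun a => x (Sum.inl a)) (fun a => x (Sum.inr a))
    (fun h0 => hS (by
      funext a
      rw [← hxS a, show x (Sum.inl a) = 0 from congrFun h0 a, map_zero]
      rfl))
    (fun h0 => hT (by
      funext a
      rw [← hxT a, show x (Sum.inr a) = 0 from congrFun h0 a, map_zero]
      rfl))
    (fun a => by
      apply j.injective
      rw [map_pow, hxS, h a, map_sum]
      refine Finset.sum_congr rfl fun m _ => ?_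
      rw [map_mul, map_mul, map_prod, map_pow, hxS, eq_ratCast, eq_ratCast, map_ratCast]
      simp only [map_pow, hxT])
  rw [hO_eq' j, hO_eq' j] at h1
  simp only [hxS, hxT] at h1
  have h2 : (0 : ℝ) < Module.finrank ℚ N := by
    have := Module.finrank_pos (R := ℚ) (M := N)
    positivity
  rw [← mul_add] at h1
  exact le_of_mul_le_mul_left h1 h2

end Pool.Agent.Lib.MP_17a322_nt.AP
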