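import Pool.Agent.Lib.MP_17a322_nt.AP.O2

/-!
The calculus of the evaluation, limits of the heights.
-/

namespace Pool.Agent.Lib.MP_17a322_nt.AP

open Height NumberField

namespace EvO

section

variable {B : Type} [Field B] {I : Type} (X : EvO B I)

/-- The evaluation of zero. -/
theorem ev_zero : ∀ᶠ i in (X.U : Filter I), X.ev 0 i = 0 := by
  have h := X.add 0 0
  rw [add_zero] at h
  filter_upwards [h] with i hi
  exact left_eq_add.1 hi

/-- The evaluation of the opposite. -/
theorem ev_neg (x : B) : ∀ᶠ i in (X.U : Filter I), X.ev (-x) i = -X.ev x i := by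
  have h := X.add x (-x)
  rw [add_neg_cancel] at h
  filter_upwards [h, ev_zero X] with i h1 h2
  rw [h2] at h1
  exact eq_neg_of_add_eq_zero_right h1.symm

/-- The evaluation of a difference. -/
theorem ev_sub (x y : B) : ∀ᶠ i in (X.U : Filter I), X.ev (x - y) i = X.ev x i - X.ev y i := by
  have h := X.add x (-y)
  rw [← sub_eq_add_neg] at h
  filter_upwards [h, ev_neg X y] with i h1 h2
  rw [h1, h2, sub_eq_add_neg]

/-- The values of a nonzero element are eventually nonzero. -/
theorem ev_ne {x : B} (hx : x ≠ 0) : ∀ᶠ i in (X.U : Filter I), X.ev x i ≠ 0 := by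
  have h := X.mul x x⁻¹
  rw [mul_inv_cancel₀ hx] at h
  filter_upwards [h, X.one] with i h1 h2 h3
  rw [h2, h3, zero_mul] at h1
  exact one_ne_zero h1

/-- The evaluation of the inverse. -/
theorem ev_inv (x : B) : ∀ᶠ i in (X.U : Filter I), X.ev x⁻¹ i = (X.ev x i)⁻¹ := by
  by_cases hx : x = 0
  · subst hx
    rw [inv_zero]
    filter_upwards [ev_zero X] with i h
    rw [h, inv_zero]
  · have h := X.mul x x⁻¹
    rw [mul_inv_cancel₀ hx] at h
    filter_upwards [h, X.one] with i h1 h2
    rw [h2] at h1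
    exact eq_inv_of_mul_eq_one_right h1.symm

/-- The evaluation separates the elements. -/
theorem ev_eq {x y : B} : (∀ᶠ i in (X.U : Filter I), X.ev x i = X.ev y i) ↔ x = y := by
  constructor
  · intro h
    by_contra hxy
    have h1 := ev_ne X (sub_ne_zero.2 hxy)
    have h2 := (h.and (h1.and (ev_sub X x y))).exists
    obtain ⟨i, h3, h4, h5⟩ := h2
    rw [h5, h3, sub_self] at h4
    exact h4 rfl
  · rintro rfl
    exact Filter.Eventually.of_forall fun _ => rfl

/-- The evaluation of a sum. -/
theorem ev_sum {α : Type*} (s : Finset α) (f : α → B) :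
    ∀ᶠ i in (X.U : Filter I), X.ev (∑ a ∈ s, f a) i = ∑ a ∈ s, X.ev (f a) i := by
  classical
  induction s using Finset.induction_on with
  | empty =>
    filter_upwards [ev_zero X] with i h
    rw [Finset.sum_empty, Finset.sum_empty, h]
  | insert a s ha ih =>
    filter_upwards [ih, X.add (f a) (∑ b ∈ s, f b)] with i h1 h2
    rw [Finset.sum_insert ha, Finset.sum_insert ha, h2, h1]

/-- The evaluation of a product. -/
theorem ev_prod {α : Type*} (s : Finset α) (f : α → B) :
    ∀ᶠ i in (X.U : Filter I), X.ev (∏ a ∈ s, f a) i = ∏ a ∈ s, X.ev (f a) i := by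
  classical
  induction s using Finset.induction_on with
  | empty =>
    filter_upwards [X.one] with i h
    rw [Finset.prod_empty, Finset.prod_empty, h]
  | insert a s ha ih =>
    filter_upwards [ih, X.mul (f a) (∏ b ∈ s, f b)] with i h1 h2
    rw [Finset.prod_insert ha, Finset.prod_insert ha, h2, h1]

/-- The evaluation of a power. -/
theorem ev_pow (x : B) (n : ℕ) : ∀ᶠ i in (X.U : Filter I), X.ev (x ^ n) i = X.ev x i ^ n := by
  induction n with
  | zero =>
    filter_upwards [X.one] with i h
    rw [pow_zero, pow_zero, h]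
  | succ n ih =>
    filter_upwards [ih, X.mul (x ^ n) x] with i h1 h2
    rw [pow_succ, pow_succ, h2, h1]

/-- The evaluation of a natural number. -/
theorem ev_nat (n : ℕ) : ∀ᶠ i in (X.U : Filter I), X.ev (n : B) i = n := by
  induction n with
  | zero =>
    filter_upwards [ev_zero X] with i h
    rw [Nat.cast_zero, Nat.cast_zero, h]
  | succ n ih =>
    filter_upwards [ih, X.add (n : B) 1, X.one] with i h1 h2 h3
    rw [Nat.cast_succ, Nat.cast_succ, h2, h1, h3]

/-- The evaluation of an integer. -/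
theorem ev_int (n : ℤ) : ∀ᶠ i in (X.U : Filter I), X.ev (n : B) i = n := by
  obtain ⟨m, rfl | rfl⟩ := n.eq_nat_or_neg
  · filter_upwards [ev_nat X m] with i h
    rw [Int.cast_natCast, Int.cast_natCast, h]
  · filter_upwards [ev_nat X m, ev_neg X (m : B)] with i h h1
    rw [Int.cast_neg, Int.cast_neg, Int.cast_natCast, Int.cast_natCast, h1, h]

include X in
/-- The field `B` has characteristic zero. -/
theorem charZero : CharZero B := by
  refine charZero_of_inj_zero fun n hn => ?_
  by_contra h
  obtain ⟨i, h1, h2⟩ := ((ev_nat X n).and (ev_zero X)).exists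
  rw [hn, h2] at h1
  exact h (Nat.cast_eq_zero.1 h1.symm)

/-- The evaluation of a rational number. -/
theorem ev_rat (q : ℚ) : ∀ᶠ i in (X.U : Filter I), X.ev (q : B) i = q := by
  have := charZero X
  filter_upwards [ev_int X q.num, ev_nat X q.den, ev_inv X (q.den : B),
    X.mul (q.num : B) (q.den : B)⁻¹] with i h1 h2 h3 h4
  rw [Rat.cast_def, div_eq_mul_inv, h4, h1, h3, h2, ← div_eq_mul_inv, ← Rat.cast_def]

/-- The evaluation of the image of a rational number. -/
theorem ev_alg [Algebra ℚ B] (q : ℚ) :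
    ∀ᶠ i in (X.U : Filter I), X.ev (algebraMap ℚ B q) i = algebraMap ℚ Om q := by
  filter_upwards [ev_rat X q] with i h
  rw [eq_ratCast, eq_ratCast]
  exact h

/-- The scale is eventually positive. -/
theorem ev_pos : ∀ᶠ i in (X.U : Filter I), 0 < X.h i :=
  X.top.eventually_gt_atTop 0

/-- A nonzero family has a nonzero value eventually. -/
theorem ev_fam_ne {ι : Type*} {S : ι → B} (hS : S ≠ 0) :
    ∀ᶠ i in (X.U : Filter I), (fun a => X.ev (S a) i) ≠ 0 := by
  obtain ⟨a, ha⟩ := Function.ne_iff.1 hS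
  filter_upwards [ev_ne X ha] with i h1 h2
  exact h1 (congrFun h2 a)

/-- The heights of the values of a finite family are bounded by a multiple of `h`. -/
theorem lm_bdd {ι : Type*} [Finite ι] (S : ι → B) :
    ∃ C : ℝ, ∀ᶠ i in (X.U : Filter I), hO (fun a => X.ev (S a) i) ≤ C * X.h i := by
  have := Fintype.ofFinite ι
  choose C hC using fun a => X.bdd (S a)
  refine ⟨∑ a, C a, ?_⟩
  filter_upwards [Filter.eventually_all.2 hC] with i hi
  refine (hO_le_sum (fun a => X.ev (S a) i)).trans ?_
  rw [Finset.sum_mul]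
  exact Finset.sum_le_sum fun a _ => hi a

/-- The quotients of the heights by `h` converge along the ultrafilter. -/
theorem tendsto {ι : Type*} [Finite ι] (S : ι → B) :
    Filter.Tendsto (fun i => hO (fun a => X.ev (S a) i) / X.h i) (X.U : Filter I) (nhds (X.lm S)) := by
  obtain ⟨C, hC⟩ := lm_bdd X S
  refine tendsto_nhds_limUnder ?_
  have hmem : ∀ᶠ i in (X.U : Filter I),
      hO (fun a => X.ev (S a) i) / X.h i ∈ Set.Icc (0 : ℝ) C := by
    filter_upwards [hC, ev_pos X] with i h1 h2
    exact ⟨div_nonneg (hO_nonneg _) h2.le, (div_le_iff₀ h2).2 h1⟩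
  obtain ⟨a, -, ha⟩ := (isCompact_Icc (a := (0 : ℝ)) (b := C)).ultrafilter_le_nhds
    (X.U.map fun i => hO (fun a => X.ev (S a) i) / X.h i)
    (by
      rw [Filter.le_principal_iff]
      exact hmem)
  exact ⟨a, ha⟩

/-- The limit is not negative. -/
theorem lm_nonneg {ι : Type*} [Finite ι] (S : ι → B) : 0 ≤ X.lm S := by
  refine ge_of_tendsto (tendsto X S) ?_
  filter_upwards [ev_pos X] with i hi
  exact div_nonneg (hO_nonneg _) hi.le

/-- An inequality of the heights up to a constant gives an inequality of the limits. -/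
theorem lm_le_of {ι κ : Type*} [Finite ι] [Finite κ] (S : ι → B) (T : κ → B) (C : ℝ)
    (h : ∀ᶠ i in (X.U : Filter I), hO (fun a => X.ev (S a) i) ≤ hO (fun a => X.ev (T a) i) + C) :
    X.lm S ≤ X.lm T := by
  have h0 : Filter.Tendsto (fun i => C / X.h i) (X.U : Filter I) (nhds 0) := X.top.const_div_atTop C
  have h1 := (tendsto X T).add h0
  rw [add_zero] at h1
  refine le_of_tendsto_of_tendsto (tendsto X S) h1 ?_
  filter_upwards [h, ev_pos X] with i hi hp
  rw [← add_div]
  exact div_le_div_of_nonneg_right hi hp.le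

theorem lm_eq_of {ι κ : Type*} [Finite ι] [Finite κ] (S : ι → B) (T : κ → B)
    (h : ∀ᶠ i in (X.U : Filter I), hO (fun a => X.ev (S a) i) = hO (fun a => X.ev (T a) i)) :
    X.lm S = X.lm T := by
  refine le_antisymm (lm_le_of X S T 0 ?_) (lm_le_of X T S 0 ?_)
  · filter_upwards [h] with i hi
    rw [hi, add_zero]
  · filter_upwards [h] with i hi
    rw [hi, add_zero]

/-- The limit for the products of the elements of two families. -/
theorem lm_mul {ι κ : Type*} [Finite ι] [Finite κ] {S : ι → B} {T : κ → B} (hS : S ≠ 0) (hT : T ≠ 0) :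
    X.lm (fun p : ι × κ => S p.1 * T p.2) = X.lm S + X.lm T := by
  refine tendsto_nhds_unique (tendsto X (fun p : ι × κ => S p.1 * T p.2))
    (Filter.Tendsto.congr' ?_ ((tendsto X S).add (tendsto X T)))
  filter_upwards [Filter.eventually_all.2 fun p : ι × κ => X.mul (S p.1) (T p.2), ev_fam_ne X hS,
    ev_fam_ne X hT] with i h1 h2 h3
  have h4 : (fun p : ι × κ => X.ev (S p.1 * T p.2) i) =
      fun p : ι × κ => (fun a => X.ev (S a) i) p.1 * (fun a => X.ev (T a) i) p.2 := by
    funext p
    exact h1 p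
  rw [h4, hO_mul h2 h3, add_div]

/-- The limit for a family with one element is zero. -/
theorem lm_single {ι : Type*} [Finite ι] [Subsingleton ι] (S : ι → B) : X.lm S = 0 := by
  refine tendsto_nhds_unique (tendsto X S) ?_
  refine Filter.Tendsto.congr (fun i => ?_) tendsto_const_nhds
  rw [hO_subsingleton, zero_div]

/-- An element of `B` with given values. -/
theorem exists_of {s : I → Om} {x : B} {d : ℕ} {C : ℝ}
    (hd : ∀ᶠ i in (X.U : Filter I), (minpoly ℚ (s i)).natDegree ≤ (minpoly ℚ (X.ev x i)).natDegree ^ d)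
    (hC : ∀ᶠ i in (X.U : Filter I), hO ![1, s i] ≤ C * hO ![1, X.ev x i]) :
    ∃ y, ∀ᶠ i in (X.U : Filter I), X.ev y i = s i := by
  obtain ⟨d', hd'⟩ := X.deg x
  obtain ⟨C', hC'⟩ := X.bdd x
  refine X.surj s ⟨d' ^ d, ?_⟩ ⟨|C| * C', ?_⟩
  · filter_upwards [hd, hd'] with i h1 h2
    exact h1.trans (Nat.pow_le_pow_left h2 d)
  · filter_upwards [hC, hC'] with i h1 h2
    refine h1.trans ?_
    refine (mul_le_mul_of_nonneg_right (le_abs_self C) (hO_nonneg _)).trans ?_
    rw [mul_assoc]
    exact mul_le_mul_of_nonneg_left h2 (abs_nonneg C)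

end

end EvO

end Pool.Agent.Lib.MP_17a322_nt.AP
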