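import Pool.Agent.Lib.MP_17a322_nt.AP.O4
import Pool.Agent.Lib.MP_17a322_nt.FQ.A2
import Pool.Agent.Lib.MP_17a322_nt.FQ.A5

/-!
The field of the classes of the sequences of algebraic numbers of bounded degree and bounded height.
-/

namespace Pool.Agent.Lib.MP_17a322_nt.AP

open Height NumberField
open Pool.Agent.Lib.MP_17a322_nt.FQ (Evl)

section

variable {I : Type}

/-- The degrees of the sequence are bounded and its heights are bounded by a multiple of `h`. -/
private def O5_P (U : Ultrafilter I) (h : I → ℝ) (s : I → Om) : Prop :=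
  (∃ d : ℕ, ∀ᶠ i in (U : Filter I), (minpoly ℚ (s i)).natDegree ≤ d) ∧
    ∃ C : ℝ, ∀ᶠ i in (U : Filter I), hO ![1, s i] ≤ C * h i

private theorem O5_const {U : Ultrafilter I} {h : I → ℝ}
    (hh : Filter.Tendsto h (U : Filter I) Filter.atTop) (c : Om) : O5_P U h fun _ => c := by
  refine ⟨⟨_, Filter.Eventually.of_forall fun i => le_rfl⟩, hO ![1, c], ?_⟩
  filter_upwards [hh.eventually_ge_atTop 1] with i hi
  have h0 := hO_nonneg ![1, c]
  nlinarith

private theorem O5_mul {U : Ultrafilter I} {h : I → ℝ} {s t : I → Om}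
    (hs : O5_P U h s) (ht : O5_P U h t) : O5_P U h (s * t) := by
  obtain ⟨⟨d, hd⟩, C, hC⟩ := hs
  obtain ⟨⟨e, he⟩, D, hD⟩ := ht
  refine ⟨⟨d * e, ?_⟩, C + D, ?_⟩
  · filter_upwards [hd, he] with i h1 h2
    exact (deg_mul_le (s i) (t i)).trans (Nat.mul_le_mul h1 h2)
  · filter_upwards [hC, hD] with i h1 h2
    have h3 := h1_mul_le (s i) (t i)
    rw [Pi.mul_apply, add_mul]
    linarith

private theorem O5_add {U : Ultrafilter I} {h : I → ℝ}
    (hh : Filter.Tendsto h (U : Filter I) Filter.atTop) {s t : I → Om}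
    (hs : O5_P U h s) (ht : O5_P U h t) : O5_P U h (s + t) := by
  obtain ⟨⟨d, hd⟩, C, hC⟩ := hs
  obtain ⟨⟨e, he⟩, D, hD⟩ := ht
  refine ⟨⟨d * e, ?_⟩, Real.log 2 + C + D, ?_⟩
  · filter_upwards [hd, he] with i h1 h2
    exact (deg_add_le (s i) (t i)).trans (Nat.mul_le_mul h1 h2)
  · filter_upwards [hC, hD, hh.eventually_ge_atTop 1] with i h1 h2 h4
    have h3 := h1_add_le (s i) (t i)
    have h5 : 0 ≤ Real.log 2 := Real.log_nonneg (by norm_num)
    rw [Pi.add_apply]
    nlinarith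

private theorem O5_inv {U : Ultrafilter I} {h : I → ℝ} {s : I → Om}
    (hs : O5_P U h s) : O5_P U h s⁻¹ := by
  obtain ⟨⟨d, hd⟩, C, hC⟩ := hs
  refine ⟨⟨d * d, ?_⟩, C, ?_⟩
  · filter_upwards [hd] with i h1
    exact (deg_inv_le (s i)).trans (Nat.mul_le_mul h1 h1)
  · filter_upwards [hC] with i h1
    rw [Pi.inv_apply, h1_inv]
    exact h1

private theorem O5_neg {U : Ultrafilter I} {h : I → ℝ} {s : I → Om}
    (hs : O5_P U h s) : O5_P U h (-s) := by
  obtain ⟨⟨d, hd⟩, C, hC⟩ := hs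
  refine ⟨⟨d * d, ?_⟩, C, ?_⟩
  · filter_upwards [hd] with i h1
    exact (deg_neg_le (s i)).trans (Nat.mul_le_mul h1 h1)
  · filter_upwards [hC] with i h1
    rw [Pi.neg_apply, h1_neg]
    exact h1

/-- The field of the classes of the sequences. -/
private noncomputable def O5_B (U : Ultrafilter I) (h : I → ℝ)
    (hh : Filter.Tendsto h (U : Filter I) Filter.atTop) : Subfield ((U : Filter I).Germ Om) where
  carrier := {x | ∃ s : I → Om, (s : (U : Filter I).Germ Om) = x ∧ O5_P U h s}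
  mul_mem' := by
    rintro _ _ ⟨s, rfl, hs⟩ ⟨t, rfl, ht⟩
    exact ⟨s * t, Filter.Germ.coe_mul s t, O5_mul hs ht⟩
  one_mem' := ⟨fun _ => 1, rfl, O5_const hh 1⟩
  add_mem' := by
    rintro _ _ ⟨s, rfl, hs⟩ ⟨t, rfl, ht⟩
    exact ⟨s + t, Filter.Germ.coe_add s t, O5_add hh hs ht⟩
  zero_mem' := ⟨fun _ => 0, rfl, O5_const hh 0⟩
  neg_mem' := by
    rintro _ ⟨s, rfl, hs⟩
    exact ⟨-s, Filter.Germ.coe_neg s, O5_neg hs⟩
  inv_mem' := by
    rintro _ ⟨s, rfl, hs⟩
    exact ⟨s⁻¹, Filter.Germ.coe_inv s, O5_inv hs⟩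

/-- The field `B`. -/
private theorem O5_exists (U : Ultrafilter I) (h : I → ℝ)
    (hh : Filter.Tendsto h (U : Filter I) Filter.atTop) :
    ∃ (B : Type) (_ : Field B) (X : EvO B I), X.U = U ∧ X.h = h := by
  let B : Subfield ((U : Filter I).Germ Om) := O5_B U h hh
  have hB : ∀ x : B, ∃ s : I → Om, (s : (U : Filter I).Germ Om) = x.1 ∧ O5_P U h s := fun x => x.2
  choose ev he hP using hB
  have key : ∀ {s t : I → Om}, (s : (U : Filter I).Germ Om) = t → ∀ᶠ i in (U : Filter I), s i = t i :=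
    fun {s t} h => Filter.Germ.coe_eq.1 h
  refine ⟨B, inferInstance, ?_, ?_⟩
  · exact
      { U := U
        h := h
        top := hh
        ev := ev
        add := fun x y => by
          have h1 : (ev (x + y) : (U : Filter I).Germ Om) = ((ev x + ev y : I → Om)) := by
            rw [he, Filter.Germ.coe_add, he, he]
            rfl
          exact key h1
        mul := fun x y => by
          have h1 : (ev (x * y) : (U : Filter I).Germ Om) = ((ev x * ev y : I → Om)) := by
            rw [he, Filter.Germ.coe_mul, he, he]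
            rfl
          exact key h1
        one := by
          have h1 : (ev 1 : (U : Filter I).Germ Om) = ((fun _ => 1 : I → Om)) := by
            rw [he]
            rfl
          exact key h1
        deg := fun x => (hP x).1
        bdd := fun x => (hP x).2
        surj := fun s h1 h2 => by
          have h1 : (s : (U : Filter I).Germ Om) ∈ B := ⟨s, rfl, h1, h2⟩
          exact ⟨⟨_, h1⟩, key (he ⟨_, h1⟩)⟩ }
  · exact ⟨rfl, rfl⟩

end

section

variable {B : Type} [Field B] (X : EvO B ℕ) {R : Type} [Field R] [Algebra ℚ R] (Y : Evl ℚ R ℕ)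

/-- The embedding of the field of the rational sequences. -/
private theorem O5_emb (hU : Y.U = X.U) (hh : Y.h = X.h) :
    ∃ j : R →+* B, ∀ x, ∀ᶠ i in (X.U : Filter ℕ), X.ev (j x) i = algebraMap ℚ Om (Y.ev x i) := by
  have h0 : ∀ x : R, ∃ y : B, ∀ᶠ i in (X.U : Filter ℕ), X.ev y i = algebraMap ℚ Om (Y.ev x i) := by
    intro x
    obtain ⟨C, hC⟩ := Y.bdd x
    refine X.surj _ ⟨1, Filter.Eventually.of_forall fun i => (deg_rat _).le⟩ ⟨C, ?_⟩
    rw [hU, hh] at hC
    filter_upwards [hC] with i hi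
    rw [h1_rat]
    exact hi
  choose j hj using h0
  have hadd := fun x y => Y.add x y
  have hmul := fun x y => Y.mul x y
  have hone := FQ.ev_one Y
  have hzero := FQ.ev_zero Y
  rw [hU] at hadd hmul hone hzero
  refine ⟨{ toFun := j, map_one' := ?_, map_mul' := fun x y => ?_, map_zero' := ?_, map_add' := fun x y => ?_ }, hj⟩
  · rw [← X.ev_eq]
    filter_upwards [hj 1, X.one, hone] with i h1 h2 h3
    rw [h1, h2, h3, map_one]
  · rw [← X.ev_eq]
    filter_upwards [hj (x * y), X.mul (j x) (j y), hj x, hj y, hmul x y] with i h1 h2 h3 h4 h5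
    rw [h1, h2, h3, h4, h5, map_mul]
  · rw [← X.ev_eq]
    filter_upwards [hj 0, X.ev_zero, hzero] with i h1 h2 h3
    rw [h1, h2, h3, map_zero]
  · rw [← X.ev_eq]
    filter_upwards [hj (x + y), X.add (j x) (j y), hj x, hj y, hadd x y] with i h1 h2 h3 h4 h5
    rw [h1, h2, h3, h4, h5, map_add]

/-- The elements with rational values. -/
private theorem O5_rat (hU : Y.U = X.U) (hh : Y.h = X.h) (j : R →+* B)
    (hj : ∀ x, ∀ᶠ i in (X.U : Filter ℕ), X.ev (j x) i = algebraMap ℚ Om (Y.ev x i)) (y : B)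
    (hy : ∀ᶠ i in (X.U : Filter ℕ), ∃ q : ℚ, X.ev y i = algebraMap ℚ Om q) : ∃ x : R, j x = y := by
  obtain ⟨C, hC⟩ := X.bdd y
  have h0 : ∃ s : ℕ → ℚ, ∀ᶠ i in (X.U : Filter ℕ), X.ev y i = algebraMap ℚ Om (s i) := by
    classical
    refine ⟨fun i => if h : ∃ q : ℚ, X.ev y i = algebraMap ℚ Om q then h.choose else 0, ?_⟩
    filter_upwards [hy] with i hi
    rw [dif_pos hi]
    exact hi.choose_spec
  obtain ⟨s, hs⟩ := h0
  obtain ⟨x, hx⟩ := Y.surj s ⟨C, by
    rw [hU, hh]
    filter_upwards [hC, hs] with i h1 h2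
    rw [h2, h1_rat] at h1
    exact h1⟩
  rw [hU] at hx
  refine ⟨x, ?_⟩
  rw [← X.ev_eq]
  filter_upwards [hj x, hs, hx] with i h1 h2 h3
  rw [h1, h2, h3]

/-- The elements of `B` are algebraic over the field of the rational sequences. -/
private theorem O5_alg (hU : Y.U = X.U) (hh : Y.h = X.h) [Algebra R B]
    (hj : ∀ x : R, ∀ᶠ i in (X.U : Filter ℕ), X.ev (algebraMap R B x) i = algebraMap ℚ Om (Y.ev x i)) (y : B) :
    IsAlgebraic R y := by
  obtain ⟨d, hd⟩ := X.deg y
  obtain ⟨C, hC⟩ := X.bdd y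
  have hl : 0 < Real.log 2 := Real.log_pos (by norm_num)
  have h0 : ∀ k : ℕ, ∃ x : R, ∀ᶠ i in (X.U : Filter ℕ), Y.ev x i = (minpoly ℚ (X.ev y i)).coeff k := by
    intro k
    obtain ⟨x, hx⟩ := Y.surj (fun i => (minpoly ℚ (X.ev y i)).coeff k) ⟨2 ^ d * (C + Real.log 2), by
      rw [hU, hh]
      filter_upwards [hC, hd, X.top.eventually_ge_atTop 1] with i h1 h2 h3
      refine (coeff_minpoly_le (X.ev y i) k).trans ?_
      have h4 : (2 : ℝ) ^ (minpoly ℚ (X.ev y i)).natDegree ≤ 2 ^ d := pow_le_pow_right₀ (by norm_num) h2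
      have h5 := hO_nonneg ![1, X.ev y i]
      rw [mul_assoc]
      refine mul_le_mul h4 ?_ (by linarith) (by positivity)
      nlinarith⟩
    rw [hU] at hx
    exact ⟨x, hx⟩
  choose c hc using h0
  let P : Polynomial R := ∑ k ∈ Finset.range (d + 1), Polynomial.monomial k (c k)
  have hcoeff : ∀ k, k < d + 1 → P.coeff k = c k := by
    intro k hk
    rw [Polynomial.finsetSum_coeff, Finset.sum_eq_single k]
    · exact Polynomial.coeff_monomial_same k (c k)
    · intro b _ hb
      exact Polynomial.coeff_monomial_of_ne _ (Ne.symm hb)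
    · intro h
      exact absurd (Finset.mem_range.2 hk) h
  have hzero := FQ.ev_zero Y
  rw [hU] at hzero
  have hall : ∀ᶠ i in (X.U : Filter ℕ), ∀ k ∈ Finset.range (d + 1),
      Y.ev (c k) i = (minpoly ℚ (X.ev y i)).coeff k :=
    (Filter.eventually_all_finset _).2 fun k _ => hc k
  refine ⟨P, fun hP => ?_, ?_⟩
  · obtain ⟨i, h1, h2, h3⟩ := (hall.and (hd.and hzero)).exists
    have h4 := h1 _ (Finset.mem_range.2 (Nat.lt_succ_of_le h2))
    have h5 := hcoeff _ (Nat.lt_succ_of_le h2)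
    rw [hP, Polynomial.coeff_zero] at h5
    rw [← h5, h3, Polynomial.coeff_natDegree, (minpoly.monic (isInt _)).leadingCoeff] at h4
    exact zero_ne_one h4
  · have h1 : Polynomial.aeval y P = ∑ k ∈ Finset.range (d + 1), algebraMap R B (c k) * y ^ k := by
      rw [map_sum]
      exact Finset.sum_congr rfl fun k _ => Polynomial.aeval_monomial _
    rw [h1, ← X.ev_eq]
    have h2 : ∀ᶠ i in (X.U : Filter ℕ), ∀ k ∈ Finset.range (d + 1),
        X.ev (algebraMap R B (c k) * y ^ k) i = algebraMap ℚ Om (Y.ev (c k) i) * X.ev y i ^ k := by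
      refine (Filter.eventually_all_finset _).2 fun k _ => ?_
      filter_upwards [X.mul (algebraMap R B (c k)) (y ^ k), hj (c k), X.ev_pow y k] with i e1 e2 e3
      rw [e1, e2, e3]
    filter_upwards [X.ev_sum (Finset.range (d + 1)) fun k => algebraMap R B (c k) * y ^ k, h2, hall,
      X.ev_zero, hd] with i e1 e2 e3 e4 e5
    rw [e1, e4, Finset.sum_congr rfl e2]
    have h3 : ∑ k ∈ Finset.range (d + 1), algebraMap ℚ Om (Y.ev (c k) i) * X.ev y i ^ k =
        Polynomial.aeval (X.ev y i) (minpoly ℚ (X.ev y i)) := by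
      rw [Polynomial.aeval_eq_sum_range' (Nat.lt_succ_of_le e5)]
      refine Finset.sum_congr rfl fun k hk => ?_
      rw [e3 k hk, Algebra.smul_def]
    rw [h3, minpoly.aeval]

end

/-- `R` is the field of the classes of the rational sequences in `B`. -/
structure Cmp {B : Type} [Field B] [Algebra ℚ B] (X : EvO B ℕ) {R : Type} [Field R] [Algebra ℚ R]
    [Algebra R B] [IsScalarTower ℚ R B] (Y : Evl ℚ R ℕ) : Prop where
  U : Y.U = X.U
  h : Y.h = X.h
  ev : ∀ x : R, ∀ᶠ i in (X.U : Filter ℕ), X.ev (algebraMap R B x) i = algebraMap ℚ Om (Y.ev x i)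
  rat : ∀ y : B, (∀ᶠ i in (X.U : Filter ℕ), ∃ q : ℚ, X.ev y i = algebraMap ℚ Om q) →
    ∃ x : R, algebraMap R B x = y
  alg : Algebra.IsAlgebraic R B

/-- The field of the classes of the sequences of algebraic numbers and the subfield of the classes of the
rational sequences. -/
theorem exists_evo (U : Ultrafilter ℕ) (h : ℕ → ℝ) (hh : Filter.Tendsto h (U : Filter ℕ) Filter.atTop) :
    ∃ (B : Type) (_ : Field B) (_ : Algebra ℚ B) (X : EvO B ℕ) (R : Type) (_ : Field R) (_ : Algebra ℚ R)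
      (_ : Algebra R B) (_ : IsScalarTower ℚ R B) (Y : Evl ℚ R ℕ), X.U = U ∧ X.h = h ∧ Cmp X Y := by
  obtain ⟨B, iB, X, hXU, hXh⟩ := O5_exists U h hh
  obtain ⟨R, iR, iQR, Y, hYU, hYh⟩ := FQ.exists_evl ℚ ℕ U h hh
  have hU : Y.U = X.U := by rw [hXU, hYU]
  have hh' : Y.h = X.h := by rw [hXh, hYh]
  obtain ⟨j, hj⟩ := O5_emb X Y hU hh'
  have : CharZero B := X.charZero
  let iQB : Algebra ℚ B := DivisionRing.toRatAlgebra
  let iRB : Algebra R B := j.toAlgebra
  have iT : IsScalarTower ℚ R B := IsScalarTower.of_algebraMap_eq fun q => by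
    rw [eq_ratCast, eq_ratCast, map_ratCast]
  refine ⟨B, iB, iQB, X, R, iR, iQR, iRB, iT, Y, hXU, hXh, ?_⟩
  exact
    { U := hU
      h := hh'
      ev := hj
      rat := O5_rat X Y hU hh' j hj
      alg := ⟨O5_alg X Y hU hh' hj⟩ }

end Pool.Agent.Lib.MP_17a322_nt.AP
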