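import Pool.Agent.Lib.MP_17a322_nt.AP.O3
import Pool.Agent.Lib.MP_17a322_nt.AP.O5
import Pool.Agent.Lib.MP_17a322_nt.FQ.H1

/-!
The heights on the subfields of the field of the classes of the sequences of algebraic numbers.
-/

namespace Pool.Agent.Lib.MP_17a322_nt.AP

open Height NumberField
open Pool.Agent.Lib.MP_17a322_nt.FQ (Evl Ht VQ nm nm_attain le_nm)
open Pool.Agent.Lib.MP_17a322_nt.EQ

section

variable {B : Type} [Field B] {I : Type} (X : EvO B I) (F : Type) [Field F] [Algebra ℚ F] [Algebra F B]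

omit [Algebra ℚ F] in
private theorem O6_ne {κ : Type} {S : κ → F} (hS : S ≠ 0) : (fun a => algebraMap F B (S a)) ≠ 0 := by
  intro h
  apply hS
  funext a
  exact (map_eq_zero (algebraMap F B)).mp (congrFun h a)

private theorem O6_rel {κ : Type} [Fintype κ] (S : F) (T : κ → F) (r : ℕ) (P : MvPolynomial κ ℚ)
    (h : S ^ r = ∑ m ∈ P.support, algebraMap ℚ F (P.coeff m) * (∏ j, T j ^ m j) * S ^ (r - m.degree)) :
    ∀ᶠ i in (X.U : Filter I), X.ev (algebraMap F B S) i ^ r =
      ∑ m ∈ P.support, algebraMap ℚ Om (P.coeff m) * (∏ j, X.ev (algebraMap F B (T j)) i ^ m j) *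
        X.ev (algebraMap F B S) i ^ (r - m.degree) := by
  have hB : (algebraMap F B S) ^ r = ∑ m ∈ P.support, ((P.coeff m : ℚ) : B) *
      (∏ j, (algebraMap F B (T j)) ^ m j) * (algebraMap F B S) ^ (r - m.degree) := by
    rw [← map_pow, h, map_sum]
    refine Finset.sum_congr rfl fun m _ => ?_
    rw [map_mul, map_mul, map_prod, map_pow, eq_ratCast, map_ratCast]
    simp only [map_pow]
  have h3 : ∀ᶠ i in (X.U : Filter I), ∀ m ∈ P.support,
      X.ev (((P.coeff m : ℚ) : B) * (∏ j, (algebraMap F B (T j)) ^ m j) *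
        (algebraMap F B S) ^ (r - m.degree)) i =
      algebraMap ℚ Om (P.coeff m) * (∏ j, X.ev (algebraMap F B (T j)) i ^ m j) *
        X.ev (algebraMap F B S) i ^ (r - m.degree) := by
    rw [Filter.eventually_all_finset]
    intro m _
    have h4 : ∀ᶠ i in (X.U : Filter I), ∀ j : κ, X.ev ((algebraMap F B (T j)) ^ m j) i =
        X.ev (algebraMap F B (T j)) i ^ m j := by
      rw [Filter.eventually_all]
      intro j
      exact X.ev_pow _ _
    filter_upwards [h4, X.mul (((P.coeff m : ℚ) : B) * (∏ j, (algebraMap F B (T j)) ^ m j))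
      ((algebraMap F B S) ^ (r - m.degree)), X.mul ((P.coeff m : ℚ) : B)
      (∏ j, (algebraMap F B (T j)) ^ m j), X.ev_rat (P.coeff m),
      X.ev_prod Finset.univ (fun j => (algebraMap F B (T j)) ^ m j),
      X.ev_pow (algebraMap F B S) (r - m.degree)] with i e1 e2 e3 e4 e5 e6
    rw [e2, e3, e4, e5, e6, eq_ratCast]
    congr 2
    exact Finset.prod_congr rfl fun j _ => e1 j
  filter_upwards [X.ev_pow (algebraMap F B S) r, X.ev_sum P.support (fun m => ((P.coeff m : ℚ) : B) *
    (∏ j, (algebraMap F B (T j)) ^ m j) * (algebraMap F B S) ^ (r - m.degree)), h3] with i e1 e2 e3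
  rw [← e1, hB, e2]
  exact Finset.sum_congr rfl fun m hm => e3 m hm

private theorem O6_mono {κ κ' : Type} [Fintype κ] [Fintype κ'] (S : κ → F) (T : κ' → F) (hS : S ≠ 0)
    (hT : T ≠ 0) (h : ∀ A, nm ℚ S A ≤ nm ℚ T A) :
    X.lm (fun a => algebraMap F B (S a)) ≤ X.lm (fun a => algebraMap F B (T a)) := by
  have hdom : ∀ a, ∀ A : ValuationSubring F, (∀ c : ℚ, algebraMap ℚ F c ∈ A) →
      ∃ j, A.valuation (S a) ≤ A.valuation (T j) := fun a A hA => by
    obtain ⟨j, -, hj⟩ := nm_attain (k := ℚ) T hT ⟨A, hA⟩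
    exact ⟨j, ((le_nm S ⟨A, hA⟩ a).trans (h ⟨A, hA⟩)).trans (le_of_eq hj)⟩
  have hrel : ∀ a, ∃ (r : ℕ) (P : MvPolynomial κ' ℚ), (∀ m ∈ P.support, 1 ≤ m.degree ∧ m.degree ≤ r) ∧
      S a ^ r = ∑ m ∈ P.support, algebraMap ℚ F (P.coeff m) * (∏ j, T j ^ m j) *
        S a ^ (r - m.degree) := by
    intro a
    obtain ⟨r, P, _, h1, h2⟩ := transfer_alg (k := ℚ) (S a) T (hdom a)
    exact ⟨r, P, h1, h2⟩
  choose r P hP hPr using hrel
  obtain ⟨C, hC⟩ := hO_le_of_rel r P hP
  refine X.lm_le_of _ _ C ?_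
  filter_upwards [Filter.eventually_all.2 fun a => O6_rel X F (S a) T (r a) (P a) (hPr a),
    X.ev_fam_ne (O6_ne F hS), X.ev_fam_ne (O6_ne F hT)] with i e1 e2 e3
  exact hC _ _ e2 e3 e1

omit [Algebra ℚ F] in
private theorem O6_tensor {κ κ' : Type} [Fintype κ] [Fintype κ'] (S : κ → F) (T : κ' → F) (hS : S ≠ 0)
    (hT : T ≠ 0) : X.lm (fun a : κ × κ' => algebraMap F B (S a.1 * T a.2)) =
      X.lm (fun a => algebraMap F B (S a)) + X.lm (fun a => algebraMap F B (T a)) := by
  have h : (fun a : κ × κ' => algebraMap F B (S a.1 * T a.2)) =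
      fun a => algebraMap F B (S a.1) * algebraMap F B (T a.2) := by
    funext a
    exact map_mul _ _ _
  rw [h]
  exact X.lm_mul (S := fun a => algebraMap F B (S a)) (T := fun a => algebraMap F B (T a))
    (O6_ne F hS) (O6_ne F hT)

/-- The height on a subfield of the big field. -/
noncomputable def EvO.ht : Ht ℚ F where
  lam S := X.lm fun a => algebraMap F B (S a)
  tensor S T hS hT := O6_tensor X F S T hS hT
  mono S T hS hT h := O6_mono X F S T hS hT h
  single _ _ := X.lm_single _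

end

section

variable {B : Type} [Field B] [Algebra ℚ B] (X : EvO B ℕ) {R : Type} [Field R] [Algebra ℚ R]
    [Algebra R B] [IsScalarTower ℚ R B] (Y : Evl ℚ R ℕ)

/-- The height of a family of elements of `R`. -/
theorem lm_cmp (hc : Cmp X Y) {κ : Type} [Finite κ] (S : κ → R) :
    X.lm (fun a => algebraMap R B (S a)) = Y.lm S := by
  have h1 := FQ.lm_tendsto Y S
  rw [hc.U, hc.h] at h1
  refine tendsto_nhds_unique (X.tendsto _) (h1.congr' ?_)
  filter_upwards [Filter.eventually_all.2 fun a => hc.ev (S a)] with i h2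
  rw [funext h2, hO_rat]

end

end Pool.Agent.Lib.MP_17a322_nt.AP
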