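import Pool.Agent.Lib.MP_17a322_nt.AP.O6

/-!
The automorphisms of the field of the classes of the sequences of algebraic numbers.
-/

namespace Pool.Agent.Lib.MP_17a322_nt.AP

open Height NumberField
open Pool.Agent.Lib.MP_17a322_nt.FQ (Evl)

/-- An algebraic extension of characteristic zero is Galois if the automorphisms fix no other elements. -/
theorem isGalois_of_fixed {R B : Type*} [Field R] [CharZero R] [Field B] [Algebra R B] [Algebra.IsAlgebraic R B]
    (h : ∀ y : B, (∀ σ : B ≃ₐ[R] B, σ y = y) → ∃ x : R, algebraMap R B x = y) : IsGalois R B := by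
  classical
  have hn : Normal R B := by
    refine normal_iff.2 fun y => ⟨(Algebra.IsAlgebraic.isAlgebraic y).isIntegral, ?_⟩
    have hy : IsIntegral R y := (Algebra.IsAlgebraic.isAlgebraic y).isIntegral
    set p := minpoly R y with hp
    have hp0 : p ≠ 0 := minpoly.ne_zero hy
    let Z : Finset B := (p.map (algebraMap R B)).roots.toFinset
    have hZ : ∀ z, z ∈ Z ↔ Polynomial.aeval z p = 0 := by
      intro z
      rw [Multiset.mem_toFinset, Polynomial.mem_roots (Polynomial.map_ne_zero hp0), Polynomial.IsRoot.def,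
        Polynomial.eval_map_algebraMap]
    let q : Polynomial B := ∏ z ∈ Z, (Polynomial.X - Polynomial.C z)
    have hq : ∀ σ : B ≃ₐ[R] B, q.map (σ : B →+* B) = q := by
      intro σ
      have h1 : q.map (σ : B →+* B) = ∏ z ∈ Z, (Polynomial.X - Polynomial.C (σ z)) := by
        rw [Polynomial.map_prod]
        refine Finset.prod_congr rfl fun z _ => ?_
        rw [Polynomial.map_sub, Polynomial.map_X, Polynomial.map_C]
        rfl
      rw [h1]
      refine Finset.prod_bij (fun z _ => σ z) ?_ ?_ ?_ ?_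
      · intro z hz
        rw [hZ] at hz ⊢
        rw [Polynomial.aeval_algEquiv, AlgHom.comp_apply, hz]
        exact map_zero _
      · intro a _ b _ hab
        exact σ.injective hab
      · intro b hb
        refine ⟨σ.symm b, ?_, σ.apply_symm_apply b⟩
        rw [hZ] at hb ⊢
        rw [Polynomial.aeval_algEquiv, AlgHom.comp_apply, hb]
        exact map_zero _
      · intro a _
        rfl
    have hlift : ∃ q₀ : Polynomial R, q₀.map (algebraMap R B) = q := by
      have h1 : ∀ k, ∃ x : R, algebraMap R B x = q.coeff k := by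
        intro k
        refine h _ fun σ => ?_
        have h2 := congrArg (fun g : Polynomial B => g.coeff k) (hq σ)
        simp only [Polynomial.coeff_map] at h2
        exact h2
      have h3 : q ∈ Polynomial.lifts (algebraMap R B) := by
        rw [Polynomial.lifts_iff_coeff_lifts]
        exact fun k => h1 k
      exact (Polynomial.mem_lifts q).1 h3
    obtain ⟨q₀, hq₀⟩ := hlift
    have hroot : Polynomial.aeval y q₀ = 0 := by
      rw [← Polynomial.eval_map_algebraMap, hq₀, Polynomial.eval_prod]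
      refine Finset.prod_eq_zero ((hZ y).2 (minpoly.aeval R y)) ?_
      rw [Polynomial.eval_sub, Polynomial.eval_X, Polynomial.eval_C, sub_self]
    have hdvd := minpoly.dvd R y hroot
    have hq0 : q ≠ 0 := by
      refine Finset.prod_ne_zero_iff.2 fun z _ => Polynomial.X_sub_C_ne_zero z
    have hsp : q.Splits := by
      refine Polynomial.Splits.prod fun z _ => Polynomial.Splits.X_sub_C z
    rw [← hq₀] at hsp hq0
    exact hsp.of_dvd hq0 (Polynomial.map_dvd _ hdvd)
  exact { }

section

variable {B : Type} [Field B] [Algebra ℚ B] (X : EvO B ℕ) {R : Type} [Field R] [Algebra ℚ R]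
    [Algebra R B] [IsScalarTower ℚ R B] (Y : Evl ℚ R ℕ)

/-- Every sequence of automorphisms acts on `B`. -/
theorem exists_auto (hc : Cmp X Y) (τ : ℕ → (Om ≃ₐ[ℚ] Om)) :
    ∃ σ : B ≃ₐ[R] B, ∀ y, ∀ᶠ i in (X.U : Filter ℕ), X.ev (σ y) i = τ i (X.ev y i) := by
  have key : ∀ τ : ℕ → (Om ≃ₐ[ℚ] Om), ∃ s : B → B, ∀ y, ∀ᶠ i in (X.U : Filter ℕ),
      X.ev (s y) i = τ i (X.ev y i) := by
    intro τ
    have h0 : ∀ y : B, ∃ z : B, ∀ᶠ i in (X.U : Filter ℕ), X.ev z i = τ i (X.ev y i) := by
      intro y
      obtain ⟨d, hd⟩ := X.deg y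
      obtain ⟨C, hC⟩ := X.bdd y
      refine X.surj _ ⟨d, ?_⟩ ⟨C, ?_⟩
      · filter_upwards [hd] with i hi
        have h1 := deg_map (τ i : Om →ₐ[ℚ] Om) (X.ev y i)
        exact (le_of_eq h1).trans hi
      · filter_upwards [hC] with i hi
        have h1 := h1_map ((τ i : Om →ₐ[ℚ] Om) : Om →+* Om) (X.ev y i)
        exact (le_of_eq h1).trans hi
    choose s hs using h0
    exact ⟨s, hs⟩
  obtain ⟨s, hs⟩ := key τ
  obtain ⟨t, ht⟩ := key fun i => (τ i).symm
  have hst : ∀ y, s (t y) = y := fun y => by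
    rw [← X.ev_eq]
    filter_upwards [hs (t y), ht y] with i h1 h2
    rw [h1, h2, AlgEquiv.apply_symm_apply]
  have hts : ∀ y, t (s y) = y := fun y => by
    rw [← X.ev_eq]
    filter_upwards [ht (s y), hs y] with i h1 h2
    rw [h1, h2, AlgEquiv.symm_apply_apply]
  refine ⟨{ toFun := s, invFun := t, left_inv := hts, right_inv := hst, map_mul' := fun x y => ?_,
            map_add' := fun x y => ?_, commutes' := fun x => ?_ }, hs⟩
  · rw [← X.ev_eq]
    filter_upwards [hs (x * y), X.mul (s x) (s y), hs x, hs y, X.mul x y] with i h1 h2 h3 h4 h5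
    rw [h1, h2, h3, h4, h5, map_mul]
  · rw [← X.ev_eq]
    filter_upwards [hs (x + y), X.add (s x) (s y), hs x, hs y, X.add x y] with i h1 h2 h3 h4 h5
    rw [h1, h2, h3, h4, h5, map_add]
  · show s (algebraMap R B x) = algebraMap R B x
    rw [← X.ev_eq]
    filter_upwards [hs (algebraMap R B x), hc.ev x] with i h1 h2
    rw [h1, h2, AlgEquiv.commutes]

/-- An algebraic number which is not rational is moved by an automorphism. -/
theorem exists_moved (y : Om) (hy : ¬ ∃ q : ℚ, y = algebraMap ℚ Om q) : ∃ τ : Om ≃ₐ[ℚ] Om, τ y ≠ y := by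
  by_contra h
  push Not at h
  have : IsGalois ℚ Om := { }
  have h1 : y ∈ IntermediateField.fixedField (⊤ : Subgroup (Om ≃ₐ[ℚ] Om)) := by
    rw [IntermediateField.mem_fixedField_iff]
    exact fun f _ => h f
  rw [InfiniteGalois.fixedField_bot] at h1
  obtain ⟨q, hq⟩ := IntermediateField.mem_bot.1 h1
  exact hy ⟨q, hq.symm⟩

/-- An element of `B` which is not in `R` is moved by an automorphism which comes from a sequence. -/
theorem exists_moving (hc : Cmp X Y) (y : B) (hy : ¬ ∃ x : R, algebraMap R B x = y) :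
    ∃ (τ : ℕ → (Om ≃ₐ[ℚ] Om)) (σ : B ≃ₐ[R] B), (∀ z, ∀ᶠ i in (X.U : Filter ℕ), X.ev (σ z) i = τ i (X.ev z i)) ∧
      σ y ≠ y := by
  classical
  have h1 : ∀ᶠ i in (X.U : Filter ℕ), ¬ ∃ q : ℚ, X.ev y i = algebraMap ℚ Om q := by
    rw [Ultrafilter.eventually_not]
    exact fun h => hy (hc.rat y h)
  let τ : ℕ → (Om ≃ₐ[ℚ] Om) := fun i =>
    if h : ¬ ∃ q : ℚ, X.ev y i = algebraMap ℚ Om q then (exists_moved _ h).choose else AlgEquiv.refl
  have hτ : ∀ i, (¬ ∃ q : ℚ, X.ev y i = algebraMap ℚ Om q) → τ i (X.ev y i) ≠ X.ev y i := by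
    intro i h
    have h2 : τ i = (exists_moved _ h).choose := dif_pos h
    rw [h2]
    exact (exists_moved _ h).choose_spec
  obtain ⟨σ, hσ⟩ := exists_auto X Y hc τ
  refine ⟨τ, σ, hσ, fun h => ?_⟩
  obtain ⟨i, h2, h3⟩ := (h1.and (hσ y)).exists
  rw [h] at h3
  exact hτ i h2 h3.symm

/-- `B` is a Galois extension of `R`. -/
theorem isGalois_cmp (hc : Cmp X Y) : IsGalois R B := by
  have : CharZero R := algebraRat.charZero R
  have := hc.alg
  refine isGalois_of_fixed fun y hy => ?_
  by_contra h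
  obtain ⟨τ, σ, -, hσ⟩ := exists_moving X Y hc y h
  exact hσ (hy σ)

/-- The automorphisms of a finite Galois extension of a field of rational sequences preserve the heights. -/
theorem lm_aut (hc : Cmp X Y) {E G : Type} [Field E] [Field G] [Algebra E R] [Algebra E G] [Algebra E B]
    [Algebra G B] [IsScalarTower E R B] [IsScalarTower E G B] [FiniteDimensional E G] [IsGalois E G]
    (hE : ∀ y : G, (∃ x : R, algebraMap R B x = algebraMap G B y) → ∃ e : E, algebraMap E G e = y)
    (σ : G ≃ₐ[E] G) {κ : Type} [Finite κ] (S : κ → G) :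
    X.lm (fun a => algebraMap G B (σ (S a))) = X.lm (fun a => algebraMap G B (S a)) := by
  let H : Subgroup (G ≃ₐ[E] G) :=
    { carrier := {σ | ∃ τ : ℕ → (Om ≃ₐ[ℚ] Om), ∀ z : G, ∀ᶠ i in (X.U : Filter ℕ),
        X.ev (algebraMap G B (σ z)) i = τ i (X.ev (algebraMap G B z) i)}
      mul_mem' := by
        rintro σ σ' ⟨τ, hτ⟩ ⟨τ', hτ'⟩
        refine ⟨fun i => τ i * τ' i, fun z => ?_⟩
        filter_upwards [hτ (σ' z), hτ' z] with i h1 h2
        rw [AlgEquiv.mul_apply, h1, h2]
        rfl
      one_mem' := ⟨fun _ => 1, fun z => Filter.Eventually.of_forall fun i => rfl⟩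
      inv_mem' := by
        rintro σ ⟨τ, hτ⟩
        refine ⟨fun i => (τ i).symm, fun z => ?_⟩
        filter_upwards [hτ (σ⁻¹ z)] with i h1
        have h2 : σ (σ⁻¹ z) = z := σ.apply_symm_apply z
        rw [h2] at h1
        rw [h1, AlgEquiv.symm_apply_apply] }
  have hH : H = ⊤ := by
    have h1 : IntermediateField.fixedField H = ⊥ := by
      rw [eq_bot_iff]
      intro y hy
      rw [IntermediateField.mem_fixedField_iff] at hy
      rw [IntermediateField.mem_bot]
      refine hE y ?_
      by_contra h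
      obtain ⟨τ, σ', hσ', hne⟩ := exists_moving X Y hc _ h
      let ψ : G ≃ₐ[E] G := (σ'.restrictScalars E).restrictNormal G
      have hψ : ∀ z, algebraMap G B (ψ z) = σ' (algebraMap G B z) := fun z =>
        AlgEquiv.restrictNormal_commutes (σ'.restrictScalars E) G z
      have h2 : ψ ∈ H := by
        refine ⟨τ, fun z => ?_⟩
        rw [hψ]
        exact hσ' _
      have h3 := hy ψ h2
      have h4 := hψ y
      rw [h3] at h4
      exact hne h4.symm
    rw [← IntermediateField.fixingSubgroup_fixedField H, h1, IntermediateField.fixingSubgroup_bot]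
  have hσ : σ ∈ H := by
    rw [hH]
    exact Subgroup.mem_top σ
  obtain ⟨τ, hτ⟩ := hσ
  refine X.lm_eq_of _ _ ?_
  filter_upwards [Filter.eventually_all.2 fun a => hτ (S a)] with i h1
  rw [funext h1]
  exact hO_map ((τ i : Om →ₐ[ℚ] Om) : Om →+* Om) _

end

end Pool.Agent.Lib.MP_17a322_nt.AP
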