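import Pool.Agent.Lib.MP_17a322_nt.FQ.Defs
import Pool.Agent.Lib.MP_17a322_nt.FQ.X9
import Pool.Agent.Lib.MP_17a322_nt.FQ.H0

/-!
Absolute heights of algebraic numbers, ultrapowers of the field of algebraic numbers: definitions.
-/

namespace Pool.Agent.Lib.MP_17a322_nt.AP

open Height NumberField

/-- The algebraic numbers. -/
abbrev Om : Type := AlgebraicClosure ℚ

/-- The field generated by a finite family of algebraic numbers is a number field. -/
instance numberField_adjoin {κ : Type*} [Finite κ] (S : κ → Om) :
    NumberField (IntermediateField.adjoin ℚ (Set.range S)) where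
  to_charZero := inferInstance
  to_finiteDimensional := by
    have : Algebra.IsIntegral ℚ Om := AlgebraicClosure.isAlgebraic ℚ |>.isIntegral
    exact IntermediateField.finiteDimensional_adjoin fun x _ => Algebra.IsIntegral.isIntegral x

/-- The absolute logarithmic height of a finite family of algebraic numbers. -/
noncomputable def hO {κ : Type*} [Finite κ] (S : κ → Om) : ℝ :=
  logHeight (fun a => (⟨S a, IntermediateField.subset_adjoin ℚ _ ⟨a, rfl⟩⟩ :
    IntermediateField.adjoin ℚ (Set.range S))) /
      Module.finrank ℚ (IntermediateField.adjoin ℚ (Set.range S))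

/-- The field `B` consists of the classes of the sequences of algebraic numbers, modulo the ultrafilter
`U`, whose degrees are bounded and whose heights are bounded by multiples of `h`. -/
structure EvO (B : Type) [Field B] (I : Type) where
  U : Ultrafilter I
  h : I → ℝ
  top : Filter.Tendsto h (U : Filter I) Filter.atTop
  ev : B → I → Om
  add : ∀ x y, ∀ᶠ i in (U : Filter I), ev (x + y) i = ev x i + ev y i
  mul : ∀ x y, ∀ᶠ i in (U : Filter I), ev (x * y) i = ev x i * ev y i
  one : ∀ᶠ i in (U : Filter I), ev 1 i = 1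
  deg : ∀ x, ∃ d : ℕ, ∀ᶠ i in (U : Filter I), (minpoly ℚ (ev x i)).natDegree ≤ d
  bdd : ∀ x, ∃ C : ℝ, ∀ᶠ i in (U : Filter I), hO ![1, ev x i] ≤ C * h i
  surj : ∀ s : I → Om, (∃ d : ℕ, ∀ᶠ i in (U : Filter I), (minpoly ℚ (s i)).natDegree ≤ d) →
    (∃ C : ℝ, ∀ᶠ i in (U : Filter I), hO ![1, s i] ≤ C * h i) → ∃ x, ∀ᶠ i in (U : Filter I), ev x i = s i

/-- The limit of the heights of the values of the family `S`, divided by `h`. -/
noncomputable def EvO.lm {B : Type} [Field B] {I : Type} (X : EvO B I) {ι : Type*} [Finite ι]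
    (S : ι → B) : ℝ :=
  Filter.limUnder (X.U : Filter I) fun i => hO (fun a => X.ev (S a) i) / X.h i

/-- Evaluation of the elements of the field `F` in the fields `L i`, modulo the ultrafilter `U`. -/
structure EvV (F : Type) [Field F] {I : Type} (U : Ultrafilter I) (L : I → Type) [∀ i, Field (L i)] where
  ev : F → ∀ i, L i
  add : ∀ x y, ∀ᶠ i in (U : Filter I), ev (x + y) i = ev x i + ev y i
  mul : ∀ x y, ∀ᶠ i in (U : Filter I), ev (x * y) i = ev x i * ev y i
  one : ∀ᶠ i in (U : Filter I), ev 1 i = 1

end Pool.Agent.Lib.MP_17a322_nt.AP
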