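import Mathlib

/-!
Finite places of a number field `L`: values are powers of `q_w`, and the sum of the contributions
`(e_w - 1) log q_w` over the finite places is at most `log |disc L|`.
-/

namespace Pool.Agent.Lib.MP_17a322_nt.AP.BP

open NumberField IsDedekindDomain Ideal

section

variable {L : Type*} [Field L] [NumberField L]

/-- `log q_w`. -/
noncomputable def lq (w : FinitePlace L) : ℝ := Real.log (Ideal.absNorm w.maximalIdeal.asIdeal)

lemma one_lt_qq (w : FinitePlace L) : (1 : ℝ) < Ideal.absNorm w.maximalIdeal.asIdeal := by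
  exact_mod_cast HeightOneSpectrum.one_lt_absNorm w.maximalIdeal

lemma lq_pos (w : FinitePlace L) : 0 < lq w := Real.log_pos (one_lt_qq w)

lemma log_int (w : FinitePlace L) {x : 𝓞 L} (hx : x ≠ 0) :
    Real.log (w (x : L)) = -(multiplicity w.maximalIdeal.asIdeal (span {x}) : ℝ) * lq w := by
  have h := FinitePlace.apply_mul_absNorm_pow_eq_one w hx
  have hw : w (x : L) ≠ 0 := by
    intro h0
    rw [h0, zero_mul] at h
    exact zero_ne_one h
  have h1 := congrArg Real.log h
  rw [Real.log_mul hw (pow_ne_zero _ (by have := one_lt_qq w; positivity)), Real.log_one,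
    Real.log_pow] at h1
  rw [lq]
  linarith

/-- All values of a finite place are powers of `q_w`. -/
lemma exists_zpow (w : FinitePlace L) {x : L} (hx : x ≠ 0) :
    ∃ k : ℤ, Real.log (w x) = k * lq w := by
  obtain ⟨a, b, hb, rfl⟩ := IsFractionRing.div_surjective (A := 𝓞 L) x
  have hb0 : b ≠ 0 := nonZeroDivisors.ne_zero hb
  have ha0 : a ≠ 0 := by
    rintro rfl
    simp at hx
  have e1 := log_int w ha0
  have e2 := log_int w hb0
  refine ⟨-(multiplicity w.maximalIdeal.asIdeal (span {a}) : ℤ) +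
    (multiplicity w.maximalIdeal.asIdeal (span {b}) : ℤ), ?_⟩
  rw [map_div₀, Real.log_div]
  · rw [RingOfIntegers.coe_eq_algebraMap] at e1 e2
    rw [e1, e2]
    push_cast
    ring
  · exact (map_ne_zero w).2 (by simpa using ha0)
  · exact (map_ne_zero w).2 (by simpa using hb0)

/-- Below every finite place lies a prime number. -/
lemma exists_prime (w : FinitePlace L) : ∃ p : ℕ, p.Prime ∧ w (p : L) < 1 := by
  have hP := w.maximalIdeal.isPrime
  obtain ⟨p, hp⟩ := CharP.exists (𝓞 L ⧸ w.maximalIdeal.asIdeal)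
  have hd : IsDomain (𝓞 L ⧸ w.maximalIdeal.asIdeal) := Ideal.Quotient.isDomain _
  have h0 : p ≠ 0 := by
    rintro rfl
    have h1 : ((Ideal.absNorm w.maximalIdeal.asIdeal : ℕ) : 𝓞 L ⧸ w.maximalIdeal.asIdeal) = 0 := by
      have := Ideal.Quotient.eq_zero_iff_mem.2 (Ideal.absNorm_mem w.maximalIdeal.asIdeal)
      simpa using this
    rw [CharP.cast_eq_zero_iff (𝓞 L ⧸ w.maximalIdeal.asIdeal) 0, Nat.zero_dvd] at h1
    have := one_lt_qq w
    rw [h1] at this
    norm_num at this
  have hpp : p.Prime := (CharP.char_is_prime_or_zero (𝓞 L ⧸ w.maximalIdeal.asIdeal) p).resolve_right h0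
  refine ⟨p, hpp, ?_⟩
  have h1 : ((p : ℕ) : 𝓞 L ⧸ w.maximalIdeal.asIdeal) = 0 := CharP.cast_eq_zero _ p
  have h2 : (p : 𝓞 L) ∈ w.maximalIdeal.asIdeal := by
    rw [← Ideal.Quotient.eq_zero_iff_mem]
    simpa using h1
  have h3 := (NumberField.FinitePlace.norm_lt_one_iff_mem L w.maximalIdeal (p : 𝓞 L)).2 h2
  rw [← FinitePlace.norm_embedding_eq w (p : L)]
  simpa using h3

lemma map_dvd (w : FinitePlace L) {p : ℕ} (hp : p.Prime) {e : ℕ}
    (he : Real.log (w (p : L)) = -(e : ℝ) * lq w) :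
    w.maximalIdeal.asIdeal ^ (e - 1) ∣ differentIdeal ℤ (𝓞 L) := by
  have hp0 : (p : 𝓞 L) ≠ 0 := by exact_mod_cast hp.ne_zero
  have h := log_int w hp0
  have hc : ((p : 𝓞 L) : L) = (p : L) := by simp
  rw [hc, he] at h
  have hm : e = multiplicity w.maximalIdeal.asIdeal (span {(p : 𝓞 L)}) := by
    have := lq_pos w
    have h2 : (e : ℝ) = (multiplicity w.maximalIdeal.asIdeal (span {(p : 𝓞 L)}) : ℝ) := by
      have h3 : ((e : ℝ) - (multiplicity w.maximalIdeal.asIdeal (span {(p : 𝓞 L)}) : ℝ)) * lq w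
        = 0 := by linarith
      rcases mul_eq_zero.1 h3 with h4 | h4
      · linarith
      · exact absurd h4 this.ne'
    exact_mod_cast h2
  have hmax : (span {(p : ℤ)}).IsMaximal := by
    have : Prime (p : ℤ) := Nat.prime_iff_prime_int.1 hp
    exact ((Ideal.span_singleton_prime this.ne_zero).2 this).isMaximal (by simp [hp.ne_zero])
  have hd : w.maximalIdeal.asIdeal ^ e ∣ (span {(p : ℤ)}).map (algebraMap ℤ (𝓞 L)) := by
    rw [Ideal.map_span, Set.image_singleton]
    have : (algebraMap ℤ (𝓞 L)) (p : ℤ) = (p : 𝓞 L) := by simp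
    rw [this, hm]
    exact pow_multiplicity_dvd _ _
  exact pow_sub_one_dvd_differentIdeal (A := ℤ) (B := 𝓞 L) (p := span {(p : ℤ)}) _ e
    (by simp [hp.ne_zero]) hd

theorem sum_le_discr (T : Finset (FinitePlace L)) (e p : FinitePlace L → ℕ)
    (hp : ∀ w ∈ T, (p w).Prime)
    (he : ∀ w ∈ T, Real.log (w (p w : L)) = -(e w : ℝ) * lq w) :
    ∑ w ∈ T, ((e w : ℝ) - 1) * lq w ≤ Real.log |(discr L : ℝ)| := by
  classical
  have h1 : ∏ w ∈ T, w.maximalIdeal.asIdeal ^ (e w - 1) ∣ differentIdeal ℤ (𝓞 L) := by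
    refine Finset.prod_dvd_of_coprime ?_ fun w hw => map_dvd w (hp w hw) (he w hw)
    intro v _ w _ hvw
    refine IsCoprime.pow ?_
    rw [Ideal.isCoprime_iff_sup_eq]
    have hne : v.maximalIdeal.asIdeal ≠ w.maximalIdeal.asIdeal := by
      intro h
      exact hvw (FinitePlace.maximalIdeal_injective (HeightOneSpectrum.ext h))
    exact v.maximalIdeal.isMaximal.coprime_of_ne w.maximalIdeal.isMaximal hne
  have h2 : ∏ w ∈ T, (Ideal.absNorm w.maximalIdeal.asIdeal) ^ (e w - 1) ∣ (discr L).natAbs := by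
    have := _root_.map_dvd (Ideal.absNorm (S := 𝓞 L)) h1
    rw [map_prod, absNorm_differentIdeal L (𝓞 L)] at this
    simpa only [map_pow] using this
  have h3 : ∏ w ∈ T, (Ideal.absNorm w.maximalIdeal.asIdeal) ^ (e w - 1) ≤ (discr L).natAbs :=
    Nat.le_of_dvd (Int.natAbs_pos.2 (discr_ne_zero L)) h2
  have h4 : Real.log (∏ w ∈ T, ((Ideal.absNorm w.maximalIdeal.asIdeal : ℕ) : ℝ) ^ (e w - 1)) ≤
      Real.log |(discr L : ℝ)| := by
    refine Real.log_le_log ?_ ?_
    · exact Finset.prod_pos fun w _ => pow_pos (by linarith [one_lt_qq w]) _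
    · rw [← Int.cast_abs, Int.abs_eq_natAbs]
      exact_mod_cast h3
  refine le_trans ?_ h4
  rw [Real.log_prod]
  · refine Finset.sum_le_sum fun w hw => ?_
    rw [Real.log_pow]
    refine mul_le_mul_of_nonneg_right ?_ (lq_pos w).le
    have : e w ≤ (e w - 1) + 1 := by omega
    have h5 : (e w : ℝ) ≤ ((e w - 1 : ℕ) : ℝ) + 1 := by exact_mod_cast this
    linarith
  · intro w _
    exact (pow_pos (by linarith [one_lt_qq w]) _).ne'

end

end Pool.Agent.Lib.MP_17a322_nt.AP.BP
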