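import Pool.Agent.Lib.MP_17a322_nt.AP.P1
import Pool.Agent.Lib.MP_17a322_nt.FQ.X9

/-!
The sum of the `|log |x|_w|` over the places of a number field, in terms of the height of `x`.
-/

namespace Pool.Agent.Lib.MP_17a322_nt.AP.BP

open NumberField Height

section

variable {L : Type*} [Field L] [NumberField L]

lemma abs_log_eq {t : ℝ} (ht : 0 < t) : |Real.log t| = Real.posLog t + Real.posLog t⁻¹ := by
  rw [Real.posLog, Real.posLog, Real.log_inv]
  rcases le_total 0 (Real.log t) with h | h
  · rw [abs_of_nonneg h, max_eq_right h, max_eq_left (by linarith), add_zero]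
  · rw [abs_of_nonpos h, max_eq_left h, max_eq_right (by linarith), zero_add]

/-- The sum of the `|log |x|_w|` over the infinite places and some finite places. -/
theorem sum_abs_log_le (T : Finset (FinitePlace L)) (x : L) (hx : x ≠ 0) :
    ∑ v : InfinitePlace L, v.mult * |Real.log (v x)| + ∑ w ∈ T, |Real.log (w x)| ≤
      2 * logHeight₁ x := by
  have hfin : ∀ y : L, y ≠ 0 → ∑ w ∈ T, Real.posLog (w y) ≤ ∑ᶠ w : FinitePlace L, Real.posLog (w y) := by
    intro y hy
    have hs : (Function.support fun w : FinitePlace L => Real.posLog (w y)).Finite := by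
      refine (FinitePlace.hasFiniteMulSupport hy).subset fun w hw => ?_
      rw [Function.mem_support] at hw
      rw [Function.mem_mulSupport]
      intro h
      rw [h] at hw
      simp at hw
    classical
    rw [finsum_eq_sum_of_support_subset (s := hs.toFinset ∪ T) _ (by
      intro w hw
      simp only [Finset.coe_union, Set.Finite.coe_toFinset]
      exact Or.inl hw)]
    exact Finset.sum_le_sum_of_subset_of_nonneg Finset.subset_union_right
      fun w _ _ => Real.posLog_nonneg
  have h1 := NumberField.logHeight₁_eq x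
  have h2 := NumberField.logHeight₁_eq x⁻¹
  have h3 : logHeight₁ x⁻¹ = logHeight₁ x := logHeight₁_inv x
  have h4 := hfin x hx
  have h5 := hfin x⁻¹ (inv_ne_zero hx)
  have e1 : ∑ v : InfinitePlace L, v.mult * |Real.log (v x)| =
      ∑ v : InfinitePlace L, v.mult * Real.posLog (v x) +
        ∑ v : InfinitePlace L, v.mult * Real.posLog (v x⁻¹) := by
    rw [← Finset.sum_add_distrib]
    refine Finset.sum_congr rfl fun v _ => ?_
    rw [abs_log_eq (by rw [InfinitePlace.pos_iff]; exact hx), map_inv₀, mul_add]
  have e2 : ∑ w ∈ T, |Real.log (w x)| =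
      ∑ w ∈ T, Real.posLog (w x) + ∑ w ∈ T, Real.posLog (w x⁻¹) := by
    rw [← Finset.sum_add_distrib]
    refine Finset.sum_congr rfl fun v _ => ?_
    rw [abs_log_eq (by rw [FinitePlace.pos_iff]; exact hx), map_inv₀]
  rw [e1, e2]
  linarith

theorem logHeight₁_rat (x : ℚ) : logHeight₁ (x : L) = Module.finrank ℚ L * logHeight₁ x := by
  rw [logHeight₁_eq_logHeight, logHeight₁_eq_logHeight, ← FQ.logHeight_ext (L := L) ![x, 1]]
  congr 1
  funext a
  refine Fin.cases ?_ (fun b => ?_) a
  · exact (eq_ratCast _ _).symm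
  · have hb : b = 0 := Subsingleton.elim _ _
    rw [hb]
    exact (map_one (algebraMap ℚ L)).symm

/-- The same for a rational number. -/
theorem sum_abs_log_rat_le (T : Finset (FinitePlace L)) (x : ℚ) (hx : x ≠ 0) :
    ∑ v : InfinitePlace L, v.mult * |Real.log (v (x : L))| + ∑ w ∈ T, |Real.log (w (x : L))| ≤
      2 * (Module.finrank ℚ L * logHeight₁ x) := by
  rw [← logHeight₁_rat]
  exact sum_abs_log_le T (x : L) (by exact_mod_cast hx)

/-- The number of places over a prime: the sum of the `e_w log q_w` over finite places at which the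
prime number `p` is not a unit is at most `[L : ℚ] log p`. -/
theorem sum_over_nat (T : Finset (FinitePlace L)) {p : ℕ} (hp : p ≠ 0) :
    ∑ w ∈ T, -Real.log (w (p : L)) ≤ Module.finrank ℚ L * Real.log p := by
  have hp0 : (p : L) ≠ 0 := by exact_mod_cast hp
  have h2 : logHeight₁ ((p : L)⁻¹) = Module.finrank ℚ L * Real.log p := by
    have : NeZero p := ⟨hp⟩
    rw [logHeight₁_inv, ← Rat.cast_natCast, logHeight₁_rat, Rat.logHeight₁_natCast]
  rw [← h2]
  have h1 := NumberField.logHeight₁_eq ((p : L)⁻¹)
  have hs : (Function.support fun w : FinitePlace L => Real.posLog (w (p : L)⁻¹)).Finite := by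
    refine (FinitePlace.hasFiniteMulSupport (inv_ne_zero hp0)).subset fun w hw => ?_
    rw [Function.mem_support] at hw
    rw [Function.mem_mulSupport]
    intro h
    rw [h] at hw
    simp at hw
  have h3 : ∑ w ∈ T, Real.posLog (w (p : L)⁻¹) ≤ ∑ᶠ w : FinitePlace L, Real.posLog (w (p : L)⁻¹) := by
    classical
    rw [finsum_eq_sum_of_support_subset (s := hs.toFinset ∪ T) _ (by
      intro w hw
      simp only [Finset.coe_union, Set.Finite.coe_toFinset]
      exact Or.inl hw)]
    exact Finset.sum_le_sum_of_subset_of_nonneg Finset.subset_union_right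
      fun w _ _ => Real.posLog_nonneg
  have h4 : ∑ w ∈ T, -Real.log (w (p : L)) ≤ ∑ w ∈ T, Real.posLog (w (p : L)⁻¹) := by
    refine Finset.sum_le_sum fun w _ => ?_
    rw [Real.posLog, map_inv₀, Real.log_inv]
    exact le_max_right _ _
  have h5 : 0 ≤ ∑ v : InfinitePlace L, (v.mult : ℝ) * Real.posLog (v (p : L)⁻¹) :=
    Finset.sum_nonneg fun v _ => mul_nonneg (Nat.cast_nonneg _) Real.posLog_nonneg
  linarith

end

end Pool.Agent.Lib.MP_17a322_nt.AP.BP
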