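import Pool.Agent.Lib.MP_17a322_nt.EQ.Q1

/-!
Logarithms of maxima of absolute values of finite families.
-/

namespace Pool.Agent.Lib.MP_17a322_nt.AP.BP

section

variable {L : Type*} [Field L] (v : AbsoluteValue L ℝ)

/-- The logarithm of the maximum of the absolute values of a family. -/
noncomputable def ls {ι : Type*} (x : ι → L) : ℝ := Real.log (⨆ i, v (x i))

theorem exists_max {ι : Type*} [Finite ι] {x : ι → L} (hx : ∃ i, x i ≠ 0) :
    ∃ i, x i ≠ 0 ∧ ∀ j, v (x j) ≤ v (x i) := by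
  obtain ⟨a, ha⟩ := hx
  have : Nonempty ι := ⟨a⟩
  obtain ⟨i, hi⟩ := Finite.exists_max fun i => v (x i)
  refine ⟨i, fun h => ?_, hi⟩
  have h1 := hi a
  rw [h, map_zero] at h1
  exact absurd (v.pos ha) (not_lt.2 h1)

theorem ls_eq {ι : Type*} [Finite ι] {x : ι → L} {i : ι} (h : ∀ j, v (x j) ≤ v (x i)) :
    ls v x = Real.log (v (x i)) := by
  have : Nonempty ι := ⟨i⟩
  rw [ls, le_antisymm (ciSup_le h) (Finite.le_ciSup (fun i => v (x i)) i)]

theorem log_le_ls {ι : Type*} [Finite ι] {x : ι → L} {i : ι} (hi : x i ≠ 0) :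
    Real.log (v (x i)) ≤ ls v x :=
  Real.log_le_log (v.pos hi) (Finite.le_ciSup (fun i => v (x i)) i)

theorem ls_mul {ι κ : Type*} [Finite ι] [Finite κ] {x : ι → L} {y : κ → L} (hx : ∃ i, x i ≠ 0)
    (hy : ∃ i, y i ≠ 0) : ls v (fun p : ι × κ => x p.1 * y p.2) = ls v x + ls v y := by
  obtain ⟨i, hi, hi'⟩ := exists_max v hx
  obtain ⟨j, hj, hj'⟩ := exists_max v hy
  rw [ls_eq v hi', ls_eq v hj', ls_eq v (i := (i, j)), map_mul,
    Real.log_mul (v.pos hi).ne' (v.pos hj).ne']
  intro p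
  simp only [map_mul]
  exact mul_le_mul (hi' _) (hj' _) (v.nonneg _) (v.nonneg _)

theorem ls_pi {β κ : Type*} [Fintype β] [Finite κ] {x : β → κ → L} (hx : ∀ b, ∃ i, x b i ≠ 0) :
    ls v (fun j : β → κ => ∏ b, x b (j b)) = ∑ b, ls v (x b) := by
  choose i hi hi' using fun b => exists_max v (hx b)
  have h1 : ∀ b, ls v (x b) = Real.log (v (x b (i b))) := fun b => ls_eq v (hi' b)
  have h2 : ls v (fun j : β → κ => ∏ b, x b (j b)) = Real.log (v (∏ b, x b (i b))) := by
    refine ls_eq v (x := fun j : β → κ => ∏ b, x b (j b)) (i := i) fun j => ?_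
    simp only [map_prod]
    exact Finset.prod_le_prod (fun b _ => v.nonneg _) fun b _ => hi' b _
  rw [h2, map_prod, Real.log_prod fun b _ => (v.pos (hi b)).ne']
  exact Finset.sum_congr rfl fun b _ => (h1 b).symm

theorem ls_pow {ι : Type*} [Finite ι] {x : ι → L} (hx : ∃ i, x i ≠ 0) (e : ℕ) :
    ls v (fun i => x i ^ e) = e * ls v x := by
  obtain ⟨i, hi, hi'⟩ := exists_max v hx
  rw [ls_eq v hi', ls_eq v (i := i), map_pow, Real.log_pow]
  intro j
  simp only [map_pow]
  exact pow_le_pow_left₀ (v.nonneg _) (hi' j) _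

theorem ls_single {ι : Type*} [Finite ι] [Nonempty ι] (c : L) :
    ls v (fun _ : ι => c) = Real.log (v c) := by
  obtain ⟨i⟩ := ‹Nonempty ι›
  exact ls_eq v (i := i) fun _ => le_refl _

theorem ls_bool {c : L} (hc : c ≠ 0) :
    ls v (fun s : Bool => if s then c else c⁻¹) = |Real.log (v c)| := by
  have hp := v.pos hc
  rcases le_total 1 (v c) with h | h
  · rw [abs_of_nonneg (Real.log_nonneg h), ls_eq v (i := true)]
    · rfl
    · intro s
      cases s
      · simp only [Bool.false_eq_true, if_false, if_true, map_inv₀]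
        exact (inv_le_one_of_one_le₀ h).trans h
      · exact le_refl _
  · rw [abs_of_nonpos (Real.log_nonpos hp.le h), ls_eq v (i := false)]
    · simp only [Bool.false_eq_true, if_false, map_inv₀, Real.log_inv]
    · intro s
      cases s
      · exact le_refl _
      · simp only [Bool.false_eq_true, if_false, if_true, map_inv₀]
        exact h.trans ((one_le_inv₀ hp).2 h)

theorem ls_sgn {A : Type*} [Fintype A] {f : A → L} (hf : ∀ a, f a ≠ 0) :
    ls v (fun s : A → Bool => ∏ a, if s a then f a else (f a)⁻¹) = ∑ a, |Real.log (v (f a))| := by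
  rw [ls_pi v (x := fun a (s : Bool) => if s then f a else (f a)⁻¹) fun a => ⟨true, by simpa using hf a⟩]
  exact Finset.sum_congr rfl fun a _ => ls_bool v (hf a)

end

end Pool.Agent.Lib.MP_17a322_nt.AP.BP
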