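import Pool.Agent.Lib.MP_17a322_nt.AP.ODefs
import Pool.Agent.Lib.MP_17a322_nt.AP.P2
import Pool.Agent.Lib.MP_17a322_nt.AP.P3
import Pool.Agent.Lib.MP_17a322_nt.EQ.TR

/-!
The transfer of inequalities at all valuation rings to the places of the fields `L i`.
-/

namespace Pool.Agent.Lib.MP_17a322_nt.AP.BP

open NumberField Height
open Pool.Agent.Lib.MP_17a322_nt.EQ (Pl av transfer_alg transfer_arch transfer_nonarch)

section

variable {F : Type} [Field F] [Algebra ℚ F] {U : Ultrafilter ℕ} {L : ℕ → Type}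
  [∀ i, Field (L i)] [∀ i, NumberField (L i)] (V : EvV F U L)

theorem ev_zero : ∀ᶠ i in (U : Filter ℕ), V.ev 0 i = 0 := by
  filter_upwards [V.add 0 0] with i hi
  rw [add_zero] at hi
  exact left_eq_add.1 hi

theorem ev_neg (x : F) : ∀ᶠ i in (U : Filter ℕ), V.ev (-x) i = -V.ev x i := by
  filter_upwards [V.add x (-x), ev_zero V] with i h1 h2
  rw [add_neg_cancel, h2] at h1
  exact eq_neg_of_add_eq_zero_right h1.symm

theorem ev_pow (x : F) (n : ℕ) : ∀ᶠ i in (U : Filter ℕ), V.ev (x ^ n) i = V.ev x i ^ n := by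
  induction n with
  | zero =>
    filter_upwards [V.one] with i hi
    rw [pow_zero, pow_zero, hi]
  | succ n ih =>
    filter_upwards [V.mul (x ^ n) x, ih] with i h1 h2
    rw [pow_succ, pow_succ, h1, h2]

theorem ev_sum {α : Type*} (s : Finset α) (f : α → F) :
    ∀ᶠ i in (U : Filter ℕ), V.ev (∑ a ∈ s, f a) i = ∑ a ∈ s, V.ev (f a) i := by
  classical
  induction s using Finset.induction_on with
  | empty =>
    filter_upwards [ev_zero V] with i hi
    rw [Finset.sum_empty, Finset.sum_empty, hi]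
  | insert a s ha ih =>
    filter_upwards [V.add (f a) (∑ a ∈ s, f a), ih] with i h1 h2
    rw [Finset.sum_insert ha, Finset.sum_insert ha, h1, h2]

theorem ev_prod {α : Type*} (s : Finset α) (f : α → F) :
    ∀ᶠ i in (U : Filter ℕ), V.ev (∏ a ∈ s, f a) i = ∏ a ∈ s, V.ev (f a) i := by
  classical
  induction s using Finset.induction_on with
  | empty =>
    filter_upwards [V.one] with i hi
    rw [Finset.prod_empty, Finset.prod_empty, hi]
  | insert a s ha ih =>
    filter_upwards [V.mul (f a) (∏ a ∈ s, f a), ih] with i h1 h2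
    rw [Finset.prod_insert ha, Finset.prod_insert ha, h1, h2]

theorem ev_ne {x : F} (hx : x ≠ 0) : ∀ᶠ i in (U : Filter ℕ), V.ev x i ≠ 0 := by
  filter_upwards [V.mul x x⁻¹, V.one] with i h1 h2 h3
  rw [mul_inv_cancel₀ hx, h2, h3, zero_mul] at h1
  exact one_ne_zero h1

theorem ev_inv (x : F) : ∀ᶠ i in (U : Filter ℕ), V.ev x⁻¹ i = (V.ev x i)⁻¹ := by
  by_cases hx : x = 0
  · subst hx
    filter_upwards [ev_zero V] with i hi
    rw [inv_zero, hi, inv_zero]
  filter_upwards [V.mul x x⁻¹, V.one, ev_ne V hx] with i h1 h2 h3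
  rw [mul_inv_cancel₀ hx, h2] at h1
  exact eq_inv_of_mul_eq_one_right h1.symm

theorem ev_nat (n : ℕ) : ∀ᶠ i in (U : Filter ℕ), V.ev (n : F) i = (n : L i) := by
  induction n with
  | zero =>
    filter_upwards [ev_zero V] with i hi
    rw [Nat.cast_zero, Nat.cast_zero, hi]
  | succ n ih =>
    filter_upwards [V.add (n : F) 1, ih, V.one] with i h1 h2 h3
    rw [Nat.cast_succ, Nat.cast_succ, h1, h2, h3]

theorem ev_int (n : ℤ) : ∀ᶠ i in (U : Filter ℕ), V.ev (n : F) i = (n : L i) := by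
  obtain ⟨m, rfl | rfl⟩ := n.eq_nat_or_neg
  · filter_upwards [ev_nat V m] with i hi
    simpa using hi
  · filter_upwards [ev_nat V m, ev_neg V (m : F)] with i h1 h2
    rw [Int.cast_neg, Int.cast_natCast, h2, h1, Int.cast_neg, Int.cast_natCast]

theorem ev_rat (c : ℚ) : ∀ᶠ i in (U : Filter ℕ), V.ev (algebraMap ℚ F c) i = algebraMap ℚ (L i) c := by
  have h0 : algebraMap ℚ F c * (c.den : F) = (c.num : F) := by
    have := congrArg (algebraMap ℚ F) (Rat.mul_den_eq_num c)
    rwa [map_mul, map_natCast, map_intCast] at this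
  filter_upwards [V.mul (algebraMap ℚ F c) (c.den : F), ev_nat V c.den, ev_int V c.num] with i h1 h2 h3
  rw [h0, h2, h3] at h1
  have h4 : algebraMap ℚ (L i) c * (c.den : L i) = (c.num : L i) := by
    have := congrArg (algebraMap ℚ (L i)) (Rat.mul_den_eq_num c)
    rwa [map_mul, map_natCast, map_intCast] at this
  have h5 : (c.den : L i) ≠ 0 := Nat.cast_ne_zero.2 c.den_ne_zero
  exact mul_right_cancel₀ h5 (h1.symm.trans h4.symm)

theorem ev_fam_ne {κ : Type*} {T : κ → F} (hT : ∃ j, T j ≠ 0) :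
    ∀ᶠ i in (U : Filter ℕ), ∃ j, V.ev (T j) i ≠ 0 := by
  obtain ⟨j, hj⟩ := hT
  filter_upwards [ev_ne V hj] with i hi
  exact ⟨j, hi⟩

/-- The algebraic relation at the values. -/
theorem rel {σ : Type*} [Fintype σ] {r : ℕ} (P : MvPolynomial σ ℚ) (f : F) (G : σ → F)
    (h : f ^ r = ∑ a ∈ P.support, algebraMap ℚ F (P.coeff a) * (∏ j, G j ^ a j) * f ^ (r - a.degree)) :
    ∀ᶠ i in (U : Filter ℕ), V.ev f i ^ r = ∑ a ∈ (MvPolynomial.map (algebraMap ℚ (L i)) P).support,
      (MvPolynomial.map (algebraMap ℚ (L i)) P).coeff a * (∏ j, V.ev (G j) i ^ a j) *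
        V.ev f i ^ (r - a.degree) := by
  have h1 : ∀ a ∈ P.support, ∀ᶠ i in (U : Filter ℕ),
      V.ev (algebraMap ℚ F (P.coeff a) * (∏ j, G j ^ a j) * f ^ (r - a.degree)) i =
        algebraMap ℚ (L i) (P.coeff a) * (∏ j, V.ev (G j) i ^ a j) * V.ev f i ^ (r - a.degree) := by
    intro a _
    have h2 : ∀ᶠ i in (U : Filter ℕ), ∀ j, V.ev (G j ^ a j) i = V.ev (G j) i ^ a j :=
      Filter.eventually_all.2 fun j => ev_pow V (G j) (a j)
    filter_upwards [V.mul (algebraMap ℚ F (P.coeff a) * (∏ j, G j ^ a j)) (f ^ (r - a.degree)),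
      V.mul (algebraMap ℚ F (P.coeff a)) (∏ j, G j ^ a j), ev_rat V (P.coeff a),
      ev_prod V Finset.univ (fun j => G j ^ a j), h2, ev_pow V f (r - a.degree)] with i e1 e2 e3 e4 e5 e6
    rw [e1, e2, e3, e4, e6]
    simp only [e5]
  have h3 : ∀ᶠ i in (U : Filter ℕ), ∀ a ∈ P.support,
      V.ev (algebraMap ℚ F (P.coeff a) * (∏ j, G j ^ a j) * f ^ (r - a.degree)) i =
        algebraMap ℚ (L i) (P.coeff a) * (∏ j, V.ev (G j) i ^ a j) * V.ev f i ^ (r - a.degree) :=
    (Filter.eventually_all_finset P.support).2 h1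
  filter_upwards [h3, ev_pow V f r, ev_sum V P.support fun a =>
    algebraMap ℚ F (P.coeff a) * (∏ j, G j ^ a j) * f ^ (r - a.degree)] with i e1 e2 e3
  rw [← e2, h, e3, MvPolynomial.support_map_of_injective _ (algebraMap ℚ (L i)).injective]
  refine Finset.sum_congr rfl fun a ha => ?_
  rw [e1 a ha, MvPolynomial.coeff_map]

end

end Pool.Agent.Lib.MP_17a322_nt.AP.BP
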