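import Pool.Agent.Lib.MP_17a322_nt.AP.P4

/-!
The transfer of inequalities at all valuation rings to the places of the fields `L i`: constants.
-/

namespace Pool.Agent.Lib.MP_17a322_nt.AP.BP

open NumberField Height
open Pool.Agent.Lib.MP_17a322_nt.EQ (Pl av transfer_alg transfer_arch transfer_nonarch)

section

variable {L : Type*} [Field L] [NumberField L]

/-- The error term of the transfer: `1` at the infinite places, `- log |M|_w` at the finite ones. -/
noncomputable def bd (M : ℕ) (v : Pl L) : ℝ :=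
  match v with
  | Sum.inl _ => 1
  | Sum.inr w => -Real.log (w (M : L))

theorem log_nat (w : FinitePlace L) {M : ℕ} (hM : M ≠ 0) :
    ∃ k : ℕ, -Real.log (w (M : L)) = k * lq w := by
  have h0 : (M : 𝓞 L) ≠ 0 := by exact_mod_cast hM
  have h := log_int w h0
  refine ⟨multiplicity w.maximalIdeal.asIdeal (Ideal.span {(M : 𝓞 L)}), ?_⟩
  have hc : ((M : 𝓞 L) : L) = (M : L) := by simp
  rw [← hc, h]
  ring

theorem bd_nonneg {M : ℕ} (hM : M ≠ 0) (v : Pl L) : 0 ≤ bd M v := by
  rcases v with w | w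
  · exact zero_le_one
  · obtain ⟨k, hk⟩ := log_nat w hM
    simp only [bd]
    rw [hk]
    exact mul_nonneg (Nat.cast_nonneg _) (lq_pos w).le

theorem log_two_le (w : FinitePlace L) : Real.log 2 ≤ lq w := by
  refine Real.log_le_log two_pos ?_
  have := one_lt_qq w
  have h1 : 1 < Ideal.absNorm w.maximalIdeal.asIdeal := by exact_mod_cast this
  exact_mod_cast h1

theorem bd_dich {M : ℕ} (hM : M ≠ 0) (w : FinitePlace L) :
    w (M : L) = 1 ∨ Real.log 2 ≤ bd M (Sum.inr w) := by
  obtain ⟨k, hk⟩ := log_nat w hM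
  have hM0 : (M : L) ≠ 0 := by exact_mod_cast hM
  have hp : 0 < w (M : L) := FinitePlace.pos_iff.2 hM0
  rcases Nat.eq_zero_or_pos k with rfl | hk0
  · left
    rw [Nat.cast_zero, zero_mul, neg_eq_zero] at hk
    exact Real.eq_one_of_pos_of_log_eq_zero hp hk
  · right
    simp only [bd]
    rw [hk]
    have h1 : (1 : ℝ) ≤ k := by exact_mod_cast hk0
    calc Real.log 2 ≤ lq w := log_two_le w
      _ = 1 * lq w := (one_mul _).symm
      _ ≤ k * lq w := mul_le_mul_of_nonneg_right h1 (lq_pos w).le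

theorem nat_le_one (w : FinitePlace L) (M : ℕ) : w (M : L) ≤ 1 := by
  by_cases hM : M = 0
  · subst hM
    simp
  have hM0 : (M : L) ≠ 0 := by exact_mod_cast hM
  have hp : 0 < w (M : L) := FinitePlace.pos_iff.2 hM0
  have := bd_nonneg hM (Sum.inr w)
  simp only [bd] at this
  by_contra h
  push Not at h
  have := Real.log_pos h
  linarith

theorem int_le_one (w : FinitePlace L) (M : ℤ) : w (M : L) ≤ 1 := by
  obtain ⟨m, rfl | rfl⟩ := M.eq_nat_or_neg
  · simpa using nat_le_one w m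
  · have h : w (-(m : L)) = w (m : L) := w.val.map_neg _
    rw [Int.cast_neg, Int.cast_natCast, h]
    exact nat_le_one w m

theorem bd_le_mul {M N : ℕ} (hM : M ≠ 0) (hN : N ≠ 0) (v : Pl L) : bd M v ≤ bd (M * N) v := by
  rcases v with w | w
  · exact le_refl _
  · have h := bd_nonneg hN (Sum.inr w)
    simp only [bd] at h ⊢
    rw [Nat.cast_mul, map_mul, Real.log_mul]
    · linarith
    · exact (FinitePlace.pos_iff.2 (by exact_mod_cast hM)).ne'
    · exact (FinitePlace.pos_iff.2 (by exact_mod_cast hN)).ne'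

theorem bd_le_dvd {M N : ℕ} (hN : N ≠ 0) (h : M ∣ N) (v : Pl L) : bd M v ≤ bd N v := by
  obtain ⟨c, rfl⟩ := h
  exact bd_le_mul (left_ne_zero_of_mul hN) (right_ne_zero_of_mul hN) v

theorem rat_finite (w : FinitePlace L) (c : ℚ) : w (algebraMap ℚ L c) * w (c.den : L) ≤ 1 := by
  rw [← map_mul]
  have h : algebraMap ℚ L c * (c.den : L) = (c.num : L) := by
    have := congrArg (algebraMap ℚ L) (Rat.mul_den_eq_num c)
    rwa [map_mul, map_natCast, map_intCast] at this
  rw [h]
  exact int_le_one w _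

theorem rat_infinite (v : InfinitePlace L) (c : ℚ) : v (algebraMap ℚ L c) = |(c : ℝ)| := by
  rw [eq_ratCast]
  rw [← InfinitePlace.norm_embedding_eq, map_ratCast]
  simp

theorem tr_single {σ : Type*} [Fintype σ] [Nonempty σ] {r : ℕ} (P : MvPolynomial σ ℚ)
    (hP : ∀ a ∈ P.support, 1 ≤ a.degree ∧ a.degree ≤ r) :
    ∃ (M : ℕ) (C : ℝ), M ≠ 0 ∧ 0 ≤ C ∧ ∀ (L : Type) [Field L] [NumberField L] (f : L) (g : σ → L),
      f ≠ 0 → f ^ r = ∑ a ∈ (MvPolynomial.map (algebraMap ℚ L) P).support,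
        (MvPolynomial.map (algebraMap ℚ L) P).coeff a * (∏ j, g j ^ a j) * f ^ (r - a.degree) →
      ∀ v : Pl L, Real.log (av v f) ≤ ls (av v) g + C * bd M v := by
  classical
  set M : ℕ := ∏ a ∈ P.support, (P.coeff a).den with hM
  have hM0 : M ≠ 0 := Finset.prod_ne_zero_iff.2 fun a _ => (P.coeff a).den_ne_zero
  set n : ℕ := P.support.card with hn
  set C₁ : ℝ := Real.log (1 + ∑ a ∈ P.support, |((P.coeff a : ℚ) : ℝ)|) with hC₁
  have hC₁0 : 0 ≤ C₁ := Real.log_nonneg (by
    have : 0 ≤ ∑ a ∈ P.support, |((P.coeff a : ℚ) : ℝ)| := Finset.sum_nonneg fun a _ => abs_nonneg _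
    linarith)
  have hlog2 : 0 < Real.log 2 := Real.log_pos one_lt_two
  have hn1 : 0 ≤ Real.log (1 + n) := Real.log_nonneg (by
    have : (0 : ℝ) ≤ n := Nat.cast_nonneg _
    linarith)
  refine ⟨M, C₁ + (1 + Real.log (1 + n) / Real.log 2), hM0, by positivity, ?_⟩
  intro L _ _ f g hf h v
  have hPs : (MvPolynomial.map (algebraMap ℚ L) P).support = P.support :=
    MvPolynomial.support_map_of_injective _ (algebraMap ℚ L).injective
  have hP' : ∀ a ∈ (MvPolynomial.map (algebraMap ℚ L) P).support, 1 ≤ a.degree ∧ a.degree ≤ r := by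
    rw [hPs]
    exact hP
  have hg : ∃ j, g j ≠ 0 := by
    by_contra hc
    push Not at hc
    have := transfer_arch (av v) (MvPolynomial.map (algebraMap ℚ L) P) hP' f g h
    simp only [hc, map_zero] at this
    rw [ciSup_const, mul_zero] at this
    exact absurd ((av v).pos hf) (not_lt.2 this)
  have hgp : 0 < ⨆ j, av v (g j) := by
    obtain ⟨j, hj⟩ := hg
    exact ((av v).pos hj).trans_le (Finite.le_ciSup (fun j => av v (g j)) j)
  have hfp : 0 < av v f := (av v).pos hf
  have harch := transfer_arch (av v) (MvPolynomial.map (algebraMap ℚ L) P) hP' f g h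
  rw [hPs] at harch
  simp only [MvPolynomial.coeff_map] at harch
  have hpos : 0 < 1 + ∑ a ∈ P.support, av v (algebraMap ℚ L (P.coeff a)) := by
    have : 0 ≤ ∑ a ∈ P.support, av v (algebraMap ℚ L (P.coeff a)) :=
      Finset.sum_nonneg fun a _ => (av v).nonneg _
    linarith
  have hlog : Real.log (av v f) ≤ Real.log (1 + ∑ a ∈ P.support, av v (algebraMap ℚ L (P.coeff a))) +
      ls (av v) g := by
    rw [ls, ← Real.log_mul hpos.ne' hgp.ne']
    exact Real.log_le_log hfp harch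
  rcases v with w | w
  · simp only [bd, mul_one]
    have e1 : ∀ a, av (Sum.inl w : Pl L) (algebraMap ℚ L (P.coeff a)) = |((P.coeff a : ℚ) : ℝ)| :=
      fun a => rat_infinite w _
    simp only [e1] at hlog
    have : 0 ≤ 1 + Real.log (1 + n) / Real.log 2 := by positivity
    linarith
  · have hpw : ∀ a ∈ P.support, w (M : L) ≤ w ((P.coeff a).den : L) := by
      intro a ha
      rw [hM, ← Finset.mul_prod_erase _ _ ha, Nat.cast_mul, map_mul]
      exact mul_le_of_le_one_right (w.val.nonneg _) (nat_le_one w _)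
    rcases bd_dich hM0 w with h1 | h1
    · have hc : ∀ a ∈ (MvPolynomial.map (algebraMap ℚ L) P).support,
          av (Sum.inr w : Pl L) ((MvPolynomial.map (algebraMap ℚ L) P).coeff a) ≤ 1 := by
        rw [hPs]
        intro a ha
        rw [MvPolynomial.coeff_map]
        have h2 := rat_finite w (P.coeff a)
        have h3 : w ((P.coeff a).den : L) = 1 :=
          le_antisymm (nat_le_one w _) (h1 ▸ hpw a ha)
        rw [h3, mul_one] at h2
        exact h2
      have h4 := transfer_nonarch (av (Sum.inr w : Pl L)) (fun x y => w.add_le x y) _ hP' hc f g h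
      have h5 : Real.log (av (Sum.inr w : Pl L) f) ≤ ls (av (Sum.inr w : Pl L)) g :=
        Real.log_le_log hfp h4
      have h6 := bd_nonneg hM0 (Sum.inr w : Pl L)
      have h7 : 0 ≤ (C₁ + (1 + Real.log (1 + n) / Real.log 2)) * bd M (Sum.inr w : Pl L) :=
        mul_nonneg (by positivity) h6
      linarith
    · have hMp : 0 < w (M : L) := FinitePlace.pos_iff.2 (by exact_mod_cast hM0)
      have h2 : ∀ a ∈ P.support, av (Sum.inr w : Pl L) (algebraMap ℚ L (P.coeff a)) ≤ (w (M : L))⁻¹ := by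
        intro a ha
        have h3 := rat_finite w (P.coeff a)
        have h4 : w (algebraMap ℚ L (P.coeff a)) * w (M : L) ≤ 1 :=
          (mul_le_mul_of_nonneg_left (hpw a ha) (w.val.nonneg _)).trans h3
        rw [← one_div, le_div_iff₀ hMp]
        exact h4
      have h3 : 1 + ∑ a ∈ P.support, av (Sum.inr w : Pl L) (algebraMap ℚ L (P.coeff a)) ≤
          (1 + n) * (w (M : L))⁻¹ := by
        have h4 : ∑ a ∈ P.support, av (Sum.inr w : Pl L) (algebraMap ℚ L (P.coeff a)) ≤
            n * (w (M : L))⁻¹ := by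
          refine (Finset.sum_le_sum h2).trans ?_
          rw [Finset.sum_const, nsmul_eq_mul]
        have h5 : 1 ≤ (w (M : L))⁻¹ := (one_le_inv₀ hMp).2 (nat_le_one w _)
        linarith
      have h4 : Real.log (1 + ∑ a ∈ P.support, av (Sum.inr w : Pl L) (algebraMap ℚ L (P.coeff a))) ≤
          Real.log (1 + n) + bd M (Sum.inr w : Pl L) := by
        refine (Real.log_le_log hpos h3).trans (le_of_eq ?_)
        rw [Real.log_mul (by positivity) (inv_ne_zero hMp.ne'), Real.log_inv]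
        rfl
      have h5 : Real.log (1 + n) ≤ Real.log (1 + n) / Real.log 2 * bd M (Sum.inr w : Pl L) := by
        rw [div_mul_eq_mul_div, le_div_iff₀ hlog2]
        exact mul_le_mul_of_nonneg_left h1 hn1
      have h6 : 0 ≤ C₁ * bd M (Sum.inr w : Pl L) := mul_nonneg hC₁0 (bd_nonneg hM0 _)
      nlinarith

end

section

variable {F : Type} [Field F] [Algebra ℚ F] {U : Ultrafilter ℕ} {L : ℕ → Type}
  [∀ i, Field (L i)] [∀ i, NumberField (L i)] (V : EvV F U L)

/-- The transfer for families. -/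
theorem transfer_ev {κ₁ κ₂ : Type} [Finite κ₁] [Fintype κ₂] (S : κ₁ → F) (T : κ₂ → F)
    (hS : ∃ a, S a ≠ 0)
    (h : ∀ A : ValuationSubring F, (∀ c : ℚ, algebraMap ℚ F c ∈ A) → ∀ a, ∃ j,
      A.valuation (S a) ≤ A.valuation (T j)) :
    ∃ (M : ℕ) (C : ℝ), M ≠ 0 ∧ 0 ≤ C ∧ ∀ᶠ i in (U : Filter ℕ), ∀ v : Pl (L i),
      ls (av v) (fun a => V.ev (S a) i) ≤ ls (av v) (fun j => V.ev (T j) i) + C * bd M v := by
  classical
  have := Fintype.ofFinite κ₁
  obtain ⟨a₀, ha₀⟩ := hS
  obtain ⟨j₀, -⟩ := h ⊤ (fun c => ValuationSubring.mem_top _) a₀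
  have hne : Nonempty κ₂ := ⟨j₀⟩
  have key : ∀ a, ∃ (M : ℕ) (C : ℝ), M ≠ 0 ∧ 0 ≤ C ∧ ∀ᶠ i in (U : Filter ℕ), V.ev (S a) i ≠ 0 →
      ∀ v : Pl (L i), Real.log (av v (V.ev (S a) i)) ≤ ls (av v) (fun j => V.ev (T j) i) + C * bd M v := by
    intro a
    obtain ⟨r, P, _, hP, hrel⟩ := transfer_alg (k := ℚ) (S a) T fun A hA => h A hA a
    obtain ⟨M, C, hM, hC, hMC⟩ := tr_single P hP
    refine ⟨M, C, hM, hC, ?_⟩
    filter_upwards [rel V P (S a) T hrel] with i hi h0 v
    exact hMC (L i) _ _ h0 hi v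
  choose M C hM hC hev using key
  have hMp : (∏ a, M a) ≠ 0 := Finset.prod_ne_zero_iff.2 fun a _ => hM a
  refine ⟨∏ a, M a, ∑ a, C a, hMp, Finset.sum_nonneg fun a _ => hC a, ?_⟩
  filter_upwards [Filter.eventually_all.2 hev, ev_ne V ha₀] with i hi h0 v
  obtain ⟨a, ha, ha'⟩ := exists_max (av v) (x := fun a => V.ev (S a) i) ⟨a₀, h0⟩
  rw [ls_eq (av v) ha']
  refine (hi a ha v).trans ?_
  have h1 : bd (M a) v ≤ bd (∏ a, M a) v := bd_le_dvd hMp (Finset.dvd_prod_of_mem M (Finset.mem_univ a)) v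
  have h2 : C a ≤ ∑ a, C a := Finset.single_le_sum (fun b _ => hC b) (Finset.mem_univ a)
  have h3 : C a * bd (M a) v ≤ (∑ a, C a) * bd (∏ a, M a) v :=
    mul_le_mul h2 h1 (bd_nonneg (hM a) v) ((hC a).trans h2)
  linarith

end

end Pool.Agent.Lib.MP_17a322_nt.AP.BP
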