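import Pool.Agent.Lib.MP_17a322_nt.AP.P5

/-!
The finite places: the case distinction.
-/

namespace Pool.Agent.Lib.MP_17a322_nt.AP.BP

open NumberField Height
open Pool.Agent.Lib.MP_17a322_nt.EQ (Pl av)

section

variable {L : Type} [Field L] [NumberField L] (w : FinitePlace L)

/-- Natural numbers prime to the residue characteristic are units. -/
theorem nat_unit {p n : ℕ} (hp : p.Prime) (hw : w (p : L) < 1) (hn : ¬ p ∣ n) : w (n : L) = 1 := by
  have hc : Nat.Coprime p n := (Nat.Prime.coprime_iff_not_dvd hp).2 hn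
  have hb := Nat.isCoprime_iff_coprime.2 hc
  obtain ⟨a, b, hab⟩ := hb
  refine le_antisymm (nat_le_one w n) ?_
  by_contra hlt
  push Not at hlt
  have h1 : (a : L) * (p : L) + (b : L) * (n : L) = 1 := by
    have := congrArg (Int.cast : ℤ → L) hab
    push_cast at this
    exact this
  have h2 : w (1 : L) ≤ max (w ((a : L) * (p : L))) (w ((b : L) * (n : L))) := by
    rw [← h1]
    exact w.add_le _ _
  have h3 : w ((a : L) * (p : L)) < 1 := by
    rw [map_mul]
    exact (mul_le_of_le_one_left (w.val.nonneg _) (int_le_one w a)).trans_lt hw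
  have h4 : w ((b : L) * (n : L)) < 1 := by
    rw [map_mul]
    exact (mul_le_of_le_one_left (w.val.nonneg _) (int_le_one w b)).trans_lt hlt
  rw [map_one] at h2
  exact absurd h2 (not_le.2 (max_lt h3 h4))

/-- The value of a natural number. -/
theorem nat_val {p n : ℕ} (hp : p.Prime) (hw : w (p : L) < 1) (hn : n ≠ 0) :
    Real.log (w (n : L)) = n.factorization p * Real.log (w (p : L)) := by
  have h1 := Nat.ordProj_mul_ordCompl_eq_self n p
  have h2 : w ((n / p ^ n.factorization p : ℕ) : L) = 1 :=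
    nat_unit w hp hw (Nat.not_dvd_ordCompl hp hn)
  have h3 : w (n : L) = w (p : L) ^ n.factorization p * w ((n / p ^ n.factorization p : ℕ) : L) := by
    rw [← map_pow, ← map_mul]
    congr 1
    exact_mod_cast h1.symm
  rw [h3, h2, mul_one, Real.log_pow]

theorem rat_val {p : ℕ} (hp : p.Prime) (hw : w (p : L) < 1) {x : ℚ} (hx : x ≠ 0) :
    ∃ k : ℕ, |Real.log (w (algebraMap ℚ L x))| = k * -Real.log (w (p : L)) := by
  have hp0 : 0 < w (p : L) := FinitePlace.pos_iff.2 (by exact_mod_cast hp.ne_zero)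
  have hlp : Real.log (w (p : L)) < 0 := Real.log_neg hp0 hw
  have h1 : w (algebraMap ℚ L x) * w (x.den : L) = w (x.num.natAbs : L) := by
    rw [← map_mul]
    have h : algebraMap ℚ L x * (x.den : L) = (x.num : L) := by
      have := congrArg (algebraMap ℚ L) (Rat.mul_den_eq_num x)
      rwa [map_mul, map_natCast, map_intCast] at this
    rw [h]
    rcases Int.natAbs_eq x.num with h2 | h2
    · conv_lhs => rw [h2]
      rw [Int.cast_natCast]
    · conv_lhs => rw [h2]
      rw [Int.cast_neg, Int.cast_natCast]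
      exact w.val.map_neg _
  have hd0 : w (x.den : L) ≠ 0 := (FinitePlace.pos_iff.2 (by exact_mod_cast x.den_ne_zero)).ne'
  have hx0 : w (algebraMap ℚ L x) ≠ 0 :=
    (FinitePlace.pos_iff.2 (by rw [Ne, map_eq_zero]; exact hx)).ne'
  have h2 := congrArg Real.log h1
  rw [Real.log_mul hx0 hd0, nat_val w hp hw x.den_ne_zero,
    nat_val w hp hw (Int.natAbs_ne_zero.2 (Rat.num_ne_zero.2 hx))] at h2
  set a : ℕ := x.num.natAbs.factorization p with ha
  set b : ℕ := x.den.factorization p with hb
  have h3 : Real.log (w (algebraMap ℚ L x)) = ((a : ℤ) - (b : ℤ) : ℤ) * Real.log (w (p : L)) := by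
    push_cast
    linarith
  refine ⟨((a : ℤ) - b).natAbs, ?_⟩
  rw [h3, abs_mul, abs_of_neg hlp]
  congr 1
  rw [← Int.cast_abs, Int.abs_eq_natAbs]
  simp

theorem sq_val {N : Type*} [Fintype N] {p : ℕ} (hp : p.Prime) (hw : w (p : L) < 1) {c : N → ℕ}
    (hc : Squarefree (∏ a, c a)) :
    (∑ a, |Real.log (w (c a : L))| = 0) ∨ (∑ a, |Real.log (w (c a : L))| = -Real.log (w (p : L)) ∧
      ∃ a, 0 < |Real.log (w (c a : L))|) := by
  have hp0 : 0 < w (p : L) := FinitePlace.pos_iff.2 (by exact_mod_cast hp.ne_zero)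
  have hlp : Real.log (w (p : L)) < 0 := Real.log_neg hp0 hw
  have hne : (∏ a, c a) ≠ 0 := hc.ne_zero
  have hca : ∀ a, c a ≠ 0 := fun a => Finset.prod_ne_zero_iff.1 hne a (Finset.mem_univ a)
  have h1 : ∑ a, |Real.log (w (c a : L))| = -Real.log (w ((∏ a, c a : ℕ) : L)) := by
    rw [Nat.cast_prod, map_prod, Real.log_prod fun a _ =>
      (FinitePlace.pos_iff.2 (by exact_mod_cast hca a)).ne', ← Finset.sum_neg_distrib]
    refine Finset.sum_congr rfl fun a _ => ?_
    rw [abs_of_nonpos]
    exact Real.log_nonpos (w.val.nonneg _) (nat_le_one w _)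
  rw [nat_val w hp hw hne] at h1
  have h2 : (∏ a, c a).factorization p ≤ 1 := hc.natFactorization_le_one p
  rcases Nat.le_one_iff_eq_zero_or_eq_one.1 h2 with h3 | h3
  · left
    rw [h1, h3]
    simp
  · right
    rw [h3, Nat.cast_one, one_mul] at h1
    refine ⟨h1, ?_⟩
    by_contra hcon
    push Not at hcon
    have : ∑ a, |Real.log (w (c a : L))| ≤ 0 := Finset.sum_nonpos fun a _ => hcon a
    rw [h1] at this
    linarith

/-- The bound at a finite place. -/
theorem place_fin {N σ : Type} [Fintype N] [Fintype σ] {c : N → ℕ} (hc : Squarefree (∏ a, c a))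
    {x : σ → ℚ} (hx : ∀ k, x k ≠ 0) {M m : ℕ} (hM : M ≠ 0) (hm : m ≠ 0) {C G G₀ : ℝ} (hC : 0 ≤ C)
    (P : ℕ) (meets : Prop) [Decidable meets] [Decidable (w (m : L) = 1)] (hz : ∃ z : ℤ, G₀ = z * lq w)
    (h1 : G ≤ ∑ a, |Real.log (w (c a : L))| + ∑ k, |Real.log (w (algebraMap ℚ L (x k)))| +
      C * bd M (Sum.inr w))
    (h4 : ∀ a, P * G₀ + |Real.log (w (c a : L))| ≤
      P * (∑ a, |Real.log (w (c a : L))| + ∑ k, |Real.log (w (algebraMap ℚ L (x k)))|) +
        C * bd M (Sum.inr w))
    (h5 : ¬ meets → G ≤ G₀) :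
    ∃ e p : ℕ, p.Prime ∧ Real.log (w (p : L)) = -(e : ℝ) * lq w ∧
      G ≤ 2 * ∑ k, |Real.log (w (algebraMap ℚ L (x k)))| + ((e : ℝ) - 1) * lq w +
        (if w (m : L) = 1 ∧ meets then lq w else 0) + (C + 1) * bd (M * m) (Sum.inr w) := by
  obtain ⟨p, hp, hw⟩ := exists_prime w
  obtain ⟨e, he⟩ := log_nat w hp.ne_zero
  have hp0 : 0 < w (p : L) := FinitePlace.pos_iff.2 (by exact_mod_cast hp.ne_zero)
  have hlp : Real.log (w (p : L)) < 0 := Real.log_neg hp0 hw
  have hq := lq_pos w
  have he1 : (1 : ℝ) ≤ e := by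
    have h6 : 0 < (e : ℝ) * lq w := by linarith
    have h7 : 0 < (e : ℝ) := pos_of_mul_pos_left h6 hq.le
    exact_mod_cast Nat.one_le_iff_ne_zero.2 (by exact_mod_cast h7.ne')
  refine ⟨e, p, hp, by linarith, ?_⟩
  set Γ : ℝ := ∑ a, |Real.log (w (c a : L))| with hΓ
  set Ξ : ℝ := ∑ k, |Real.log (w (algebraMap ℚ L (x k)))| with hΞ
  have hΞ0 : 0 ≤ Ξ := Finset.sum_nonneg fun k _ => abs_nonneg _
  have hel : 0 ≤ ((e : ℝ) - 1) * lq w := mul_nonneg (by linarith) hq.le
  have hMm : M * m ≠ 0 := mul_ne_zero hM hm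
  have hB : bd M (Sum.inr w : Pl L) ≤ bd (M * m) (Sum.inr w : Pl L) := bd_le_mul hM hm _
  have hB0 := bd_nonneg hMm (Sum.inr w : Pl L)
  have hΓe : Γ = 0 ∨ (Γ = e * lq w ∧ ∃ a, 0 < |Real.log (w (c a : L))|) := by
    rcases sq_val w hp hw hc with h6 | h6
    · exact Or.inl h6
    · right
      rw [he] at h6
      exact h6
  have hif : 0 ≤ (if w (m : L) = 1 ∧ meets then lq w else 0) := by
    split_ifs
    · exact hq.le
    · exact le_refl _
  by_cases hd : p ∣ M * m
  · -- bad places
    have h6 : (e : ℝ) * lq w ≤ bd (M * m) (Sum.inr w : Pl L) := by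
      have h7 := bd_le_dvd hMm hd (Sum.inr w : Pl L)
      rw [← he]
      exact h7
    have h7 : Γ ≤ e * lq w := by
      rcases hΓe with h8 | h8
      · rw [h8]
        positivity
      · exact h8.1.le
    have h8 : C * bd M (Sum.inr w : Pl L) ≤ C * bd (M * m) (Sum.inr w : Pl L) :=
      mul_le_mul_of_nonneg_left hB hC
    nlinarith
  · have h6 : w ((M * m : ℕ) : L) = 1 := nat_unit w hp hw hd
    have hbd : bd (M * m) (Sum.inr w : Pl L) = 0 := by
      simp only [bd]
      rw [h6, Real.log_one, neg_zero]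
    have hbM : bd M (Sum.inr w : Pl L) = 0 := le_antisymm (hbd ▸ hB) (bd_nonneg hM _)
    have hwm : w (m : L) = 1 := nat_unit w hp hw fun h => hd (dvd_mul_of_dvd_right h M)
    rw [hbM, mul_zero, add_zero] at h1
    simp only [hbM, mul_zero, add_zero] at h4
    rw [hbd, mul_zero, add_zero]
    rcases hΓe with h7 | ⟨h7, a, ha⟩
    · linarith
    · rw [h7] at h1 h4
      by_cases hmt : meets
      · rw [if_pos ⟨hwm, hmt⟩]
        linarith
      · rw [if_neg fun h => hmt h.2, add_zero]
        by_cases hx0 : ∀ k, Real.log (w (algebraMap ℚ L (x k))) = 0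
        · have hΞe : Ξ = 0 := Finset.sum_eq_zero fun k _ => by rw [hx0 k, abs_zero]
          have h8 := h4 a
          rw [hΞe, add_zero] at h8
          obtain ⟨z, hz⟩ := hz
          have hlt : G₀ < e * lq w := by
            by_contra hcon
            push Not at hcon
            have : (P : ℝ) * (e * lq w) ≤ P * G₀ := mul_le_mul_of_nonneg_left hcon (Nat.cast_nonneg _)
            linarith
          have hze : z + 1 ≤ (e : ℤ) := by
            rw [hz] at hlt
            have : (z : ℝ) < e := lt_of_mul_lt_mul_right hlt hq.le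
            have h9 : z < (e : ℤ) := by exact_mod_cast this
            omega
          have hzr : (z : ℝ) ≤ (e : ℝ) - 1 := by
            have : ((z + 1 : ℤ) : ℝ) ≤ ((e : ℤ) : ℝ) := by exact_mod_cast hze
            push_cast at this
            linarith
          have h10 : G₀ ≤ ((e : ℝ) - 1) * lq w := by
            rw [hz]
            exact mul_le_mul_of_nonneg_right hzr hq.le
          have := h5 hmt
          linarith
        · push Not at hx0
          obtain ⟨k, hk⟩ := hx0
          obtain ⟨j, hj⟩ := rat_val w hp hw (hx k)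
          have hj0 : j ≠ 0 := by
            rintro rfl
            rw [Nat.cast_zero, zero_mul, abs_eq_zero] at hj
            exact hk hj
          have hj1 : (1 : ℝ) ≤ j := by exact_mod_cast Nat.one_le_iff_ne_zero.2 hj0
          have h8 : (e : ℝ) * lq w ≤ |Real.log (w (algebraMap ℚ L (x k)))| := by
            rw [hj, he]
            have : 0 ≤ (e : ℝ) * lq w := by positivity
            nlinarith
          have h9 : |Real.log (w (algebraMap ℚ L (x k)))| ≤ Ξ :=
            Finset.single_le_sum (f := fun k => |Real.log (w (algebraMap ℚ L (x k)))|)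
              (fun k _ => abs_nonneg _) (Finset.mem_univ k)
          linarith

end

end Pool.Agent.Lib.MP_17a322_nt.AP.BP
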