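import Pool.Agent.Lib.MP_17a322_nt.AP.P6

/-!
The sum over all places of a number field.
-/

namespace Pool.Agent.Lib.MP_17a322_nt.AP.BP

open NumberField Height
open Pool.Agent.Lib.MP_17a322_nt.EQ (Pl av psum FS)

theorem abs_log_rat {q : ℚ} (hq : q ≠ 0) : |Real.log (|(q : ℝ)|)| ≤ logHeight₁ q := by
  rw [Rat.logHeight₁_eq_log_max]
  have hn : (0 : ℝ) < (q.num.natAbs : ℝ) := by
    exact_mod_cast Int.natAbs_pos.2 (Rat.num_ne_zero.2 hq)
  have hd : (0 : ℝ) < (q.den : ℝ) := by exact_mod_cast q.den_pos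
  have h1 : |(q : ℝ)| = (q.num.natAbs : ℝ) / q.den := by
    rw [Rat.cast_def, abs_div, Nat.abs_cast, Nat.cast_natAbs, Int.cast_abs]
  have h2 : (0 : ℝ) ≤ Real.log q.num.natAbs := Real.log_natCast_nonneg _
  have h3 : (0 : ℝ) ≤ Real.log q.den := Real.log_natCast_nonneg _
  have h4 : Real.log q.num.natAbs ≤ Real.log ((max q.num.natAbs q.den : ℕ) : ℝ) :=
    Real.log_le_log hn (by exact_mod_cast le_max_left _ _)
  have h5 : Real.log q.den ≤ Real.log ((max q.num.natAbs q.den : ℕ) : ℝ) :=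
    Real.log_le_log hd (by exact_mod_cast le_max_right _ _)
  rw [h1, Real.log_div hn.ne' hd.ne', abs_le]
  constructor <;> linarith

open Classical in
theorem sum_places {L : Type} [Field L] [NumberField L] {σ : Type} [Fintype σ] (r : ℕ)
    (hr : Module.finrank ℚ L ≤ r) (G : Pl L → ℝ) (hG : FS G) (x q : σ → ℚ) (hx : ∀ k, x k ≠ 0)
    (hq : ∀ k, q k ≠ 0) {M m : ℕ} (hM : M ≠ 0) {C : ℝ} (hC : 0 ≤ C)
    (meets : FinitePlace L → Prop) (hmeets : {w | meets w}.Finite)
    (hinf : ∀ v : InfinitePlace L, G (Sum.inl v) ≤ ∑ k, |Real.log (|(q k : ℝ)|)| + C)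
    (hfin : ∀ w : FinitePlace L, ∃ e p : ℕ, p.Prime ∧
      Real.log (w (p : L)) = -(e : ℝ) * lq w ∧
      G (Sum.inr w) ≤ 2 * ∑ k, |Real.log (w (algebraMap ℚ L (x k)))| + ((e : ℝ) - 1) * lq w +
        (if w (m : L) = 1 ∧ meets w then lq w else 0) + C * bd M (Sum.inr w)) :
    psum G ≤ (∑ᶠ w ∈ {w : FinitePlace L | w (m : L) = 1 ∧ meets w}, lq w) +
      Real.log |(discr L : ℝ)| +
      Module.finrank ℚ L * ∑ k, (4 * logHeight₁ (x k) + logHeight₁ (q k)) +
      C * (r + r * Real.log M) := by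
  classical
  choose e p hp he hle using hfin
  have hnr : (Module.finrank ℚ L : ℝ) ≤ r := by exact_mod_cast hr
  have hlM : 0 ≤ Real.log (M : ℝ) := Real.log_natCast_nonneg _
  -- the infinite places
  have h1 : ∑ v : InfinitePlace L, (v.mult : ℝ) * G (Sum.inl v) ≤
      Module.finrank ℚ L * ∑ k, logHeight₁ (q k) + C * r := by
    have h2 : ∑ v : InfinitePlace L, (v.mult : ℝ) * G (Sum.inl v) ≤
        ∑ v : InfinitePlace L, (v.mult : ℝ) * (∑ k, logHeight₁ (q k) + C) := by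
      refine Finset.sum_le_sum fun v _ => mul_le_mul_of_nonneg_left ?_ (Nat.cast_nonneg _)
      refine (hinf v).trans ?_
      have := Finset.sum_le_sum fun k (_ : k ∈ (Finset.univ : Finset σ)) => abs_log_rat (hq k)
      linarith
    have h3 : (∑ v : InfinitePlace L, (v.mult : ℝ)) = Module.finrank ℚ L := by
      exact_mod_cast InfinitePlace.sum_mult_eq (K := L)
    rw [← Finset.sum_mul, h3] at h2
    have h4 : (Module.finrank ℚ L : ℝ) * C ≤ C * r := by
      rw [mul_comm]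
      exact mul_le_mul_of_nonneg_left hnr hC
    linarith
  -- the finite places
  set T : Finset (FinitePlace L) := hG.toFinset ∪ hmeets.toFinset with hT
  have h2 : ∑ᶠ w : FinitePlace L, G (Sum.inr w) = ∑ w ∈ T, G (Sum.inr w) := by
    refine finsum_eq_sum_of_support_subset _ fun w hw => ?_
    rw [hT, Finset.coe_union, Set.Finite.coe_toFinset]
    exact Or.inl hw
  have h3 : ∑ᶠ w ∈ {w : FinitePlace L | w (m : L) = 1 ∧ meets w}, lq w =
      ∑ w ∈ T, (if w (m : L) = 1 ∧ meets w then lq w else 0) := by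
    rw [finsum_mem_eq_sum_of_inter_support_eq (t := T.filter fun w => w (m : L) = 1 ∧ meets w)]
    · rw [Finset.sum_filter]
    · ext w
      simp only [Set.mem_inter_iff, Set.mem_ofPred_eq, Finset.coe_filter, Function.mem_support, hT,
        Finset.mem_union, Set.Finite.mem_toFinset]
      constructor
      · rintro ⟨h4, h5⟩
        exact ⟨⟨Or.inr h4.2, h4⟩, h5⟩
      · rintro ⟨h4, h5⟩
        exact ⟨h4.2, h5⟩
  have h4 : ∑ w ∈ T, G (Sum.inr w) ≤ ∑ w ∈ T, (2 * ∑ k, |Real.log (w (algebraMap ℚ L (x k)))| +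
      ((e w : ℝ) - 1) * lq w + (if w (m : L) = 1 ∧ meets w then lq w else 0) +
        C * bd M (Sum.inr w)) :=
    Finset.sum_le_sum fun w _ => hle w
  rw [Finset.sum_add_distrib, Finset.sum_add_distrib, Finset.sum_add_distrib, ← Finset.mul_sum,
    ← Finset.mul_sum, Finset.sum_comm] at h4
  have h5 : ∑ k, ∑ w ∈ T, |Real.log (w (algebraMap ℚ L (x k)))| ≤
      ∑ k, 2 * (Module.finrank ℚ L * logHeight₁ (x k)) := by
    refine Finset.sum_le_sum fun k _ => ?_
    have h6 := sum_abs_log_rat_le T (x k) (hx k)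
    have h7 : 0 ≤ ∑ v : InfinitePlace L, (v.mult : ℝ) * |Real.log (v ((x k : ℚ) : L))| :=
      Finset.sum_nonneg fun v _ => mul_nonneg (Nat.cast_nonneg _) (abs_nonneg _)
    simp only [eq_ratCast]
    linarith
  have h6 : ∑ w ∈ T, ((e w : ℝ) - 1) * lq w ≤ Real.log |(discr L : ℝ)| :=
    sum_le_discr T e p (fun w _ => hp w) fun w _ => he w
  have h7 : ∑ w ∈ T, bd M (Sum.inr w : Pl L) ≤ r * Real.log M := by
    have h8 := sum_over_nat (L := L) T hM
    have h9 : (Module.finrank ℚ L : ℝ) * Real.log M ≤ r * Real.log M :=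
      mul_le_mul_of_nonneg_right hnr hlM
    exact h8.trans h9
  have h8 : C * ∑ w ∈ T, bd M (Sum.inr w : Pl L) ≤ C * (r * Real.log M) :=
    mul_le_mul_of_nonneg_left h7 hC
  have h9 : ∑ k, 2 * ((Module.finrank ℚ L : ℝ) * logHeight₁ (x k)) =
      2 * (Module.finrank ℚ L * ∑ k, logHeight₁ (x k)) := by
    rw [← Finset.mul_sum, ← Finset.mul_sum]
  have h10 : ∑ k, (4 * logHeight₁ (x k) + logHeight₁ (q k)) =
      4 * ∑ k, logHeight₁ (x k) + ∑ k, logHeight₁ (q k) := by
    rw [Finset.sum_add_distrib, ← Finset.mul_sum]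
  unfold psum
  rw [h2, h3, h10]
  rw [h9] at h5
  linarith

end Pool.Agent.Lib.MP_17a322_nt.AP.BP
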