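import Pool.Agent.Lib.MP_17a322_nt.AP.P7
import Pool.Agent.Lib.MP_17a322_nt.ABN.Pow

/-!
The transfer of the inequalities of the interface.
-/

namespace Pool.Agent.Lib.MP_17a322_nt.AP.BP

open NumberField Height
open Pool.Agent.Lib.MP_17a322_nt.EQ (Pl av psum FS)
open Pool.Agent.Lib.MP_17a322_nt.ABN (uniform_power)

theorem unif {L : Type*} [Field L] [NumberField L] {α : Type*} [Fintype α] (M : α → ℕ)
    (hM : ∀ a, M a ≠ 0) (C : α → ℝ) (hC : ∀ a, 0 ≤ C a) (a : α) (v : Pl L) :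
    C a * bd (M a) v ≤ (∑ a, C a) * bd (∏ a, M a) v := by
  have hMp : (∏ a, M a) ≠ 0 := Finset.prod_ne_zero_iff.2 fun a _ => hM a
  have h1 : bd (M a) v ≤ bd (∏ a, M a) v := bd_le_dvd hMp (Finset.dvd_prod_of_mem M (Finset.mem_univ a)) v
  have h2 : C a ≤ ∑ a, C a := Finset.single_le_sum (fun b _ => hC b) (Finset.mem_univ a)
  exact mul_le_mul h2 h1 (bd_nonneg (hM a) v) ((hC a).trans h2)

theorem bd_mono {L : Type*} [Field L] [NumberField L] {M N : ℕ} (hM : M ≠ 0) (hN : N ≠ 0) {C D : ℝ}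
    (hC : 0 ≤ C) (hCD : C ≤ D) (h : M ∣ N) (v : Pl L) : C * bd M v ≤ D * bd N v :=
  mul_le_mul hCD (bd_le_dvd hN h v) (bd_nonneg hM v) (hC.trans hCD)

section

variable {F : Type} [Field F] [Algebra ℚ F] {U : Ultrafilter ℕ} {L : ℕ → Type}
  [∀ i, Field (L i)] [∀ i, NumberField (L i)] (V : EvV F U L)
  {ι Λ β κ ν ν' A : Type} [Fintype ι] [Fintype Λ] [Fintype β] [Fintype κ] [Fintype ν] [Fintype ν']
  [Fintype A]

theorem ev_sgn {f : A → F} : ∀ᶠ i in (U : Filter ℕ), ∀ s : A → Bool,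
    V.ev (∏ a, if s a then f a else (f a)⁻¹) i =
      ∏ a, if s a then V.ev (f a) i else (V.ev (f a) i)⁻¹ := by
  classical
  refine Filter.eventually_all.2 fun s => ?_
  filter_upwards [ev_prod V Finset.univ fun a => if s a then f a else (f a)⁻¹,
    Filter.eventually_all.2 fun a => ev_inv V (f a)] with i h1 h2
  rw [h1]
  refine Finset.prod_congr rfl fun a _ => ?_
  split_ifs
  · rfl
  · exact h2 a

theorem tr_main (n e : ℕ) (Nz : Λ → F) (hNz : ∃ s, Nz s ≠ 0) (z : ι → F) (hz : ∃ i, z i ≠ 0)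
    (fb : β → κ → F) (hfb : ∀ b, ∃ j, fb b j ≠ 0) (NTf : ν → F) (hNT : ∃ s, NTf s ≠ 0) (DTf : ν' → F)
    (hDT : ∃ s, DTf s ≠ 0) (y : A → F) (hy : ∀ a, y a ≠ 0)
    (h : ∀ A' : ValuationSubring F, (∀ c : ℚ, algebraMap ℚ F c ∈ A') → ∀ (s : Λ) (s' : β → ι) (p : ν'),
      ∃ (i₁ : ι) (j : β → κ) (t : ν) (sg : A → Bool), A'.valuation (Nz s * (∏ b, z (s' b) ^ e) * DTf p) ≤
        A'.valuation (z i₁ ^ (n + 1) * (∏ b, fb b (j b)) * NTf t *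
          ∏ a, if sg a then y a else (y a)⁻¹)) :
    ∃ (M : ℕ) (C : ℝ), M ≠ 0 ∧ 0 ≤ C ∧ ∀ᶠ i in (U : Filter ℕ), ∀ v : Pl (L i),
      ls (av v) (fun s => V.ev (Nz s) i) + ls (av v) (fun p => V.ev (DTf p) i) -
        (n + 1) * ls (av v) (fun j => V.ev (z j) i) - ls (av v) (fun t => V.ev (NTf t) i) +
        ∑ b, (e * ls (av v) (fun j => V.ev (z j) i) - ls (av v) (fun j => V.ev (fb b j) i)) ≤
      ∑ a, |Real.log (av v (V.ev (y a) i))| + C * bd M v := by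
  classical
  obtain ⟨s₀, hs₀⟩ := hNz
  obtain ⟨z₀, hz₀⟩ := hz
  obtain ⟨p₀, hp₀⟩ := hDT
  obtain ⟨M, C, hM, hC, hev⟩ := transfer_ev V
    (fun a : (Λ × (β → ι)) × ν' => Nz a.1.1 * (∏ b, z (a.1.2 b) ^ e) * DTf a.2)
    (fun a : ((ι × (β → κ)) × ν) × (A → Bool) =>
      z a.1.1.1 ^ (n + 1) * (∏ b, fb b (a.1.1.2 b)) * NTf a.1.2 *
        ∏ c, if a.2 c then y c else (y c)⁻¹)
    ⟨((s₀, fun _ => z₀), p₀), mul_ne_zero (mul_ne_zero hs₀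
      (Finset.prod_ne_zero_iff.2 fun _ _ => pow_ne_zero _ hz₀)) hp₀⟩
    (fun A' hA' a => by
      obtain ⟨i₁, j, t, sg, h1⟩ := h A' hA' a.1.1 a.1.2 a.2
      exact ⟨(((i₁, j), t), sg), h1⟩)
  refine ⟨M, C, hM, hC, ?_⟩
  have e1 : ∀ᶠ i in (U : Filter ℕ), ∀ a : (Λ × (β → ι)) × ν',
      V.ev (Nz a.1.1 * (∏ b, z (a.1.2 b) ^ e) * DTf a.2) i =
        V.ev (Nz a.1.1) i * (∏ b, V.ev (z (a.1.2 b)) i ^ e) * V.ev (DTf a.2) i := by
    refine Filter.eventually_all.2 fun a => ?_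
    filter_upwards [V.mul (Nz a.1.1 * (∏ b, z (a.1.2 b) ^ e)) (DTf a.2),
      V.mul (Nz a.1.1) (∏ b, z (a.1.2 b) ^ e), ev_prod V Finset.univ fun b => z (a.1.2 b) ^ e,
      Filter.eventually_all.2 fun b => ev_pow V (z (a.1.2 b)) e] with i h1 h2 h3 h4
    rw [h1, h2, h3]
    simp only [h4]
  have e2 : ∀ᶠ i in (U : Filter ℕ), ∀ a : ((ι × (β → κ)) × ν) × (A → Bool),
      V.ev (z a.1.1.1 ^ (n + 1) * (∏ b, fb b (a.1.1.2 b)) * NTf a.1.2 *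
        ∏ c, if a.2 c then y c else (y c)⁻¹) i =
        V.ev (z a.1.1.1) i ^ (n + 1) * (∏ b, V.ev (fb b (a.1.1.2 b)) i) * V.ev (NTf a.1.2) i *
          ∏ c, if a.2 c then V.ev (y c) i else (V.ev (y c) i)⁻¹ := by
    refine Filter.eventually_all.2 fun a => ?_
    filter_upwards [V.mul (z a.1.1.1 ^ (n + 1) * (∏ b, fb b (a.1.1.2 b)) * NTf a.1.2)
        (∏ c, if a.2 c then y c else (y c)⁻¹),
      V.mul (z a.1.1.1 ^ (n + 1) * (∏ b, fb b (a.1.1.2 b))) (NTf a.1.2),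
      V.mul (z a.1.1.1 ^ (n + 1)) (∏ b, fb b (a.1.1.2 b)), ev_pow V (z a.1.1.1) (n + 1),
      ev_prod V Finset.univ fun b => fb b (a.1.1.2 b), ev_sgn V (f := y)] with i h1 h2 h3 h4 h5 h6
    rw [h1, h2, h3, h4, h5, h6]
  filter_upwards [hev, e1, e2, ev_fam_ne V ⟨s₀, hs₀⟩, ev_fam_ne V ⟨z₀, hz₀⟩, ev_fam_ne V ⟨p₀, hp₀⟩,
    ev_fam_ne V hNT, Filter.eventually_all.2 fun b => ev_fam_ne V (hfb b),
    Filter.eventually_all.2 fun a => ev_ne V (hy a)] with i h1 h2 h3 n1 n2 n3 n4 n5 n6 v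
  have h4 := h1 v
  simp only [h2, h3] at h4
  have hzp : ∃ j : β → ι, (∏ b, V.ev (z (j b)) i ^ e) ≠ 0 := by
    obtain ⟨j, hj⟩ := n2
    exact ⟨fun _ => j, Finset.prod_ne_zero_iff.2 fun _ _ => pow_ne_zero _ hj⟩
  have hfp : ∃ j : β → κ, (∏ b, V.ev (fb b (j b)) i) ≠ 0 := by
    choose j hj using n5
    exact ⟨j, Finset.prod_ne_zero_iff.2 fun b _ => hj b⟩
  have hz1 : ∃ j, V.ev (z j) i ^ (n + 1) ≠ 0 := by
    obtain ⟨j, hj⟩ := n2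
    exact ⟨j, pow_ne_zero _ hj⟩
  have hsg : ∃ s : A → Bool, (∏ c, if s c then V.ev (y c) i else (V.ev (y c) i)⁻¹) ≠ 0 :=
    ⟨fun _ => true, Finset.prod_ne_zero_iff.2 fun c _ => by simpa using n6 c⟩
  have ha : ∃ a : Λ × (β → ι), V.ev (Nz a.1) i * (∏ b, V.ev (z (a.2 b)) i ^ e) ≠ 0 := by
    obtain ⟨s, hs⟩ := n1
    obtain ⟨j, hj⟩ := hzp
    exact ⟨(s, j), mul_ne_zero hs hj⟩
  have hb : ∃ a : ι × (β → κ), V.ev (z a.1) i ^ (n + 1) * (∏ b, V.ev (fb b (a.2 b)) i) ≠ 0 := by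
    obtain ⟨s, hs⟩ := hz1
    obtain ⟨j, hj⟩ := hfp
    exact ⟨(s, j), mul_ne_zero hs hj⟩
  have hc : ∃ a : (ι × (β → κ)) × ν, V.ev (z a.1.1) i ^ (n + 1) * (∏ b, V.ev (fb b (a.1.2 b)) i) *
      V.ev (NTf a.2) i ≠ 0 := by
    obtain ⟨s, hs⟩ := hb
    obtain ⟨j, hj⟩ := n4
    exact ⟨(s, j), mul_ne_zero hs hj⟩
  have e3 := ls_mul (av v) (x := fun a : Λ × (β → ι) => V.ev (Nz a.1) i * (∏ b, V.ev (z (a.2 b)) i ^ e))
    (y := fun p => V.ev (DTf p) i) ha n3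
  have e4 := ls_mul (av v) (x := fun s => V.ev (Nz s) i)
    (y := fun j : β → ι => ∏ b, V.ev (z (j b)) i ^ e) n1 hzp
  have e5 := ls_pi (av v) (x := fun (_ : β) j => V.ev (z j) i ^ e) fun _ => by
    obtain ⟨j, hj⟩ := n2
    exact ⟨j, pow_ne_zero _ hj⟩
  have e6 := ls_pow (av v) (x := fun j => V.ev (z j) i) n2 e
  have e7 := ls_mul (av v) (x := fun a : (ι × (β → κ)) × ν => V.ev (z a.1.1) i ^ (n + 1) *
    (∏ b, V.ev (fb b (a.1.2 b)) i) * V.ev (NTf a.2) i)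
    (y := fun s : A → Bool => ∏ c, if s c then V.ev (y c) i else (V.ev (y c) i)⁻¹) hc hsg
  have e8 := ls_mul (av v) (x := fun a : ι × (β → κ) => V.ev (z a.1) i ^ (n + 1) *
    (∏ b, V.ev (fb b (a.2 b)) i)) (y := fun t => V.ev (NTf t) i) hb n4
  have e9 := ls_mul (av v) (x := fun j => V.ev (z j) i ^ (n + 1))
    (y := fun j : β → κ => ∏ b, V.ev (fb b (j b)) i) hz1 hfp
  have e10 := ls_pi (av v) (x := fun b j => V.ev (fb b j) i) n5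
  have e11 := ls_pow (av v) (x := fun j => V.ev (z j) i) n2 (n + 1)
  have e12 := ls_sgn (av v) (f := fun a => V.ev (y a) i) n6
  rw [e3, e4, e5, e7, e8, e9, e10, e11, e12] at h4
  simp only [e6] at h4
  rw [Finset.sum_sub_distrib]
  push_cast at h4
  linarith

theorem tr_pow (n : ℕ) (Nz : Λ → F) (hNz : ∃ s, Nz s ≠ 0) (z : ι → F) (hz : ∃ i, z i ≠ 0)
    (NTf : ν → F) (hNT : ∃ s, NTf s ≠ 0) (DTf : ν' → F)
    (hDT : ∃ s, DTf s ≠ 0) (y : A → F) (hy : ∀ a, y a ≠ 0)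
    (h3 : ∀ A' : ValuationSubring F, (∀ c : ℚ, algebraMap ℚ F c ∈ A') → ∀ (s : Λ) (p : ν'),
      ∃ (i₁ : ι) (t : ν) (sg : A → Bool), A'.valuation (Nz s * DTf p) ≤
        A'.valuation (z i₁ ^ (n + 1) * NTf t * ∏ a, if sg a then y a else (y a)⁻¹))
    (h4 : ∀ A' : ValuationSubring F, (∀ c : ℚ, algebraMap ℚ F c ∈ A') →
      (∃ a, A'.valuation (y a) ≠ 1) → ∀ (s : Λ) (p : ν'),
      ∃ (i₁ : ι) (t : ν) (sg : A → Bool), A'.valuation (Nz s * DTf p) <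
        A'.valuation (z i₁ ^ (n + 1) * NTf t * ∏ a, if sg a then y a else (y a)⁻¹)) :
    ∃ (P M : ℕ) (C : ℝ), M ≠ 0 ∧ 0 ≤ C ∧ ∀ᶠ i in (U : Filter ℕ), ∀ (v : Pl (L i)) (a : A),
      P * (ls (av v) (fun s => V.ev (Nz s) i) + ls (av v) (fun p => V.ev (DTf p) i) -
        (n + 1) * ls (av v) (fun j => V.ev (z j) i) - ls (av v) (fun t => V.ev (NTf t) i)) +
        |Real.log (av v (V.ev (y a) i))| ≤
      P * ∑ a, |Real.log (av v (V.ev (y a) i))| + C * bd M v := by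
  classical
  obtain ⟨s₀, hs₀⟩ := hNz
  obtain ⟨z₀, hz₀⟩ := hz
  obtain ⟨p₀, hp₀⟩ := hDT
  obtain ⟨t₀, ht₀⟩ := hNT
  have : Nonempty ((ι × ν) × (A → Bool)) := ⟨((z₀, t₀), fun _ => true)⟩
  obtain ⟨P, hP⟩ := uniform_power (k := ℚ) (fun a : Λ × ν' => Nz a.1 * DTf a.2)
    (fun a : (ι × ν) × (A → Bool) => z a.1.1 ^ (n + 1) * NTf a.1.2 *
      ∏ c, if a.2 c then y c else (y c)⁻¹) y hy ⟨(s₀, p₀), mul_ne_zero hs₀ hp₀⟩
    (fun A' hA' => by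
      obtain ⟨m, hm⟩ := Finite.exists_max fun a : (ι × ν) × (A → Bool) =>
        A'.valuation (z a.1.1 ^ (n + 1) * NTf a.1.2 * ∏ c, if a.2 c then y c else (y c)⁻¹)
      refine ⟨m, fun s => ?_⟩
      obtain ⟨i₁, t, sg, h⟩ := h3 A' hA' s.1 s.2
      exact h.trans (hm ((i₁, t), sg)))
    (fun A' hA' hj => by
      obtain ⟨m, hm⟩ := Finite.exists_max fun a : (ι × ν) × (A → Bool) =>
        A'.valuation (z a.1.1 ^ (n + 1) * NTf a.1.2 * ∏ c, if a.2 c then y c else (y c)⁻¹)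
      refine ⟨m, fun s => ?_⟩
      obtain ⟨i₁, t, sg, h⟩ := h4 A' hA' hj s.1 s.2
      exact h.trans_le (hm ((i₁, t), sg)))
  have key : ∀ a : A, ∃ (M : ℕ) (C : ℝ), M ≠ 0 ∧ 0 ≤ C ∧ ∀ᶠ i in (U : Filter ℕ), ∀ v : Pl (L i),
      ls (av v) (fun c : (Λ × ν') × Bool => V.ev ((Nz c.1.1 * DTf c.1.2) ^ P *
        if c.2 then y a else (y a)⁻¹) i) ≤
      ls (av v) (fun c : (ι × ν) × (A → Bool) => V.ev ((z c.1.1 ^ (n + 1) * NTf c.1.2 *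
      ∏ d, if c.2 d then y d else (y d)⁻¹) ^ P) i) + C * bd M v := by
    intro a
    refine transfer_ev V (fun c : (Λ × ν') × Bool => (Nz c.1.1 * DTf c.1.2) ^ P *
        if c.2 then y a else (y a)⁻¹) (fun c : (ι × ν) × (A → Bool) => (z c.1.1 ^ (n + 1) * NTf c.1.2 *
      ∏ d, if c.2 d then y d else (y d)⁻¹) ^ P) ⟨((s₀, p₀), true), mul_ne_zero
        (pow_ne_zero _ (mul_ne_zero hs₀ hp₀)) (by simpa using hy a)⟩ ?_
    intro A' hA' c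
    obtain ⟨i, hi⟩ := hP A' hA'
    refine ⟨i, ?_⟩
    obtain ⟨h5, h6⟩ := hi c.1 a
    have hyv : 0 < A'.valuation (y a) := by
      rw [Valuation.pos_iff]
      exact hy a
    rw [map_mul, map_pow, map_pow]
    rcases hc : c.2 with _ | _
    · simp only [Bool.false_eq_true, if_false, map_inv₀]
      rw [← div_eq_mul_inv, div_le_iff₀ hyv]
      exact h6
    · simp only [if_true]
      exact h5
  choose M C hM hC hev using key
  have hMp : (∏ a, M a) ≠ 0 := Finset.prod_ne_zero_iff.2 fun a _ => hM a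
  refine ⟨P, ∏ a, M a, ∑ a, C a, hMp, Finset.sum_nonneg fun a _ => hC a, ?_⟩
  have e1 : ∀ᶠ i in (U : Filter ℕ), ∀ (a : A) (c : (Λ × ν') × Bool), V.ev ((Nz c.1.1 * DTf c.1.2) ^ P *
      if c.2 then y a else (y a)⁻¹) i = (V.ev (Nz c.1.1) i * V.ev (DTf c.1.2) i) ^ P *
        if c.2 then V.ev (y a) i else (V.ev (y a) i)⁻¹ := by
    refine Filter.eventually_all.2 fun a => Filter.eventually_all.2 fun c => ?_
    filter_upwards [V.mul ((Nz c.1.1 * DTf c.1.2) ^ P) (if c.2 then y a else (y a)⁻¹),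
      ev_pow V (Nz c.1.1 * DTf c.1.2) P, V.mul (Nz c.1.1) (DTf c.1.2), ev_inv V (y a)] with i h1 h2 h5 h6
    rw [h1, h2, h5]
    congr 1
    split_ifs
    · rfl
    · exact h6
  have e2 : ∀ᶠ i in (U : Filter ℕ), ∀ c : (ι × ν) × (A → Bool),
      V.ev ((z c.1.1 ^ (n + 1) * NTf c.1.2 * ∏ d, if c.2 d then y d else (y d)⁻¹) ^ P) i =
        (V.ev (z c.1.1) i ^ (n + 1) * V.ev (NTf c.1.2) i *
          ∏ d, if c.2 d then V.ev (y d) i else (V.ev (y d) i)⁻¹) ^ P := by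
    refine Filter.eventually_all.2 fun c => ?_
    filter_upwards [ev_pow V (z c.1.1 ^ (n + 1) * NTf c.1.2 * ∏ d, if c.2 d then y d else (y d)⁻¹) P,
      V.mul (z c.1.1 ^ (n + 1) * NTf c.1.2) (∏ d, if c.2 d then y d else (y d)⁻¹),
      V.mul (z c.1.1 ^ (n + 1)) (NTf c.1.2), ev_pow V (z c.1.1) (n + 1), ev_sgn V (f := y)]
      with i h1 h2 h5 h6 h7
    rw [h1, h2, h5, h6, h7]
  filter_upwards [Filter.eventually_all.2 hev, e1, e2, ev_fam_ne V ⟨s₀, hs₀⟩, ev_fam_ne V ⟨z₀, hz₀⟩,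
    ev_fam_ne V ⟨p₀, hp₀⟩, ev_fam_ne V ⟨t₀, ht₀⟩,
    Filter.eventually_all.2 fun a => ev_ne V (hy a)] with i h1 h2 h5 n1 n2 n3 n4 n6 v a
  have h6 := h1 a v
  simp only [h2, h5] at h6
  have hz1 : ∃ j, V.ev (z j) i ^ (n + 1) ≠ 0 := by
    obtain ⟨j, hj⟩ := n2
    exact ⟨j, pow_ne_zero _ hj⟩
  have hsg : ∃ s : A → Bool, (∏ c, if s c then V.ev (y c) i else (V.ev (y c) i)⁻¹) ≠ 0 :=
    ⟨fun _ => true, Finset.prod_ne_zero_iff.2 fun c _ => by simpa using n6 c⟩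
  have ha : ∃ a : Λ × ν', V.ev (Nz a.1) i * V.ev (DTf a.2) i ≠ 0 := by
    obtain ⟨s, hs⟩ := n1
    obtain ⟨j, hj⟩ := n3
    exact ⟨(s, j), mul_ne_zero hs hj⟩
  have hb : ∃ a : ι × ν, V.ev (z a.1) i ^ (n + 1) * V.ev (NTf a.2) i ≠ 0 := by
    obtain ⟨s, hs⟩ := hz1
    obtain ⟨j, hj⟩ := n4
    exact ⟨(s, j), mul_ne_zero hs hj⟩
  have hc : ∃ a : (ι × ν) × (A → Bool), V.ev (z a.1.1) i ^ (n + 1) * V.ev (NTf a.1.2) i *
      (∏ d, if a.2 d then V.ev (y d) i else (V.ev (y d) i)⁻¹) ≠ 0 := by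
    obtain ⟨s, hs⟩ := hb
    obtain ⟨j, hj⟩ := hsg
    exact ⟨(s, j), mul_ne_zero hs hj⟩
  have hap : ∃ a : Λ × ν', (V.ev (Nz a.1) i * V.ev (DTf a.2) i) ^ P ≠ 0 := by
    obtain ⟨s, hs⟩ := ha
    exact ⟨s, pow_ne_zero _ hs⟩
  have f1 := ls_mul (av v) (x := fun a : Λ × ν' => (V.ev (Nz a.1) i * V.ev (DTf a.2) i) ^ P)
    (y := fun b : Bool => if b then V.ev (y a) i else (V.ev (y a) i)⁻¹) hap ⟨true, by simpa using n6 a⟩
  have f2 := ls_pow (av v) (x := fun a : Λ × ν' => V.ev (Nz a.1) i * V.ev (DTf a.2) i) ha P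
  have f3 := ls_mul (av v) (x := fun s => V.ev (Nz s) i) (y := fun p => V.ev (DTf p) i) n1 n3
  have f4 := ls_bool (av v) (n6 a)
  have f5 := ls_pow (av v) (x := fun a : (ι × ν) × (A → Bool) => V.ev (z a.1.1) i ^ (n + 1) *
    V.ev (NTf a.1.2) i * (∏ d, if a.2 d then V.ev (y d) i else (V.ev (y d) i)⁻¹)) hc P
  have f6 := ls_mul (av v) (x := fun a : ι × ν => V.ev (z a.1) i ^ (n + 1) * V.ev (NTf a.2) i)
    (y := fun s : A → Bool => ∏ d, if s d then V.ev (y d) i else (V.ev (y d) i)⁻¹) hb hsg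
  have f7 := ls_mul (av v) (x := fun j => V.ev (z j) i ^ (n + 1)) (y := fun t => V.ev (NTf t) i) hz1 n4
  have f8 := ls_pow (av v) (x := fun j => V.ev (z j) i) n2 (n + 1)
  have f9 := ls_sgn (av v) (f := fun a => V.ev (y a) i) n6
  rw [f1, f2, f3, f4, f5, f6, f7, f8, f9] at h6
  have h7 := unif M hM C hC a v
  push_cast at h6
  nlinarith

end

end Pool.Agent.Lib.MP_17a322_nt.AP.BP
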