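import Pool.Agent.Lib.MP_17a322_nt.AP.P8

/-!
The sum over all places: assembly.
-/

namespace Pool.Agent.Lib.MP_17a322_nt.AP.BP

open NumberField Height
open Pool.Agent.Lib.MP_17a322_nt.EQ

theorem ls_int {L : Type*} [Field L] [NumberField L] (w : FinitePlace L) {ι : Type*} [Finite ι]
    {x : ι → L} (hx : ∃ i, x i ≠ 0) : ∃ k : ℤ, ls w.val x = k * lq w := by
  obtain ⟨i, hi, hi'⟩ := exists_max w.val hx
  obtain ⟨k, hk⟩ := exists_zpow w hi
  exact ⟨k, by rw [ls_eq w.val hi']; exact hk⟩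

theorem fs_ls {L : Type} [Field L] [NumberField L] {ι : Type*} [Finite ι]
    {x : ι → L} (hx : ∃ i, x i ≠ 0) : FS fun v : Pl L => ls (av v) x :=
  hl_fs_sup (Function.ne_iff.2 hx)

theorem ps_ls {L : Type} [Field L] [NumberField L] {ι : Type*} [Finite ι]
    {x : ι → L} (hx : ∃ i, x i ≠ 0) : psum (fun v : Pl L => ls (av v) x) = logHeight x :=
  hl_psum_sup (Function.ne_iff.2 hx)

/-- The sum of the local terms. -/
theorem psum_G {L : Type} [Field L] [NumberField L] {ι Λ β κ ν ν' : Type} [Finite ι] [Finite Λ]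
    [Fintype β] [Finite κ] [Finite ν] [Finite ν'] (n e : ℕ) {Nz : Λ → L} (h1 : ∃ i, Nz i ≠ 0)
    {z : ι → L} (h2 : ∃ i, z i ≠ 0) {fb : β → κ → L} (h3 : ∀ b, ∃ i, fb b i ≠ 0) {NTf : ν → L}
    (h4 : ∃ i, NTf i ≠ 0) {DTf : ν' → L} (h5 : ∃ i, DTf i ≠ 0) :
    FS (fun v : Pl L => ls (av v) Nz + ls (av v) DTf - (n + 1) * ls (av v) z - ls (av v) NTf +
      ∑ b, (e * ls (av v) z - ls (av v) (fb b))) ∧
    psum (fun v : Pl L => ls (av v) Nz + ls (av v) DTf - (n + 1) * ls (av v) z - ls (av v) NTf +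
      ∑ b, (e * ls (av v) z - ls (av v) (fb b))) =
      logHeight Nz - (n + 1) * logHeight z + ∑ b, (e * logHeight z - logHeight (fb b)) +
        (logHeight DTf - logHeight NTf) := by
  have g1 := fs_ls h1
  have g2 := fs_ls h2
  have g4 := fs_ls h4
  have g5 := fs_ls h5
  have a1 := hs_fs_add g1 g5
  have a2 := hs_fs_mul (-((n : ℝ) + 1)) g2
  have a3 := hs_fs_mul (-1) g4
  have a4 := hs_fs_add a1 a2
  have a5 := hs_fs_add a4 a3
  have b1 : ∀ b ∈ (Finset.univ : Finset β), FS fun v : Pl L => (e : ℝ) * ls (av v) z +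
      (-1) * ls (av v) (fb b) := fun b _ => hs_fs_add (hs_fs_mul _ g2) (hs_fs_mul _ (fs_ls (h3 b)))
  have a6 := hs_fs_sum Finset.univ (fun b (v : Pl L) => (e : ℝ) * ls (av v) z +
      (-1) * ls (av v) (fb b)) b1
  have a7 := hs_fs_add a5 a6
  have e0 : (fun v : Pl L => ls (av v) Nz + ls (av v) DTf - (n + 1) * ls (av v) z - ls (av v) NTf +
      ∑ b, (e * ls (av v) z - ls (av v) (fb b))) =
      fun v : Pl L => ls (av v) Nz + ls (av v) DTf + -((n : ℝ) + 1) * ls (av v) z +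
        (-1) * ls (av v) NTf + ∑ b, ((e : ℝ) * ls (av v) z + (-1) * ls (av v) (fb b)) := by
    funext v
    have : ∀ b, (e : ℝ) * ls (av v) z + (-1) * ls (av v) (fb b) =
        e * ls (av v) z - ls (av v) (fb b) := fun b => by ring
    simp only [this]
    ring
  rw [e0]
  refine ⟨a7, ?_⟩
  rw [hs_add a5 a6, hs_add a4 a3, hs_add a1 a2, hs_add g1 g5, hs_mul, hs_mul,
    hs_sum Finset.univ _ b1, ps_ls h1, ps_ls h5, ps_ls h2, ps_ls h4]
  have e1 : ∀ b, psum (fun v : Pl L => (e : ℝ) * ls (av v) z + (-1) * ls (av v) (fb b)) =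
      e * logHeight z - logHeight (fb b) := by
    intro b
    rw [hs_add (hs_fs_mul _ g2) (hs_fs_mul _ (fs_ls (h3 b))), hs_mul, hs_mul, ps_ls h2, ps_ls (h3 b)]
    ring
  simp only [e1]
  ring

end Pool.Agent.Lib.MP_17a322_nt.AP.BP

namespace Pool.Agent.Lib.MP_17a322_nt.AP

open NumberField Height
open Pool.Agent.Lib.MP_17a322_nt.EQ
open Pool.Agent.Lib.MP_17a322_nt.AP.BP

theorem sum_alg_aux {F : Type} [Field F] [Algebra ℚ F] {U : Ultrafilter ℕ} {L : ℕ → Type}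
    [∀ i, Field (L i)] [∀ i, NumberField (L i)] (V : EvV F U L) (r : ℕ)
    (hr : ∀ i, Module.finrank ℚ (L i) ≤ r) {ι Λ β κ ν ν' N σ : Type} [Fintype ι] [Fintype Λ] [Fintype β]
    [Fintype κ] [Fintype ν] [Fintype ν'] [Fintype N] [Fintype σ]
    (n e m : ℕ) (hm : m ≠ 0)
    (Nz : Λ → F) (hNz : ∃ s, Nz s ≠ 0) (z : ι → F) (hz : ∃ i, z i ≠ 0) (fb : β → κ → F)
    (hfb : ∀ b, ∃ j, fb b j ≠ 0) (NTf : ν → F) (hNT : ∃ s, NTf s ≠ 0) (DTf : ν' → F)
    (hDT : ∃ s, DTf s ≠ 0) (γ : N → F) (hγ : ∀ a, γ a ≠ 0) (x q u : σ → F) (hx : ∀ k, x k ≠ 0)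
    (hq : ∀ k, q k ≠ 0) (hu : ∀ k, u k ≠ 0) (c : ℕ → N → ℕ)
    (hc : ∀ᶠ i in (U : Filter ℕ), (∀ a, V.ev (γ a) i = (c i a : L i)) ∧ Squarefree (∏ a, c i a))
    (xq qq uq : ℕ → σ → ℚ) (C₀ : ℝ)
    (hxq : ∀ᶠ i in (U : Filter ℕ), ∀ k, V.ev (x k) i = algebraMap ℚ (L i) (xq i k) ∧ xq i k ≠ 0)
    (hqq : ∀ᶠ i in (U : Filter ℕ), ∀ k, V.ev (q k) i = algebraMap ℚ (L i) (qq i k) ∧ qq i k ≠ 0)
    (huq : ∀ᶠ i in (U : Filter ℕ), ∀ k, V.ev (u k) i = algebraMap ℚ (L i) (uq i k) ∧ uq i k ≠ 0 ∧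
      |(uq i k : ℝ)| ≤ C₀ ∧ |(uq i k : ℝ)|⁻¹ ≤ C₀)
    (h1 : ∀ A : ValuationSubring F, (∀ c : ℚ, algebraMap ℚ F c ∈ A) → ∀ (s : Λ) (s' : β → ι) (p : ν'),
      ∃ (i₁ : ι) (j : β → κ) (t : ν) (sg : N ⊕ σ → Bool), A.valuation (Nz s * (∏ b, z (s' b) ^ e) * DTf p) ≤
        A.valuation (z i₁ ^ (n + 1) * (∏ b, fb b (j b)) * NTf t *
          ∏ a, if sg a then Sum.elim γ x a else (Sum.elim γ x a)⁻¹))
    (h2 : ∀ A : ValuationSubring F, (∀ c : ℚ, algebraMap ℚ F c ∈ A) → ∀ (s : Λ) (s' : β → ι) (p : ν'),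
      ∃ (i₁ : ι) (j : β → κ) (t : ν) (sg : σ ⊕ σ → Bool), A.valuation (Nz s * (∏ b, z (s' b) ^ e) * DTf p) ≤
        A.valuation (z i₁ ^ (n + 1) * (∏ b, fb b (j b)) * NTf t *
          ∏ a, if sg a then Sum.elim u q a else (Sum.elim u q a)⁻¹))
    (h3 : ∀ A : ValuationSubring F, (∀ c : ℚ, algebraMap ℚ F c ∈ A) → ∀ (s : Λ) (p : ν'),
      ∃ (i₁ : ι) (t : ν) (sg : N ⊕ σ → Bool), A.valuation (Nz s * DTf p) ≤
        A.valuation (z i₁ ^ (n + 1) * NTf t *
          ∏ a, if sg a then Sum.elim γ x a else (Sum.elim γ x a)⁻¹))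
    (h4 : ∀ A : ValuationSubring F, (∀ c : ℚ, algebraMap ℚ F c ∈ A) →
      (∃ a, A.valuation (Sum.elim γ x a) ≠ 1) →
      ∀ (s : Λ) (p : ν'), ∃ (i₁ : ι) (t : ν) (sg : N ⊕ σ → Bool), A.valuation (Nz s * DTf p) <
        A.valuation (z i₁ ^ (n + 1) * NTf t *
          ∏ a, if sg a then Sum.elim γ x a else (Sum.elim γ x a)⁻¹)) :
    ∃ C : ℝ, ∀ᶠ i in (U : Filter ℕ),
      logHeight (fun s => V.ev (Nz s) i) - (n + 1) * logHeight (fun j => V.ev (z j) i) +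
          ∑ b, (e * logHeight (fun j => V.ev (z j) i) - logHeight fun j => V.ev (fb b j) i) +
          (logHeight (fun p => V.ev (DTf p) i) - logHeight fun t => V.ev (NTf t) i) ≤
        (∑ᶠ v ∈ {v : FinitePlace (L i) | v (m : L i) = 1 ∧ ∃ b, 0 < e * Real.log (⨆ j, v (V.ev (z j) i)) -
            Real.log (⨆ j, v (V.ev (fb b j) i))}, Real.log (Ideal.absNorm v.maximalIdeal.asIdeal)) +
          Real.log |(discr (L i) : ℝ)| +
          Module.finrank ℚ (L i) * ∑ k, (4 * logHeight₁ (xq i k) + logHeight₁ (qq i k)) + C := by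
  classical
  have hy : ∀ a, Sum.elim γ x a ≠ 0 := by
    rintro (a | a)
    · exact hγ a
    · exact hx a
  have hy' : ∀ a, Sum.elim u q a ≠ 0 := by
    rintro (a | a)
    · exact hu a
    · exact hq a
  obtain ⟨M₁, C₁, hM₁, hC₁, t1⟩ := tr_main V n e Nz hNz z hz fb hfb NTf hNT DTf hDT (Sum.elim γ x) hy h1
  obtain ⟨M₂, C₂, hM₂, hC₂, t2⟩ := tr_main V n e Nz hNz z hz fb hfb NTf hNT DTf hDT (Sum.elim u q) hy' h2
  obtain ⟨P, M₃, C₃, hM₃, hC₃, t3⟩ := tr_pow V n Nz hNz z hz NTf hNT DTf hDT (Sum.elim γ x) hy h3 h4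
  set M : ℕ := M₁ * M₂ * M₃ with hM
  have hM0 : M ≠ 0 := mul_ne_zero (mul_ne_zero hM₁ hM₂) hM₃
  set C : ℝ := C₁ + C₂ + C₃ with hC
  have hC0 : 0 ≤ C := by positivity
  set D : ℝ := Fintype.card σ * |Real.log C₀| with hD
  have hD0 : 0 ≤ D := mul_nonneg (Nat.cast_nonneg _) (abs_nonneg _)
  refine ⟨(C + D + 1) * (r + r * Real.log (M * m : ℕ)), ?_⟩
  filter_upwards [t1, t2, t3, hc, hxq, hqq, huq, ev_fam_ne V hNz, ev_fam_ne V hz, ev_fam_ne V hNT,
    ev_fam_ne V hDT, Filter.eventually_all.2 fun b => ev_fam_ne V (hfb b)]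
    with i t1 t2 t3 hc hxq hqq huq n1 n2 n3 n4 n5
  obtain ⟨g1, g2⟩ := psum_G n e n1 n2 n5 n3 n4
  rw [← g2]
  have hmeets : {w : FinitePlace (L i) | ∃ b, 0 < e * Real.log (⨆ j, w (V.ev (z j) i)) -
      Real.log (⨆ j, w (V.ev (fb b j) i))}.Finite := by
    have h5 : {w : FinitePlace (L i) | ∃ b, 0 < e * Real.log (⨆ j, w (V.ev (z j) i)) -
        Real.log (⨆ j, w (V.ev (fb b j) i))} ⊆
        ⋃ b, {w : FinitePlace (L i) | (fun v : Pl (L i) => (e : ℝ) * ls (av v) (fun j => V.ev (z j) i) +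
          (-1) * ls (av v) (fun j => V.ev (fb b j) i)) (Sum.inr w) ≠ 0} := by
      rintro w ⟨b, hb⟩
      rw [Set.mem_iUnion]
      refine ⟨b, ?_⟩
      intro h6
      have h7 : e * Real.log (⨆ j, w (V.ev (z j) i)) - Real.log (⨆ j, w (V.ev (fb b j) i)) =
          (e : ℝ) * ls (av (Sum.inr w : Pl (L i))) (fun j => V.ev (z j) i) +
          (-1) * ls (av (Sum.inr w : Pl (L i))) (fun j => V.ev (fb b j) i) := by
        rw [neg_one_mul, ← sub_eq_add_neg]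
        rfl
      rw [h7] at hb
      exact hb.ne' h6
    exact (Set.finite_iUnion fun b => hs_fs_add (hs_fs_mul _ (fs_ls n2)) (hs_fs_mul _ (fs_ls (n5 b)))).subset h5
  have hsumx : ∀ v : Pl (L i), ∑ a, |Real.log (av v (V.ev (Sum.elim γ x a) i))| =
      ∑ a, |Real.log (av v (c i a : L i))| + ∑ k, |Real.log (av v (algebraMap ℚ (L i) (xq i k)))| := by
    intro v
    rw [Fintype.sum_sum_type]
    simp only [Sum.elim_inl, Sum.elim_inr]
    congr 1
    · exact Finset.sum_congr rfl fun a _ => by rw [hc.1 a]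
    · exact Finset.sum_congr rfl fun k _ => by rw [(hxq k).1]
  refine sum_places r (hr i) _ g1 (xq i) (qq i) (fun k => (hxq k).2) (fun k => (hqq k).2)
    (mul_ne_zero hM0 hm) (C := C + D + 1) (by positivity)
    (fun w => ∃ b, 0 < e * Real.log (⨆ j, w (V.ev (z j) i)) - Real.log (⨆ j, w (V.ev (fb b j) i)))
    hmeets ?_ ?_
  · intro v
    refine (t2 (Sum.inl v)).trans ?_
    rw [Fintype.sum_sum_type]
    simp only [Sum.elim_inl, Sum.elim_inr, bd, mul_one]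
    have e1 : ∑ k, |Real.log (av (Sum.inl v : Pl (L i)) (V.ev (u k) i))| ≤ D := by
      have h6 : ∀ k, |Real.log (av (Sum.inl v : Pl (L i)) (V.ev (u k) i))| ≤ |Real.log C₀| := by
        intro k
        obtain ⟨a1, a2, a3, a4⟩ := huq k
        have h7 : av (Sum.inl v : Pl (L i)) (V.ev (u k) i) = |(uq i k : ℝ)| := by
          rw [a1]
          exact rat_infinite v _
        have h8 : 0 < |(uq i k : ℝ)| := abs_pos.2 (by exact_mod_cast a2)
        have h9 : Real.log |(uq i k : ℝ)| ≤ Real.log C₀ := Real.log_le_log h8 a3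
        have h10 : -Real.log |(uq i k : ℝ)| ≤ Real.log C₀ := by
          rw [← Real.log_inv]
          exact Real.log_le_log (inv_pos.2 h8) a4
        rw [h7]
        refine (abs_le.2 ⟨by linarith, h9⟩).trans (le_abs_self _)
      refine (Finset.sum_le_sum fun k _ => h6 k).trans ?_
      rw [Finset.sum_const, nsmul_eq_mul, Finset.card_univ]
    have e2 : ∑ k, |Real.log (av (Sum.inl v : Pl (L i)) (V.ev (q k) i))| =
        ∑ k, |Real.log (|(qq i k : ℝ)|)| := by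
      refine Finset.sum_congr rfl fun k _ => ?_
      rw [(hqq k).1]
      congr 2
      exact rat_infinite v _
    rw [e2]
    have e3 : C₂ ≤ C := by
      rw [hC]
      linarith
    linarith
  · intro w
    have b1 : C₁ * bd M₁ (Sum.inr w : Pl (L i)) ≤ C * bd M (Sum.inr w) :=
      bd_mono hM₁ hM0 hC₁ (by rw [hC]; linarith) ⟨M₂ * M₃, by rw [hM, mul_assoc]⟩ _
    have b3 : C₃ * bd M₃ (Sum.inr w : Pl (L i)) ≤ C * bd M (Sum.inr w) :=
      bd_mono hM₃ hM0 hC₃ (by rw [hC]; linarith) ⟨M₁ * M₂, by rw [hM, mul_comm]⟩ _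
    obtain ⟨k1, hk1⟩ := ls_int w n1
    obtain ⟨k2, hk2⟩ := ls_int w n4
    obtain ⟨k3, hk3⟩ := ls_int w n2
    obtain ⟨k4, hk4⟩ := ls_int w n3
    have p1 := t1 (Sum.inr w)
    rw [hsumx] at p1
    have hG0 : ls w.val (fun s => V.ev (Nz s) i) + ls w.val (fun p => V.ev (DTf p) i) -
        (n + 1) * ls w.val (fun j => V.ev (z j) i) - ls w.val (fun t => V.ev (NTf t) i) =
        ((k1 + k2 - (n + 1) * k3 - k4 : ℤ) : ℝ) * lq w := by
      rw [hk1, hk2, hk3, hk4]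
      push_cast
      ring
    obtain ⟨e', p', hp', he', hle⟩ := place_fin w hc.2 (fun k => (hxq k).2) hM0 hm
      (C := C) (G := ls w.val (fun s => V.ev (Nz s) i) + ls w.val (fun p => V.ev (DTf p) i) -
        (n + 1) * ls w.val (fun j => V.ev (z j) i) - ls w.val (fun t => V.ev (NTf t) i) +
        ∑ b, (e * ls w.val (fun j => V.ev (z j) i) - ls w.val (fun j => V.ev (fb b j) i)))
      (G₀ := ls w.val (fun s => V.ev (Nz s) i) + ls w.val (fun p => V.ev (DTf p) i) -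
        (n + 1) * ls w.val (fun j => V.ev (z j) i) - ls w.val (fun t => V.ev (NTf t) i)) hC0 P
      (∃ b, 0 < e * Real.log (⨆ j, w (V.ev (z j) i)) - Real.log (⨆ j, w (V.ev (fb b j) i)))
      ⟨_, hG0⟩ (by
        refine p1.trans ?_
        have : ∀ (a b : ℝ), a = b → a + C₁ * bd M₁ (Sum.inr w : Pl (L i)) ≤ b + C * bd M (Sum.inr w) :=
          fun a b hab => by rw [hab]; linarith
        exact this _ _ rfl) (by
        intro a
        have p3 := t3 (Sum.inr w) (Sum.inl a)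
        rw [hsumx] at p3
        simp only [Sum.elim_inl] at p3
        rw [hc.1 a] at p3
        refine p3.trans ?_
        have : ∀ (a b : ℝ), a = b → a + C₃ * bd M₃ (Sum.inr w : Pl (L i)) ≤ b + C * bd M (Sum.inr w) :=
          fun a b hab => by rw [hab]; linarith
        exact this _ _ rfl) (by
        intro hnm
        push Not at hnm
        have : ∑ b, (e * ls w.val (fun j => V.ev (z j) i) - ls w.val (fun j => V.ev (fb b j) i)) ≤ 0 :=
          Finset.sum_nonpos fun b _ => hnm b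
        linarith)
    refine ⟨e', p', hp', he', hle.trans ?_⟩
    have b4 : (C + 1) * bd (M * m) (Sum.inr w : Pl (L i)) ≤ (C + D + 1) * bd (M * m) (Sum.inr w) :=
      mul_le_mul_of_nonneg_right (by linarith) (bd_nonneg (mul_ne_zero hM0 hm) _)
    refine add_le_add (add_le_add le_rfl (le_of_eq ?_)) b4
    by_cases hcase : w (m : L i) = 1 ∧ ∃ b, 0 < e * Real.log (⨆ j, w (V.ev (z j) i)) -
        Real.log (⨆ j, w (V.ev (fb b j) i))
    · rw [if_pos hcase, if_pos hcase]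
    · rw [if_neg hcase, if_neg hcase]

end Pool.Agent.Lib.MP_17a322_nt.AP
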