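import Mathlib

/-!
Simultaneous factorisation of rational numbers.
-/

set_option linter.unusedSectionVars false

namespace Pool.Agent.Lib.MP_17a322_nt.AP

open Height NumberField

/-- The height of a quotient of natural numbers. -/
theorem mulHeight_div_le {a b : ℕ} (ha : a ≠ 0) (hb : b ≠ 0) : mulHeight₁ ((a : ℚ) / b) ≤ max a b := by
  rw [Rat.mulHeight₁_eq_max]
  have h1 : ((a : ℚ) / b).num.natAbs ≤ a := by
    have h2 : ((a : ℚ) / b).num ∣ (a : ℤ) := by
      have h3 := Rat.num_dvd (a : ℤ) (b := (b : ℤ)) (by exact_mod_cast hb)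
      rwa [Rat.divInt_eq_div, Int.cast_natCast, Int.cast_natCast] at h3
    have h3 := Int.natAbs_dvd_natAbs.2 h2
    rw [Int.natAbs_natCast] at h3
    exact Nat.le_of_dvd (Nat.pos_of_ne_zero ha) h3
  have h2 : ((a : ℚ) / b).den ≤ b := by
    have h3 := Rat.den_dvd (a : ℤ) (b : ℤ)
    rw [Rat.divInt_eq_div, Int.cast_natCast, Int.cast_natCast] at h3
    exact Nat.le_of_dvd (Nat.pos_of_ne_zero hb) (by exact_mod_cast h3)
  exact_mod_cast max_le_max h1 h2

/-- The exponent of `p` in the rational number `r`. -/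
def vv (p : ℕ) (r : ℚ) : ℤ := (r.num.natAbs.factorization p : ℤ) - (r.den.factorization p : ℤ)

/-- The absolute value of a rational number is the product of the powers of its primes. -/
theorem abs_eq_prod {r : ℚ} (hr : r ≠ 0) {S : Finset ℕ} (hS : ∀ p ∈ S, p.Prime)
    (h1 : r.num.natAbs.primeFactors ⊆ S) (h2 : r.den.primeFactors ⊆ S) : |r| = ∏ p ∈ S, (p : ℚ) ^ vv p r := by
  have hn : r.num.natAbs ≠ 0 := Int.natAbs_ne_zero.2 (Rat.num_ne_zero.2 hr)
  have hd : r.den ≠ 0 := r.den_ne_zero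
  have h3 : ∏ p ∈ S, (p : ℚ) ^ vv p r =
      (∏ p ∈ S, (p : ℚ) ^ r.num.natAbs.factorization p) / ∏ p ∈ S, (p : ℚ) ^ r.den.factorization p := by
    rw [← Finset.prod_div_distrib]
    refine Finset.prod_congr rfl fun p hp => ?_
    have h4 : (p : ℚ) ≠ 0 := by exact_mod_cast (hS p hp).ne_zero
    rw [vv, zpow_sub₀ h4, zpow_natCast, zpow_natCast]
  have h4 : ∀ n : ℕ, n ≠ 0 → n.primeFactors ⊆ S → ∏ p ∈ S, (p : ℚ) ^ n.factorization p = n := by
    intro n hn hnS
    have h5 : n.factorization.prod (fun p k => p ^ k) = ∏ p ∈ S, p ^ n.factorization p :=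
      Finsupp.prod_of_support_subset _ hnS _ fun _ _ => pow_zero _
    rw [Nat.prod_factorization_pow_eq_self hn] at h5
    have h6 : ((n : ℕ) : ℚ) = ((∏ p ∈ S, p ^ n.factorization p : ℕ) : ℚ) := by rw [← h5]
    rw [h6]
    push_cast
    rfl
  rw [h3, h4 _ hn h1, h4 _ hd h2]
  have h5 : |r| = |(r.num : ℚ)| / |(r.den : ℚ)| := by
    rw [← abs_div, Rat.num_div_den]
  rw [h5, Nat.abs_cast, ← Int.cast_abs, Int.abs_eq_natAbs, Int.cast_natCast]

variable {σ : Type} [Fintype σ] [DecidableEq σ]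

/-- The digit of an integer. -/
def dig (m : ℕ) (hm : 0 < m) (v : ℤ) : Fin (2 * m) :=
  ⟨(v.tmod m + m).toNat, by
    have h1 := Int.tmod_lt_of_pos v (b := (m : ℤ)) (by exact_mod_cast hm)
    omega⟩

theorem dig_val (m : ℕ) (hm : 0 < m) (v : ℤ) : (((dig m hm v : Fin (2 * m)) : ℕ) : ℤ) - m = v.tmod m := by
  have hm' : (0 : ℤ) < m := by exact_mod_cast hm
  have h1 : -(m : ℤ) < v.tmod m := by
    have h2 := Int.tmod_lt_of_pos (-v) hm'
    rw [Int.neg_tmod] at h2
    omega
  show (((v.tmod m + m).toNat : ℕ) : ℤ) - m = _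
  rw [Int.toNat_of_nonneg (by omega)]
  ring

/-- The exponents. -/
def nnE (m : ℕ) (k : σ) (e : σ → Fin (2 * m)) : ℤ := ((e k : ℕ) : ℤ) - m

/-- The set of the primes. -/
def SS (r : σ → ℚ) : Finset ℕ := (∏ k, (r k).num.natAbs * (r k).den).primeFactors

/-- The class of the prime. -/
def cls (m : ℕ) (hm : 0 < m) (r : σ → ℚ) (p : ℕ) : σ → Fin (2 * m) := fun k => dig m hm (vv p (r k))

open Classical in
/-- The squarefree factors. -/
noncomputable def cc (m : ℕ) (hm : 0 < m) (r : σ → ℚ) (e : σ → Fin (2 * m)) : ℕ :=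
  ∏ p ∈ (SS r).filter fun p => cls m hm r p = e, p

/-- The roots. -/
noncomputable def xx (m : ℕ) (r : σ → ℚ) (k : σ) : ℚ := ∏ p ∈ SS r, (p : ℚ) ^ (vv p (r k)).tdiv m

theorem prime_SS {r : σ → ℚ} {p : ℕ} (hp : p ∈ SS r) : p.Prime := Nat.prime_of_mem_primeFactors hp

theorem prod_ne {r : σ → ℚ} (hr : ∀ k, r k ≠ 0) : ∏ k, (r k).num.natAbs * (r k).den ≠ 0 :=
  Finset.prod_ne_zero_iff.2 fun k _ =>
    mul_ne_zero (Int.natAbs_ne_zero.2 (Rat.num_ne_zero.2 (hr k))) (r k).den_ne_zero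

theorem num_SS {r : σ → ℚ} (hr : ∀ k, r k ≠ 0) (k : σ) : (r k).num.natAbs.primeFactors ⊆ SS r :=
  Nat.primeFactors_mono ((Dvd.intro _ rfl).trans (Finset.dvd_prod_of_mem _ (Finset.mem_univ k))) (prod_ne hr)

theorem den_SS {r : σ → ℚ} (hr : ∀ k, r k ≠ 0) (k : σ) : (r k).den.primeFactors ⊆ SS r :=
  Nat.primeFactors_mono ((Dvd.intro_left _ rfl).trans (Finset.dvd_prod_of_mem _ (Finset.mem_univ k))) (prod_ne hr)

open Classical in
theorem cc_prod (m : ℕ) (hm : 0 < m) (r : σ → ℚ) : ∏ e, cc m hm r e = ∏ p ∈ SS r, p := by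
  unfold cc
  exact Finset.prod_fiberwise (SS r) (cls m hm r) fun p => p

theorem cc_squarefree (m : ℕ) (hm : 0 < m) (r : σ → ℚ) : Squarefree (∏ e, cc m hm r e) := by
  rw [cc_prod]
  refine Finset.squarefree_prod_of_pairwise_isCoprime (fun p hp q hq hpq => ?_) fun p hp => ?_
  · exact Nat.coprime_iff_isRelPrime.1 ((Nat.coprime_primes (prime_SS hp) (prime_SS hq)).2 hpq)
  · exact (prime_SS hp).prime.squarefree

theorem cc_ne (m : ℕ) (hm : 0 < m) (r : σ → ℚ) (e : σ → Fin (2 * m)) : cc m hm r e ≠ 0 := by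
  unfold cc
  exact Finset.prod_ne_zero_iff.2 fun p hp => (prime_SS (Finset.mem_filter.1 hp).1).ne_zero

theorem xx_ne (m : ℕ) (r : σ → ℚ) (k : σ) : xx m r k ≠ 0 := by
  unfold xx
  refine Finset.prod_ne_zero_iff.2 fun p hp => zpow_ne_zero _ ?_
  exact_mod_cast (prime_SS hp).ne_zero

/-- The factorisation. -/
theorem abs_eq (m : ℕ) (hm : 0 < m) {r : σ → ℚ} (hr : ∀ k, r k ≠ 0) (k : σ) :
    |r k| = (∏ e, (cc m hm r e : ℚ) ^ nnE m k e) * xx m r k ^ m := by
  classical
  have h1 : ∏ e, (cc m hm r e : ℚ) ^ nnE m k e = ∏ p ∈ SS r, (p : ℚ) ^ (vv p (r k)).tmod m := by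
    have h2 : ∀ e, (cc m hm r e : ℚ) ^ nnE m k e =
        ∏ p ∈ (SS r).filter (fun p => cls m hm r p = e), (p : ℚ) ^ (vv p (r k)).tmod m := by
      intro e
      unfold cc
      rw [Nat.cast_prod, ← Finset.prod_zpow]
      refine Finset.prod_congr (by congr) fun p hp => ?_
      have h3 : cls m hm r p = e := (Finset.mem_filter.1 hp).2
      have h4 : nnE m k e = (vv p (r k)).tmod m := by
        rw [← h3]
        exact dig_val m hm _
      rw [h4]
    rw [Finset.prod_congr rfl fun e _ => h2 e]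
    exact Finset.prod_fiberwise (SS r) (cls m hm r) fun p => (p : ℚ) ^ (vv p (r k)).tmod m
  rw [abs_eq_prod (hr k) (fun p hp => prime_SS hp) (num_SS hr k) (den_SS hr k), h1, xx, ← Finset.prod_pow,
    ← Finset.prod_mul_distrib]
  refine Finset.prod_congr rfl fun p hp => ?_
  have h4 : (p : ℚ) ≠ 0 := by exact_mod_cast (prime_SS hp).ne_zero
  rw [← zpow_natCast, ← zpow_mul, ← zpow_add₀ h4]
  congr 1
  have h5 := Int.tmod_add_mul_tdiv (vv p (r k)) m
  rw [mul_comm (m : ℤ)] at h5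
  exact h5.symm

/-- The height of the roots. -/
theorem xx_height (m : ℕ) (hm : 0 < m) {r : σ → ℚ} (hr : ∀ k, r k ≠ 0) (k : σ) :
    logHeight₁ (xx m r k) ≤ logHeight₁ (r k) / m := by
  have hm' : (0 : ℝ) < m := by exact_mod_cast hm
  have hn : (r k).num.natAbs ≠ 0 := Int.natAbs_ne_zero.2 (Rat.num_ne_zero.2 (hr k))
  have hd : (r k).den ≠ 0 := (r k).den_ne_zero
  obtain ⟨a, ha⟩ : ∃ a : ℕ, a = ∏ p ∈ SS r, p ^ ((vv p (r k)).tdiv m).toNat := ⟨_, rfl⟩
  obtain ⟨b, hb⟩ : ∃ b : ℕ, b = ∏ p ∈ SS r, p ^ (-(vv p (r k)).tdiv m).toNat := ⟨_, rfl⟩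
  have ha0 : a ≠ 0 := by
    rw [ha]
    exact Finset.prod_ne_zero_iff.2 fun p hp => pow_ne_zero _ (prime_SS hp).ne_zero
  have hb0 : b ≠ 0 := by
    rw [hb]
    exact Finset.prod_ne_zero_iff.2 fun p hp => pow_ne_zero _ (prime_SS hp).ne_zero
  have hab : xx m r k = (a : ℚ) / b := by
    rw [ha, hb, xx]
    push_cast
    rw [← Finset.prod_div_distrib]
    refine Finset.prod_congr rfl fun p hp => ?_
    have h4 : (p : ℚ) ≠ 0 := by exact_mod_cast (prime_SS hp).ne_zero
    rw [← zpow_natCast, ← zpow_natCast, ← zpow_sub₀ h4]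
    congr 1
    omega
  have hexp : ∀ p ∈ SS r, ((vv p (r k)).tdiv m).toNat * m ≤ (r k).num.natAbs.factorization p ∧
      (-(vv p (r k)).tdiv m).toNat * m ≤ (r k).den.factorization p := by
    intro p _
    have hmz : (0 : ℤ) < m := by exact_mod_cast hm
    obtain ⟨A, hA⟩ : ∃ A : ℤ, A = ((r k).num.natAbs.factorization p : ℤ) := ⟨_, rfl⟩
    obtain ⟨B, hB⟩ : ∃ B : ℤ, B = ((r k).den.factorization p : ℤ) := ⟨_, rfl⟩
    have hA0 : 0 ≤ A := by rw [hA]; exact Int.natCast_nonneg _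
    have hB0 : 0 ≤ B := by rw [hB]; exact Int.natCast_nonneg _
    have hv : vv p (r k) = A - B := by rw [hA, hB]; rfl
    have h5 := Int.tmod_add_mul_tdiv (A - B) m
    have h6 : (A - B).tmod m < m := Int.tmod_lt_of_pos _ hmz
    rw [hv]
    obtain ⟨q, hq⟩ : ∃ q : ℤ, q = (A - B).tdiv m := ⟨_, rfl⟩
    obtain ⟨t, ht⟩ : ∃ t : ℤ, t = (A - B).tmod m := ⟨_, rfl⟩
    rw [← hq, ← ht] at h5
    have h7 : 0 ≤ A - B → 0 ≤ t := fun h => by rw [ht]; exact Int.tmod_nonneg _ h
    have h8 : A - B ≤ 0 → t ≤ 0 := fun h => by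
      rw [ht, ← neg_neg (A - B), Int.neg_tmod]
      have := Int.tmod_nonneg (m : ℤ) (a := -(A - B)) (by omega)
      omega
    rw [← hq]
    constructor
    · have h9 : ((q.toNat * m : ℕ) : ℤ) ≤ A := by
        rw [Nat.cast_mul]
        rcases le_or_gt 0 q with h10 | h10
        · rw [Int.toNat_of_nonneg h10]
          rcases le_or_gt 0 (A - B) with h11 | h11
          · have := h7 h11
            nlinarith
          · have := h8 h11.le
            have h12 : 0 ≤ (m : ℤ) * q := by positivity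
            have h13 : q * m = m * q := mul_comm _ _
            have h14 : (A - B).tdiv m ≤ 0 := by
              rw [← neg_neg (A - B), Int.neg_tdiv]
              have := Int.tdiv_nonneg (a := -(A - B)) (b := (m : ℤ)) (by omega) hmz.le
              omega
            rw [← hq] at h14
            have h15 : q = 0 := le_antisymm h14 h10
            rw [h15, zero_mul]
            exact hA0
        · rw [Int.toNat_of_nonpos h10.le, Nat.cast_zero, zero_mul]
          exact hA0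
      rw [hA] at h9
      exact_mod_cast h9
    · have h9 : (((-q).toNat * m : ℕ) : ℤ) ≤ B := by
        rw [Nat.cast_mul]
        rcases le_or_gt 0 (-q) with h10 | h10
        · rw [Int.toNat_of_nonneg h10]
          rcases le_or_gt (A - B) 0 with h11 | h11
          · have := h8 h11
            nlinarith
          · have h14 : 0 ≤ (A - B).tdiv m := Int.tdiv_nonneg h11.le hmz.le
            rw [← hq] at h14
            have h15 : q = 0 := by omega
            rw [h15, neg_zero, zero_mul]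
            exact hB0
        · rw [Int.toNat_of_nonpos h10.le, Nat.cast_zero, zero_mul]
          exact hB0
      rw [hB] at h9
      exact_mod_cast h9
  have hpr : ∀ n : ℕ, n ≠ 0 → n.primeFactors ⊆ SS r → ∏ p ∈ SS r, p ^ n.factorization p = n := by
    intro n hn hnS
    have h5 : n.factorization.prod (fun p k => p ^ k) = ∏ p ∈ SS r, p ^ n.factorization p :=
      Finsupp.prod_of_support_subset _ hnS _ fun _ _ => pow_zero _
    rw [Nat.prod_factorization_pow_eq_self hn] at h5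
    exact h5.symm
  have h1 : a ^ m ≤ (r k).num.natAbs := by
    rw [← hpr _ hn (num_SS hr k), ha, ← Finset.prod_pow]
    refine Finset.prod_le_prod' fun p hp => ?_
    rw [← pow_mul]
    exact Nat.pow_le_pow_right (prime_SS hp).pos (hexp p hp).1
  have h2 : b ^ m ≤ (r k).den := by
    rw [← hpr _ hd (den_SS hr k), hb, ← Finset.prod_pow]
    refine Finset.prod_le_prod' fun p hp => ?_
    rw [← pow_mul]
    exact Nat.pow_le_pow_right (prime_SS hp).pos (hexp p hp).2
  rw [le_div_iff₀ hm', mul_comm, logHeight₁_eq_log_mulHeight₁, logHeight₁_eq_log_mulHeight₁, ← Real.log_pow]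
  refine Real.log_le_log (by positivity) ?_
  rw [Rat.mulHeight₁_eq_max (r k), hab]
  calc (mulHeight₁ ((a : ℚ) / b)) ^ m ≤ ((max a b : ℕ) : ℝ) ^ m := by
        refine pow_le_pow_left₀ (by positivity) ?_ m
        exact_mod_cast mulHeight_div_le ha0 hb0
    _ = ((max (a ^ m) (b ^ m) : ℕ) : ℝ) := by
        rw [← Nat.cast_pow]
        congr 1
        rcases le_total a b with h3 | h3
        · rw [max_eq_right h3, max_eq_right (Nat.pow_le_pow_left h3 m)]
        · rw [max_eq_left h3, max_eq_left (Nat.pow_le_pow_left h3 m)]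
    _ ≤ _ := by exact_mod_cast max_le_max h1 h2

/-- The height of the squarefree factors. -/
theorem cc_height (m : ℕ) (hm : 0 < m) {r : σ → ℚ} (hr : ∀ k, r k ≠ 0) (e : σ → Fin (2 * m)) :
    logHeight₁ ((cc m hm r e : ℕ) : ℚ) ≤ 2 * ∑ k, logHeight₁ (r k) := by
  have : NeZero (cc m hm r e) := ⟨cc_ne m hm r e⟩
  rw [Rat.logHeight₁_natCast]
  have h1 : cc m hm r e ≤ ∏ k, (r k).num.natAbs * (r k).den := by
    have h2 : cc m hm r e ∣ ∏ e, cc m hm r e := Finset.dvd_prod_of_mem _ (Finset.mem_univ e)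
    rw [cc_prod] at h2
    exact Nat.le_of_dvd (Nat.pos_of_ne_zero (prod_ne hr)) (h2.trans (Nat.prod_primeFactors_dvd _))
  have h3 : Real.log (cc m hm r e) ≤ Real.log ((∏ k, (r k).num.natAbs * (r k).den : ℕ) : ℝ) :=
    Real.log_le_log (by exact_mod_cast Nat.pos_of_ne_zero (cc_ne m hm r e)) (by exact_mod_cast h1)
  refine h3.trans ?_
  rw [Nat.cast_prod, Real.log_prod, Finset.mul_sum]
  · refine Finset.sum_le_sum fun k _ => ?_
    have hn : 0 < (r k).num.natAbs := Int.natAbs_pos.2 (Rat.num_ne_zero.2 (hr k))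
    have hd : 0 < (r k).den := (r k).den_pos
    rw [Nat.cast_mul, Real.log_mul (by positivity) (by positivity), Rat.logHeight₁_eq_log_max, two_mul]
    refine add_le_add (Real.log_le_log (by positivity) ?_) (Real.log_le_log (by positivity) ?_)
    · exact_mod_cast le_max_left _ _
    · exact_mod_cast le_max_right _ _
  · intro k _
    have hn : 0 < (r k).num.natAbs := Int.natAbs_pos.2 (Rat.num_ne_zero.2 (hr k))
    have hd : 0 < (r k).den := (r k).den_pos
    positivity

end Pool.Agent.Lib.MP_17a322_nt.AP
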