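import Pool.Agent.Lib.MP_17a322_nt.AP.R1
import Pool.Agent.Lib.MP_17a322_nt.FQ.A1

/-!
Simultaneous factorisation in the field of the classes of the rational sequences.
-/

set_option linter.unusedSectionVars false

namespace Pool.Agent.Lib.MP_17a322_nt.AP

open Height NumberField
open Pool.Agent.Lib.MP_17a322_nt.FQ

/-- The evaluation of an integral power. -/
theorem ev_zpow {R : Type} [Field R] [Algebra ℚ R] {I : Type} (X : Evl ℚ R I) (x : R) (n : ℤ) :
    ∀ᶠ i in (X.U : Filter I), X.ev (x ^ n) i = X.ev x i ^ n := by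
  rcases n with n | n
  · simp only [Int.ofNat_eq_natCast, zpow_natCast]
    exact ev_pow X x n
  · simp only [zpow_negSucc]
    filter_upwards [ev_inv X (x ^ (n + 1)), ev_pow X x (n + 1)] with i h1 h2
    rw [h1, h2]

/-- The sign is eventually constant. -/
theorem ev_sign {R : Type} [Field R] [Algebra ℚ R] {I : Type} (X : Evl ℚ R I) (x : R) :
    ∃ ε : ℚ, ε ≠ 0 ∧ ∀ᶠ i in (X.U : Filter I), X.ev x i = ε * |X.ev x i| := by
  by_cases h : ∀ᶠ i in (X.U : Filter I), 0 ≤ X.ev x i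
  · refine ⟨1, one_ne_zero, ?_⟩
    filter_upwards [h] with i hi
    rw [one_mul, abs_of_nonneg hi]
  · rw [← Ultrafilter.eventually_not] at h
    refine ⟨-1, by norm_num, ?_⟩
    filter_upwards [h] with i hi
    rw [abs_of_neg (not_le.1 hi)]
    ring

/-- Simultaneous factorisation: `b k = ± ∏ e, γ e ^ nn k e * x k ^ m`; the values of the `γ e`
are squarefree and pairwise coprime positive integers, the heights of the `x k` are small. -/
theorem factor_main {R : Type} [Field R] [Algebra ℚ R] (Y : Evl ℚ R ℕ) {σ : Type} [Fintype σ] (b : σ → R)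
    (hb : ∀ k, b k ≠ 0) (m : ℕ) (hm : 0 < m) :
    ∃ (N : Type) (_ : Fintype N) (_ : DecidableEq N) (γ : N → R) (x : σ → R) (nn : σ → N → ℤ) (ε : σ → ℚ)
      (c : ℕ → N → ℕ), (∀ k, ε k ≠ 0) ∧
      (∀ k, b k = algebraMap ℚ R (ε k) * (∏ e, γ e ^ nn k e) * x k ^ m) ∧ (∀ e, γ e ≠ 0) ∧ (∀ k, x k ≠ 0) ∧
      (∀ᶠ i in (Y.U : Filter ℕ), (∀ e, Y.ev (γ e) i = (c i e : ℚ)) ∧ Squarefree (∏ e, c i e)) ∧
      ∀ᶠ i in (Y.U : Filter ℕ), ∀ k, Y.ev (x k) i ≠ 0 ∧
        logHeight₁ (Y.ev (x k) i) ≤ logHeight₁ (Y.ev (b k) i) / m := by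
  classical
  have hb' : ∀ᶠ i in (Y.U : Filter ℕ), ∀ k, Y.ev (b k) i ≠ 0 := Filter.eventually_all.2 fun k => ev_ne Y (hb k)
  -- the heights
  have hH : ∃ C : ℝ, 0 ≤ C ∧ ∀ᶠ i in (Y.U : Filter ℕ), ∑ k, logHeight₁ (Y.ev (b k) i) ≤ C * Y.h i := by
    choose C hC using fun k => Y.bdd (b k)
    refine ⟨∑ k, |C k|, Finset.sum_nonneg fun k _ => abs_nonneg _, ?_⟩
    filter_upwards [Filter.eventually_all.2 hC, Y.top.eventually_ge_atTop 0] with i h1 h2
    rw [Finset.sum_mul]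
    exact Finset.sum_le_sum fun k _ => (h1 k).trans (mul_le_mul_of_nonneg_right (le_abs_self _) h2)
  obtain ⟨C, hC0, hC⟩ := hH
  -- the squarefree factors
  have hγ : ∀ e : σ → Fin (2 * m), ∃ z : R,
      ∀ᶠ i in (Y.U : Filter ℕ), Y.ev z i = (cc m hm (fun k => Y.ev (b k) i) e : ℚ) := by
    intro e
    refine Y.surj (fun i => ((cc m hm (fun k => Y.ev (b k) i) e : ℕ) : ℚ)) ⟨2 * C, ?_⟩
    filter_upwards [hb', hC] with i h1 h2
    refine (cc_height m hm h1 e).trans ?_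
    linarith
  choose γ hγ using hγ
  have hx : ∀ k : σ, ∃ z : R, ∀ᶠ i in (Y.U : Filter ℕ), Y.ev z i = xx m (fun k => Y.ev (b k) i) k := by
    intro k
    refine Y.surj (fun i => xx m (fun k => Y.ev (b k) i) k) ⟨C, ?_⟩
    filter_upwards [hb', hC] with i h1 h2
    have h3 := xx_height m hm h1 k
    have h4 : logHeight₁ (Y.ev (b k) i) / m ≤ logHeight₁ (Y.ev (b k) i) :=
      div_le_self (zero_le_logHeight₁ _) (by exact_mod_cast hm)
    have h5 : logHeight₁ (Y.ev (b k) i) ≤ ∑ k, logHeight₁ (Y.ev (b k) i) :=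
      Finset.single_le_sum (f := fun k => logHeight₁ (Y.ev (b k) i)) (fun k _ => zero_le_logHeight₁ _)
        (Finset.mem_univ k)
    linarith
  choose x hx using hx
  choose ε hε0 hε using fun k => ev_sign Y (b k)
  have hγ0 : ∀ e, γ e ≠ 0 := by
    intro e he
    obtain ⟨i, h1, h2⟩ := ((hγ e).and (ev_zero Y)).exists
    rw [he, h2] at h1
    exact cc_ne m hm _ e (by exact_mod_cast h1.symm)
  have hx0 : ∀ k, x k ≠ 0 := by
    intro k hk
    obtain ⟨i, h1, h2⟩ := ((hx k).and (ev_zero Y)).exists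
    rw [hk, h2] at h1
    exact xx_ne m _ k h1.symm
  refine ⟨σ → Fin (2 * m), inferInstance, inferInstance, γ, x, fun k e => nnE m k e, ε,
    fun i e => cc m hm (fun k => Y.ev (b k) i) e, hε0, fun k => ?_, hγ0, hx0, ?_, ?_⟩
  · refine (ev_eq Y).1 ?_
    filter_upwards [hb', Filter.eventually_all.2 hγ, hx k, hε k,
      Y.mul (algebraMap ℚ R (ε k) * ∏ e, γ e ^ nnE m k e) (x k ^ m),
      Y.mul (algebraMap ℚ R (ε k)) (∏ e, γ e ^ nnE m k e), Y.alg (ε k), ev_pow Y (x k) m,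
      ev_prod Y Finset.univ (fun e => γ e ^ nnE m k e),
      Filter.eventually_all.2 fun e => ev_zpow Y (γ e) (nnE m k e)] with i h1 h2 h3 h4 h5 h6 h7 h8 h9 h10
    rw [h5, h6, h7, h8, h9, h3, Finset.prod_congr rfl fun e _ => h10 e,
      Finset.prod_congr rfl fun e _ => congrArg (· ^ nnE m k e) (h2 e)]
    rw [h4, mul_assoc]
    congr 1
    exact abs_eq m hm h1 k
  · filter_upwards [Filter.eventually_all.2 hγ] with i h1
    exact ⟨h1, cc_squarefree m hm _⟩
  · filter_upwards [hb', Filter.eventually_all.2 hx] with i h1 h2 k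
    rw [h2 k]
    exact ⟨xx_ne m _ k, xx_height m hm h1 k⟩

end Pool.Agent.Lib.MP_17a322_nt.AP
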