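import Mathlib

namespace Pool.Agent.Lib.MP_17a322_nt.AP

open Module

theorem T1_lin {F E : Type*} [Field F] [Field E] [Algebra F E] {G α : Type*} [Fintype G]
    [Fintype α] (w : G → α → F) (r : α → F) (o : G → E)
    (hr : ∀ l, algebraMap F E (r l) = ∑ g, o g * algebraMap F E (w g l)) (φ : (α → F) →ₗ[F] F) :
    algebraMap F E (φ r) = ∑ g, o g * algebraMap F E (φ (w g)) := by
  classical
  have h : ∀ x : α → F, φ x = ∑ l, x l * φ (fun j => if l = j then 1 else 0) := by
    intro x
    rw [LinearMap.pi_apply_eq_sum_univ φ x]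
    rfl
  rw [h r, map_sum]
  simp only [map_mul, hr]
  have h2 : ∀ g, o g * algebraMap F E (φ (w g)) =
      ∑ l, o g * algebraMap F E (w g l) * algebraMap F E (φ (fun j => if l = j then 1 else 0)) := by
    intro g
    rw [h (w g), map_sum, Finset.mul_sum]
    refine Finset.sum_congr rfl fun l _ => ?_
    rw [map_mul, mul_assoc]
  simp only [h2]
  rw [Finset.sum_comm]
  refine Finset.sum_congr rfl fun l _ => ?_
  rw [Finset.sum_mul]

theorem T1_lt {F : Type*} [Field F] (A : ValuationSubring F) (f : F) :
    A.valuation f < 1 ↔ f = 0 ∨ (f ≠ 0 ∧ f⁻¹ ∉ A) := by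
  by_cases h : f = 0
  · rw [h, map_zero]
    simp
  · have h1 : f⁻¹ ∉ A ↔ 1 < A.valuation f⁻¹ := by
      rw [← ValuationSubring.valuation_le_one_iff, not_le]
    have h2 : A.valuation f ≠ 0 := (Valuation.ne_zero_iff _).2 h
    rw [h1, map_inv₀, one_lt_inv₀ (zero_lt_iff.2 h2)]
    simp [h]

theorem T1_tr {F E : Type*} [Field F] [Field E] [Algebra F E] (A : ValuationSubring F) (O : ValuationSubring E)
    (hO : ∀ f : F, algebraMap F E f ∈ O ↔ f ∈ A) (f : F) :
    O.valuation (algebraMap F E f) < 1 ↔ A.valuation f < 1 := by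
  rw [T1_lt, T1_lt, ← map_inv₀, hO, map_eq_zero, Ne, map_eq_zero]

/-- A linear system over `F` which has a solution in the valuation ring `O` of an extension field has a
solution in `A = O ∩ F`, with the same conditions `< 1`. -/
theorem descend_coeff {F E : Type*} [Field F] [Field E] [Algebra F E] {G α : Type*} [Fintype G]
    [Fintype α] (A : ValuationSubring F) (O : ValuationSubring E)
    (hO : ∀ f : F, algebraMap F E f ∈ O ↔ f ∈ A) (w : G → α → F) (P : G → Prop) (r : α → F) (o : G → E)
    (ho : ∀ g, o g ∈ O ∧ (O.valuation (o g) < 1 ∨ P g))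
    (hr : ∀ l, algebraMap F E (r l) = ∑ g, o g * algebraMap F E (w g l)) :
    ∃ a : G → F, (∀ g, a g ∈ A ∧ (A.valuation (a g) < 1 ∨ P g)) ∧ ∀ l, r l = ∑ g, a g * w g l := by
  classical
  obtain ⟨S, hS⟩ : ∃ S : Submodule F (α → F), S = Submodule.span F (Set.range w) := ⟨_, rfl⟩
  have hwS : ∀ g, w g ∈ S := fun g => by
    rw [hS]
    exact Submodule.subset_span ⟨g, rfl⟩
  let vS : G → S := fun g => ⟨w g, hwS g⟩
  obtain ⟨B⟩ : Nonempty (Basis (Fin (finrank F S)) F S) := ⟨Module.finBasis F S⟩
  -- a basis among the vectors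
  obtain ⟨J0, hJ0⟩ : ∃ J : Fin (finrank F S) → G, B.det (fun k => vS (J k)) ≠ 0 := by
    have h1 := Submodule.exists_fun_fin_finrank_span_eq (K := F) (Set.range w)
    rw [← hS] at h1
    obtain ⟨f, hf1, hf2, hf3⟩ := h1
    choose J hJ using hf1
    refine ⟨J, ?_⟩
    have h2 : LinearIndependent F (fun k => vS (J k)) := by
      refine LinearIndependent.of_comp S.subtype ?_
      have h3 : (S.subtype ∘ fun k => vS (J k)) = f := by
        funext k
        exact hJ k
      rw [h3]
      exact hf3
    have h4 : Submodule.span F (Set.range fun k => vS (J k)) = ⊤ :=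
      h2.span_eq_top_of_card_eq_finrank' (by rw [Fintype.card_fin])
    exact (Basis.is_basis_iff_det B).1 ⟨h2, h4⟩ |>.ne_zero
  -- the best basis
  let n : (Fin (finrank F S) → G) → ℕ := fun J => (Finset.univ.filter fun k => P (J k)).card
  obtain ⟨J, -, hJ⟩ := Finset.exists_max_image (Finset.univ : Finset (Fin (finrank F S) → G))
    (fun J => (toLex (A.valuation (B.det (fun k => vS (J k))), n J) : A.ValueGroup ×ₗ ℕ)) ⟨J0, Finset.mem_univ _⟩
  have hmax : ∀ J', A.valuation (B.det (fun k => vS (J' k))) < A.valuation (B.det (fun k => vS (J k))) ∨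
      (A.valuation (B.det (fun k => vS (J' k))) = A.valuation (B.det (fun k => vS (J k))) ∧ n J' ≤ n J) := by
    intro J'
    exact (Prod.Lex.toLex_le_toLex).1 (hJ J' (Finset.mem_univ _))
  have hdJ : B.det (fun k => vS (J k)) ≠ 0 := by
    intro h0
    rcases hmax J0 with h1 | h1
    · rw [h0, map_zero] at h1
      exact absurd h1 not_lt_zero
    · rw [h0, map_zero, map_eq_zero] at h1
      exact hJ0 h1.1
  obtain ⟨hli, hsp⟩ := (Basis.is_basis_iff_det B).2 (IsUnit.mk0 _ hdJ)
  obtain ⟨bJ, hbJ⟩ : ∃ bJ : Basis (Fin (finrank F S)) F S, bJ = Basis.mk hli hsp.ge := ⟨_, rfl⟩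
  have hbJk : ∀ k, bJ k = vS (J k) := fun k => by
    rw [hbJ, Basis.mk_apply]
  -- Cramer
  have hcr : ∀ k h, B.det (fun j => vS (Function.update J k h j)) =
      B.det (fun k => vS (J k)) * bJ.coord k (vS h) := by
    intro k h
    have h1 := congrArg (fun f => f (vS h)) (Basis.det_smul_mk_coord_eq_det_update (e := B) hli hsp.ge k)
    have h2 : (fun j => vS (Function.update J k h j)) = Function.update (fun k => vS (J k)) k (vS h) := by
      funext j
      by_cases hj : j = k
      · subst hj
        rw [Function.update_self, Function.update_self]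
      · rw [Function.update_of_ne hj, Function.update_of_ne hj]
    rw [h2, hbJ]
    exact h1.symm
  -- the coefficients
  have hl1 : ∀ k h, A.valuation (bJ.coord k (vS h)) ≤ 1 := by
    intro k h
    have hv : A.valuation (B.det (fun k => vS (J k))) ≠ 0 := (Valuation.ne_zero_iff _).2 hdJ
    have h1 : A.valuation (B.det (fun k => vS (J k))) * A.valuation (bJ.coord k (vS h)) ≤
        A.valuation (B.det (fun k => vS (J k))) * 1 := by
      rw [← map_mul, ← hcr, mul_one]
      rcases hmax (Function.update J k h) with h2 | h2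
      · exact h2.le
      · exact h2.1.le
    exact le_of_mul_le_mul_left h1 (zero_lt_iff.2 hv)
  have hl2 : ∀ k h, P h → ¬ P (J k) → A.valuation (bJ.coord k (vS h)) < 1 := by
    intro k h hP hnP
    refine lt_of_le_of_ne (hl1 k h) fun heq => ?_
    have h1 : A.valuation (B.det (fun j => vS (Function.update J k h j))) = A.valuation (B.det (fun k => vS (J k))) := by
      rw [hcr, map_mul, heq, mul_one]
    have h2 : n (Function.update J k h) ≤ n J := by
      rcases hmax (Function.update J k h) with h3 | h3
      · exact absurd h1 h3.ne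
      · exact h3.2
    have h3 : (Finset.univ.filter fun j => P (Function.update J k h j)) =
        insert k (Finset.univ.filter fun j => P (J j)) := by
      ext j
      rw [Finset.mem_filter, Finset.mem_insert, Finset.mem_filter]
      by_cases hj : j = k
      · subst hj
        rw [Function.update_self]
        simp [hP]
      · rw [Function.update_of_ne hj]
        simp [hj]
    have h4 : n (Function.update J k h) = n J + 1 := by
      show (Finset.univ.filter fun j => P (Function.update J k h j)).card = _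
      rw [h3, Finset.card_insert_of_notMem]
      rw [Finset.mem_filter]
      exact fun h5 => hnP h5.2
    omega
  -- r is in the span
  have hrS : r ∈ S := by
    by_contra hn
    obtain ⟨φ, hφ1, hφ2⟩ := Submodule.exists_le_ker_of_notMem hn
    have h1 := T1_lin w r o hr φ
    have h2 : ∀ g, φ (w g) = 0 := fun g => hφ2 (hwS g)
    simp only [h2, map_zero, mul_zero, Finset.sum_const_zero] at h1
    exact hφ1 ((map_eq_zero _).1 h1)
  let rS : S := ⟨r, hrS⟩
  let t : Fin (finrank F S) → F := fun k => bJ.coord k rS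
  have ht : ∀ k, algebraMap F E (t k) = ∑ g, o g * algebraMap F E (bJ.coord k (vS g)) := by
    intro k
    obtain ⟨φ, hφ⟩ := LinearMap.exists_extend (bJ.coord k)
    have h1 : ∀ x : S, φ (x : α → F) = bJ.coord k x := fun x => by
      rw [← hφ]
      rfl
    have h2 := T1_lin w r o hr φ
    have h3 : φ r = t k := h1 rS
    rw [h3] at h2
    rw [h2]
    refine Finset.sum_congr rfl fun g _ => ?_
    have h4 : φ (w g) = bJ.coord k (vS g) := h1 (vS g)
    rw [h4]
  have hlO : ∀ k g, algebraMap F E (bJ.coord k (vS g)) ∈ O := fun k g =>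
    (hO _).2 ((A.valuation_le_one_iff _).1 (hl1 k g))
  have htA : ∀ k, t k ∈ A := by
    intro k
    rw [← hO, ht]
    exact sum_mem fun g _ => O.mul_mem _ _ (ho g).1 (hlO k g)
  have htP : ∀ k, ¬ P (J k) → A.valuation (t k) < 1 := by
    intro k hk
    rw [← T1_tr A O hO, ht]
    refine Valuation.map_sum_lt _ one_ne_zero fun g _ => ?_
    rw [map_mul]
    rcases (ho g).2 with h1 | h1
    · exact mul_lt_one_of_nonneg_of_lt_one_left zero_le h1 ((O.valuation_le_one_iff _).2 (hlO k g))
    · exact mul_lt_one_of_nonneg_of_lt_one_right ((O.valuation_le_one_iff _).2 (ho g).1) zero_le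
        ((T1_tr A O hO _).2 (hl2 k g h1 hk))
  refine ⟨fun g => ∑ k ∈ Finset.univ.filter (fun k => J k = g), t k, fun g => ⟨sum_mem fun k _ => htA k, ?_⟩, fun l => ?_⟩
  · by_cases hg : P g
    · exact Or.inr hg
    · refine Or.inl (Valuation.map_sum_lt _ one_ne_zero fun k hk => htP k ?_)
      rw [(Finset.mem_filter.1 hk).2]
      exact hg
  · have h1 : rS = ∑ k, t k • bJ k := by
      rw [← Basis.sum_repr bJ rS]
      rfl
    have h2 : r l = ∑ k, t k * w (J k) l := by
      have h3 := congrArg (fun x : S => (x : α → F) l) h1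
      have h4 : ((∑ k, t k • bJ k : S) : α → F) l = ∑ k, t k * w (J k) l := by
        rw [Submodule.coe_sum, Finset.sum_apply]
        refine Finset.sum_congr rfl fun k _ => ?_
        rw [Submodule.coe_smul, Pi.smul_apply, hbJk, smul_eq_mul]
      exact h3.trans h4
    rw [h2, ← Finset.sum_fiberwise (Finset.univ) J]
    refine Finset.sum_congr rfl fun g _ => ?_
    rw [Finset.sum_mul]
    refine Finset.sum_congr rfl fun k hk => ?_
    rw [(Finset.mem_filter.1 hk).2]

end Pool.Agent.Lib.MP_17a322_nt.AP
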