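import Pool.Agent.Lib.MP_17a322_nt.AP.T1
import Pool.Agent.Lib.MP_17a322_nt.ABN.N2b

namespace Pool.Agent.Lib.MP_17a322_nt.AP

open Pool.Agent.Lib.MP_17a322_nt.JAC
open Pool.Agent.Lib.MP_17a322_nt.ABN

/-- The vectors `a * dlog b`, with the condition that `a` is in the maximal ideal or `Q b` holds. -/
def T2_set {F K α : Type*} [Field F] [Field K] [Algebra F K] (δ : α → F → F) (F₀ : Subfield F)
    (O : ValuationSubring K) (Q : F → Prop) : Set (α → K) :=
  {v | ∃ (a : K) (b : F), b ∈ F₀ ∧ b ≠ 0 ∧ a ∈ O ∧ (O.valuation a < 1 ∨ Q b) ∧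
    v = fun l => a * algebraMap F K (δ l b / b)}

theorem T2_fin {F K α : Type*} [Field F] [Field K] [Algebra F K] (δ : α → F → F) (F₀ : Subfield F)
    (O : ValuationSubring K) (Q : F → Prop) (v : α → K) (hv : v ∈ spn O (T2_set δ F₀ O Q)) :
    ∃ (G : Finset F) (c : F → K), (∀ b ∈ G, (b ∈ F₀ ∧ b ≠ 0) ∧ c b ∈ O ∧
      (O.valuation (c b) < 1 ∨ Q b)) ∧ ∀ l, v l = ∑ b ∈ G, c b * algebraMap F K (δ l b / b) := by
  classical
  unfold spn at hv
  induction hv using AddSubgroup.closure_induction with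
  | mem v hv =>
    obtain ⟨a, ha, w, ⟨a', b, hb, hb0, ha', hor, rfl⟩, rfl⟩ := hv
    refine ⟨{b}, fun _ => a * a', fun x hx => ?_, fun l => ?_⟩
    · rw [Finset.mem_singleton] at hx
      subst hx
      refine ⟨⟨hb, hb0⟩, mul_mem ha ha', ?_⟩
      rcases hor with h | h
      · left
        rw [map_mul]
        exact mul_lt_one_of_nonneg_of_lt_one_right
          ((ValuationSubring.valuation_le_one_iff _ _).mpr ha) zero_le h
      · exact Or.inr h
    · rw [Finset.sum_singleton, Pi.smul_apply, smul_eq_mul, mul_assoc]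
  | zero => exact ⟨∅, fun _ => 0, by simp, by simp⟩
  | add v w _ _ hv hw =>
    obtain ⟨G₁, c₁, h₁, e₁⟩ := hv
    obtain ⟨G₂, c₂, h₂, e₂⟩ := hw
    refine ⟨G₁ ∪ G₂, fun b => (if b ∈ G₁ then c₁ b else 0) + if b ∈ G₂ then c₂ b else 0,
      fun b hb => ?_, fun l => ?_⟩
    · have k₁ : (if b ∈ G₁ then c₁ b else 0) ∈ O ∧
          (O.valuation (if b ∈ G₁ then c₁ b else 0) < 1 ∨ Q b) := by
        by_cases h : b ∈ G₁
        · rw [if_pos h]; exact (h₁ b h).2
        · rw [if_neg h, map_zero]; exact ⟨O.zero_mem, Or.inl zero_lt_one⟩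
      have k₂ : (if b ∈ G₂ then c₂ b else 0) ∈ O ∧
          (O.valuation (if b ∈ G₂ then c₂ b else 0) < 1 ∨ Q b) := by
        by_cases h : b ∈ G₂
        · rw [if_pos h]; exact (h₂ b h).2
        · rw [if_neg h, map_zero]; exact ⟨O.zero_mem, Or.inl zero_lt_one⟩
      refine ⟨?_, add_mem k₁.1 k₂.1, ?_⟩
      · rcases Finset.mem_union.mp hb with h | h
        · exact (h₁ b h).1
        · exact (h₂ b h).1
      · by_cases hQ : Q b
        · exact Or.inr hQ
        · exact Or.inl (Valuation.map_add_lt _ (k₁.2.resolve_right hQ) (k₂.2.resolve_right hQ))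
    · rw [Pi.add_apply, e₁ l, e₂ l]
      simp only [add_mul, Finset.sum_add_distrib, ite_mul, zero_mul]
      congr 1
      · rw [← Finset.sum_filter]
        refine Finset.sum_congr ?_ fun _ _ => rfl
        ext b
        simp only [Finset.mem_filter, Finset.mem_union]
        tauto
      · rw [← Finset.sum_filter]
        refine Finset.sum_congr ?_ fun _ _ => rfl
        ext b
        simp only [Finset.mem_filter, Finset.mem_union]
        tauto
  | neg v _ hv =>
    obtain ⟨G, c, h, e⟩ := hv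
    refine ⟨G, fun b => - c b, fun b hb => ?_, fun l => ?_⟩
    · obtain ⟨h1, h2, h3⟩ := h b hb
      refine ⟨h1, neg_mem h2, ?_⟩
      rw [Valuation.map_neg]
      exact h3
    · rw [Pi.neg_apply, e l, ← Finset.sum_neg_distrib]
      exact Finset.sum_congr rfl fun b _ => by ring

theorem T2_desc {F K α : Type*} [Field F] [Field K] [Algebra F K] [Fintype α] (δ : α → F → F)
    (F₀ : Subfield F) (A : ValuationSubring F) (O : ValuationSubring K)
    (hO : ∀ f : F, algebraMap F K f ∈ O ↔ f ∈ A) (Q : F → Prop) (r : α → F)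
    (hr : (fun l => algebraMap F K (r l)) ∈ spn O (T2_set δ F₀ O Q)) :
    ∃ (G : Finset F) (a : F → F), (∀ b ∈ G, (b ∈ F₀ ∧ b ≠ 0) ∧ a b ∈ A ∧
      (A.valuation (a b) < 1 ∨ Q b)) ∧ ∀ l, r l = ∑ b ∈ G, a b * (δ l b / b) := by
  classical
  obtain ⟨G, c, h, e⟩ := T2_fin δ F₀ O Q _ hr
  obtain ⟨a, ha, hal⟩ := descend_coeff (G := G) A O hO (fun b l => δ l b / b) (fun b => Q b) r
    (fun b => c b) (fun b => (h b b.2).2) (fun l => by
      rw [Finset.sum_coe_sort G (fun b => c b * algebraMap F K (δ l b / b))]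
      exact e l)
  refine ⟨G, fun b => if hb : b ∈ G then a ⟨b, hb⟩ else 0, fun b hb => ?_, fun l => ?_⟩
  · simp only [hb, dif_pos]
    exact ⟨(h b hb).1, ha ⟨b, hb⟩⟩
  · rw [hal l, ← Finset.sum_coe_sort G]
    refine Finset.sum_congr rfl fun b _ => ?_
    simp only [Finset.coe_mem, dif_pos, Subtype.coe_eta]

/-- Tame extensions, at one valuation ring. -/
theorem tame_one {F : Type} [Field F] [Algebra ℚ F] (E : Subfield F) [FiniteDimensional E F]
    {α : Type} [Fintype α] [DecidableEq α] (δ : α → Derivation ℚ F F) (A : ValuationSubring F)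
    (hA : ∀ c : ℚ, algebraMap ℚ F c ∈ A) (y : F) :
    (y ∈ A → ∃ (G : Finset F) (a : F → F), (∀ b ∈ G, (b ∈ E ∧ b ≠ 0) ∧ a b ∈ A ∧
      (A.valuation (a b) < 1 ∨ Un A b)) ∧ ∀ l, δ l y = ∑ b ∈ G, a b * (δ l b / b)) ∧
    (y ≠ 0 → ∃ (G : Finset F) (a : F → F), (∀ b ∈ G, (b ∈ E ∧ b ≠ 0) ∧ a b ∈ A) ∧
      ∀ l, δ l y / y = ∑ b ∈ G, a b * (δ l b / b)) := by
  obtain ⟨K, _, _, O, hO, hs, hp⟩ := LE δ E A hA
  constructor
  · intro hy
    have h := hs y hy
    unfold Rs at h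
    refine T2_desc (fun l => δ l) E A O hO (fun b => Un A b) (fun l => δ l y) (spn_mono O ?_ h)
    rintro v ⟨a, b, hb, hb0, ha, hor, rfl⟩
    refine mem_spn O _ ⟨a, b, hb, hb0, ha, ?_, rfl⟩
    rcases hor with h1 | h1
    · exact Or.inl h1
    · right
      refine ⟨(hO _).mp h1.1, (hO _).mp ?_⟩
      rw [map_inv₀]
      exact h1.2
  · intro hy
    have h := hp y hy
    unfold Rp at h
    obtain ⟨G, a, ha, hal⟩ := T2_desc (fun l => δ l) E A O hO (fun _ => True)
      (fun l => δ l y / y) (spn_mono O (by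
        rintro v ⟨b, hb, hb0, rfl⟩
        exact mem_spn O _ ⟨1, b, hb, hb0, O.one_mem, Or.inr trivial, by simp⟩) h)
    exact ⟨G, a, fun b hb => ⟨(ha b hb).1, (ha b hb).2.1⟩, hal⟩

end Pool.Agent.Lib.MP_17a322_nt.AP
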