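import Pool.Agent.Lib.MP_17a322_nt.AP.T2
import Pool.Agent.Lib.MP_17a322_nt.ABN.N1
import Pool.Agent.Lib.MP_17a322_nt.FQ.V2

namespace Pool.Agent.Lib.MP_17a322_nt.AP

open Pool.Agent.Lib.MP_17a322_nt.ABN

private theorem T3_lt {F : Type} [Field F] {A A' : ValuationSubring F} {x : F}
    (h : x⁻¹ ∈ A ↔ x⁻¹ ∈ A') (hx : A.valuation x < 1) : A'.valuation x < 1 := by
  by_cases h0 : x = 0
  · rw [h0, map_zero]
    exact zero_lt_one
  · by_contra hcon
    have h1 : 1 ≤ A'.valuation x := not_lt.1 hcon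
    have h2 : x⁻¹ ∈ A' := by
      rw [← A'.valuation_le_one_iff, map_inv₀]
      exact inv_le_one_of_one_le₀ h1
    have h3 := (A.valuation_le_one_iff x⁻¹).2 (h.2 h2)
    rw [map_inv₀] at h3
    have h4 : A.valuation x ≠ 0 := (map_ne_zero _).2 h0
    exact absurd ((inv_le_one₀ (zero_lt_iff.2 h4)).1 h3) (not_le.2 hx)

private theorem T3_un {F : Type} [Field F] {A A' : ValuationSubring F} {x : F}
    (h : x ∈ A ↔ x ∈ A') (h' : x⁻¹ ∈ A ↔ x⁻¹ ∈ A') (hx : Un A x) : Un A' x :=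
  ⟨h.1 hx.1, h'.1 hx.2⟩

private theorem T3_one {F : Type} [Field F] [Algebra ℚ F] (E : Subfield F) [FiniteDimensional E F]
    {α : Type} [Fintype α] [DecidableEq α] (δ : α → Derivation ℚ F F) (y : F) (hy : y ≠ 0) :
    ∃ T : Finset F, (∀ b ∈ T, b ∈ E ∧ b ≠ 0) ∧
      ∀ A : ValuationSubring F, (∀ c : ℚ, algebraMap ℚ F c ∈ A) →
        (y ∈ A → ∃ a : F → F, (∀ b, b ∉ T → a b = 0) ∧
          (∀ b, a b ∈ A ∧ (A.valuation (a b) < 1 ∨ Un A b)) ∧
          ∀ l, δ l y = ∑ b ∈ T, a b * (δ l b / b)) ∧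
        ∃ a : F → F, (∀ b, b ∉ T → a b = 0) ∧ (∀ b, a b ∈ A) ∧
          ∀ l, δ l y / y = ∑ b ∈ T, a b * (δ l b / b) := by
  classical
  let P : (Finset F × (F → F)) × (Finset F × (F → F)) → ValuationSubring F → Prop := fun i A =>
    (y ∈ A → (∀ b ∈ i.1.1, (b ∈ E ∧ b ≠ 0) ∧ i.1.2 b ∈ A ∧ (A.valuation (i.1.2 b) < 1 ∨ Un A b)) ∧
      ∀ l, δ l y = ∑ b ∈ i.1.1, i.1.2 b * (δ l b / b)) ∧
    ((∀ b ∈ i.2.1, (b ∈ E ∧ b ≠ 0) ∧ i.2.2 b ∈ A) ∧
      ∀ l, δ l y / y = ∑ b ∈ i.2.1, i.2.2 b * (δ l b / b))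
  let W : (Finset F × (F → F)) × (Finset F × (F → F)) → Finset F := fun i =>
    insert y (((i.1.1.image i.1.2 ∪ i.1.1.image fun b => (i.1.2 b)⁻¹) ∪
      (i.1.1 ∪ i.1.1.image fun b => b⁻¹)) ∪ i.2.1.image i.2.2)
  obtain ⟨s, hs⟩ := compact2 (k := ℚ) (F := F) P (fun i => (W i : Set F))
    (fun i => (W i).finite_toSet) (fun i A A' hAA hP => by
      have hy' : y ∈ A ↔ y ∈ A' := hAA y (Finset.mem_coe.2 (Finset.mem_insert_self _ _))
      have m1 : ∀ b ∈ i.1.1, (i.1.2 b ∈ A ↔ i.1.2 b ∈ A') := fun b hb =>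
        hAA _ (Finset.mem_coe.2 (Finset.mem_insert_of_mem (Finset.mem_union_left _
          (Finset.mem_union_left _ (Finset.mem_union_left _ (Finset.mem_image_of_mem _ hb))))))
      have m2 : ∀ b ∈ i.1.1, ((i.1.2 b)⁻¹ ∈ A ↔ (i.1.2 b)⁻¹ ∈ A') := fun b hb =>
        hAA _ (Finset.mem_coe.2 (Finset.mem_insert_of_mem (Finset.mem_union_left _
          (Finset.mem_union_left _ (Finset.mem_union_right _
            (Finset.mem_image_of_mem (fun b => (i.1.2 b)⁻¹) hb))))))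
      have m3 : ∀ b ∈ i.1.1, (b ∈ A ↔ b ∈ A') := fun b hb =>
        hAA _ (Finset.mem_coe.2 (Finset.mem_insert_of_mem (Finset.mem_union_left _
          (Finset.mem_union_right _ (Finset.mem_union_left _ hb)))))
      have m4 : ∀ b ∈ i.1.1, (b⁻¹ ∈ A ↔ b⁻¹ ∈ A') := fun b hb =>
        hAA _ (Finset.mem_coe.2 (Finset.mem_insert_of_mem (Finset.mem_union_left _
          (Finset.mem_union_right _ (Finset.mem_union_right _
            (Finset.mem_image_of_mem (fun b => b⁻¹) hb))))))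
      have m5 : ∀ b ∈ i.2.1, (i.2.2 b ∈ A ↔ i.2.2 b ∈ A') := fun b hb =>
        hAA _ (Finset.mem_coe.2 (Finset.mem_insert_of_mem (Finset.mem_union_right _
          (Finset.mem_image_of_mem _ hb))))
      refine ⟨fun hyA => ⟨fun b hb => ?_, (hP.1 (hy'.2 hyA)).2⟩, ⟨fun b hb => ?_, hP.2.2⟩⟩
      · obtain ⟨h1, h2, h3⟩ := (hP.1 (hy'.2 hyA)).1 b hb
        exact ⟨h1, (m1 b hb).1 h2, h3.imp (T3_lt (m2 b hb)) (T3_un (m3 b hb) (m4 b hb))⟩
      · obtain ⟨h1, h2⟩ := hP.2.1 b hb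
        exact ⟨h1, (m5 b hb).1 h2⟩)
    (fun A hA => by
      obtain ⟨h1, h2⟩ := tame_one E δ A hA y
      obtain ⟨G', a', h3, h4⟩ := h2 hy
      by_cases hyA : y ∈ A
      · obtain ⟨G, a, h5, h6⟩ := h1 hyA
        exact ⟨((G, a), (G', a')), fun _ => ⟨h5, h6⟩, h3, h4⟩
      · exact ⟨((∅, fun _ => 0), (G', a')), fun h => absurd h hyA, h3, h4⟩)
  refine ⟨(s.biUnion fun i => i.1.1 ∪ i.2.1).filter fun b => b ∈ E ∧ b ≠ 0,
    fun b hb => (Finset.mem_filter.1 hb).2, fun A hA => ?_⟩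
  obtain ⟨i, his, hP⟩ := hs A hA
  -- sums over the union
  have hsum : ∀ (G : Finset F) (a : F → F) (w : F → F),
      (G ⊆ (s.biUnion fun i => i.1.1 ∪ i.2.1).filter fun b => b ∈ E ∧ b ≠ 0) →
      ∑ b ∈ G, a b * w b =
        ∑ b ∈ (s.biUnion fun i => i.1.1 ∪ i.2.1).filter fun b => b ∈ E ∧ b ≠ 0,
          (if b ∈ G then a b else 0) * w b := by
    intro G a w hG
    rw [← Finset.sum_subset hG]
    · refine Finset.sum_congr rfl fun b hb => ?_
      rw [if_pos hb]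
    · intro b _ hb
      rw [if_neg hb, zero_mul]
  refine ⟨fun hyA => ?_, ?_⟩
  · obtain ⟨h1, h2⟩ := hP.1 hyA
    have hG : i.1.1 ⊆ (s.biUnion fun i => i.1.1 ∪ i.2.1).filter fun b => b ∈ E ∧ b ≠ 0 := by
      intro b hb
      exact Finset.mem_filter.2 ⟨Finset.mem_biUnion.2 ⟨i, his, Finset.mem_union_left _ hb⟩,
        (h1 b hb).1⟩
    refine ⟨fun b => if b ∈ i.1.1 then i.1.2 b else 0, fun b hb => if_neg fun h => hb (hG h),
      fun b => ?_, fun l => ?_⟩
    · by_cases hb : b ∈ i.1.1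
      · simp only [if_pos hb]
        exact (h1 b hb).2
      · simp only [if_neg hb]
        refine ⟨A.zero_mem, Or.inl ?_⟩
        rw [map_zero]
        exact zero_lt_one
    · rw [h2 l, hsum i.1.1 i.1.2 (fun b => δ l b / b) hG]
  · obtain ⟨h1, h2⟩ := hP.2
    have hG : i.2.1 ⊆ (s.biUnion fun i => i.1.1 ∪ i.2.1).filter fun b => b ∈ E ∧ b ≠ 0 := by
      intro b hb
      exact Finset.mem_filter.2 ⟨Finset.mem_biUnion.2 ⟨i, his, Finset.mem_union_right _ hb⟩,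
        (h1 b hb).1⟩
    refine ⟨fun b => if b ∈ i.2.1 then i.2.2 b else 0, fun b hb => if_neg fun h => hb (hG h),
      fun b => ?_, fun l => ?_⟩
    · by_cases hb : b ∈ i.2.1
      · simp only [if_pos hb]
        exact (h1 b hb).2
      · simp only [if_neg hb]
        exact A.zero_mem
    · rw [h2 l, hsum i.2.1 i.2.2 (fun b => δ l b / b) hG]

/-- Tame extensions: a finite set of elements of `E` whose logarithmic differentials are enough
for the elements of `Y`, at all valuation rings. -/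
theorem tame {F : Type} [Field F] [Algebra ℚ F] (hF : (⊤ : IntermediateField ℚ F).FG) (E : Subfield F)
    [FiniteDimensional E F] (Y : Finset F) (hY : ∀ y ∈ Y, y ≠ 0) :
    ∃ (σ : Type) (_ : Fintype σ) (_ : DecidableEq σ) (b : σ → F), (∀ g, b g ∈ E ∧ b g ≠ 0) ∧
      ∀ A : ValuationSubring F, (∀ c : ℚ, algebraMap ℚ F c ∈ A) → ∀ y ∈ Y,
        (y ∈ A → ∃ a : σ → F, (∀ g, a g ∈ A ∧ (A.valuation (a g) < 1 ∨ Un A (b g))) ∧
          ∀ D : Derivation ℚ F F, D y = ∑ g, a g * (D (b g) / b g)) ∧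
        ∃ a : σ → F, (∀ g, a g ∈ A) ∧ ∀ D : Derivation ℚ F F, D y / y = ∑ g, a g * (D (b g) / b g) := by
  classical
  obtain ⟨n, m₁, h1, hm₁⟩ := FQ.exists_gen hF
  have hfd : FiniteDimensional F (Derivation ℚ F F) := FQ.gen_findim m₁ hm₁
  obtain ⟨δ, hδ⟩ : ∃ δ : Fin (Module.finrank F (Derivation ℚ F F)) → Derivation ℚ F F,
      ∀ D : Derivation ℚ F F, ∃ c : Fin (Module.finrank F (Derivation ℚ F F)) → F,
        D = ∑ l, c l • δ l := by
    refine ⟨Module.finBasis F (Derivation ℚ F F), fun D => ⟨fun l =>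
      (Module.finBasis F (Derivation ℚ F F)).repr D l, ?_⟩⟩
    exact ((Module.finBasis F (Derivation ℚ F F)).sum_repr D).symm
  have happ : ∀ (c : Fin (Module.finrank F (Derivation ℚ F F)) → F) (x : F),
      (∑ l, c l • δ l) x = ∑ l, c l * δ l x := by
    intro c x
    have h2 := congrFun (map_sum (Derivation.coeFnAddMonoidHom : Derivation ℚ F F →+ F → F)
      (fun l => c l • δ l) Finset.univ) x
    rw [Finset.sum_apply] at h2
    exact h2
  choose! T hTE hT using fun y (hy : y ∈ Y) => T3_one E δ y (hY y hy)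
  let S : Finset F := Y.biUnion T
  refine ⟨{x // x ∈ S}, inferInstance, inferInstance, Subtype.val, fun g => ?_, fun A hA y hy => ?_⟩
  · obtain ⟨y, hy, hg⟩ := Finset.mem_biUnion.1 g.2
    exact hTE y hy g.1 hg
  · have hsub : T y ⊆ S := Finset.subset_biUnion_of_mem T hy
    have hsum : ∀ (a w : F → F), (∀ b, b ∉ T y → a b = 0) →
        ∑ b ∈ T y, a b * w b = ∑ g : {x // x ∈ S}, a g * w g := by
      intro a w ha
      rw [Finset.sum_coe_sort S (fun b => a b * w b)]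
      exact Finset.sum_subset hsub fun b _ hb => by rw [ha b hb, zero_mul]
    obtain ⟨hT1, a', h5, h6, h7⟩ := hT y hy A hA
    refine ⟨fun hyA => ?_, fun g => a' g, fun g => h6 g, fun D => ?_⟩
    · obtain ⟨a, h2, h3, h4⟩ := hT1 hyA
      refine ⟨fun g => a g, fun g => h3 g, fun D => ?_⟩
      obtain ⟨c, rfl⟩ := hδ D
      rw [happ, ← hsum a (fun b => (∑ l, c l • δ l) b / b) h2]
      rw [Finset.sum_congr rfl fun l _ => by rw [h4 l, Finset.mul_sum], Finset.sum_comm]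
      refine Finset.sum_congr rfl fun b _ => ?_
      rw [happ, Finset.sum_div, Finset.mul_sum]
      exact Finset.sum_congr rfl fun l _ => by ring
    · obtain ⟨c, rfl⟩ := hδ D
      rw [happ, ← hsum a' (fun b => (∑ l, c l • δ l) b / b) h5, Finset.sum_div]
      have h8 : ∀ l, c l * δ l y / y = c l * ∑ b ∈ T y, a' b * (δ l b / b) := fun l => by
        rw [← h7 l, mul_div_assoc]
      rw [Finset.sum_congr rfl fun l _ => h8 l]
      rw [Finset.sum_congr rfl fun l _ => Finset.mul_sum _ _ _, Finset.sum_comm]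
      refine Finset.sum_congr rfl fun b _ => ?_
      rw [happ, Finset.sum_div, Finset.mul_sum]
      exact Finset.sum_congr rfl fun l _ => by ring

end Pool.Agent.Lib.MP_17a322_nt.AP
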