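import Pool.Agent.Lib.MP_17a322_nt.ABN.N9
import Pool.Agent.Lib.MP_17a322_nt.ABN.N10

namespace Pool.Agent.Lib.MP_17a322_nt.AP

open MvPolynomial
open Pool.Agent.Lib.MP_17a322_nt.EQ
open Pool.Agent.Lib.MP_17a322_nt.JAC
open Pool.Agent.Lib.MP_17a322_nt.ABN

/-- The determinants `NZ` and the differentials of the affine coordinates. -/
theorem nz_le {k F : Type} {ι α : Type} [Field k] [Field F] [Algebra k F] [Fintype ι]
    [Fintype α] [DecidableEq α] (δ : α → Derivation k F F) (z : ι → F) (A : ValuationSubring F) (i₁ : ι)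
    (h1 : z i₁ ≠ 0) (hmax : ∀ i, A.valuation (z i) ≤ A.valuation (z i₁)) (s : Option α → ι) :
    ∃ Y : α → ι, A.valuation (NZ (fun l => δ l) z s) ≤
      A.valuation (z i₁ ^ (Fintype.card α + 1) * (Matrix.of fun k l => δ l (z (Y k) / z i₁)).det) := by
  have hy : ∀ a, z a / z i₁ ∈ A := by
    intro a
    rw [← A.valuation_le_one_iff, map_div₀]
    exact div_le_one_of_le₀ (hmax a) zero_le
  obtain ⟨Y, hY⟩ := NZ_le δ A (fun a => z a / z i₁) hy s
  refine ⟨Y, ?_⟩
  rw [NZ_scale δ z i₁ h1 s, map_mul, map_mul]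
  exact mul_le_mul' le_rfl hY

/-- Local equations at one valuation ring. -/
theorem loc_one {K F : Type} {ι β κ α : Type} [Field K] [CharZero K] [Field F] [Algebra K F] [Fintype ι]
    [Fintype β] [DecidableEq β] [Finite κ] [Fintype α] [DecidableEq α]
    (J : Ideal (MvPolynomial ι K)) (hJ : Smooth J (Fintype.card α)) (e : ℕ)
    (f : β → κ → MvPolynomial ι K) (hf : Snc J e f) (δ : α → Derivation K F F)
    (z : ι → F) (hz : ∃ i, z i ≠ 0) (hzJ : ∀ G ∈ J, aeval z G = 0)
    (hf0 : ∀ b, ∃ j, aeval z (f b j) ≠ 0) (A : ValuationSubring F)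
    (hA : ∀ c : K, algebraMap K F c ∈ A) :
    ∃ d : ι × (β → κ) × (α → F × Bool), (∀ k, (d.2.2 k).1 ≠ 0) ∧
      (∀ k, (d.2.2 k).2 = false → (d.2.2 k).1 ∈ A) ∧
      ∀ (s : Option α → ι) (s' : β → ι),
        A.valuation (NZ (fun l => δ l) z s * ∏ b, z (s' b) ^ e) ≤
          A.valuation (z d.1 ^ (Fintype.card α + 1) * (∏ b, aeval z (f b (d.2.1 b))) *
            (Matrix.of fun k l => if (d.2.2 k).2 then δ l (d.2.2 k).1 / (d.2.2 k).1
              else δ l (d.2.2 k).1).det) := by
  classical
  obtain ⟨i', hi'⟩ := hz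
  have : Nonempty ι := ⟨i'⟩
  obtain ⟨i, hi⟩ := Finite.exists_max fun a => A.valuation (z a)
  have hi0 : z i ≠ 0 := by
    intro h
    have h1 := hi i'
    simp only [h, map_zero, le_zero_iff, map_eq_zero] at h1
    exact hi' h1
  set y : ι → F := fun a => z a / z i with hydef
  have hy : ∀ a, y a ∈ A := by
    intro a
    rw [← A.valuation_le_one_iff]
    simp only [hydef, map_div₀]
    exact div_le_one_of_le₀ (hi a) zero_le
  have hy1 : y i = 1 := div_self hi0
  have hyz : y = fun a => (z i)⁻¹ * z a := by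
    funext a
    simp only [hydef, div_eq_inv_mul]
  have hzy : z = fun a => z i * y a := by
    funext a
    simp only [hydef]
    rw [mul_div_cancel₀ _ hi0]
  have hyJ : ∀ G ∈ J, aeval y G = 0 := by
    intro G hG
    rw [← sum_homogeneousComponent G, map_sum]
    refine Finset.sum_eq_zero fun m _ => ?_
    rw [hyz, aeval_mul (homogeneousComponent_isHomogeneous m G), hzJ _ (hJ.homog G hG m), mul_zero]
  obtain ⟨s, B, g, j, hj, hgA, hgj, hB, hsj, hdet⟩ := loc J hJ e f hf δ A hA y hy i hy1 hyJ
  have hfy : ∀ b k, aeval z (f b k) = z i ^ e * aeval y (f b k) := by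
    intro b k
    conv_lhs => rw [hzy]
    exact aeval_mul (hf.homog b k) (z i) y
  have hs0 : ∀ b, aeval y (f b (s b)) ≠ 0 := by
    intro b h0
    obtain ⟨k, hk⟩ := hf0 b
    have h1 := hsj b k
    rw [h0, map_zero, le_zero_iff, map_eq_zero] at h1
    rw [hfy, h1, mul_zero] at hk
    exact hk rfl
  have hgr : ∀ k, k ∈ Set.range j → g k ≠ 0 := by
    rintro k ⟨b, rfl⟩
    rw [hgj b]
    exact hs0 b
  set g' : α → F × Bool := fun k => if k ∈ Set.range j then (g k, true) else
    (if g k = 0 then 1 else g k, false) with hg'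
  set r : α → α → F := fun k l => if k ∈ Set.range j then δ l (g k) / g k else δ l (g k) with hrdef
  have hgr' : (Matrix.of fun k l => if (g' k).2 then δ l (g' k).1 / (g' k).1 else δ l (g' k).1) =
      Matrix.of r := by
    ext k l
    simp only [Matrix.of_apply, hrdef, hg']
    by_cases hk : k ∈ Set.range j
    · simp only [if_pos hk, if_true]
    · simp only [if_neg hk, Bool.false_eq_true, if_false]
      by_cases h0 : g k = 0
      · rw [if_pos h0, h0, map_zero, Derivation.map_one_eq_zero]
      · rw [if_neg h0]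
  refine ⟨(i, s, g'), ?_, ?_, ?_⟩
  · intro k
    simp only [hg']
    by_cases hk : k ∈ Set.range j
    · rw [if_pos hk]
      exact hgr k hk
    · rw [if_neg hk]
      by_cases h0 : g k = 0
      · simp only [if_pos h0]
        exact one_ne_zero
      · simp only [if_neg h0]
        exact h0
  · intro k hk2
    simp only [hg'] at hk2 ⊢
    by_cases hk : k ∈ Set.range j
    · rw [if_pos hk] at hk2
      exact absurd hk2 (by simp)
    · rw [if_neg hk]
      by_cases h0 : g k = 0
      · simp only [if_pos h0]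
        exact A.one_mem
      · simp only [if_neg h0]
        exact hgA k
  intro s' t
  show A.valuation (NZ (fun l => δ l) z s' * ∏ b, z (t b) ^ e) ≤
    A.valuation (z i ^ (Fintype.card α + 1) * (∏ b, aeval z (f b (s b))) *
      (Matrix.of fun k l => if (g' k).2 then δ l (g' k).1 / (g' k).1 else δ l (g' k).1).det)
  rw [hgr']
  obtain ⟨Y, hY⟩ := NZ_le δ A y hy s'
  obtain ⟨c, hc, hcd⟩ := hdet Y
  have hprod : (∏ k, if k ∈ Set.range j then g k else 1) = ∏ b : B, aeval y (f b (s b)) := by
    symm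
    refine Fintype.prod_of_injective j hj _ _ ?_ ?_
    · intro k hk
      rw [if_neg hk]
    · intro b
      rw [if_pos ⟨b, rfl⟩, hgj b]
  have hdg : (Matrix.of fun k l => δ l (g k)).det = (∏ b : B, aeval y (f b (s b))) * (Matrix.of r).det := by
    rw [← hprod, ← Matrix.det_mul_column]
    congr 1
    ext k l
    simp only [Matrix.of_apply, hrdef]
    by_cases hk : k ∈ Set.range j
    · rw [if_pos hk, if_pos hk, mul_div_cancel₀ _ (hgr k hk)]
    · rw [if_neg hk, if_neg hk, one_mul]
  have hv1 : A.valuation (∏ b : B, aeval y (f b (s b))) = A.valuation (∏ b, aeval y (f b (s b))) := by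
    rw [map_prod, map_prod]
    rw [Finset.prod_coe_sort B fun b => A.valuation (aeval y (f b (s b)))]
    refine Finset.prod_subset (Finset.subset_univ B) fun b _ hbB => ?_
    exact N10_val_one A (hB b hbB) (hs0 b)
  have hNZ : A.valuation (NZ (fun l => δ l) y s') ≤
      A.valuation (∏ b, aeval y (f b (s b))) * A.valuation (Matrix.of r).det := by
    refine hY.trans ?_
    rw [hcd, hdg, map_mul, map_mul, hv1]
    calc A.valuation c * (A.valuation (∏ b, aeval y (f b (s b))) * A.valuation (Matrix.of r).det)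
        ≤ 1 * (A.valuation (∏ b, aeval y (f b (s b))) * A.valuation (Matrix.of r).det) :=
          mul_le_mul' ((A.valuation_le_one_iff c).2 hc) le_rfl
      _ = _ := one_mul _
  have hzt : A.valuation (∏ b, z (t b) ^ e) ≤ A.valuation (∏ _b : β, z i ^ e) := by
    rw [map_prod, map_prod]
    refine Finset.prod_le_prod' fun b _ => ?_
    rw [map_pow, map_pow]
    exact pow_le_pow_left' (hi (t b)) e
  have hDe : (∏ b, aeval z (f b (s b))) = (∏ _b : β, z i ^ e) * ∏ b, aeval y (f b (s b)) := by
    rw [← Finset.prod_mul_distrib]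
    exact Finset.prod_congr rfl fun b _ => hfy b (s b)
  rw [NZ_scale δ z i hi0 s', hDe]
  simp only [map_mul]
  calc A.valuation (z i ^ (Fintype.card α + 1)) * A.valuation (NZ (fun l => δ l) y s') *
        A.valuation (∏ b, z (t b) ^ e)
      ≤ A.valuation (z i ^ (Fintype.card α + 1)) *
        (A.valuation (∏ b, aeval y (f b (s b))) * A.valuation (Matrix.of r).det) *
        A.valuation (∏ _b : β, z i ^ e) := mul_le_mul' (mul_le_mul' le_rfl hNZ) hzt
    _ = _ := by ac_rfl

end Pool.Agent.Lib.MP_17a322_nt.AP
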