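import Pool.Agent.Lib.MP_17a322_nt.AP.T4
import Pool.Agent.Lib.MP_17a322_nt.ABN.N1

namespace Pool.Agent.Lib.MP_17a322_nt.AP

open MvPolynomial
open Pool.Agent.Lib.MP_17a322_nt.EQ
open Pool.Agent.Lib.MP_17a322_nt.ABN

/-- The relation of valuations depends on one membership. -/
private theorem T5_le {F : Type*} [Field F] (A A' : ValuationSubring F) (a b : F)
    (h : a / b ∈ A ↔ a / b ∈ A') (hab : A.valuation a ≤ A.valuation b) :
    A'.valuation a ≤ A'.valuation b := by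
  by_cases hb : b = 0
  · subst hb
    rw [map_zero, le_zero_iff, map_eq_zero] at hab
    rw [hab]
  · have h1 : A.valuation b ≠ 0 := (map_ne_zero _).2 hb
    have h2 : A'.valuation b ≠ 0 := (map_ne_zero _).2 hb
    have h3 : a / b ∈ A := by
      rw [← A.valuation_le_one_iff, map_div₀]
      exact (div_le_one₀ (zero_lt_iff.2 h1)).2 hab
    have h4 := h.1 h3
    rw [← A'.valuation_le_one_iff, map_div₀] at h4
    exact (div_le_one₀ (zero_lt_iff.2 h2)).1 h4

/-- Local equations at all valuation rings from a finite set. -/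
theorem loc_fin {K F : Type} {ι β κ α : Type} [Field K] [CharZero K] [Field F] [Algebra K F] [Fintype ι]
    [Fintype β] [DecidableEq β] [Finite κ] [Fintype α] [DecidableEq α]
    (J : Ideal (MvPolynomial ι K)) (hJ : Smooth J (Fintype.card α)) (e : ℕ)
    (f : β → κ → MvPolynomial ι K) (hf : Snc J e f) (δ : α → Derivation K F F)
    (z : ι → F) (hz : ∃ i, z i ≠ 0) (hzJ : ∀ G ∈ J, aeval z G = 0)
    (hf0 : ∀ b, ∃ j, aeval z (f b j) ≠ 0) :
    ∃ 𝒟 : Finset (ι × (β → κ) × (α → F × Bool)), (∀ d ∈ 𝒟, ∀ k, (d.2.2 k).1 ≠ 0) ∧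
      ∀ A : ValuationSubring F, (∀ c : K, algebraMap K F c ∈ A) → ∃ d ∈ 𝒟,
        (∀ k, (d.2.2 k).2 = false → (d.2.2 k).1 ∈ A) ∧
        ∀ (s : Option α → ι) (s' : β → ι),
          A.valuation (NZ (fun l => δ l) z s * ∏ b, z (s' b) ^ e) ≤
            A.valuation (z d.1 ^ (Fintype.card α + 1) * (∏ b, aeval z (f b (d.2.1 b))) *
              (Matrix.of fun k l => if (d.2.2 k).2 then δ l (d.2.2 k).1 / (d.2.2 k).1
                else δ l (d.2.2 k).1).det) := by
  classical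
  let R : ι × (β → κ) × (α → F × Bool) → F := fun d =>
    z d.1 ^ (Fintype.card α + 1) * (∏ b, aeval z (f b (d.2.1 b))) *
      (Matrix.of fun k l => if (d.2.2 k).2 then δ l (d.2.2 k).1 / (d.2.2 k).1 else δ l (d.2.2 k).1).det
  let L : (Option α → ι) × (β → ι) → F := fun t => NZ (fun l => δ l) z t.1 * ∏ b, z (t.2 b) ^ e
  obtain ⟨S, hS⟩ := compact2 (k := K) (F := F)
    (I := {d : ι × (β → κ) × (α → F × Bool) // ∀ k, (d.2.2 k).1 ≠ 0})
    (fun d A => (∀ k, (d.1.2.2 k).2 = false → (d.1.2.2 k).1 ∈ A) ∧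
      ∀ (s : Option α → ι) (s' : β → ι), A.valuation (L (s, s')) ≤ A.valuation (R d.1))
    (fun d => Set.range (fun k => (d.1.2.2 k).1) ∪ Set.range (fun t => L t / R d.1))
    (fun d => (Set.finite_range _).union (Set.finite_range _))
    (fun d A A' hW hA => ⟨fun k hk => (hW _ (Or.inl ⟨k, rfl⟩)).1 (hA.1 k hk), fun s s' =>
      T5_le A A' _ _ (hW _ (Or.inr ⟨(s, s'), rfl⟩)) (hA.2 s s')⟩)
    (fun A hA => by
      obtain ⟨d, h0, h1, h2⟩ := loc_one J hJ e f hf δ z hz hzJ hf0 A hA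
      exact ⟨⟨d, h0⟩, h1, h2⟩)
  refine ⟨S.image Subtype.val, fun d hd => ?_, fun A hA => ?_⟩
  · obtain ⟨d', _, rfl⟩ := Finset.mem_image.1 hd
    exact d'.2
  · obtain ⟨d, hd, h1, h2⟩ := hS A hA
    exact ⟨d.1, Finset.mem_image_of_mem _ hd, h1, h2⟩

end Pool.Agent.Lib.MP_17a322_nt.AP
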