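import Mathlib

/-!
Identities between the values of derivations of a field, in an extension field.
-/

namespace Pool.Agent.Lib.MP_17a322_nt.AP

section

variable {k F G : Type*} [Field k] [Field F] [Field G] [Algebra k F] [Algebra k G] [Algebra F G]
  [IsScalarTower k F G]

/-- The derivation of `F` given by a derivation of `G` and a linear form. -/
def Z1_der (φ : G →ₗ[F] F) (D : Derivation k G G) : Derivation k F F :=
  Derivation.mk' (
    { toFun := fun a => φ (D (algebraMap F G a))
      map_add' := fun a b => by rw [map_add, map_add, map_add]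
      map_smul' := fun c a => by
        rw [RingHom.id_apply, algebra_compatible_smul F c a, smul_eq_mul, map_mul,
          ← IsScalarTower.algebraMap_apply, ← Algebra.smul_def, D.map_smul,
          algebra_compatible_smul F c (D _), map_smul, ← algebra_compatible_smul] } : F →ₗ[k] F) (by
    intro a b
    change φ (D (algebraMap F G (a * b))) = a • φ (D (algebraMap F G b)) + b • φ (D (algebraMap F G a))
    rw [map_mul, D.leibniz, map_add, algebraMap_smul, algebraMap_smul, map_smul, map_smul])

theorem Z1_der_apply (φ : G →ₗ[F] F) (D : Derivation k G G) (a : F) :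
    Z1_der φ D a = φ (D (algebraMap F G a)) := rfl

/-- An element of `G` at which all linear forms vanish is zero. -/
theorem Z1_zero (y : G) (h : ∀ φ : G →ₗ[F] F, φ y = 0) : y = 0 :=
  (Module.forall_dual_apply_eq_zero_iff F y).1 h

/-- Linear relations between values of derivations hold in extension fields. -/
theorem res_id {σ : Type*} [Fintype σ] (y : F) (a b : σ → F)
    (h : ∀ D : Derivation k F F, D y = ∑ g, a g * D (b g)) (D : Derivation k G G) :
    D (algebraMap F G y) = ∑ g, algebraMap F G (a g) * D (algebraMap F G (b g)) := by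
  rw [← sub_eq_zero]
  refine Z1_zero (F := F) _ fun φ => ?_
  have h1 := h (Z1_der φ D)
  simp only [Z1_der_apply] at h1
  rw [map_sub, map_sum, h1, sub_eq_zero]
  refine Finset.sum_congr rfl fun g _ => ?_
  rw [← Algebra.smul_def, map_smul, smul_eq_mul]

/-- Differentials as combinations of logarithmic differentials, in extension fields. -/
theorem res_dlog {σ : Type*} [Fintype σ] (y : F) (a b : σ → F)
    (h : ∀ D : Derivation k F F, D y = ∑ g, a g * (D (b g) / b g)) (D : Derivation k G G) :
    D (algebraMap F G y) = ∑ g, algebraMap F G (a g) * (D (algebraMap F G (b g)) / algebraMap F G (b g)) := by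
  have h1 := res_id y (fun g => a g / b g) b (fun D => (h D).trans (Finset.sum_congr rfl fun g _ => by ring)) D
  rw [h1]
  refine Finset.sum_congr rfl fun g _ => ?_
  rw [map_div₀]
  ring

/-- Logarithmic differentials as combinations of logarithmic differentials, in extension fields. -/
theorem res_dlog' {σ : Type*} [Fintype σ] (y : F) (hy : y ≠ 0) (a b : σ → F)
    (h : ∀ D : Derivation k F F, D y / y = ∑ g, a g * (D (b g) / b g)) (D : Derivation k G G) :
    D (algebraMap F G y) / algebraMap F G y =
      ∑ g, algebraMap F G (a g) * (D (algebraMap F G (b g)) / algebraMap F G (b g)) := by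
  have hy' : algebraMap F G y ≠ 0 := (map_ne_zero _).2 hy
  have h1 := res_dlog y (fun g => y * a g) b (fun D => by
    have h2 := h D
    rw [div_eq_iff hy] at h2
    rw [h2, Finset.sum_mul]
    refine Finset.sum_congr rfl fun g _ => by ring) D
  rw [h1, Finset.sum_div]
  refine Finset.sum_congr rfl fun g _ => ?_
  rw [map_mul]
  field_simp

end

section

variable {K F G : Type*} [Field K] [Field F] [Field G] [CharZero K] [Algebra ℚ G]
  [Algebra K F] [Algebra F G] [Algebra ℚ F] [IsScalarTower ℚ F G]

/-- A derivation over `ℚ` kills the algebraic numbers. -/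
theorem Z1_kill [Algebra.IsAlgebraic ℚ K] (D : Derivation ℚ F F) (c : K) : D (algebraMap K F c) = 0 := by
  have hc : IsAlgebraic ℚ c := Algebra.IsAlgebraic.isAlgebraic c
  have h1 : IsSeparable ℚ c := (minpoly.irreducible hc.isIntegral).separable
  have h2 : Polynomial.aeval c (Polynomial.derivative (minpoly ℚ c)) ≠ 0 :=
    h1.aeval_derivative_ne_zero (minpoly.aeval ℚ c)
  have h3 : ∀ q : ℚ, algebraMap K F (algebraMap ℚ K q) = algebraMap ℚ F q := fun q => by
    have h : (algebraMap K F).comp (algebraMap ℚ K) = algebraMap ℚ F := RingHom.ext_rat _ _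
    exact congrFun (congrArg DFunLike.coe h) q
  have h4 : ∀ p : Polynomial ℚ, algebraMap K F (Polynomial.aeval c p) = Polynomial.aeval (algebraMap K F c) p := by
    intro p
    rw [Polynomial.aeval_def, Polynomial.aeval_def, Polynomial.hom_eval₂]
    congr 1
    exact RingHom.ext_rat _ _
  have h5 : Polynomial.aeval (algebraMap K F c) (minpoly ℚ c) = 0 := by
    rw [← h4, minpoly.aeval, map_zero]
  have h6 := D.map_aeval (minpoly ℚ c) (algebraMap K F c)
  rw [h5, map_zero, ← h4, smul_eq_mul] at h6
  rcases mul_eq_zero.1 h6.symm with h7 | h7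
  · exact absurd ((map_eq_zero _).1 h7) h2
  · exact h7

/-- The derivations of `G` at the elements of the function field `F`. -/
theorem res_frame [Algebra.IsAlgebraic ℚ K] {α : Type*} [Fintype α] (x : α → F) (δ : α → Derivation K F F)
    (hu : ∀ (d : Derivation K F F) (f : F), d f = ∑ l, d (x l) * δ l f) (D : Derivation ℚ G G) (f : F) :
    D (algebraMap F G f) = ∑ l, D (algebraMap F G (x l)) * algebraMap F G (δ l f) := by
  rw [← sub_eq_zero]
  refine Z1_zero (F := F) _ fun φ => ?_
  have h1 : ∃ d : Derivation K F F, ∀ y, d y = φ (D (algebraMap F G y)) := by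
    refine ⟨Derivation.mk' (
      { toFun := fun y => Z1_der φ D y
        map_add' := fun a b => map_add _ _ _
        map_smul' := fun c a => by
          rw [RingHom.id_apply, Algebra.smul_def, Derivation.leibniz, Z1_kill (K := K), smul_zero, add_zero,
            algebraMap_smul] } : F →ₗ[K] F) (fun a b => (Z1_der φ D).leibniz a b), fun y => rfl⟩
  obtain ⟨d, hd⟩ := h1
  have h2 := hu d f
  rw [hd] at h2
  rw [map_sub, map_sum, h2, sub_eq_zero]
  refine Finset.sum_congr rfl fun l _ => ?_
  rw [hd, mul_comm (D _), ← Algebra.smul_def, map_smul, smul_eq_mul, mul_comm]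

end

end Pool.Agent.Lib.MP_17a322_nt.AP
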