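import Pool.Agent.Lib.MP_17a322_nt.AP.Z1
import Pool.Agent.Lib.MP_17a322_nt.AP.IL
import Pool.Agent.Lib.MP_17a322_nt.AP.T3
import Pool.Agent.Lib.MP_17a322_nt.AP.T5

/-!
The inequalities at all valuation rings.
-/

set_option linter.unusedSectionVars false

namespace Pool.Agent.Lib.MP_17a322_nt.AP

open Pool.Agent.Lib.MP_17a322_nt.ABN (Un NZ)
open Pool.Agent.Lib.MP_17a322_nt.FL (psi NT DT)

section

variable {F G : Type*} [Field F] [Field G] [Algebra F G]

theorem Z2_le_iff {E : Type*} [Field E] (A : ValuationSubring E) (x y : E) (hy : y ≠ 0) :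
    A.valuation x ≤ A.valuation y ↔ x / y ∈ A := by
  rw [← A.valuation_le_one_iff, map_div₀, div_le_one₀]
  exact zero_lt_iff.2 ((Valuation.ne_zero_iff _).2 hy)

theorem Z2_comap_le (A : ValuationSubring G) (x y : F) :
    (A.comap (algebraMap F G)).valuation x ≤ (A.comap (algebraMap F G)).valuation y ↔
      A.valuation (algebraMap F G x) ≤ A.valuation (algebraMap F G y) := by
  by_cases hy : y = 0
  · subst hy
    rw [map_zero, map_zero, map_zero, le_zero_iff, le_zero_iff, Valuation.zero_iff, Valuation.zero_iff,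
      map_eq_zero]
  · have hy' : algebraMap F G y ≠ 0 := (map_ne_zero _).2 hy
    rw [Z2_le_iff _ x y hy, Z2_le_iff _ _ _ hy', ValuationSubring.mem_comap, map_div₀]

theorem Z2_comap_lt (A : ValuationSubring G) (x y : F) :
    (A.comap (algebraMap F G)).valuation x < (A.comap (algebraMap F G)).valuation y ↔
      A.valuation (algebraMap F G x) < A.valuation (algebraMap F G y) := by
  rw [← not_le, ← not_le, Z2_comap_le]

theorem Z2_comap_un (A : ValuationSubring G) (x : F) :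
    Un (A.comap (algebraMap F G)) x ↔ Un A (algebraMap F G x) := by
  unfold Un
  rw [ValuationSubring.mem_comap, ValuationSubring.mem_comap, map_inv₀]

theorem Z2_comap_one (A : ValuationSubring G) (x : F)
    (h : (A.comap (algebraMap F G)).valuation x < 1) : A.valuation (algebraMap F G x) < 1 := by
  have h1 := (Z2_comap_lt A x 1).1 (by rwa [map_one])
  rwa [map_one, map_one] at h1

/-- A valuation ring which contains the rational numbers contains the algebraic numbers. -/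
theorem Z2_alg {K : Type*} [Field K] [CharZero K] [Algebra.IsAlgebraic ℚ K] [Algebra K G] [Algebra ℚ G]
    (A : ValuationSubring G) (hA : ∀ c : ℚ, algebraMap ℚ G c ∈ A) (c : K) : algebraMap K G c ∈ A := by
  rw [← A.valuation_le_one_iff]
  by_contra hcon
  rw [not_le] at hcon
  have hc : IsIntegral ℚ (algebraMap K G c) := by
    have h1 : IsIntegral ℚ c := (Algebra.IsAlgebraic.isAlgebraic c).isIntegral
    obtain ⟨p, hp, hp0⟩ := h1
    refine ⟨p, hp, ?_⟩
    have h2 : (algebraMap K G).comp (algebraMap ℚ K) = algebraMap ℚ G := RingHom.ext_rat _ _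
    rw [← h2, ← Polynomial.hom_eval₂, hp0, map_zero]
  obtain ⟨p, hp, hp0⟩ := hc
  rw [Polynomial.eval₂_eq_sum_range, Finset.sum_range_succ, hp.coeff_natDegree, map_one, one_mul] at hp0
  have h2 : A.valuation (∑ i ∈ Finset.range p.natDegree, algebraMap ℚ G (p.coeff i) * algebraMap K G c ^ i) <
      A.valuation (algebraMap K G c ^ p.natDegree) := by
    refine A.valuation.map_sum_lt ?_ fun i hi => ?_
    · rw [map_pow]
      exact pow_ne_zero _ (ne_of_gt (lt_trans zero_lt_one hcon))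
    · rw [map_mul, map_pow, map_pow]
      calc A.valuation (algebraMap ℚ G (p.coeff i)) * A.valuation (algebraMap K G c) ^ i
          ≤ 1 * A.valuation (algebraMap K G c) ^ i :=
            mul_le_mul_left ((A.valuation_le_one_iff _).2 (hA _)) _
        _ = A.valuation (algebraMap K G c) ^ i := one_mul _
        _ < A.valuation (algebraMap K G c) ^ p.natDegree :=
            pow_lt_pow_right₀ hcon (Finset.mem_range.1 hi)
  have h3 := eq_neg_of_add_eq_zero_left hp0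
  rw [h3, Valuation.map_neg] at h2
  exact lt_irrefl _ h2

end

section

variable {K FX F₀ F₂ : Type} [Field K] [NumberField K] [Field FX] [Algebra K FX] [Field F₀] [Algebra ℚ F₀]
  [Algebra FX F₀] [Field F₂] [Algebra ℚ F₂] [Algebra F₀ F₂] [Algebra FX F₂] [IsScalarTower FX F₀ F₂]
  [IsScalarTower ℚ F₀ F₂] {ι β κ α ρ κm σ I : Type} [Fintype ι] [Fintype β] [Fintype α]
  [DecidableEq α] [Fintype ρ] [DecidableEq ρ] [Fintype κm] [Fintype σ] [Fintype I]

/-- The set of the elements whose differentials are used. -/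
def YS (F₀ : Type) [Field F₀] [Algebra FX F₀] (z : ι → FX) (𝒟 : Finset (ι × (β → κ) × (α → FX × Bool))) :
    Set F₀ :=
  {y | ∃ d ∈ 𝒟, ∃ k, y = algebraMap FX F₀ (d.2.2 k).1} ∪
    {y | ∃ i i', z i ≠ 0 ∧ z i' ≠ 0 ∧ y = algebraMap FX F₀ (z i / z i')}

/-- The hypotheses about the fields, the divisor and the model. -/
structure Hyp (z : ι → FX) (fb : β → κ → FX) (e : ℕ) (x : α → FX) (δ : α → Derivation K FX FX)
    (𝒟 : Finset (ι × (β → κ) × (α → FX × Bool))) (b : σ → F₀) (v : ρ ⊕ α → Derivation ℚ F₂ F₂)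
    (m : κm → F₂) : Prop where
  tow : IsScalarTower ℚ F₀ F₂
  z0 : ∃ i, z i ≠ 0
  hδ : ∀ l l', δ l (x l') = if l = l' then 1 else 0
  hu : ∀ (d : Derivation K FX FX) (f : FX), d f = ∑ l, d (x l) * δ l f
  hD0 : ∀ d ∈ 𝒟, ∀ k, (d.2.2 k).1 ≠ 0
  hD : ∀ A : ValuationSubring FX, (∀ c : K, algebraMap K FX c ∈ A) → ∃ d ∈ 𝒟,
    (∀ k, (d.2.2 k).2 = false → (d.2.2 k).1 ∈ A) ∧ ∀ (s : Option α → ι) (s' : β → ι),
      A.valuation (NZ (fun l => δ l) z s * ∏ b, z (s' b) ^ e) ≤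
        A.valuation (z d.1 ^ (Fintype.card α + 1) * (∏ b, fb b (d.2.1 b)) *
          (Matrix.of fun k l => if (d.2.2 k).2 then δ l (d.2.2 k).1 / (d.2.2 k).1
            else δ l (d.2.2 k).1).det)
  hb0 : ∀ g, b g ≠ 0
  hb : ∀ A : ValuationSubring F₀, (∀ c : ℚ, algebraMap ℚ F₀ c ∈ A) → ∀ y ∈ YS F₀ z 𝒟,
    (y ∈ A → ∃ a : σ → F₀, (∀ g, a g ∈ A ∧ (A.valuation (a g) < 1 ∨ Un A (b g))) ∧
      ∀ D : Derivation ℚ F₀ F₀, D y = ∑ g, a g * (D (b g) / b g)) ∧
    ∃ a : σ → F₀, (∀ g, a g ∈ A) ∧ ∀ D : Derivation ℚ F₀ F₀, D y / y = ∑ g, a g * (D (b g) / b g)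
  hv : LinearIndependent F₂ v
  hvs : ∀ D : Derivation ℚ F₂ F₂, ∃ c : ρ ⊕ α → F₂, D = ∑ b, c b • v b
  hv0 : ∀ i l, v (Sum.inl i) (algebraMap FX F₂ (x l)) = 0
  hv1 : ∀ l l', v (Sum.inr l) (algebraMap FX F₂ (x l')) = if l = l' then 1 else 0
  hm : ∃ a, m a ≠ 0
  hNT : ∃ s, NT m v s ≠ 0
  hfb : ∀ A : ValuationSubring F₂, (∀ c : ℚ, algebraMap ℚ F₂ c ∈ A) → ∀ g, Fnr A m (algebraMap F₀ F₂ (b g))

/-- The hypotheses about the factorisation. -/
structure Fct (b : σ → F₀) (m : κm → F₂) (f : I → F₂) (nn : σ → I → ℤ) (ε : σ → ℚ) : Prop where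
  hf : ∀ i, f i ≠ 0
  hε : ∀ g, ε g ≠ 0
  hbf : ∀ g, algebraMap F₀ F₂ (b g) = algebraMap ℚ F₂ (ε g) * ∏ i, f i ^ nn g i
  fnr : ∀ A : ValuationSubring F₂, (∀ c : ℚ, algebraMap ℚ F₂ c ∈ A) → ∀ i, Fnr A m (f i)

variable {z : ι → FX} {fb : β → κ → FX} {e : ℕ} {x : α → FX} {δ : α → Derivation K FX FX}
  {𝒟 : Finset (ι × (β → κ) × (α → FX × Bool))} {b : σ → F₀} {v : ρ ⊕ α → Derivation ℚ F₂ F₂}
  {m : κm → F₂}

omit [IsScalarTower ℚ F₀ F₂] in
/-- The derivations of `F₂` at the elements of the function field. -/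
theorem Z2_der (H : Hyp (F₀ := F₀) z fb e x δ 𝒟 b v m) (D : Derivation ℚ F₂ F₂) (f : FX) :
    D (algebraMap FX F₂ f) = ∑ l, D (algebraMap FX F₂ (x l)) * algebraMap FX F₂ (δ l f) := by
  let _ : Algebra ℚ FX := ((algebraMap K FX).comp (algebraMap ℚ K)).toAlgebra
  have h1 : IsScalarTower ℚ FX F₂ := IsScalarTower.of_algebraMap_eq' (RingHom.ext_rat _ _)
  exact res_frame (K := K) x δ H.hu D f

omit [IsScalarTower ℚ F₀ F₂] in
theorem Z2_inl (H : Hyp (F₀ := F₀) z fb e x δ 𝒟 b v m) (i : ρ) (f : FX) :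
    v (Sum.inl i) (algebraMap FX F₂ f) = 0 := by
  rw [Z2_der H]
  exact Finset.sum_eq_zero fun l _ => by rw [H.hv0, zero_mul]

omit [IsScalarTower ℚ F₀ F₂] in
theorem Z2_inr (H : Hyp (F₀ := F₀) z fb e x δ 𝒟 b v m) (l : α) (f : FX) :
    v (Sum.inr l) (algebraMap FX F₂ f) = algebraMap FX F₂ (δ l f) := by
  rw [Z2_der H, Finset.sum_eq_single l]
  · rw [H.hv1, if_pos rfl, one_mul]
  · intro l' _ hl'
    rw [H.hv1, if_neg hl'.symm, zero_mul]
  · intro h
    exact absurd (Finset.mem_univ l) h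

omit [IsScalarTower ℚ F₀ F₂] in
/-- The determinants `NZ` over the function field and over `F₂`. -/
theorem Z2_NZ (H : Hyp (F₀ := F₀) z fb e x δ 𝒟 b v m) (s : Option α → ι) :
    NZ (fun l => v (Sum.inr l)) (fun i => algebraMap FX F₂ (z i)) s =
      algebraMap FX F₂ (NZ (fun l => δ l) z s) := by
  unfold NZ
  rw [RingHom.map_det]
  congr 1
  ext a b
  rcases a with - | l
  · rfl
  · exact Z2_inr H l (z (s b))

/-- The rows of the differentials of an element of the function field. -/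
theorem Z2_row (H : Hyp (F₀ := F₀) z fb e x δ 𝒟 b v m) (A : ValuationSubring F₂)
    (hA : ∀ c : ℚ, algebraMap ℚ F₂ c ∈ A) (y : FX) (hy : algebraMap FX F₀ y ∈ YS F₀ z 𝒟)
    (hyA : algebraMap FX F₂ y ∈ A) :
    ∃ a : σ → F₂, (∀ g, a g ∈ A ∧ (A.valuation (a g) < 1 ∨ Un A (algebraMap F₀ F₂ (b g)))) ∧
      ∀ D : Derivation ℚ F₂ F₂, D (algebraMap FX F₂ y) =
        ∑ g, a g * (D (algebraMap F₀ F₂ (b g)) / algebraMap F₀ F₂ (b g)) := by
  have hA0 : ∀ c : ℚ, algebraMap ℚ F₀ c ∈ A.comap (algebraMap F₀ F₂) := fun c => by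
    rw [ValuationSubring.mem_comap, ← IsScalarTower.algebraMap_apply]
    exact hA c
  have e1 : algebraMap F₀ F₂ (algebraMap FX F₀ y) = algebraMap FX F₂ y :=
    (IsScalarTower.algebraMap_apply FX F₀ F₂ y).symm
  obtain ⟨a, ha1, ha2⟩ := (H.hb _ hA0 _ hy).1 (by rw [ValuationSubring.mem_comap, e1]; exact hyA)
  refine ⟨fun g => algebraMap F₀ F₂ (a g), fun g => ⟨?_, ?_⟩, fun D => ?_⟩
  · exact ValuationSubring.mem_comap.1 (ha1 g).1
  · rcases (ha1 g).2 with h1 | h1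
    · exact Or.inl (Z2_comap_one A _ h1)
    · exact Or.inr ((Z2_comap_un A _).1 h1)
  · rw [← e1]
    exact res_dlog _ _ _ ha2 D

/-- The rows of the logarithmic differentials of an element of the function field. -/
theorem Z2_row' (H : Hyp (F₀ := F₀) z fb e x δ 𝒟 b v m) (A : ValuationSubring F₂)
    (hA : ∀ c : ℚ, algebraMap ℚ F₂ c ∈ A) (y : FX) (hy0 : y ≠ 0) (hy : algebraMap FX F₀ y ∈ YS F₀ z 𝒟) :
    ∃ a : σ → F₂, (∀ g, a g ∈ A) ∧ ∀ D : Derivation ℚ F₂ F₂,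
      D (algebraMap FX F₂ y) / algebraMap FX F₂ y =
        ∑ g, a g * (D (algebraMap F₀ F₂ (b g)) / algebraMap F₀ F₂ (b g)) := by
  have hA0 : ∀ c : ℚ, algebraMap ℚ F₀ c ∈ A.comap (algebraMap F₀ F₂) := fun c => by
    rw [ValuationSubring.mem_comap, ← IsScalarTower.algebraMap_apply]
    exact hA c
  have e1 : algebraMap F₀ F₂ (algebraMap FX F₀ y) = algebraMap FX F₂ y :=
    (IsScalarTower.algebraMap_apply FX F₀ F₂ y).symm
  obtain ⟨a, ha1, ha2⟩ := (H.hb _ hA0 _ hy).2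
  refine ⟨fun g => algebraMap F₀ F₂ (a g), fun g => ValuationSubring.mem_comap.1 (ha1 g), fun D => ?_⟩
  rw [← e1]
  exact res_dlog' _ ((map_ne_zero _).2 hy0) _ _ ha2 D

end

end Pool.Agent.Lib.MP_17a322_nt.AP
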