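import Pool.Agent.Lib.MP_17a322_nt.AP.Z2

/-!
The inequalities at all valuation rings: from the function field to the field `F₂`.
-/

set_option linter.unusedSectionVars false

namespace Pool.Agent.Lib.MP_17a322_nt.AP

open Pool.Agent.Lib.MP_17a322_nt.ABN (Un NZ)
open Pool.Agent.Lib.MP_17a322_nt.FL (psi NT DT)

section

variable {K FX F₀ F₂ : Type} [Field K] [NumberField K] [Field FX] [Algebra K FX] [Field F₀] [Algebra ℚ F₀]
  [Algebra FX F₀] [Field F₂] [Algebra ℚ F₂] [Algebra F₀ F₂] [Algebra FX F₂] [IsScalarTower FX F₀ F₂]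
  [IsScalarTower ℚ F₀ F₂] {ι β κ α ρ κm σ I : Type} [Fintype ι] [Fintype β] [Fintype α]
  [DecidableEq α] [Fintype ρ] [DecidableEq ρ] [Fintype κm] [Fintype σ] [Fintype I]

variable {z : ι → FX} {fb : β → κ → FX} {e : ℕ} {x : α → FX} {δ : α → Derivation K FX FX}
  {𝒟 : Finset (ι × (β → κ) × (α → FX × Bool))} {b : σ → F₀} {v : ρ ⊕ α → Derivation ℚ F₂ F₂}
  {m : κm → F₂}

/-- The inequality for the divisor at all valuation rings. -/
theorem ineq_D (H : Hyp (F₀ := F₀) z fb e x δ 𝒟 b v m) (f : I → F₂) (nn : σ → I → ℤ) (ε : σ → ℚ)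
    (hF : Fct b m f nn ε) (A : ValuationSubring F₂) (hA : ∀ c : ℚ, algebraMap ℚ F₂ c ∈ A)
    (s : Option α → ι) (s' : β → ι) (p : κm × (ρ → κm × κm)) :
    ∃ (i₁ : ι) (j : β → κ) (t : ρ ⊕ α → κm × κm) (sg : I → Bool),
      A.valuation (NZ (fun l => v (Sum.inr l)) (fun i => algebraMap FX F₂ (z i)) s *
          (∏ b, algebraMap FX F₂ (z (s' b)) ^ e) * DT m v p) ≤
        A.valuation (algebraMap FX F₂ (z i₁) ^ (Fintype.card α + 1) * (∏ b, algebraMap FX F₂ (fb b (j b))) *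
          NT m v t * ∏ a, sgn (sg a) (f a)) := by
  have hAX : ∀ c : K, algebraMap K FX c ∈ A.comap (algebraMap FX F₂) := fun c => by
    rw [ValuationSubring.mem_comap]
    let _ : Algebra K F₂ := ((algebraMap FX F₂).comp (algebraMap K FX)).toAlgebra
    exact Z2_alg (K := K) A hA c
  obtain ⟨d, hd, hd1, hd2⟩ := H.hD _ hAX
  have hrow : ∀ k, ∃ a : σ → F₂, (∀ g, a g ∈ A) ∧ ∀ D : Derivation ℚ F₂ F₂,
      (if (d.2.2 k).2 then D (algebraMap FX F₂ (d.2.2 k).1) / algebraMap FX F₂ (d.2.2 k).1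
        else D (algebraMap FX F₂ (d.2.2 k).1)) =
        ∑ g, a g * (D (algebraMap F₀ F₂ (b g)) / algebraMap F₀ F₂ (b g)) := by
    intro k
    have hy : algebraMap FX F₀ (d.2.2 k).1 ∈ YS F₀ z 𝒟 := Or.inl ⟨d, hd, k, rfl⟩
    by_cases hk : (d.2.2 k).2 = true
    · obtain ⟨a, ha1, ha2⟩ := Z2_row' H A hA (d.2.2 k).1 (H.hD0 d hd k) hy
      refine ⟨a, ha1, fun D => ?_⟩
      rw [if_pos hk]
      exact ha2 D
    · rw [Bool.not_eq_true] at hk
      obtain ⟨a, ha1, ha2⟩ := Z2_row H A hA (d.2.2 k).1 hy (ValuationSubring.mem_comap.1 (hd1 k hk))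
      refine ⟨a, fun g => (ha1 g).1, fun D => ?_⟩
      rw [if_neg (by rw [hk]; exact Bool.false_ne_true)]
      exact ha2 D
  choose a ha1 ha2 using hrow
  obtain ⟨t, sg, h1⟩ := local_le v H.hv H.hvs m H.hm H.hNT A hA (fun g => algebraMap F₀ F₂ (b g))
    (fun g => (map_ne_zero _).2 (H.hb0 g)) f hF.hf nn ε hF.hε hF.hbf (hF.fnr A hA)
    (fun k t => if (d.2.2 k).2 then v t (algebraMap FX F₂ (d.2.2 k).1) / algebraMap FX F₂ (d.2.2 k).1
        else v t (algebraMap FX F₂ (d.2.2 k).1)) a ha1 (fun k t => ha2 k (v t)) (fun k i => by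
      rw [Z2_inl H, zero_div, ite_self]) p
  have h2 := (Z2_comap_le A _ _).1 (hd2 s s')
  refine ⟨d.1, d.2.1, t, sg, ?_⟩
  rw [Z2_NZ H]
  have e1 : algebraMap FX F₂ (Matrix.of fun k l => if (d.2.2 k).2 then δ l (d.2.2 k).1 / (d.2.2 k).1
            else δ l (d.2.2 k).1).det =
      (Matrix.of fun k l => if (d.2.2 k).2 then v (Sum.inr l) (algebraMap FX F₂ (d.2.2 k).1) /
        algebraMap FX F₂ (d.2.2 k).1 else v (Sum.inr l) (algebraMap FX F₂ (d.2.2 k).1)).det := by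
    rw [RingHom.map_det]
    congr 1
    ext k l
    change algebraMap FX F₂ (if (d.2.2 k).2 then δ l (d.2.2 k).1 / (d.2.2 k).1 else δ l (d.2.2 k).1) =
      if (d.2.2 k).2 then v (Sum.inr l) (algebraMap FX F₂ (d.2.2 k).1) /
        algebraMap FX F₂ (d.2.2 k).1 else v (Sum.inr l) (algebraMap FX F₂ (d.2.2 k).1)
    rw [Z2_inr H]
    split_ifs
    · rw [map_div₀]
    · rfl
  have e2 : algebraMap FX F₂ (NZ (fun l => δ l) z s * ∏ b, z (s' b) ^ e) =
      algebraMap FX F₂ (NZ (fun l => δ l) z s) * ∏ b, algebraMap FX F₂ (z (s' b)) ^ e := by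
    rw [map_mul, map_prod]
    congr 1
    exact Finset.prod_congr rfl fun b _ => map_pow _ _ _
  have e3 : algebraMap FX F₂ (z d.1 ^ (Fintype.card α + 1) * (∏ b, fb b (d.2.1 b)) *
      (Matrix.of fun k l => if (d.2.2 k).2 then δ l (d.2.2 k).1 / (d.2.2 k).1 else δ l (d.2.2 k).1).det) =
      algebraMap FX F₂ (z d.1) ^ (Fintype.card α + 1) * (∏ b, algebraMap FX F₂ (fb b (d.2.1 b))) *
      (Matrix.of fun k l => if (d.2.2 k).2 then v (Sum.inr l) (algebraMap FX F₂ (d.2.2 k).1) /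
        algebraMap FX F₂ (d.2.2 k).1 else v (Sum.inr l) (algebraMap FX F₂ (d.2.2 k).1)).det := by
    rw [map_mul, map_mul, map_pow, map_prod, e1]
  rw [e2, e3] at h2
  rw [map_mul, map_mul] at h1
  calc A.valuation (algebraMap FX F₂ (NZ (fun l => δ l) z s) *
          (∏ b, algebraMap FX F₂ (z (s' b)) ^ e) * DT m v p)
      = A.valuation (algebraMap FX F₂ (NZ (fun l => δ l) z s) * ∏ b, algebraMap FX F₂ (z (s' b)) ^ e) *
          A.valuation (DT m v p) := map_mul _ _ _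
    _ ≤ A.valuation (algebraMap FX F₂ (z d.1) ^ (Fintype.card α + 1) *
          (∏ b, algebraMap FX F₂ (fb b (d.2.1 b))) * (Matrix.of fun k l => if (d.2.2 k).2 then
            v (Sum.inr l) (algebraMap FX F₂ (d.2.2 k).1) / algebraMap FX F₂ (d.2.2 k).1 else
            v (Sum.inr l) (algebraMap FX F₂ (d.2.2 k).1)).det) * A.valuation (DT m v p) :=
        mul_le_mul_left h2 _
    _ = A.valuation (algebraMap FX F₂ (z d.1) ^ (Fintype.card α + 1) *
          (∏ b, algebraMap FX F₂ (fb b (d.2.1 b)))) * (A.valuation (DT m v p) * A.valuation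
            (Matrix.of fun k l => if (d.2.2 k).2 then
            v (Sum.inr l) (algebraMap FX F₂ (d.2.2 k).1) / algebraMap FX F₂ (d.2.2 k).1 else
            v (Sum.inr l) (algebraMap FX F₂ (d.2.2 k).1)).det) := by
        rw [map_mul, mul_assoc, mul_comm (A.valuation (Matrix.det _))]
    _ ≤ A.valuation (algebraMap FX F₂ (z d.1) ^ (Fintype.card α + 1) *
          (∏ b, algebraMap FX F₂ (fb b (d.2.1 b)))) *
          (A.valuation (NT m v t) * A.valuation (∏ a, sgn (sg a) (f a))) := mul_le_mul_right h1 _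
    _ = _ := by simp only [map_mul, mul_assoc]

/-- The rows of the affine coordinates. -/
theorem Z3_rows (H : Hyp (F₀ := F₀) z fb e x δ 𝒟 b v m) (A : ValuationSubring F₂)
    (hA : ∀ c : ℚ, algebraMap ℚ F₂ c ∈ A) (s : Option α → ι) :
    ∃ (i₁ : ι) (Y : α → ι), z i₁ ≠ 0 ∧
      A.valuation (NZ (fun l => v (Sum.inr l)) (fun i => algebraMap FX F₂ (z i)) s) ≤
        A.valuation (algebraMap FX F₂ (z i₁) ^ (Fintype.card α + 1) *
          (Matrix.of fun k l => v (Sum.inr l) (algebraMap FX F₂ (z (Y k)) / algebraMap FX F₂ (z i₁))).det) ∧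
      ((∀ k, z (Y k) ≠ 0) → ∃ a : α → σ → F₂,
        (∀ k g, a k g ∈ A ∧ (A.valuation (a k g) < 1 ∨ Un A (algebraMap F₀ F₂ (b g)))) ∧
        ∀ k (D : Derivation ℚ F₂ F₂), D (algebraMap FX F₂ (z (Y k)) / algebraMap FX F₂ (z i₁)) =
          ∑ g, a k g * (D (algebraMap F₀ F₂ (b g)) / algebraMap F₀ F₂ (b g))) ∧
      ((∃ k, z (Y k) = 0) → (Matrix.of fun k l => v (Sum.inr l)
        (algebraMap FX F₂ (z (Y k)) / algebraMap FX F₂ (z i₁))).det = 0) := by
  obtain ⟨i0, hi0⟩ := H.z0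
  have : Nonempty ι := ⟨i0⟩
  obtain ⟨i₁, hi₁⟩ := Finite.exists_max fun i => A.valuation (algebraMap FX F₂ (z i))
  have hz1 : algebraMap FX F₂ (z i₁) ≠ 0 := by
    intro h0
    have h1 := hi₁ i0
    rw [h0, map_zero, le_zero_iff, Valuation.zero_iff, map_eq_zero] at h1
    exact hi0 h1
  obtain ⟨Y, hY⟩ := nz_le (fun l => v (Sum.inr l)) (fun i => algebraMap FX F₂ (z i)) A i₁ hz1 hi₁ s
  refine ⟨i₁, Y, fun h0 => hz1 (by rw [h0, map_zero]), hY, fun hYne => ?_, ?_⟩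
  · have h1 : ∀ k, ∃ a : σ → F₂, (∀ g, a g ∈ A ∧ (A.valuation (a g) < 1 ∨ Un A (algebraMap F₀ F₂ (b g)))) ∧
        ∀ D : Derivation ℚ F₂ F₂, D (algebraMap FX F₂ (z (Y k)) / algebraMap FX F₂ (z i₁)) =
          ∑ g, a g * (D (algebraMap F₀ F₂ (b g)) / algebraMap F₀ F₂ (b g)) := by
      intro k
      have hz1' : z i₁ ≠ 0 := fun h0 => hz1 (by rw [h0, map_zero])
      obtain ⟨a, ha1, ha2⟩ := Z2_row H A hA (z (Y k) / z i₁) (Or.inr ⟨Y k, i₁, hYne k, hz1', rfl⟩) (by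
        rw [map_div₀]
        exact (Z2_le_iff A _ _ hz1).1 (hi₁ (Y k)))
      refine ⟨a, ha1, fun D => ?_⟩
      rw [← map_div₀]
      exact ha2 D
    choose a ha1 ha2 using h1
    exact ⟨a, ha1, ha2⟩
  · rintro ⟨k, hk⟩
    refine Matrix.det_eq_zero_of_row_eq_zero k fun l => ?_
    change v (Sum.inr l) (algebraMap FX F₂ (z (Y k)) / algebraMap FX F₂ (z i₁)) = 0
    rw [hk, map_zero, zero_div, map_zero]

/-- The functions on the function field and the first part of the basis. -/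
theorem Z3_inl (H : Hyp (F₀ := F₀) z fb e x δ 𝒟 b v m) (i : ρ) (i₁ i₂ : ι) :
    v (Sum.inl i) (algebraMap FX F₂ (z i₁) / algebraMap FX F₂ (z i₂)) = 0 := by
  rw [← map_div₀]
  exact Z2_inl H i _

/-- The inequality without the divisor at all valuation rings. -/
theorem ineq_0 (H : Hyp (F₀ := F₀) z fb e x δ 𝒟 b v m) (f : I → F₂) (nn : σ → I → ℤ) (ε : σ → ℚ)
    (hF : Fct b m f nn ε) (A : ValuationSubring F₂) (hA : ∀ c : ℚ, algebraMap ℚ F₂ c ∈ A)
    (s : Option α → ι) (p : κm × (ρ → κm × κm)) :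
    ∃ (i₁ : ι) (t : ρ ⊕ α → κm × κm) (sg : I → Bool),
      A.valuation (NZ (fun l => v (Sum.inr l)) (fun i => algebraMap FX F₂ (z i)) s * DT m v p) ≤
        A.valuation (algebraMap FX F₂ (z i₁) ^ (Fintype.card α + 1) * NT m v t * ∏ a, sgn (sg a) (f a)) := by
  obtain ⟨i₁, Y, hi₁, h1, h2, h3⟩ := Z3_rows H A hA s
  by_cases hY : ∀ k, z (Y k) ≠ 0
  · obtain ⟨a, ha1, ha2⟩ := h2 hY
    obtain ⟨t, sg, h4⟩ := local_le v H.hv H.hvs m H.hm H.hNT A hA (fun g => algebraMap F₀ F₂ (b g))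
      (fun g => (map_ne_zero _).2 (H.hb0 g)) f hF.hf nn ε hF.hε hF.hbf (hF.fnr A hA)
      (fun k t => v t (algebraMap FX F₂ (z (Y k)) / algebraMap FX F₂ (z i₁))) a (fun k g => (ha1 k g).1)
      (fun k t => ha2 k (v t)) (fun k i => Z3_inl H i _ _) p
    refine ⟨i₁, t, sg, ?_⟩
    rw [map_mul] at h1 h4 ⊢
    rw [map_mul] at h4
    rw [map_mul, map_mul, mul_assoc]
    calc _ ≤ A.valuation (algebraMap FX F₂ (z i₁) ^ (Fintype.card α + 1)) *
          A.valuation (Matrix.of fun k l => v (Sum.inr l)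
            (algebraMap FX F₂ (z (Y k)) / algebraMap FX F₂ (z i₁))).det * A.valuation (DT m v p) :=
          mul_le_mul_left h1 _
      _ = A.valuation (algebraMap FX F₂ (z i₁) ^ (Fintype.card α + 1)) *
          (A.valuation (DT m v p) * A.valuation (Matrix.of fun k l => v (Sum.inr l)
            (algebraMap FX F₂ (z (Y k)) / algebraMap FX F₂ (z i₁))).det) := by
          rw [mul_assoc, mul_comm (A.valuation (Matrix.det _))]
      _ ≤ _ := mul_le_mul_right h4 _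
  · push Not at hY
    have h4 := h3 hY
    rw [h4, mul_zero, map_zero, le_zero_iff] at h1
    obtain ⟨t, -⟩ := H.hNT
    exact ⟨i₁, t, fun _ => true, by rw [map_mul, h1, zero_mul]; exact zero_le⟩

/-- The strict inequality without the divisor. -/
theorem ineq_lt (H : Hyp (F₀ := F₀) z fb e x δ 𝒟 b v m) (f : I → F₂) (nn : σ → I → ℤ) (ε : σ → ℚ)
    (hF : Fct b m f nn ε) (A : ValuationSubring F₂) (hA : ∀ c : ℚ, algebraMap ℚ F₂ c ∈ A)
    (hbd : ∃ i, ¬ Un A (f i)) (s : Option α → ι) (p : κm × (ρ → κm × κm)) :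
    ∃ (i₁ : ι) (t : ρ ⊕ α → κm × κm) (sg : I → Bool),
      A.valuation (NZ (fun l => v (Sum.inr l)) (fun i => algebraMap FX F₂ (z i)) s * DT m v p) <
        A.valuation (algebraMap FX F₂ (z i₁) ^ (Fintype.card α + 1) * NT m v t * ∏ a, sgn (sg a) (f a)) := by
  obtain ⟨i₁, Y, hi₁, h1, h2, h3⟩ := Z3_rows H A hA s
  have hz : 0 < A.valuation (algebraMap FX F₂ (z i₁) ^ (Fintype.card α + 1)) := by
    rw [zero_lt_iff, Valuation.ne_zero_iff]
    exact pow_ne_zero _ ((map_ne_zero _).2 hi₁)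
  by_cases hY : ∀ k, z (Y k) ≠ 0
  · obtain ⟨a, ha1, ha2⟩ := h2 hY
    obtain ⟨t, sg, h4⟩ := local_lt v H.hv H.hvs m H.hm H.hNT A hA (fun g => algebraMap F₀ F₂ (b g))
      (fun g => (map_ne_zero _).2 (H.hb0 g)) f hF.hf nn ε hF.hε hF.hbf (hF.fnr A hA) (H.hfb A hA)
      (fun k t => v t (algebraMap FX F₂ (z (Y k)) / algebraMap FX F₂ (z i₁))) a ha1
      (fun k t => ha2 k (v t)) (fun k i => Z3_inl H i _ _) hbd p
    refine ⟨i₁, t, sg, ?_⟩
    rw [map_mul] at h1 h4 ⊢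
    rw [map_mul] at h4
    rw [map_mul, map_mul, mul_assoc]
    calc _ ≤ A.valuation (algebraMap FX F₂ (z i₁) ^ (Fintype.card α + 1)) *
          A.valuation (Matrix.of fun k l => v (Sum.inr l)
            (algebraMap FX F₂ (z (Y k)) / algebraMap FX F₂ (z i₁))).det * A.valuation (DT m v p) :=
          mul_le_mul_left h1 _
      _ = A.valuation (algebraMap FX F₂ (z i₁) ^ (Fintype.card α + 1)) *
          (A.valuation (DT m v p) * A.valuation (Matrix.of fun k l => v (Sum.inr l)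
            (algebraMap FX F₂ (z (Y k)) / algebraMap FX F₂ (z i₁))).det) := by
          rw [mul_assoc, mul_comm (A.valuation (Matrix.det _))]
      _ < _ := by
          exact mul_lt_mul_of_pos_left h4 hz
  · push Not at hY
    have h4 := h3 hY
    rw [h4, mul_zero, map_zero, le_zero_iff] at h1
    obtain ⟨t, ht⟩ := H.hNT
    refine ⟨i₁, t, fun _ => true, ?_⟩
    rw [map_mul, h1, zero_mul, zero_lt_iff, Valuation.ne_zero_iff]
    refine mul_ne_zero (mul_ne_zero (pow_ne_zero _ ((map_ne_zero _).2 hi₁)) ht)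
      (Finset.prod_ne_zero_iff.2 fun a _ => ?_)
    exact hF.hf a

end

end Pool.Agent.Lib.MP_17a322_nt.AP
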