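import Mathlib

namespace Pool.Agent.Lib.MP_17a322_nt.AP

/-- Adjunction of finitely many elements of `R` to the field `F₀` inside `B`. -/
theorem exists_F1 {B R F₀ : Type} [Field B] [Algebra ℚ B] [Field R] [Algebra ℚ R] [Algebra R B]
    [IsScalarTower ℚ R B] [Field F₀] [Algebra ℚ F₀] [Algebra F₀ B] [IsScalarTower ℚ F₀ B]
    (hF₀ : (⊤ : IntermediateField ℚ F₀).FG) (S : Finset R) :
    ∃ (F₁ : Type) (_ : Field F₁) (_ : Algebra ℚ F₁) (_ : Algebra F₁ B) (_ : IsScalarTower ℚ F₁ B)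
      (_ : Algebra F₀ F₁) (_ : IsScalarTower ℚ F₀ F₁) (_ : IsScalarTower F₀ F₁ B),
      (⊤ : IntermediateField ℚ F₁).FG ∧ (∀ s ∈ S, ∃ y : F₁, algebraMap F₁ B y = algebraMap R B s) ∧
      (algebraMap F₁ B).fieldRange ≤ (algebraMap F₀ B).fieldRange ⊔ (algebraMap R B).fieldRange := by
  classical
  obtain ⟨t, ht⟩ := hF₀
  obtain ⟨K₁, hK₁⟩ : ∃ K₁ : IntermediateField ℚ B,
      K₁ = IntermediateField.adjoin ℚ ((t.image (algebraMap F₀ B) ∪ S.image (algebraMap R B) :
        Finset B) : Set B) := ⟨_, rfl⟩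
  have hmem : ∀ x ∈ (t.image (algebraMap F₀ B) ∪ S.image (algebraMap R B) : Finset B), x ∈ K₁ := by
    intro x hx
    rw [hK₁]
    exact IntermediateField.subset_adjoin ℚ _ (Finset.mem_coe.2 hx)
  have hF : ∀ x : F₀, algebraMap F₀ B x ∈ K₁ := by
    intro x
    have hx : x ∈ (⊤ : IntermediateField ℚ F₀) := IntermediateField.mem_top
    rw [← ht] at hx
    have h1 : (IsScalarTower.toAlgHom ℚ F₀ B) x ∈
        (IntermediateField.adjoin ℚ (t : Set F₀)).map (IsScalarTower.toAlgHom ℚ F₀ B) :=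
      ⟨x, hx, rfl⟩
    rw [IntermediateField.adjoin_map] at h1
    refine (IntermediateField.adjoin_le_iff.2 ?_) h1
    rintro _ ⟨y, hy, rfl⟩
    exact hmem _ (Finset.mem_union_left _ (Finset.mem_image_of_mem _ (Finset.mem_coe.1 hy)))
  have hfg : K₁.FG := by
    rw [hK₁]
    exact IntermediateField.fg_adjoin_finset _
  let f : F₀ →+* K₁ := (algebraMap F₀ B).codRestrict K₁ hF
  have i0 : @IsScalarTower ℚ K₁ B K₁.algebra'.toSMul (Algebra.toSMul) (Algebra.toSMul) :=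
    @IsScalarTower.of_algebraMap_eq ℚ K₁ B _ _ _ K₁.algebra' _ _ fun x => rfl
  have i1 : @IsScalarTower F₀ K₁ B f.toAlgebra.toSMul (Algebra.toSMul) (Algebra.toSMul) :=
    @IsScalarTower.of_algebraMap_eq F₀ K₁ B _ _ _ f.toAlgebra _ _ fun x => rfl
  have i2 : @IsScalarTower ℚ F₀ K₁ (Algebra.toSMul) f.toAlgebra.toSMul K₁.algebra'.toSMul := by
    refine @IsScalarTower.of_algebraMap_eq ℚ F₀ K₁ _ _ _ _ f.toAlgebra K₁.algebra' fun x => ?_
    apply Subtype.ext
    change algebraMap ℚ B x = algebraMap F₀ B (algebraMap ℚ F₀ x)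
    exact IsScalarTower.algebraMap_apply ℚ F₀ B x
  refine ⟨K₁, inferInstance, K₁.algebra', inferInstance, i0, f.toAlgebra, i2, i1,
    ?_, fun s hs => ?_, ?_⟩
  · exact (@IntermediateField.fg_top_iff ℚ _ K₁ _ K₁.algebra').2
      ((IntermediateField.essFiniteType_iff).2 hfg)
  · exact ⟨⟨algebraMap R B s, hmem _ (Finset.mem_union_right _ (Finset.mem_image_of_mem _ hs))⟩, rfl⟩
  · rintro _ ⟨⟨x, hx⟩, rfl⟩
    obtain ⟨M, hM⟩ : ∃ M : Subfield B, M = (algebraMap F₀ B).fieldRange ⊔ (algebraMap R B).fieldRange :=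
      ⟨_, rfl⟩
    change x ∈ (algebraMap F₀ B).fieldRange ⊔ (algebraMap R B).fieldRange
    rw [← hM]
    let M' : IntermediateField ℚ B := { M with
      algebraMap_mem' := fun r => by
        rw [hM]
        exact (le_sup_left : (algebraMap F₀ B).fieldRange ≤ _)
          ⟨algebraMap ℚ F₀ r, (IsScalarTower.algebraMap_apply ℚ F₀ B r).symm⟩ }
    have h1 : K₁ ≤ M' := by
      rw [hK₁]
      refine IntermediateField.adjoin_le_iff.2 ?_
      intro y hy
      have h2 : y ∈ M := by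
        rw [hM]
        rcases Finset.mem_union.1 (Finset.mem_coe.1 hy) with h | h
        · obtain ⟨z, -, rfl⟩ := Finset.mem_image.1 h
          exact (le_sup_left : (algebraMap F₀ B).fieldRange ≤ _) ⟨z, rfl⟩
        · obtain ⟨z, -, rfl⟩ := Finset.mem_image.1 h
          exact (le_sup_right : (algebraMap R B).fieldRange ≤ _) ⟨z, rfl⟩
      exact h2
    exact h1 hx

end Pool.Agent.Lib.MP_17a322_nt.AP
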