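import Pool.Agent.Lib.MP_17a322_nt.AP.ODefs

namespace Pool.Agent.Lib.MP_17a322_nt.AP

private theorem Z5_evo_inv {B : Type} [Field B] (X : EvO B ℕ) (x : B) (hx : x ≠ 0) :
    ∀ᶠ i in (X.U : Filter ℕ), X.ev x⁻¹ i = (X.ev x i)⁻¹ := by
  filter_upwards [X.mul x x⁻¹, X.one] with i h1 h2
  rw [mul_inv_cancel₀ hx, h2] at h1
  exact (inv_eq_of_mul_eq_one_right h1.symm).symm

private theorem Z5_evo_zero {B : Type} [Field B] (X : EvO B ℕ) :
    ∀ᶠ i in (X.U : Filter ℕ), X.ev 0 i = 0 := by
  filter_upwards [X.add 0 0] with i h1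
  rw [add_zero] at h1
  exact left_eq_add.1 h1

private theorem Z5_evo_neg {B : Type} [Field B] (X : EvO B ℕ) (x : B) :
    ∀ᶠ i in (X.U : Filter ℕ), X.ev (-x) i = -X.ev x i := by
  filter_upwards [X.add x (-x), Z5_evo_zero X] with i h1 h2
  rw [add_neg_cancel, h2] at h1
  exact (neg_eq_of_add_eq_zero_right h1.symm).symm

/-- The elements of `B` whose values are in the fields `j i (L i)` for almost all `i` form a subfield. -/
theorem range_vals {B : Type} [Field B] (X : EvO B ℕ) (L : ℕ → Type) [∀ i, Field (L i)]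
    (j : ∀ i, L i →+* Om) (M M₁ M₂ : Subfield B) (hM : M ≤ M₁ ⊔ M₂)
    (h1 : ∀ y ∈ M₁, ∀ᶠ i in (X.U : Filter ℕ), X.ev y i ∈ (j i).range)
    (h2 : ∀ y ∈ M₂, ∀ᶠ i in (X.U : Filter ℕ), X.ev y i ∈ (j i).range) :
    ∀ y ∈ M, ∀ᶠ i in (X.U : Filter ℕ), X.ev y i ∈ (j i).range := by
  let T : Subfield B :=
    { carrier := {y | ∀ᶠ i in (X.U : Filter ℕ), X.ev y i ∈ (j i).range}
      mul_mem' := by
        intro a b ha hb
        filter_upwards [ha, hb, X.mul a b] with i h h' h''
        rw [h'']
        exact mul_mem h h'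
      one_mem' := by
        filter_upwards [X.one] with i h
        rw [h]
        exact one_mem _
      add_mem' := by
        intro a b ha hb
        filter_upwards [ha, hb, X.add a b] with i h h' h''
        rw [h'']
        exact add_mem h h'
      zero_mem' := by
        filter_upwards [Z5_evo_zero X] with i h
        rw [h]
        exact zero_mem _
      neg_mem' := by
        intro a ha
        filter_upwards [ha, Z5_evo_neg X a] with i h h'
        rw [h']
        exact neg_mem h
      inv_mem' := by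
        intro a ha
        rcases eq_or_ne a 0 with rfl | h0
        · simpa using ha
        · filter_upwards [ha, Z5_evo_inv X a h0] with i h h'
          rw [h']
          obtain ⟨y, hy⟩ := h
          exact ⟨y⁻¹, by rw [map_inv₀, hy]⟩ }
  have hT : M₁ ⊔ M₂ ≤ T := sup_le h1 h2
  exact fun y hy => hT (hM hy)

private theorem Z5_zero {F : Type} [Field F] {U : Ultrafilter ℕ} {L : ℕ → Type} [∀ i, Field (L i)]
    (V : EvV F U L) : ∀ᶠ i in (U : Filter ℕ), V.ev 0 i = 0 := by
  filter_upwards [V.add 0 0] with i h1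
  rw [add_zero] at h1
  exact left_eq_add.1 h1

private theorem Z5_neg {F : Type} [Field F] {U : Ultrafilter ℕ} {L : ℕ → Type} [∀ i, Field (L i)]
    (V : EvV F U L) (x : F) : ∀ᶠ i in (U : Filter ℕ), V.ev (-x) i = -V.ev x i := by
  filter_upwards [V.add x (-x), Z5_zero V] with i h1 h2
  rw [add_neg_cancel, h2] at h1
  exact (neg_eq_of_add_eq_zero_right h1.symm).symm

private theorem Z5_sum {F : Type} [Field F] {U : Ultrafilter ℕ} {L : ℕ → Type} [∀ i, Field (L i)]
    (V : EvV F U L) {σ : Type*} (s : Finset σ) (f : σ → F) :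
    ∀ᶠ i in (U : Filter ℕ), V.ev (∑ a ∈ s, f a) i = ∑ a ∈ s, V.ev (f a) i := by
  classical
  induction s using Finset.induction_on with
  | empty =>
    filter_upwards [Z5_zero V] with i h
    simpa using h
  | insert a s ha ih =>
    filter_upwards [ih, V.add (f a) (∑ b ∈ s, f b)] with i h h'
    rw [Finset.sum_insert ha, Finset.sum_insert ha, h', h]

private theorem Z5_prod {F : Type} [Field F] {U : Ultrafilter ℕ} {L : ℕ → Type} [∀ i, Field (L i)]
    (V : EvV F U L) {σ : Type*} (s : Finset σ) (f : σ → F) :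
    ∀ᶠ i in (U : Filter ℕ), V.ev (∏ a ∈ s, f a) i = ∏ a ∈ s, V.ev (f a) i := by
  classical
  induction s using Finset.induction_on with
  | empty =>
    filter_upwards [V.one] with i h
    simpa using h
  | insert a s ha ih =>
    filter_upwards [ih, V.mul (f a) (∏ b ∈ s, f b)] with i h h'
    rw [Finset.prod_insert ha, Finset.prod_insert ha, h', h]

/-- The values of polynomials. -/
theorem evv_aeval {F : Type} [Field F] {U : Ultrafilter ℕ} {K : Type} [Field K] {L : ℕ → Type} [∀ i, Field (L i)]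
    [∀ i, Algebra K (L i)] [Algebra K F] (V : EvV F U L)
    (hK : ∀ c : K, ∀ᶠ i in (U : Filter ℕ), V.ev (algebraMap K F c) i = algebraMap K (L i) c) {ι : Type}
    (z : ι → F) (w : ∀ i, ι → L i) (hz : ∀ a, ∀ᶠ i in (U : Filter ℕ), V.ev (z a) i = w i a) (p : MvPolynomial ι K) :
    ∀ᶠ i in (U : Filter ℕ), V.ev (MvPolynomial.aeval z p) i = MvPolynomial.aeval (w i) p := by
  induction p using MvPolynomial.induction_on with
  | C c =>
    filter_upwards [hK c] with i h
    simpa using h
  | add p q hp hq =>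
    filter_upwards [hp, hq, V.add (MvPolynomial.aeval z p) (MvPolynomial.aeval z q)] with i h h' h''
    rw [map_add, map_add, h'', h, h']
  | mul_X p a hp =>
    filter_upwards [hp, hz a, V.mul (MvPolynomial.aeval z p) (z a)] with i h h' h''
    rw [map_mul, map_mul, MvPolynomial.aeval_X, MvPolynomial.aeval_X, h'', h, h']

/-- The values of determinants. -/
theorem evv_det {F : Type} [Field F] {U : Ultrafilter ℕ} {L : ℕ → Type} [∀ i, Field (L i)]
    (V : EvV F U L) {τ : Type} [Fintype τ] [DecidableEq τ] (M : Matrix τ τ F) :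
    ∀ᶠ i in (U : Filter ℕ), V.ev M.det i = (Matrix.of fun a b => V.ev (M a b) i).det := by
  have h0 : ∀ σ : Equiv.Perm τ, ∀ᶠ i in (U : Filter ℕ),
      V.ev (Equiv.Perm.sign σ • ∏ a, M (σ a) a) i = Equiv.Perm.sign σ • ∏ a, V.ev (M (σ a) a) i := by
    intro σ
    rcases Int.units_eq_one_or (Equiv.Perm.sign σ) with h | h
    · rw [h]
      filter_upwards [Z5_prod V Finset.univ fun a => M (σ a) a] with i h1
      rw [one_smul, one_smul, h1]
    · rw [h]
      filter_upwards [Z5_prod V Finset.univ fun a => M (σ a) a, Z5_neg V (∏ a, M (σ a) a)] with i h1 h2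
      rw [Units.neg_smul, Units.neg_smul, one_smul, one_smul, h2, h1]
  have h1 : ∀ᶠ i in (U : Filter ℕ), ∀ σ : Equiv.Perm τ,
      V.ev (Equiv.Perm.sign σ • ∏ a, M (σ a) a) i = Equiv.Perm.sign σ • ∏ a, V.ev (M (σ a) a) i :=
    Filter.eventually_all.2 h0
  filter_upwards [h1, Z5_sum V Finset.univ fun σ : Equiv.Perm τ => Equiv.Perm.sign σ • ∏ a, M (σ a) a]
    with i h2 h3
  rw [Matrix.det_apply, h3, Matrix.det_apply]
  exact Finset.sum_congr rfl fun σ _ => h2 σ

/-- Powers. -/
theorem evv_pow {F : Type} [Field F] {U : Ultrafilter ℕ} {L : ℕ → Type} [∀ i, Field (L i)]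
    (V : EvV F U L) (x : F) (n : ℕ) : ∀ᶠ i in (U : Filter ℕ), V.ev (x ^ n) i = V.ev x i ^ n := by
  induction n with
  | zero =>
    filter_upwards [V.one] with i h
    simpa using h
  | succ n ih =>
    filter_upwards [ih, V.mul (x ^ n) x] with i h h'
    rw [pow_succ, pow_succ, h', h]

/-- The values of nonzero elements are not zero for almost all `i`. -/
theorem evv_ne {F : Type} [Field F] {U : Ultrafilter ℕ} {L : ℕ → Type} [∀ i, Field (L i)]
    (V : EvV F U L) {x : F} (hx : x ≠ 0) : ∀ᶠ i in (U : Filter ℕ), V.ev x i ≠ 0 := by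
  filter_upwards [V.mul x x⁻¹, V.one] with i h1 h2 h3
  rw [mul_inv_cancel₀ hx, h2, h3, zero_mul] at h1
  exact one_ne_zero h1

end Pool.Agent.Lib.MP_17a322_nt.AP
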