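import Pool.Agent.Lib.MP_17a322_nt.AP.Z3
import Pool.Agent.Lib.MP_17a322_nt.AP.Z5
import Pool.Agent.Lib.MP_17a322_nt.AP.IO

/-!
The values of the families, the comparison of the heights.
-/

set_option linter.unusedSectionVars false

namespace Pool.Agent.Lib.MP_17a322_nt.AP

open MvPolynomial hiding psum
open Height NumberField
open Pool.Agent.Lib.MP_17a322_nt.ABN (NZ)

/-- The determinant with the rows `z (s ·)`, `δ l (z (s ·))` for the coordinates `1` and `x l`. -/
theorem Z6_NZ {F ι α : Type*} [Field F] [Fintype α] [DecidableEq α] {k : Type*} [Field k] [Algebra k F]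
    (δ : α → Derivation k F F) (z : ι → F) (i₀ : ι) (h0 : z i₀ = 1) (x : α → ι)
    (hδ : ∀ l l', δ l (z (x l')) = if l = l' then 1 else 0) :
    ∃ s : Option α → ι, NZ (fun l => δ l) z s ≠ 0 := by
  refine ⟨fun o => o.elim i₀ x, ?_⟩
  have h1 : NZ (fun l => δ l) z (fun o => o.elim i₀ x) = 1 := by
    let E : Option α ≃ α ⊕ PUnit.{1} := Equiv.optionEquivSumPUnit α
    rw [NZ, ← Matrix.det_submatrix_equiv_self E.symm]
    have h2 : (Matrix.of fun a b : Option α => a.elim (z ((fun o : Option α => o.elim i₀ x) b))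
        fun l => δ l (z ((fun o : Option α => o.elim i₀ x) b))).submatrix
        E.symm E.symm =
        Matrix.fromBlocks (1 : Matrix α α F) 0 (Matrix.of fun _ l => z (x l)) (1 : Matrix PUnit.{1} PUnit.{1} F) := by
      ext a b
      rcases a with a | a <;> rcases b with b | b
      · simp [E, Matrix.one_apply, hδ]
      · simp [E, h0]
      · simp [E]
      · simp [E, h0]
    rw [h2, Matrix.det_fromBlocks_zero₁₂, Matrix.det_one, Matrix.det_one, one_mul]
  rw [h1]
  exact one_ne_zero

/-- The values of the family `NZ`, up to a factor. -/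
theorem Z6_fam {K FX F₂ : Type} [Field K] [Field FX] [Algebra K FX] [Field F₂] [Algebra FX F₂] [Algebra K F₂]
    [IsScalarTower K FX F₂] {U : Ultrafilter ℕ} {L : ℕ → Type} [∀ i, Field (L i)] [∀ i, Algebra K (L i)]
    (V : EvV F₂ U L) (hK : ∀ c : K, ∀ᶠ i in (U : Filter ℕ), V.ev (algebraMap K F₂ c) i = algebraMap K (L i) c)
    {ι α : Type} [Finite ι] [Fintype α] [DecidableEq α] (ζ : ι → FX) (z : ∀ i, ι → L i)
    (hz : ∀ a, ∀ᶠ i in (U : Filter ℕ), V.ev (algebraMap FX F₂ (ζ a)) i = z i a) (δ : α → FX → FX)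
    (Bp : MvPolynomial ι K) (N : α → ι → MvPolynomial ι K)
    (hN : ∀ l i, δ l (ζ i) * aeval ζ Bp = aeval ζ (N l i)) :
    ∀ᶠ i in (U : Filter ℕ), ∀ s : Option α → ι,
      (aeval (z i) Bp) ^ Fintype.card α * V.ev (algebraMap FX F₂ (NZ δ ζ s)) i =
        (Matrix.of fun a b : Option α => a.elim (z i (s b)) fun l => aeval (z i) (N l (s b))).det := by
  have hfin : Finite (Option α → ι) := inferInstance
  rw [Filter.eventually_all]
  intro s
  have hae : ∀ p : MvPolynomial ι K, algebraMap FX F₂ (aeval ζ p) = aeval (fun a => algebraMap FX F₂ (ζ a)) p := by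
    intro p
    exact MvPolynomial.aeval_algebraMap_apply F₂ ζ p |>.symm
  have h1 : algebraMap FX F₂ (aeval ζ Bp) ^ Fintype.card α * algebraMap FX F₂ (NZ δ ζ s) =
      (Matrix.of fun a b : Option α => a.elim (algebraMap FX F₂ (ζ (s b))) fun l =>
        algebraMap FX F₂ (aeval ζ (N l (s b)))).det := by
    have h2 : (Matrix.of fun a b : Option α => a.elim (algebraMap FX F₂ (ζ (s b))) fun l =>
        algebraMap FX F₂ (aeval ζ (N l (s b)))) =
      Matrix.of fun a b : Option α => (fun o : Option α => o.elim 1 fun _ => algebraMap FX F₂ (aeval ζ Bp)) a *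
        (Matrix.of fun a b : Option α => a.elim (algebraMap FX F₂ (ζ (s b))) fun l =>
          algebraMap FX F₂ (δ l (ζ (s b)))) a b := by
      ext a b
      rcases a with _ | l
      · simp
      · simp only [Matrix.of_apply, Option.elim_some]
        rw [← hN, map_mul, mul_comm]
    rw [h2, Matrix.det_mul_column, Fintype.prod_option]
    simp only [Option.elim_none, Option.elim_some, one_mul, Finset.prod_const, Finset.card_univ]
    congr 1
    unfold NZ
    rw [RingHom.map_det]
    congr 1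
    ext a b
    rcases a with _ | l <;> rfl
  have h3 : ∀ a b : Option α, ∀ᶠ i in (U : Filter ℕ),
      V.ev ((Matrix.of fun a b : Option α => a.elim (algebraMap FX F₂ (ζ (s b))) fun l =>
        algebraMap FX F₂ (aeval ζ (N l (s b)))) a b) i =
      (Matrix.of fun a b : Option α => a.elim (z i (s b)) fun l => aeval (z i) (N l (s b))) a b := by
    intro a b
    rcases a with _ | l
    · simpa using hz (s b)
    · simp only [Matrix.of_apply, Option.elim_some]
      rw [hae]
      exact evv_aeval V hK _ z hz _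
  have h3' : ∀ᶠ i in (U : Filter ℕ), ∀ a b : Option α,
      V.ev ((Matrix.of fun a b : Option α => a.elim (algebraMap FX F₂ (ζ (s b))) fun l =>
        algebraMap FX F₂ (aeval ζ (N l (s b)))) a b) i =
      (Matrix.of fun a b : Option α => a.elim (z i (s b)) fun l => aeval (z i) (N l (s b))) a b := by
    rw [Filter.eventually_all]
    intro a
    rw [Filter.eventually_all]
    exact h3 a
  have h4 : ∀ᶠ i in (U : Filter ℕ), V.ev (algebraMap FX F₂ (aeval ζ Bp)) i = aeval (z i) Bp := by
    rw [hae]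
    exact evv_aeval V hK _ z hz _
  filter_upwards [V.mul (algebraMap FX F₂ (aeval ζ Bp) ^ Fintype.card α) (algebraMap FX F₂ (NZ δ ζ s)),
    evv_pow V (algebraMap FX F₂ (aeval ζ Bp)) (Fintype.card α), h4, h3',
    evv_det V (Matrix.of fun a b : Option α => a.elim (algebraMap FX F₂ (ζ (s b))) fun l =>
        algebraMap FX F₂ (aeval ζ (N l (s b))))] with i e1 e2 e3 e4 e5
  rw [← e3, ← e2, ← e1, h1, e5]
  congr 1
  ext a b
  rw [Matrix.of_apply, e4]

/-- The comparison of the heights of the families. -/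
theorem Z6_lm {B : Type} [Field B] [Algebra ℚ B] (X : EvO B ℕ) {F₂ : Type} [Field F₂] [Algebra F₂ B]
    {L : ℕ → Type} [∀ i, Field (L i)] [∀ i, NumberField (L i)] (j : ∀ i, L i →+* Om) (V : EvV F₂ X.U L)
    (hV : ∀ y, ∀ᶠ i in (X.U : Filter ℕ), j i (V.ev y i) = X.ev (algebraMap F₂ B y) i)
    {κ κ' : Type} [Finite κ] [Finite κ'] (S : κ → F₂) (T : κ' → F₂) (η : ℝ) (hη : 0 < η)
    (h : X.lm (fun s => algebraMap F₂ B (S s)) ≤ X.lm (fun s => algebraMap F₂ B (T s)) + η) :
    ∀ᶠ i in (X.U : Filter ℕ), logHeight (fun s => V.ev (S s) i) - logHeight (fun s => V.ev (T s) i) ≤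
      Module.finrank ℚ (L i) * (2 * η * X.h i) := by
  have hval : ∀ {μ : Type} [Finite μ] (W : μ → F₂), ∀ᶠ i in (X.U : Filter ℕ),
      logHeight (fun s => V.ev (W s) i) =
        Module.finrank ℚ (L i) * hO (fun a => X.ev (algebraMap F₂ B (W a)) i) := by
    intro μ _ W
    have h1 : ∀ᶠ i in (X.U : Filter ℕ), ∀ s, j i (V.ev (W s) i) = X.ev (algebraMap F₂ B (W s)) i := by
      rw [Filter.eventually_all]
      exact fun s => hV _
    filter_upwards [h1] with i hi
    rw [hO_eq (j i)]
    congr 2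
    funext s
    exact hi s
  have h1 := lm_tendsto X (fun s => algebraMap F₂ B (S s))
  have h2 := lm_tendsto X (fun s => algebraMap F₂ B (T s))
  have h3 : ∀ᶠ i in (X.U : Filter ℕ), hO (fun a => X.ev (algebraMap F₂ B (S a)) i) / X.h i <
      X.lm (fun s => algebraMap F₂ B (S s)) + η / 2 :=
    h1.eventually (gt_mem_nhds (by linarith))
  have h4 : ∀ᶠ i in (X.U : Filter ℕ), X.lm (fun s => algebraMap F₂ B (T s)) - η / 2 <
      hO (fun a => X.ev (algebraMap F₂ B (T a)) i) / X.h i :=
    h2.eventually (lt_mem_nhds (by linarith))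
  filter_upwards [h3, h4, hval S, hval T, X.top.eventually_gt_atTop 0] with i e1 e2 e3 e4 e5
  rw [e3, e4, ← mul_sub]
  refine mul_le_mul_of_nonneg_left ?_ (Nat.cast_nonneg _)
  have e6 : hO (fun a => X.ev (algebraMap F₂ B (S a)) i) / X.h i -
      hO (fun a => X.ev (algebraMap F₂ B (T a)) i) / X.h i ≤ 2 * η := by linarith
  rw [← sub_div, div_le_iff₀ e5] at e6
  exact e6

/-- The sum of the heights of the factors. -/
theorem Z6_sum {σ : Type} [Fintype σ] (M : ℕ) (hM : 0 < M) (C C₀ ε h : ℝ) (a b q Cb : σ → ℝ) (hh : 0 ≤ h)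
    (h1 : ∀ k, a k ≤ b k / M) (h2 : ∀ k, q k ≤ b k / M + C₀) (h3 : ∀ k, b k ≤ Cb k * h)
    (h4 : 5 * ∑ g, Cb g / M ≤ ε) (hC : (Fintype.card σ : ℝ) * C₀ ≤ C) :
    ∑ k, (4 * a k + q k) ≤ ε * h + C := by
  have hMp : (0 : ℝ) < M := by exact_mod_cast hM
  calc ∑ k, (4 * a k + q k) ≤ ∑ k, (5 * (Cb k / M) * h + C₀) := by
        refine Finset.sum_le_sum fun k _ => ?_
        have h5 : b k / M ≤ Cb k / M * h := by
          rw [div_mul_eq_mul_div]
          exact div_le_div_of_nonneg_right (h3 k) hMp.le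
        linarith [h1 k, h2 k]
    _ = (5 * ∑ g, Cb g / M) * h + (Fintype.card σ : ℝ) * C₀ := by
        rw [Finset.sum_add_distrib, Finset.sum_const, Finset.card_univ, nsmul_eq_mul, Finset.mul_sum,
          Finset.sum_mul]
    _ ≤ ε * h + C := by
        have := mul_le_mul_of_nonneg_right h4 hh
        linarith

end Pool.Agent.Lib.MP_17a322_nt.AP
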