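import Pool.Agent.Lib.MP_17a322_nt.AP.Z3
import Pool.Agent.Lib.MP_17a322_nt.AP.Z4
import Pool.Agent.Lib.MP_17a322_nt.AP.Z5
import Pool.Agent.Lib.MP_17a322_nt.AP.Z6
import Pool.Agent.Lib.MP_17a322_nt.AP.IR
import Pool.Agent.Lib.MP_17a322_nt.AP.IP
import Pool.Agent.Lib.MP_17a322_nt.AP.IH
import Pool.Agent.Lib.MP_17a322_nt.ABN.A6b

/-!
Vojta's conjecture for algebraic points of bounded degree from the theorem on the slopes over `ℚ`.
-/

set_option linter.unusedSectionVars false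

namespace Pool.Agent.Lib.MP_17a322_nt.AP

open MvPolynomial hiding psum
open Height NumberField
open Pool.Agent.Lib.MP_17a322_nt.EQ
open Pool.Agent.Lib.MP_17a322_nt.JAC
open Pool.Agent.Lib.MP_17a322_nt.ABN (Un NZ card_frame)
open Pool.Agent.Lib.MP_17a322_nt.FL (psi NT DT)
open Pool.Agent.Lib.MP_17a322_nt.FQ (Evl SemiQ)

/-- The set `YS` is finite. -/
theorem YS_finite {K FX F₀ : Type} [Field K] [Field FX] [Algebra K FX] [Field F₀] [Algebra FX F₀]
    {ι β κ α : Type} [Finite ι] [Finite α] (z : ι → FX) (𝒟 : Finset (ι × (β → κ) × (α → FX × Bool))) :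
    (YS F₀ z 𝒟).Finite := by
  refine Set.Finite.union ?_ ?_
  · have h1 : (⋃ d ∈ (𝒟 : Set (ι × (β → κ) × (α → FX × Bool))),
        Set.range fun k => algebraMap FX F₀ (d.2.2 k).1).Finite :=
      Set.Finite.biUnion 𝒟.finite_toSet fun d _ => Set.finite_range _
    refine h1.subset ?_
    rintro y ⟨d, hd, k, rfl⟩
    exact Set.mem_biUnion hd ⟨k, rfl⟩
  · refine (Set.finite_range fun p : ι × ι => algebraMap FX F₀ (z p.1 / z p.2)).subset ?_
    rintro y ⟨i, i', -, -, rfl⟩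
    exact ⟨(i, i'), rfl⟩

/-- The elements of `YS` are not zero. -/
theorem YS_ne {K FX F₀ : Type} [Field K] [Field FX] [Algebra K FX] [Field F₀] [Algebra FX F₀]
    {ι β κ α : Type} (z : ι → FX) (𝒟 : Finset (ι × (β → κ) × (α → FX × Bool)))
    (h : ∀ d ∈ 𝒟, ∀ k, (d.2.2 k).1 ≠ 0) : ∀ y ∈ YS F₀ z 𝒟, y ≠ 0 := by
  rintro y (⟨d, hd, k, rfl⟩ | ⟨i, i', h1, h2, rfl⟩)
  · exact (map_ne_zero _).2 (h d hd k)
  · exact (map_ne_zero _).2 (div_ne_zero h1 h2)

/-- The choice of the exponent. -/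
theorem exists_M (a ε : ℝ) (hε : 0 < ε) : ∃ M : ℕ, 0 < M ∧ a / M ≤ ε := by
  obtain ⟨M, hM⟩ := exists_nat_gt (max 1 (|a| / ε))
  have h1 : (1 : ℝ) < M := lt_of_le_of_lt (le_max_left _ _) hM
  have h2 : |a| / ε < M := lt_of_le_of_lt (le_max_right _ _) hM
  have h0 : (0 : ℝ) < M := by linarith
  refine ⟨M, by exact_mod_cast h0, ?_⟩
  rw [div_le_iff₀ h0]
  rw [div_lt_iff₀ hε] at h2
  have h3 := le_abs_self a
  linarith [mul_comm ε (M : ℝ)]

/-- Algebraic independence over `ℚ` in an extension field. -/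
theorem alg_indep {K FX F₀ F₁ : Type} [Field K] [NumberField K] [Field FX] [Algebra K FX] [Field F₀]
    [Algebra ℚ F₀] [Algebra FX F₀] [Field F₁] [Algebra ℚ F₁] {α : Type} (x : α → FX)
    (hx : AlgebraicIndependent K x) (φ : F₀ →+* F₁) :
    AlgebraicIndependent ℚ fun l => φ (algebraMap FX F₀ (x l)) := by
  let _ : Algebra ℚ FX := ((algebraMap K FX).comp (algebraMap ℚ K)).toAlgebra
  have h1 : IsScalarTower ℚ K FX := IsScalarTower.of_algebraMap_eq fun y => rfl
  have h2 : AlgebraicIndependent ℚ x := hx.restrictScalars (algebraMap ℚ K).injective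
  let ψ : FX →ₐ[ℚ] F₁ := (φ.comp (algebraMap FX F₀)).toRatAlgHom
  exact h2.map' (f := ψ) (φ.comp (algebraMap FX F₀)).injective

/-- Vojta's conjecture for algebraic points of bounded degree. -/
theorem alg_of_semi (hQ : SemiQ) (K : Type) [Field K] [NumberField K] (n r : ℕ) : VojtaAlg K n r := by
  classical
  by_contra hV
  obtain ⟨ι, β, κ, _, _, _, J, _, e, f, m, ε, i₀, L, _, _, _, z, hJ, hf, hm, hε, hi, hr, hz1, hz2, hz3,
    hv⟩ := exists_seq hV
  have hIp : (dh J i₀).IsPrime := dh_prime J i₀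
  obtain ⟨α, _, _, x, δ, hx, hfin, hδ, hu⟩ := exists_frame (dh J i₀)
  have hcard : Fintype.card α = n := card_frame J n hJ i₀ hi x δ hδ hu
  have htop := seq_top J e f m ε i₀ L z hJ hf hε hi hr hz1 hz2 hz3 hv
  obtain ⟨U, hU⟩ : ∃ U : Ultrafilter ℕ, U = Filter.hyperfilter ℕ := ⟨_, rfl⟩
  have hUle : (U : Filter ℕ) ≤ Filter.atTop := by
    rw [hU]
    exact Nat.hyperfilter_le_atTop
  obtain ⟨B, _, _, X, R, _, _, _, _, Y, hXU, hXh, hc⟩ := exists_evo U _ (htop.mono_left hUle)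
  have hXle : (X.U : Filter ℕ) ≤ Filter.atTop := by rw [hXU]; exact hUle
  obtain ⟨j, F₀, _, _, _, _, _, E, hFG, hEfd, hER, hgn, hKc, hval⟩ := exists_fields L hr z X Y hc
    (fun i => by rw [hXh]) (fun i => ⟨i₀, hz1 i⟩) (dh J i₀) hz2
    (fun H hH => (hz3 H hH).filter_mono hXle)
  -- the function field
  have hζ1 : gn (dh J i₀) i₀ = 1 := by
    have h1 := (aeval_gn_eq_zero (dh J i₀) _).2 (dh_sub_one J i₀ hi)
    rw [map_sub, aeval_X, map_one, sub_eq_zero] at h1
    exact h1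
  have hf0 : ∀ b, ∃ j, f b j ∉ J := fun b => hz_exists_notMem hJ.prime hf i₀ hi b
  have hle := le_dh J hJ.homog i₀ hi
  have hsm : Smooth J (Fintype.card α) := by
    rw [hcard]
    exact hJ
  have hzJ : ∀ G ∈ J, aeval (gn (dh J i₀)) G = 0 := fun G hG =>
    (aeval_gn_eq_zero _ _).2 (hle.1 hG)
  have hg0 : ∀ b, ∃ j, aeval (gn (dh J i₀)) (f b j) ≠ 0 := by
    intro b
    obtain ⟨j, hj⟩ := hf0 b
    exact ⟨j, fun h1 => hj (hle.2 _ ((aeval_gn_eq_zero _ _).1 h1) e (hf.homog b j))⟩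
  obtain ⟨𝒟, h𝒟0, h𝒟⟩ := loc_fin J hsm e f hf δ (gn (dh J i₀)) ⟨i₀, by rw [hζ1]; exact one_ne_zero⟩ hzJ hg0
  obtain ⟨σ, _, _, b, hbE, hb⟩ := tame hFG E (YS_finite (K := K) (F₀ := F₀) (gn (dh J i₀)) 𝒟).toFinset
    (fun y hy => YS_ne (K := K) (F₀ := F₀) (gn (dh J i₀)) 𝒟 h𝒟0 y ((Set.Finite.mem_toFinset _).1 hy))
  have hbR : ∀ g, ∃ y' : R, algebraMap R B y' = algebraMap F₀ B (b g) := fun g => hER _ (hbE g).1
  choose b' hb' using hbR
  have hb'0 : ∀ g, b' g ≠ 0 := by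
    intro g h0
    have h1 := hb' g
    rw [h0, map_zero] at h1
    exact (hbE g).2 ((map_eq_zero _).1 h1.symm)
  -- the factorisation
  have hbd : ∀ g, ∃ C : ℝ, ∀ᶠ i in (Y.U : Filter ℕ), logHeight₁ (Y.ev (b' g) i) ≤ C * Y.h i := fun g => Y.bdd _
  choose Cb hCb using hbd
  obtain ⟨M, hM, hMε⟩ := exists_M (5 * ∑ g, Cb g) (ε / 4) (by positivity)
  obtain ⟨N, _, _, γ, xr, nn, εs, c, hε0, hbfac, hγ0, hx0, hγc, hxh⟩ := factor Y b' hb'0 M hM
  obtain ⟨q, u, Cq, hqu, hroot⟩ := root Y b' hb'0 M hM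
  obtain ⟨Λ, hΛ⟩ : ∃ Λ : Finset R, Λ = Finset.univ.image b' ∪ Finset.univ.image γ ∪ Finset.univ.image xr ∪
    Finset.univ.image q ∪ Finset.univ.image u := ⟨_, rfl⟩
  have hΛb : ∀ g, b' g ∈ Λ := fun g => by simp [hΛ]
  have hΛγ : ∀ g, γ g ∈ Λ := fun g => by simp [hΛ]
  have hΛx : ∀ g, xr g ∈ Λ := fun g => by simp [hΛ]
  have hΛq : ∀ g, q g ∈ Λ := fun g => by simp [hΛ]
  have hΛu : ∀ g, u g ∈ Λ := fun g => by simp [hΛ]
  obtain ⟨F₁, _, _, _, _, _, _, _, hF₁, hF₁Λ, hF₁r⟩ := exists_F1 (B := B) (R := R) hFG Λ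
  have hx₁ : AlgebraicIndependent ℚ fun l => algebraMap F₀ F₁ (algebraMap (FF (dh J i₀)) F₀
      (gn (dh J i₀) (x l))) := alg_indep _ hx (algebraMap F₀ F₁)
  obtain ⟨F₂, _, _, _, _, _, _, _, ρ, κm, _, _, _, v, mm, hF₂r, hv0, hv1, hvli, hvs, hmm, hNT, hDT, hlm,
    hfnr⟩ := desc hQ X Y hc F₁ hF₁ _ hx₁ Λ hF₁Λ (ε / 8) (by positivity)
  let _ : Algebra F₀ F₂ := ((algebraMap F₁ F₂).comp (algebraMap F₀ F₁)).toAlgebra
  let _ : Algebra (FF (dh J i₀)) F₂ := ((algebraMap F₀ F₂).comp (algebraMap (FF (dh J i₀)) F₀)).toAlgebra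
  have t1 : IsScalarTower F₀ F₁ F₂ := IsScalarTower.of_algebraMap_eq fun y => rfl
  have t2 : IsScalarTower (FF (dh J i₀)) F₀ F₂ := IsScalarTower.of_algebraMap_eq fun y => rfl
  have t3 : IsScalarTower F₀ F₂ B := IsScalarTower.of_algebraMap_eq fun y => by
    rw [IsScalarTower.algebraMap_apply F₀ F₁ F₂, ← IsScalarTower.algebraMap_apply F₁ F₂ B,
      ← IsScalarTower.algebraMap_apply F₀ F₁ B]
  have t4 : IsScalarTower ℚ F₀ F₂ := IsScalarTower.of_algebraMap_eq' (RingHom.ext_rat _ _)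
  -- the elements of `Λ` in `F₂`
  have hg₂ : ∀ s ∈ Λ, ∃ y : F₂, algebraMap F₂ B y = algebraMap R B s := by
    intro s hs
    obtain ⟨y, hy⟩ := hF₁Λ s hs
    exact ⟨algebraMap F₁ F₂ y, by rw [← IsScalarTower.algebraMap_apply F₁ F₂ B, hy]⟩
  choose! g₂ hg₂ using hg₂
  have hg₂0 : ∀ s ∈ Λ, s ≠ 0 → g₂ s ≠ 0 := by
    intro s hs hs0 h0
    have h1 := hg₂ s hs
    rw [h0, map_zero] at h1
    exact hs0 ((map_eq_zero _).1 h1.symm)
  have hinj : Function.Injective (algebraMap F₂ B) := (algebraMap F₂ B).injective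
  have hbg : ∀ g, algebraMap F₀ F₂ (b g) = g₂ (b' g) := by
    intro g
    apply hinj
    rw [hg₂ _ (hΛb g), ← IsScalarTower.algebraMap_apply F₀ F₂ B, hb']
  have hFnr : ∀ A : ValuationSubring F₂, (∀ c : ℚ, algebraMap ℚ F₂ c ∈ A) → ∀ s ∈ Λ, Fnr A mm (g₂ s) := by
    intro A hA s hs D a
    exact hfnr A hA (g₂ s) ⟨s, hs, (hg₂ s hs).symm⟩ D a
  -- the hypotheses of the inequalities
  have H : Hyp (F₀ := F₀) (gn (dh J i₀)) (fun b j => aeval (gn (dh J i₀)) (f b j)) e
      (fun l => gn (dh J i₀) (x l)) δ 𝒟 b v mm :=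
    { tow := t4
      z0 := ⟨i₀, by rw [hζ1]; exact one_ne_zero⟩
      hδ := hδ
      hu := hu
      hD0 := h𝒟0
      hD := h𝒟
      hb0 := fun g => (hbE g).2
      hb := fun A hA y hy => hb A hA y ((Set.Finite.mem_toFinset _).2 hy)
      hv := hvli
      hvs := hvs
      hv0 := hv0
      hv1 := hv1
      hm := hmm
      hNT := hNT
      hfb := fun A hA g => by
        rw [hbg]
        exact hFnr A hA _ (hΛb g) }
  have HF1 : Fct b mm (Sum.elim (fun a => g₂ (γ a)) fun k => g₂ (xr k))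
      (fun g => Sum.elim (nn g) fun k => if k = g then (M : ℤ) else 0) εs :=
    { hf := by
        rintro (a | k)
        · exact hg₂0 _ (hΛγ a) (hγ0 a)
        · exact hg₂0 _ (hΛx k) (hx0 k)
      hε := hε0
      hbf := fun g => by
        apply hinj
        rw [hbg, hg₂ _ (hΛb g), Fintype.prod_sum_type, map_mul, map_mul, map_prod, map_prod,
          ← IsScalarTower.algebraMap_apply ℚ F₂ B, hbfac g, map_mul, map_mul, map_prod, map_pow,
          ← IsScalarTower.algebraMap_apply ℚ R B, mul_assoc]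
        congr 1
        congr 1
        · refine Finset.prod_congr rfl fun a _ => ?_
          simp only [Sum.elim_inl]
          rw [map_zpow₀, map_zpow₀, hg₂ _ (hΛγ a)]
        · rw [Finset.prod_eq_single g]
          · simp only [Sum.elim_inr, if_pos]
            rw [map_zpow₀, hg₂ _ (hΛx g), zpow_natCast]
          · intro k _ hk
            simp only [Sum.elim_inr, if_neg hk, zpow_zero, map_one]
          · intro h0
            exact absurd (Finset.mem_univ g) h0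
      fnr := fun A hA => by
        rintro (a | k)
        · exact hFnr A hA _ (hΛγ a)
        · exact hFnr A hA _ (hΛx k) }
  have HF2 : Fct b mm (Sum.elim (fun k => g₂ (u k)) fun k => g₂ (q k))
      (fun g => Sum.elim (fun k => if k = g then (1 : ℤ) else 0) fun k => if k = g then (M : ℤ) else 0)
      (fun _ => 1) :=
    { hf := by
        rintro (a | k)
        · exact hg₂0 _ (hΛu a) (hqu a).2.1
        · exact hg₂0 _ (hΛq k) (hqu k).1
      hε := fun _ => one_ne_zero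
      hbf := fun g => by
        apply hinj
        rw [hbg, hg₂ _ (hΛb g), Fintype.prod_sum_type, map_one, one_mul, map_mul, map_prod, map_prod,
          (hqu g).2.2, map_mul, map_pow]
        congr 1
        · rw [Finset.prod_eq_single g]
          · simp only [Sum.elim_inl, if_pos]
            rw [zpow_one, hg₂ _ (hΛu g)]
          · intro k _ hk
            simp only [Sum.elim_inl, if_neg hk, zpow_zero, map_one]
          · intro h0
            exact absurd (Finset.mem_univ g) h0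
        · rw [Finset.prod_eq_single g]
          · simp only [Sum.elim_inr, if_pos]
            rw [map_zpow₀, hg₂ _ (hΛq g), zpow_natCast]
          · intro k _ hk
            simp only [Sum.elim_inr, if_neg hk, zpow_zero, map_one]
          · intro h0
            exact absurd (Finset.mem_univ g) h0
      fnr := fun A hA => by
        rintro (a | k)
        · exact hFnr A hA _ (hΛu a)
        · exact hFnr A hA _ (hΛq k) }
  -- the values
  have hF₂r' : (algebraMap F₂ B).fieldRange ≤ (algebraMap F₀ B).fieldRange ⊔ (algebraMap R B).fieldRange :=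
    hF₂r.trans (sup_le (hF₁r.trans le_rfl) le_sup_right)
  have hrv : ∀ y ∈ (algebraMap F₂ B).fieldRange, ∀ᶠ i in (X.U : Filter ℕ), X.ev y i ∈ (j i).range := by
    refine range_vals X L j _ _ _ hF₂r' ?_ ?_
    · rintro _ ⟨y, rfl⟩
      exact hval y
    · rintro _ ⟨y, rfl⟩
      filter_upwards [hc.ev y] with i hi
      rw [hi]
      exact ⟨algebraMap ℚ (L i) (Y.ev y i), by
        rw [← RingHom.comp_apply, RingHom.ext_rat ((j i).comp (algebraMap ℚ (L i))) (algebraMap ℚ Om)]⟩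
  obtain ⟨V, hVj⟩ := exists_evv X L j (F := F₂) (fun y => hrv _ ⟨y, rfl⟩)
  have eB : ∀ y : FF (dh J i₀), algebraMap F₂ B (algebraMap (FF (dh J i₀)) F₂ y) =
      algebraMap F₀ B (algebraMap (FF (dh J i₀)) F₀ y) := fun y => by
    rw [IsScalarTower.algebraMap_apply (FF (dh J i₀)) F₀ F₂, ← IsScalarTower.algebraMap_apply F₀ F₂ B]
  have hVz : ∀ a, ∀ᶠ i in (X.U : Filter ℕ),
      V.ev (algebraMap (FF (dh J i₀)) F₂ (gn (dh J i₀) a)) i = z i a := by
    intro a
    filter_upwards [hVj (algebraMap (FF (dh J i₀)) F₂ (gn (dh J i₀) a)), hgn a] with i h1 h2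
    apply (j i).injective
    rw [h1, eB, h2]
  let _ : Algebra K F₂ := ((algebraMap (FF (dh J i₀)) F₂).comp (algebraMap K (FF (dh J i₀)))).toAlgebra
  have t5 : IsScalarTower K (FF (dh J i₀)) F₂ := IsScalarTower.of_algebraMap_eq fun y => rfl
  have hVK : ∀ c : K, ∀ᶠ i in (X.U : Filter ℕ), V.ev (algebraMap K F₂ c) i = algebraMap K (L i) c := by
    intro c
    filter_upwards [hVj (algebraMap K F₂ c), hKc c] with i h1 h2
    apply (j i).injective
    rw [h1, IsScalarTower.algebraMap_apply K (FF (dh J i₀)) F₂, eB, h2]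
  have hVg : ∀ s ∈ Λ, ∀ᶠ i in (X.U : Filter ℕ), V.ev (g₂ s) i = algebraMap ℚ (L i) (Y.ev s i) := by
    intro s hs
    filter_upwards [hVj (g₂ s), hc.ev s] with i h1 h2
    apply (j i).injective
    rw [h1, hg₂ s hs, h2, ← RingHom.comp_apply,
      RingHom.ext_rat ((j i).comp (algebraMap ℚ (L i))) (algebraMap ℚ Om)]
  have hVf : ∀ b j', ∀ᶠ i in (X.U : Filter ℕ),
      V.ev (algebraMap (FF (dh J i₀)) F₂ (aeval (gn (dh J i₀)) (f b j'))) i = aeval (z i) (f b j') := by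
    intro b j'
    rw [← MvPolynomial.aeval_algebraMap_apply F₂ (gn (dh J i₀)) (f b j')]
    exact evv_aeval V hVK _ z hVz _
  -- the degrees
  have hdeg : ∀ i, Module.finrank ℚ (L i) ≤ r * Module.finrank ℚ K := by
    intro i
    rw [← Module.finrank_mul_finrank ℚ K (L i), mul_comm]
    exact Nat.mul_le_mul_right _ (hr i)
  -- the sum over the places
  obtain ⟨Bp, N', hBp, hN', hcan⟩ := hCanL_eq J hJ.homog i₀ hi x δ hδ hu
  have hNZ : ∃ s : Option α → ι, NZ (fun l => v (Sum.inr l))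
      (fun a => algebraMap (FF (dh J i₀)) F₂ (gn (dh J i₀) a)) s ≠ 0 := by
    obtain ⟨s, hs⟩ := Z6_NZ δ (gn (dh J i₀)) i₀ hζ1 x hδ
    exact ⟨s, by rw [Z2_NZ H]; exact (map_ne_zero _).2 hs⟩
  have hfb₂ : ∀ b, ∃ j', algebraMap (FF (dh J i₀)) F₂ (aeval (gn (dh J i₀)) (f b j')) ≠ 0 := by
    intro b
    obtain ⟨j', hj⟩ := hg0 b
    exact ⟨j', (map_ne_zero _).2 hj⟩
  have hγc' : ∀ᶠ i in (X.U : Filter ℕ), (∀ a, V.ev (g₂ (γ a)) i = (c i a : L i)) ∧
      Squarefree (∏ a, c i a) := by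
    have h1 := hγc
    rw [hc.U] at h1
    have h2 : ∀ᶠ i in (X.U : Filter ℕ), ∀ a, V.ev (g₂ (γ a)) i = algebraMap ℚ (L i) (Y.ev (γ a) i) := by
      rw [Filter.eventually_all]
      exact fun a => hVg _ (hΛγ a)
    filter_upwards [h1, h2] with i e1 e2
    refine ⟨fun a => ?_, e1.2⟩
    rw [e2, e1.1, map_natCast]
  have hxh' := hxh
  have hroot' := hroot
  have hCb' : ∀ᶠ i in (X.U : Filter ℕ), ∀ g, logHeight₁ (Y.ev (b' g) i) ≤ Cb g * Y.h i := by
    rw [Filter.eventually_all, ← hc.U]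
    exact hCb
  rw [hc.U] at hxh' hroot'
  have hxq : ∀ᶠ i in (X.U : Filter ℕ), ∀ k, V.ev (g₂ (xr k)) i = algebraMap ℚ (L i) (Y.ev (xr k) i) ∧
      Y.ev (xr k) i ≠ 0 := by
    have h2 : ∀ᶠ i in (X.U : Filter ℕ), ∀ a, V.ev (g₂ (xr a)) i = algebraMap ℚ (L i) (Y.ev (xr a) i) := by
      rw [Filter.eventually_all]
      exact fun a => hVg _ (hΛx a)
    filter_upwards [hxh', h2] with i e1 e2
    exact fun k => ⟨e2 k, (e1 k).1⟩
  have hqq : ∀ᶠ i in (X.U : Filter ℕ), ∀ k, V.ev (g₂ (q k)) i = algebraMap ℚ (L i) (Y.ev (q k) i) ∧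
      Y.ev (q k) i ≠ 0 := by
    have h2 : ∀ᶠ i in (X.U : Filter ℕ), ∀ a, V.ev (g₂ (q a)) i = algebraMap ℚ (L i) (Y.ev (q a) i) := by
      rw [Filter.eventually_all]
      exact fun a => hVg _ (hΛq a)
    filter_upwards [hroot', h2] with i e1 e2
    exact fun k => ⟨e2 k, (e1 k).2.1⟩
  have huq : ∀ᶠ i in (X.U : Filter ℕ), ∀ k, V.ev (g₂ (u k)) i = algebraMap ℚ (L i) (Y.ev (u k) i) ∧
      Y.ev (u k) i ≠ 0 ∧ |(Y.ev (u k) i : ℝ)| ≤ Cq ∧ |(Y.ev (u k) i : ℝ)|⁻¹ ≤ Cq := by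
    have h2 : ∀ᶠ i in (X.U : Filter ℕ), ∀ a, V.ev (g₂ (u a)) i = algebraMap ℚ (L i) (Y.ev (u a) i) := by
      rw [Filter.eventually_all]
      exact fun a => hVg _ (hΛu a)
    filter_upwards [hroot', h2] with i e1 e2
    exact fun k => ⟨e2 k, (e1 k).1, (e1 k).2.2.1, (e1 k).2.2.2.1⟩
  obtain ⟨C, hC⟩ := sum_alg V (r * Module.finrank ℚ K) hdeg (Fintype.card α) e m hm
    (fun s : Option α → ι => NZ (fun l => v (Sum.inr l))
      (fun a => algebraMap (FF (dh J i₀)) F₂ (gn (dh J i₀) a)) s) hNZ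
    (fun a => algebraMap (FF (dh J i₀)) F₂ (gn (dh J i₀) a))
    ⟨i₀, by rw [hζ1, map_one]; exact one_ne_zero⟩
    (fun b j' => algebraMap (FF (dh J i₀)) F₂ (aeval (gn (dh J i₀)) (f b j'))) hfb₂
    (NT mm v) hNT (DT mm v) hDT (fun a => g₂ (γ a)) (fun a => hg₂0 _ (hΛγ a) (hγ0 a))
    (fun k => g₂ (xr k)) (fun k => g₂ (q k)) (fun k => g₂ (u k)) (fun a => hg₂0 _ (hΛx a) (hx0 a))
    (fun a => hg₂0 _ (hΛq a) (hqu a).1) (fun a => hg₂0 _ (hΛu a) (hqu a).2.1) c hγc'
    (fun i k => Y.ev (xr k) i) (fun i k => Y.ev (q k) i) (fun i k => Y.ev (u k) i) Cq hxq hqq huq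
    (fun A hA s s' p => ineq_D H _ _ _ HF1 A hA s s' p)
    (fun A hA s s' p => ineq_D H _ _ _ HF2 A hA s s' p)
    (fun A hA s p => ineq_0 H _ _ _ HF1 A hA s p)
    (fun A hA hbd s p => ineq_lt H _ _ _ HF1 A hA hbd s p)
  -- the end of the proof
  have hNZeq : (fun s : Option α → ι => NZ (fun l => v (Sum.inr l))
      (fun a => algebraMap (FF (dh J i₀)) F₂ (gn (dh J i₀) a)) s) =
      fun s => algebraMap (FF (dh J i₀)) F₂ (NZ (fun l => δ l) (gn (dh J i₀)) s) := by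
    funext s
    exact Z2_NZ H s
  have hfam := Z6_fam V hVK (gn (dh J i₀)) z hVz (fun l => δ l) Bp N' hN'
  have hBz : ∀ᶠ i in (X.U : Filter ℕ), aeval (z i) Bp ≠ 0 := (hz3 Bp hBp).filter_mono hXle
  have hVz' : ∀ᶠ i in (X.U : Filter ℕ), ∀ a,
      V.ev (algebraMap (FF (dh J i₀)) F₂ (gn (dh J i₀) a)) i = z i a := by
    rw [Filter.eventually_all]
    exact hVz
  have hVf' : ∀ᶠ i in (X.U : Filter ℕ), ∀ b j',
      V.ev (algebraMap (FF (dh J i₀)) F₂ (aeval (gn (dh J i₀)) (f b j'))) i = aeval (z i) (f b j') := by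
    rw [Filter.eventually_all]
    intro b
    rw [Filter.eventually_all]
    exact hVf b
  have hlm' := Z6_lm X j V hVj (NT mm v) (DT mm v) (ε / 8) (by positivity) hlm
  have hbig : ∀ᶠ i : ℕ in (X.U : Filter ℕ),
      (r * Module.finrank ℚ K : ℕ) * (Fintype.card σ * |Cq|) + C ≤ (i : ℝ) :=
    (tendsto_natCast_atTop_atTop.eventually_ge_atTop _).filter_mono hXle
  have hfalse : ∀ᶠ i in (X.U : Filter ℕ), False := by
    filter_upwards [hC, hfam, hBz, hVz', hVf', hlm', hbig, hxh', hroot', hCb',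
      X.top.eventually_gt_atTop 0] with i e1 e2 e3 e4 e5 e6 e7 e8 e9 e10 e11
    have hrk : (0 : ℝ) < Module.finrank ℚ (L i) := by exact_mod_cast Module.finrank_pos
    have hXhi : X.h i = logHeight (z i) / Module.finrank ℚ (L i) := by rw [hXh]
    have hXhi' : Module.finrank ℚ (L i) * X.h i = logHeight (z i) := by
      rw [hXhi, mul_div_cancel₀ _ hrk.ne']
    have hYh : Y.h i = X.h i := by rw [hc.h]
    -- the height of the family `NZ`
    have h1 : logHeight (fun s : Option α → ι => V.ev (NZ (fun l => v (Sum.inr l))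
        (fun a => algebraMap (FF (dh J i₀)) F₂ (gn (dh J i₀) a)) s) i) =
        logHeight (fun s : Option α → ι => (Matrix.of fun a b : Option α =>
          a.elim (z i (s b)) fun l => aeval (z i) (N' l (s b))).det) := by
      have h2 : (fun s : Option α → ι => (Matrix.of fun a b : Option α =>
          a.elim (z i (s b)) fun l => aeval (z i) (N' l (s b))).det) =
          (aeval (z i) Bp) ^ Fintype.card α • fun s : Option α → ι => V.ev (NZ (fun l => v (Sum.inr l))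
            (fun a => algebraMap (FF (dh J i₀)) F₂ (gn (dh J i₀) a)) s) i := by
        funext s
        rw [Pi.smul_apply, smul_eq_mul, ← e2 s]
        rw [congrFun hNZeq s]
      rw [h2, logHeight_smul_eq_logHeight _ (pow_ne_zero _ e3)]
    obtain ⟨-, hcz⟩ := hcan (L i) (z i) (hz2 i) e3
    have hsum := Z6_sum M hM (Fintype.card σ * |Cq|) Cq (ε / 4) (X.h i)
      (fun k => logHeight₁ (Y.ev (xr k) i)) (fun k => logHeight₁ (Y.ev (b' k) i))
      (fun k => logHeight₁ (Y.ev (q k) i)) Cb e11.le (fun k => (e8 k).2) (fun k => (e9 k).2.2.2.2)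
      (fun k => by rw [← hYh]; exact e10 k) (by
        rw [← Finset.sum_div, ← mul_div_assoc]
        exact hMε) (mul_le_mul_of_nonneg_left (le_abs_self _) (Nat.cast_nonneg _))
    have hsum' := mul_le_mul_of_nonneg_left hsum hrk.le
    have hdi : (Module.finrank ℚ (L i) : ℝ) * (Fintype.card σ * |Cq|) ≤
        (r * Module.finrank ℚ K : ℕ) * (Fintype.card σ * |Cq|) := by
      refine mul_le_mul_of_nonneg_right (by exact_mod_cast hdeg i) (by positivity)
    have h3 := hv i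
    rw [h1] at e1
    simp only [e4, e5] at e1
    have htr : truncL m e f (z i) = ∑ᶠ (v : FinitePlace (L i)) (_ : v (m : L i) = 1 ∧
        ∃ b, 0 < e * Real.log (⨆ j, v (z i j)) - Real.log (⨆ j, v (aeval (z i) (f b j)))),
        Real.log (Ideal.absNorm v.maximalIdeal.asIdeal) := rfl
    rw [← htr] at e1
    rw [hcz] at h3
    have e1' : logHeight (fun s : Option α → ι => (Matrix.of fun a b : Option α =>
          a.elim (z i (s b)) fun l => aeval (z i) (N' l (s b))).det) -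
        (Fintype.card α + 1) * logHeight (z i) +
        ∑ b, (e * logHeight (z i) - logHeight fun j => aeval (z i) (f b j)) +
        ((logHeight fun p => V.ev (DT mm v p) i) - logHeight fun t => V.ev (NT mm v t) i) ≤
        truncL m e f (z i) + Real.log |(discr (L i) : ℝ)| +
        Module.finrank ℚ (L i) * ∑ k, (4 * logHeight₁ (Y.ev (xr k) i) + logHeight₁ (Y.ev (q k) i)) + C := e1
    have e6' : (logHeight fun t => V.ev (NT mm v t) i) - (logHeight fun p => V.ev (DT mm v p) i) ≤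
        ε / 4 * logHeight (z i) := by
      rw [← hXhi']
      refine e6.trans (le_of_eq ?_)
      ring
    have e12 : Module.finrank ℚ (L i) * (ε / 4 * X.h i + Fintype.card σ * |Cq|) =
        ε / 4 * logHeight (z i) + Module.finrank ℚ (L i) * (Fintype.card σ * |Cq|) := by
      rw [← hXhi']
      ring
    rw [e12] at hsum'
    have e13 : 0 ≤ ε / 2 * logHeight (z i) := by
      rw [← hXhi']
      positivity
    linarith
  exact hfalse.exists.elim fun _ h => h

end Pool.Agent.Lib.MP_17a322_nt.AP
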